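import Pool.Agent.Work.MP_3574a2_pr.Dil.Claims

/-!
# Independence of the blocks and the union bound
-/

set_option autoImplicit false

namespace Pool.Agent.Work.MP_3574a2_pr.Dil

open MeasureTheory ProbabilityTheory Set Polynomial Filter Topology
open scoped ENNReal NNReal

universe u

/-- The joint law of the blocks. -/
theorem blocks_law {Ω : Type u} {mΩ : MeasurableSpace Ω} (P : Measure Ω) (L N I : ℕ)
    (Y : Fin L → Ω → ℝ) (f : Fin I → Fin N → Fin L) (hY : ∀ k, Measurable (Y k))
    (hind : iIndepFun Y P) (hlaw : ∀ k, P.map (Y k) = gaussianReal 0 1)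
    (hf : Function.Injective (fun q : Fin I × Fin N => f q.1 q.2)) :
    P.map (fun ω (i : Fin I) (l : Fin N) => Y (f i l) ω) = Measure.pi fun _ : Fin I => gm N := by
  have h1 : iIndepFun (fun (q : Fin I × Fin N) => Y (f q.1 q.2)) P := hind.precomp hf
  have h2 : P.map (fun ω (q : Fin I × Fin N) => Y (f q.1 q.2) ω)
      = Measure.pi fun _ : Fin I × Fin N => gaussianReal 0 1 := by
    rw [h1.map_fun_eq_pi_map (fun q => (hY _).aemeasurable)]
    congr 1
    funext q
    exact hlaw _
  have h3 : (fun ω (i : Fin I) (l : Fin N) => Y (f i l) ω)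
      = (MeasurableEquiv.curry (Fin I) (Fin N) ℝ) ∘
        (fun ω (q : Fin I × Fin N) => Y (f q.1 q.2) ω) := by
    funext ω i l
    rfl
  have hm : Measurable (fun ω (q : Fin I × Fin N) => Y (f q.1 q.2) ω) :=
    measurable_pi_lambda _ fun q => hY _
  rw [h3, ← Measure.map_map (MeasurableEquiv.measurable _) hm, h2, ← Measure.infinitePi_eq_pi,
    Measure.infinitePi_map_curry (fun (_ : Fin I) (_ : Fin N) => gaussianReal 0 1)]
  rw [Measure.infinitePi_eq_pi]
  congr 1
  funext i
  rw [Measure.infinitePi_eq_pi]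
  rfl

theorem claimBlocks (hS : ClaimSpp) : ClaimBlocks.{u} := by
  intro Ω _ P L N I Y f S u hP hY hind hlaw hf hSimp
  have hcont := (hS N S hSimp).1
  have hlaw2 := blocks_law P L N I Y f hY hind hlaw hf
  have hmeas : MeasurableSet {g : Fin N → ℝ | spp S g ≤ u} :=
    measurableSet_le hcont.measurable measurable_const
  have hset : {ω | ∀ i, spp S (fun l => Y (f i l) ω) ≤ u}
      = (fun ω (i : Fin I) (l : Fin N) => Y (f i l) ω) ⁻¹'
        (Set.univ.pi fun _ : Fin I => {g : Fin N → ℝ | spp S g ≤ u}) := by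
    ext ω
    simp
  have hm : Measurable (fun ω (i : Fin I) (l : Fin N) => Y (f i l) ω) :=
    measurable_pi_lambda _ fun i => measurable_pi_lambda _ fun l => hY _
  have : IsProbabilityMeasure (gm N) := by unfold gm; infer_instance
  rw [hset, measureReal_def, ← Measure.map_apply hm (MeasurableSet.univ_pi fun _ => hmeas), hlaw2,
    Measure.pi_pi]
  rw [ENNReal.toReal_prod]
  simp only [Finset.prod_const, Finset.card_univ, Fintype.card_fin]
  congr 1
  have hcompl : {g : Fin N → ℝ | spp S g ≤ u} = {g : Fin N → ℝ | u < spp S g}ᶜ := by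
    ext g
    simp
  rw [← measureReal_def, hcompl, probReal_compl_eq_one_sub]
  · rfl
  · exact measurableSet_lt measurable_const hcont.measurable

/-- Gaussian tail with variance at most two. -/
theorem max_one {Ω : Type u} {mΩ : MeasurableSpace Ω} (P : Measure Ω) [IsProbabilityMeasure P]
    (X : Ω → ℝ) (v : ℝ≥0) (t : ℝ) (hX : Measurable X) (hlaw : P.map X = gaussianReal 0 v)
    (hv : v ≤ 2) (ht : 0 ≤ t) :
    P.real {ω | t < |X ω|} ≤ 2 * Real.exp (-t ^ 2 / 4) := by
  have hsub : HasSubgaussianMGF X 2 P := by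
    constructor
    · intro s
      have h1 : Integrable (fun x => Real.exp (s * x)) (P.map X) := by
        rw [hlaw]
        exact integrable_exp_mul_gaussianReal s
      exact (integrable_map_measure (by fun_prop) hX.aemeasurable).1 h1
    · intro s
      rw [mgf_gaussianReal hlaw s]
      apply Real.exp_le_exp.2
      have : (v : ℝ) ≤ 2 := by exact_mod_cast hv
      push_cast
      nlinarith [sq_nonneg s]
  have h1 := hsub.measure_ge_le ht
  have h2 := hsub.neg.measure_ge_le ht
  have hsubset : {ω | t < |X ω|} ⊆ {ω | t ≤ X ω} ∪ {ω | t ≤ (-X) ω} := by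
    intro ω hω
    simp only [mem_ofPred_eq] at hω
    rcases lt_abs.1 hω with h | h
    · exact Or.inl h.le
    · exact Or.inr h.le
  calc P.real {ω | t < |X ω|} ≤ P.real ({ω | t ≤ X ω} ∪ {ω | t ≤ (-X) ω}) :=
        measureReal_mono hsubset
    _ ≤ P.real {ω | t ≤ X ω} + P.real {ω | t ≤ (-X) ω} := measureReal_union_le _ _
    _ ≤ Real.exp (-t ^ 2 / (2 * ((2 : ℝ≥0) : ℝ))) + Real.exp (-t ^ 2 / (2 * ((2 : ℝ≥0) : ℝ))) :=
        add_le_add h1 h2
    _ = 2 * Real.exp (-t ^ 2 / 4) := by
        rw [← two_mul]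
        congr 3
        push_cast
        norm_num

theorem claimMax : ClaimMax.{u} := by
  intro Ω _ P L Y v t hP hY hlaw hv ht
  have hset : {ω | ∃ k, t < |Y k ω|} = ⋃ k, {ω | t < |Y k ω|} := by
    ext ω
    simp
  rw [hset]
  calc P.real (⋃ k, {ω | t < |Y k ω|}) ≤ ∑ k, P.real {ω | t < |Y k ω|} :=
        measureReal_iUnion_fintype_le _
    _ ≤ ∑ _k : Fin L, 2 * Real.exp (-t ^ 2 / 4) :=
        Finset.sum_le_sum fun k _ => max_one P (Y k) v t (hY k) (hlaw k) hv ht
    _ = 2 * L * Real.exp (-t ^ 2 / 4) := by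
        simp only [Finset.sum_const, Finset.card_univ, Fintype.card_fin, nsmul_eq_mul]
        ring

end Pool.Agent.Work.MP_3574a2_pr.Dil
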