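import Pool.Agent.Work.MP_3574a2_pr.Dil.Claims

/-!
# Comparison of two lattices (B7)
-/

set_option autoImplicit false

namespace Pool.Agent.Work.MP_3574a2_pr.Dil

open MeasureTheory ProbabilityTheory Set Polynomial Filter Topology
open scoped ENNReal NNReal

theorem comp_sum_blocks {E : Type*} [AddCommMonoid E] (a b : ℕ) (f : ℕ → E) :
    ∑ z ∈ Finset.range (a * b), f z =
      ∑ x ∈ Finset.range a, ∑ i ∈ Finset.range b, f (x * b + i) := by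
  induction a with
  | zero => simp
  | succ a ih =>
    rw [Nat.succ_mul, Finset.sum_range_add, ih, Finset.sum_range_succ]

theorem comp_pk_nonneg (m : ℕ) (w : ℂ[X]) (k : ℤ) : 0 ≤ pk m w k := by
  unfold pk
  positivity

theorem comp_pk_le_one (h : ClaimPars) {M n : ℕ} {w : ℂ[X]} (hw : w.degree < n)
    (hn : n ≤ 2 * M + 1) (h1 : nsq w ≤ 1) (k : ℤ) : pk (2 * M + 1) w k ≤ 1 := by
  have h2 := h.2 M n w k hw hn
  have h3 : pk (2 * M + 1) w k ≤ ∑ k ∈ Finset.Icc k (k + 2 * M), pk (2 * M + 1) w k :=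
    Finset.single_le_sum (f := fun k => pk (2 * M + 1) w k)
      (fun i _ => comp_pk_nonneg _ _ _) (Finset.mem_Icc.2 ⟨le_rfl, by linarith [Int.natCast_nonneg M]⟩)
  linarith

theorem comp_nsq {n : ℕ} {w : ℂ[X]} (hw : w.degree < n) :
    nsq w = ∑ x ∈ Finset.range n, ‖w.coeff x‖ ^ 2 := by
  unfold nsq
  refine Finset.sum_subset ?_ ?_
  · intro x hx
    rw [Finset.mem_range]
    by_contra h
    push Not at h
    exact (Polynomial.mem_support_iff.1 hx) ((Polynomial.degree_lt_iff_coeff_zero w n).1 hw x h)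
  · intro x _ hx
    rw [Polynomial.notMem_support_iff.1 hx]
    simp

theorem comp_eval {n : ℕ} {w : ℂ[X]} (hw : w.degree < n) (hn : 0 < n) (ζ : ℂ) :
    w.eval ζ = ∑ x ∈ Finset.range n, w.coeff x * ζ ^ x := by
  refine Polynomial.eval_eq_sum_range' ?_ ζ
  by_cases h : w = 0
  · rw [h]
    simpa using hn
  · exact (Polynomial.natDegree_lt_iff_degree_lt h).2 hw

theorem comp_exp (a b : ℝ) :
    ‖Complex.exp (Complex.I * a) - Complex.exp (Complex.I * b)‖ ≤ |a - b| := by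
  have e : Complex.exp (Complex.I * a) - Complex.exp (Complex.I * b) =
      Complex.exp (Complex.I * b) * (Complex.exp (Complex.I * ((a - b : ℝ) : ℂ)) - 1) := by
    rw [mul_sub, ← Complex.exp_add, mul_one]
    congr 2
    push_cast
    ring
  rw [e, norm_mul]
  have h1 : ‖Complex.exp (Complex.I * b)‖ = 1 := by
    rw [mul_comm]
    exact Complex.norm_exp_ofReal_mul_I b
  rw [h1, one_mul]
  exact Real.norm_exp_I_mul_ofReal_sub_one_le

theorem comp_zt_pow (m : ℕ) (k : ℤ) (x : ℕ) :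
    zt m k ^ x = Complex.exp (Complex.I * ((2 * Real.pi * k * (x / m) : ℝ) : ℂ)) := by
  unfold zt
  rw [← Complex.exp_nat_mul]
  congr 1
  push_cast
  ring

/-- the phases of the two lattices are close -/
theorem comp_phase {M1 M2 z : ℕ} (h : M2 ≤ M1) (hz : z < (M1 + 1) * (M2 + 1)) :
    |((z / (M2 + 1) : ℕ) : ℝ) / (2 * M1 + 1 : ℕ) - ((z / (M1 + 1) : ℕ) : ℝ) / (2 * M2 + 1 : ℕ)|
      ≤ 3 / (M2 + 1 : ℕ) := by
  set q1 := z / (M1 + 1) with hq1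
  set q2 := z / (M2 + 1) with hq2
  set r1 := z % (M1 + 1) with hr1
  set r2 := z % (M2 + 1) with hr2
  have e1 : (M1 + 1) * q1 + r1 = z := Nat.div_add_mod z (M1 + 1)
  have e2 : (M2 + 1) * q2 + r2 = z := Nat.div_add_mod z (M2 + 1)
  have l1 : r1 < M1 + 1 := Nat.mod_lt _ (by omega)
  have l2 : r2 < M2 + 1 := Nat.mod_lt _ (by omega)
  have k1 : q1 < M2 + 1 := Nat.div_lt_of_lt_mul hz
  have k2 : q2 < M1 + 1 := Nat.div_lt_of_lt_mul (by rw [mul_comm]; exact hz)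
  have E1 : ((M1 : ℝ) + 1) * q1 + r1 = z := by exact_mod_cast e1
  have E2 : ((M2 : ℝ) + 1) * q2 + r2 = z := by exact_mod_cast e2
  have L1 : (r1 : ℝ) ≤ M1 := by exact_mod_cast Nat.lt_succ_iff.1 l1
  have L2 : (r2 : ℝ) ≤ M2 := by exact_mod_cast Nat.lt_succ_iff.1 l2
  have K1 : (q1 : ℝ) ≤ M2 := by exact_mod_cast Nat.lt_succ_iff.1 k1
  have K2 : (q2 : ℝ) ≤ M1 := by exact_mod_cast Nat.lt_succ_iff.1 k2
  have H : (M2 : ℝ) ≤ M1 := by exact_mod_cast h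
  have p1 : (0 : ℝ) ≤ M1 := Nat.cast_nonneg _
  have p2 : (0 : ℝ) ≤ M2 := Nat.cast_nonneg _
  have pr1 : (0 : ℝ) ≤ r1 := Nat.cast_nonneg _
  have pr2 : (0 : ℝ) ≤ r2 := Nat.cast_nonneg _
  have pq1 : (0 : ℝ) ≤ q1 := Nat.cast_nonneg _
  have pq2 : (0 : ℝ) ≤ q2 := Nat.cast_nonneg _
  have e : (q2 : ℝ) / (2 * M1 + 1 : ℕ) - (q1 : ℝ) / (2 * M2 + 1 : ℕ) =
      (2 * (r1 - r2) + q1 - q2) / ((2 * M1 + 1) * (2 * M2 + 1)) := by
    have d1 : (2 * (M1 : ℝ) + 1) ≠ 0 := by positivity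
    have d2 : (2 * (M2 : ℝ) + 1) ≠ 0 := by positivity
    push_cast
    rw [div_sub_div _ _ d1 d2]
    congr 1
    linear_combination 2 * E2 - 2 * E1
  rw [e, abs_div]
  have d3 : |(2 * (M1 : ℝ) + 1) * (2 * M2 + 1)| = (2 * M1 + 1) * (2 * M2 + 1) :=
    abs_of_nonneg (by positivity)
  rw [d3]
  have b : |2 * ((r1 : ℝ) - r2) + q1 - q2| ≤ 3 * (2 * M1 + 1) := by
    rw [abs_le]
    constructor <;> linarith
  calc |2 * ((r1 : ℝ) - r2) + q1 - q2| / ((2 * M1 + 1) * (2 * M2 + 1))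
      ≤ 3 * (2 * M1 + 1) / ((2 * M1 + 1) * (2 * M2 + 1)) := by gcongr
    _ = 3 / (2 * M2 + 1) := by field_simp
    _ ≤ 3 / (M2 + 1 : ℕ) := by
      push_cast
      gcongr
      linarith

/-- the normalisations of the two lattices are close -/
theorem comp_norm {M1 M2 : ℕ} (h : M2 ≤ M1) :
    Real.sqrt ((M1 + 1 : ℕ) * (M2 + 1 : ℕ)) *
      |1 / (Real.sqrt (M2 + 1 : ℕ) * Real.sqrt (2 * M1 + 1 : ℕ)) -
        1 / (Real.sqrt (M1 + 1 : ℕ) * Real.sqrt (2 * M2 + 1 : ℕ))| ≤ 1 / (2 * (M2 + 1 : ℕ)) := by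
  have H : (M2 : ℝ) ≤ M1 := by exact_mod_cast h
  have p1 : (0 : ℝ) ≤ M1 := Nat.cast_nonneg _
  have p2 : (0 : ℝ) ≤ M2 := Nat.cast_nonneg _
  rw [← Real.sqrt_mul (by positivity), ← Real.sqrt_mul (by positivity)]
  push_cast
  set s := Real.sqrt (((M1 : ℝ) + 1) * (M2 + 1)) with hs
  set A := Real.sqrt (((M2 : ℝ) + 1) * (2 * M1 + 1)) with hA
  set B := Real.sqrt (((M1 : ℝ) + 1) * (2 * M2 + 1)) with hB
  have s2 : s ^ 2 = ((M1 : ℝ) + 1) * (M2 + 1) := Real.sq_sqrt (by positivity)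
  have A2 : A ^ 2 = ((M2 : ℝ) + 1) * (2 * M1 + 1) := Real.sq_sqrt (by positivity)
  have B2 : B ^ 2 = ((M1 : ℝ) + 1) * (2 * M2 + 1) := Real.sq_sqrt (by positivity)
  have s0 : 0 < s := Real.sqrt_pos.2 (by positivity)
  have sA : s ≤ A := Real.sqrt_le_sqrt (by nlinarith)
  have sB : s ≤ B := Real.sqrt_le_sqrt (by nlinarith)
  have A0 : 0 < A := by linarith
  have B0 : 0 < B := by linarith
  have e : 1 / A - 1 / B = (B ^ 2 - A ^ 2) / (A * B * (A + B)) := by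
    field_simp
    ring
  have e2 : B ^ 2 - A ^ 2 = -((M1 : ℝ) - M2) := by
    rw [A2, B2]
    ring
  rw [e, e2, abs_div, abs_neg, abs_of_nonneg (sub_nonneg.2 H), abs_of_pos (by positivity)]
  have hden : s * s * (2 * s) ≤ A * B * (A + B) := by
    have h1 : s * s ≤ A * B := mul_le_mul sA sB s0.le A0.le
    exact mul_le_mul h1 (by linarith) (by positivity) (by positivity)
  calc s * (((M1 : ℝ) - M2) / (A * B * (A + B))) ≤ s * (((M1 : ℝ) - M2) / (s * s * (2 * s))) := by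
        gcongr
    _ = ((M1 : ℝ) - M2) / (2 * s ^ 2) := by
        field_simp
    _ ≤ 1 / (2 * (M2 + 1)) := by
        rw [s2, div_le_div_iff₀ (by positivity) (by positivity)]
        nlinarith

/-- the fine vector -/
noncomputable def compU (M2 : ℕ) (w : ℂ[X]) (z : ℕ) : ℂ :=
  w.coeff (z / (M2 + 1)) / (Real.sqrt (M2 + 1 : ℕ) : ℂ)

/-- the coefficients of the new vector -/
noncomputable def compC (M1 M2 : ℕ) (w : ℂ[X]) (x : ℕ) : ℂ :=
  (∑ i ∈ Finset.range (M1 + 1), compU M2 w (x * (M1 + 1) + i)) / (Real.sqrt (M1 + 1 : ℕ) : ℂ)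

/-- the new vector -/
noncomputable def compW (M1 M2 : ℕ) (w : ℂ[X]) : ℂ[X] :=
  ∑ x ∈ Finset.range (M2 + 1), Polynomial.monomial x (compC M1 M2 w x)

theorem comp_coeff (M1 M2 : ℕ) (w : ℂ[X]) (x : ℕ) : (compW M1 M2 w).coeff x =
    if x < M2 + 1 then compC M1 M2 w x else 0 := by
  unfold compW
  rw [Polynomial.finsetSum_coeff]
  simp only [Polynomial.coeff_monomial]
  rw [Finset.sum_ite_eq' (Finset.range (M2 + 1)) x]
  simp only [Finset.mem_range]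

theorem comp_degree (M1 M2 : ℕ) (w : ℂ[X]) : (compW M1 M2 w).degree < ((M2 + 1 : ℕ) : WithBot ℕ) := by
  rw [Polynomial.degree_lt_iff_coeff_zero]
  intro m hm
  rw [comp_coeff, if_neg (by omega)]

theorem comp_divblock (b x i : ℕ) (hi : i < b) : (x * b + i) / b = x := by
  have hb : 0 < b := by omega
  rw [mul_comm, Nat.mul_add_div hb, Nat.div_eq_of_lt hi, add_zero]

/-- the norm of the fine vector -/
theorem comp_U_nsq {M1 M2 : ℕ} {w : ℂ[X]} (hw : w.degree < ((M1 + 1 : ℕ) : WithBot ℕ)) :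
    ∑ z ∈ Finset.range ((M1 + 1) * (M2 + 1)), ‖compU M2 w z‖ ^ 2 = nsq w := by
  rw [comp_sum_blocks, comp_nsq hw]
  refine Finset.sum_congr rfl (fun x _ => ?_)
  have hs : Real.sqrt (M2 + 1 : ℕ) ^ 2 = ((M2 + 1 : ℕ) : ℝ) := Real.sq_sqrt (by positivity)
  have h0 : 0 < ((M2 + 1 : ℕ) : ℝ) := by positivity
  have h1 : ∀ i ∈ Finset.range (M2 + 1), ‖compU M2 w (x * (M2 + 1) + i)‖ ^ 2 =
      ‖w.coeff x‖ ^ 2 / ((M2 + 1 : ℕ) : ℝ) := by
    intro i hi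
    unfold compU
    rw [comp_divblock _ _ _ (Finset.mem_range.1 hi), norm_div, div_pow, Complex.norm_real,
      Real.norm_of_nonneg (Real.sqrt_nonneg _), hs]
  rw [Finset.sum_congr rfl h1, Finset.sum_const, Finset.card_range, nsmul_eq_mul]
  field_simp

theorem comp_W_nsq {M1 M2 : ℕ} {w : ℂ[X]} (hw : w.degree < ((M1 + 1 : ℕ) : WithBot ℕ)) :
    nsq (compW M1 M2 w) ≤ nsq w := by
  rw [comp_nsq (comp_degree M1 M2 w), ← comp_U_nsq (M2 := M2) hw, mul_comm (M1 + 1) (M2 + 1),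
    comp_sum_blocks]
  refine Finset.sum_le_sum (fun x hx => ?_)
  rw [comp_coeff, if_pos (Finset.mem_range.1 hx)]
  unfold compC
  have hs : Real.sqrt (M1 + 1 : ℕ) ^ 2 = ((M1 + 1 : ℕ) : ℝ) := Real.sq_sqrt (by positivity)
  have h0 : 0 < ((M1 + 1 : ℕ) : ℝ) := by positivity
  rw [norm_div, div_pow, Complex.norm_real, Real.norm_of_nonneg (Real.sqrt_nonneg _), hs,
    div_le_iff₀ h0]
  have h1 : ‖∑ i ∈ Finset.range (M1 + 1), compU M2 w (x * (M1 + 1) + i)‖ ≤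
      ∑ i ∈ Finset.range (M1 + 1), ‖compU M2 w (x * (M1 + 1) + i)‖ := norm_sum_le _ _
  have h2 : (∑ i ∈ Finset.range (M1 + 1), ‖compU M2 w (x * (M1 + 1) + i)‖) ^ 2 ≤
      (Finset.range (M1 + 1)).card * ∑ i ∈ Finset.range (M1 + 1),
        ‖compU M2 w (x * (M1 + 1) + i)‖ ^ 2 := sq_sum_le_card_mul_sum_sq
  rw [Finset.card_range] at h2
  calc ‖∑ i ∈ Finset.range (M1 + 1), compU M2 w (x * (M1 + 1) + i)‖ ^ 2
      ≤ (∑ i ∈ Finset.range (M1 + 1), ‖compU M2 w (x * (M1 + 1) + i)‖) ^ 2 :=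
        pow_le_pow_left₀ (norm_nonneg _) h1 2
    _ ≤ _ := h2.trans_eq (mul_comm _ _)

theorem comp_eval1 {M1 M2 : ℕ} {w : ℂ[X]} (hw : w.degree < ((M1 + 1 : ℕ) : WithBot ℕ)) (ζ : ℂ) :
    w.eval ζ = (∑ z ∈ Finset.range ((M1 + 1) * (M2 + 1)), compU M2 w z * ζ ^ (z / (M2 + 1))) /
      (Real.sqrt (M2 + 1 : ℕ) : ℂ) := by
  rw [comp_eval hw (by omega), comp_sum_blocks, Finset.sum_div]
  refine Finset.sum_congr rfl (fun x _ => ?_)
  have hs : (Real.sqrt (M2 + 1 : ℕ) : ℂ) * (Real.sqrt (M2 + 1 : ℕ) : ℂ) = ((M2 + 1 : ℕ) : ℂ) := by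
    rw [← Complex.ofReal_mul, Real.mul_self_sqrt (by positivity)]
    simp
  have hne : (Real.sqrt (M2 + 1 : ℕ) : ℂ) ≠ 0 := by
    rw [Complex.ofReal_ne_zero]
    exact (Real.sqrt_pos.2 (by positivity)).ne'
  have hM : ((M2 + 1 : ℕ) : ℂ) ≠ 0 := by exact_mod_cast Nat.succ_ne_zero M2
  have h1 : ∀ i ∈ Finset.range (M2 + 1),
      compU M2 w (x * (M2 + 1) + i) * ζ ^ ((x * (M2 + 1) + i) / (M2 + 1)) =
      w.coeff x / (Real.sqrt (M2 + 1 : ℕ) : ℂ) * ζ ^ x := by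
    intro i hi
    unfold compU
    rw [comp_divblock _ _ _ (Finset.mem_range.1 hi)]
  rw [Finset.sum_congr rfl h1, Finset.sum_const, Finset.card_range, nsmul_eq_mul]
  rw [div_mul_eq_mul_div, mul_div_assoc', div_div, hs]
  field_simp

theorem comp_eval2 {M1 M2 : ℕ} (w : ℂ[X]) (ζ : ℂ) :
    (compW M1 M2 w).eval ζ = (∑ z ∈ Finset.range ((M1 + 1) * (M2 + 1)),
      compU M2 w z * ζ ^ (z / (M1 + 1))) / (Real.sqrt (M1 + 1 : ℕ) : ℂ) := by
  rw [comp_eval (comp_degree M1 M2 w) (by omega), mul_comm (M1 + 1) (M2 + 1), comp_sum_blocks,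
    Finset.sum_div]
  refine Finset.sum_congr rfl (fun x hx => ?_)
  rw [comp_coeff, if_pos (Finset.mem_range.1 hx)]
  unfold compC
  rw [div_mul_eq_mul_div, Finset.sum_mul]
  congr 1
  refine Finset.sum_congr rfl (fun i hi => ?_)
  rw [comp_divblock _ _ _ (Finset.mem_range.1 hi)]

theorem comp_sum_norm {M1 M2 : ℕ} {w : ℂ[X]} (hw : w.degree < ((M1 + 1 : ℕ) : WithBot ℕ))
    (h1 : nsq w ≤ 1) : ∑ z ∈ Finset.range ((M1 + 1) * (M2 + 1)), ‖compU M2 w z‖ ≤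
      Real.sqrt ((M1 + 1 : ℕ) * (M2 + 1 : ℕ)) := by
  refine Real.le_sqrt_of_sq_le ?_
  have h2 : (∑ z ∈ Finset.range ((M1 + 1) * (M2 + 1)), ‖compU M2 w z‖) ^ 2 ≤
      (Finset.range ((M1 + 1) * (M2 + 1))).card * ∑ z ∈ Finset.range ((M1 + 1) * (M2 + 1)),
        ‖compU M2 w z‖ ^ 2 := sq_sum_le_card_mul_sum_sq
  rw [Finset.card_range, comp_U_nsq hw] at h2
  refine h2.trans ?_
  have h3 : (0 : ℝ) ≤ (((M1 + 1) * (M2 + 1) : ℕ) : ℝ) := Nat.cast_nonneg _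
  calc (((M1 + 1) * (M2 + 1) : ℕ) : ℝ) * nsq w ≤ (((M1 + 1) * (M2 + 1) : ℕ) : ℝ) * 1 :=
        mul_le_mul_of_nonneg_left h1 h3
    _ = _ := by push_cast; ring

/-- the normalised Fourier coefficient -/
noncomputable def compY (m : ℕ) (w : ℂ[X]) (k : ℤ) : ℂ := w.eval (zt m k) / (Real.sqrt m : ℂ)

theorem comp_pk_eq (m : ℕ) (w : ℂ[X]) (k : ℤ) : pk m w k = ‖compY m w k‖ ^ 2 := by
  unfold pk compY
  rw [norm_div, div_pow, Complex.norm_real, Real.norm_of_nonneg (Real.sqrt_nonneg _),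
    Real.sq_sqrt (Nat.cast_nonneg _)]

theorem comp_Y_diff {M1 M2 : ℕ} (h : M2 ≤ M1) {w : ℂ[X]}
    (hw : w.degree < ((M1 + 1 : ℕ) : WithBot ℕ)) (h1 : nsq w ≤ 1) {k : ℤ} (hk : 1 ≤ k) :
    ‖compY (2 * M1 + 1) w k - compY (2 * M2 + 1) (compW M1 M2 w) k‖ ≤ 20 * k / (M2 + 1 : ℕ) := by
  have hk1 : (1 : ℝ) ≤ k := by exact_mod_cast hk
  set α : ℝ := 1 / (Real.sqrt (M2 + 1 : ℕ) * Real.sqrt (2 * M1 + 1 : ℕ)) with hα
  set β : ℝ := 1 / (Real.sqrt (M1 + 1 : ℕ) * Real.sqrt (2 * M2 + 1 : ℕ)) with hβ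
  set D : ℕ → ℂ := fun z => zt (2 * M1 + 1) k ^ (z / (M2 + 1)) * α
    - zt (2 * M2 + 1) k ^ (z / (M1 + 1)) * β with hD
  have e : compY (2 * M1 + 1) w k - compY (2 * M2 + 1) (compW M1 M2 w) k =
      ∑ z ∈ Finset.range ((M1 + 1) * (M2 + 1)), compU M2 w z * D z := by
    unfold compY
    rw [comp_eval1 (M2 := M2) hw, comp_eval2, div_div, div_div, div_eq_mul_one_div,
      div_eq_mul_one_div (∑ z ∈ Finset.range ((M1 + 1) * (M2 + 1)),
        compU M2 w z * zt (2 * M2 + 1) k ^ (z / (M1 + 1))), Finset.sum_mul, Finset.sum_mul,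
      ← Finset.sum_sub_distrib]
    refine Finset.sum_congr rfl (fun z _ => ?_)
    rw [hD, hα, hβ]
    push_cast
    ring
  set s := Real.sqrt ((M1 + 1 : ℕ) * (M2 + 1 : ℕ)) with hs
  have hα0 : 0 ≤ α := by rw [hα]; positivity
  have hsα : s * α ≤ 1 := by
    rw [hs, hα, ← Real.sqrt_mul (by positivity), mul_one_div]
    refine div_le_one_of_le₀ (Real.sqrt_le_sqrt ?_) (Real.sqrt_nonneg _)
    have p1 : (0 : ℝ) ≤ M1 := Nat.cast_nonneg _
    have p2 : (0 : ℝ) ≤ M2 := Nat.cast_nonneg _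
    push_cast
    nlinarith
  have hDz : ∀ z ∈ Finset.range ((M1 + 1) * (M2 + 1)), ‖D z‖ ≤
      2 * Real.pi * k * (3 / (M2 + 1 : ℕ)) * α + |α - β| := by
    intro z hz
    have hz' := Finset.mem_range.1 hz
    have e1 : D z = (zt (2 * M1 + 1) k ^ (z / (M2 + 1)) - zt (2 * M2 + 1) k ^ (z / (M1 + 1))) * α +
        zt (2 * M2 + 1) k ^ (z / (M1 + 1)) * ((α - β : ℝ) : ℂ) := by
      rw [hD]
      push_cast
      ring
    rw [e1]
    refine (norm_add_le _ _).trans (add_le_add ?_ ?_)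
    · rw [norm_mul, Complex.norm_real, Real.norm_of_nonneg hα0]
      refine mul_le_mul_of_nonneg_right ?_ hα0
      rw [comp_zt_pow, comp_zt_pow]
      refine (comp_exp _ _).trans ?_
      rw [← mul_sub, abs_mul]
      have hp : |2 * Real.pi * (k : ℝ)| = 2 * Real.pi * k := abs_of_nonneg (by positivity)
      rw [hp]
      exact mul_le_mul_of_nonneg_left (comp_phase h hz') (by positivity)
    · rw [norm_mul, Complex.norm_real, Real.norm_eq_abs, comp_zt_pow, mul_comm Complex.I,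
        Complex.norm_exp_ofReal_mul_I, one_mul]
  have hB0 : 0 ≤ 2 * Real.pi * k * (3 / (M2 + 1 : ℕ)) * α + |α - β| := by positivity
  rw [e]
  have hpi : Real.pi ≤ 3.15 := Real.pi_lt_d2.le
  calc ‖∑ z ∈ Finset.range ((M1 + 1) * (M2 + 1)), compU M2 w z * D z‖
      ≤ ∑ z ∈ Finset.range ((M1 + 1) * (M2 + 1)), ‖compU M2 w z * D z‖ := norm_sum_le _ _
    _ ≤ ∑ z ∈ Finset.range ((M1 + 1) * (M2 + 1)), ‖compU M2 w z‖ *
        (2 * Real.pi * k * (3 / (M2 + 1 : ℕ)) * α + |α - β|) := by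
        refine Finset.sum_le_sum (fun z hz => ?_)
        rw [norm_mul]
        exact mul_le_mul_of_nonneg_left (hDz z hz) (norm_nonneg _)
    _ = (∑ z ∈ Finset.range ((M1 + 1) * (M2 + 1)), ‖compU M2 w z‖) *
        (2 * Real.pi * k * (3 / (M2 + 1 : ℕ)) * α + |α - β|) := by rw [Finset.sum_mul]
    _ ≤ s * (2 * Real.pi * k * (3 / (M2 + 1 : ℕ)) * α + |α - β|) :=
        mul_le_mul_of_nonneg_right (comp_sum_norm hw h1) hB0
    _ = 2 * Real.pi * k * (3 / (M2 + 1 : ℕ)) * (s * α) + s * |α - β| := by ring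
    _ ≤ 2 * Real.pi * k * (3 / (M2 + 1 : ℕ)) * 1 + 1 / (2 * (M2 + 1 : ℕ)) := by
        refine add_le_add (mul_le_mul_of_nonneg_left hsα (by positivity)) ?_
        exact comp_norm h
    _ ≤ 20 * k / (M2 + 1 : ℕ) := by
        have hM : (0 : ℝ) < (M2 + 1 : ℕ) := by positivity
        have e2 : 2 * Real.pi * k * (3 / (M2 + 1 : ℕ)) * 1 + 1 / (2 * (M2 + 1 : ℕ)) =
            (6 * Real.pi * k + 1 / 2) / (M2 + 1 : ℕ) := by
          field_simp
          ring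
        rw [e2]
        gcongr
        nlinarith

theorem comp_pk_diff (hp : ClaimPars) {M1 M2 : ℕ} (h : M2 ≤ M1) {w : ℂ[X]}
    (hw : w.degree < ((M1 + 1 : ℕ) : WithBot ℕ)) (h1 : nsq w ≤ 1) {k : ℤ} (hk : 1 ≤ k) :
    |pk (2 * M1 + 1) w k - pk (2 * M2 + 1) (compW M1 M2 w) k| ≤ 40 * k / (M2 + 1 : ℕ) := by
  have hk1 : (1 : ℝ) ≤ k := by exact_mod_cast hk
  have hd := comp_Y_diff h hw h1 hk
  have a1 : pk (2 * M1 + 1) w k ≤ 1 := comp_pk_le_one hp hw (by omega) h1 k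
  have a2 : pk (2 * M2 + 1) (compW M1 M2 w) k ≤ 1 :=
    comp_pk_le_one hp (comp_degree M1 M2 w) (by omega) ((comp_W_nsq hw).trans h1) k
  rw [comp_pk_eq] at a1 a2 ⊢
  rw [comp_pk_eq (2 * M2 + 1)]
  set a := compY (2 * M1 + 1) w k
  set b := compY (2 * M2 + 1) (compW M1 M2 w) k
  have b1 : ‖a‖ ≤ 1 := by
    by_contra hc
    push Not at hc
    nlinarith
  have b2 : ‖b‖ ≤ 1 := by
    by_contra hc
    push Not at hc
    nlinarith
  have c1 : |‖a‖ - ‖b‖| ≤ ‖a - b‖ := abs_norm_sub_norm_le a b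
  have e : ‖a‖ ^ 2 - ‖b‖ ^ 2 = (‖a‖ - ‖b‖) * (‖a‖ + ‖b‖) := by ring
  rw [e, abs_mul, abs_of_nonneg (add_nonneg (norm_nonneg a) (norm_nonneg b))]
  calc |‖a‖ - ‖b‖| * (‖a‖ + ‖b‖) ≤ (20 * k / (M2 + 1 : ℕ)) * 2 := by
        refine mul_le_mul (c1.trans hd) (by linarith) (by positivity) (by positivity)
    _ = 40 * k / (M2 + 1 : ℕ) := by ring

theorem comp_sum_Icc (N : ℕ) (f : ℤ → ℝ) :
    ∑ k ∈ Finset.Icc (1 : ℤ) N, f k = ∑ i : Fin N, f ((i : ℤ) + 1) := by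
  rw [Fin.sum_univ_eq_sum_range (fun i => f ((i : ℤ) + 1)) N]
  induction N with
  | zero => simp
  | succ N ih =>
    rw [Finset.sum_range_succ, ← ih]
    have e : Finset.Icc (1 : ℤ) ((N + 1 : ℕ) : ℤ) = insert ((N : ℤ) + 1) (Finset.Icc (1 : ℤ) N) := by
      ext k
      simp only [Finset.mem_Icc, Finset.mem_insert]
      omega
    rw [e, Finset.sum_insert (by simp), add_comm]

/-- B7. -/
theorem claimComp (hp : ClaimPars) (hs : ClaimSpp) : ClaimComp := by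
  refine ⟨60, by norm_num, ?_⟩
  intro M1 M2 N τ G g h21 _ hN hNM hG hg hP
  have hN1 : (1 : ℝ) ≤ N := by exact_mod_cast hN
  have hM1 : (1 : ℝ) ≤ M2 := by exact_mod_cast hN.trans hNM
  set δ : ℝ := 60 * N ^ 2 / M2 with hδ
  have hδ0 : 0 ≤ δ := by positivity
  have hN40 : (N : ℝ) * (40 * N / (M2 + 1 : ℕ)) ≤ δ := by
    rw [hδ, mul_div_assoc', div_le_div_iff₀ (by positivity) (by positivity)]
    push_cast
    nlinarith [mul_nonneg (sq_nonneg (N : ℝ)) (by linarith : (0 : ℝ) ≤ M2), sq_nonneg (N : ℝ)]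
  -- the map
  have hmap : ∀ w : ℂ[X], w.degree < ((M1 + 1 : ℕ) : WithBot ℕ) → nsq w ≤ 1 →
      1 - τ ≤ ∑ k ∈ Finset.Icc (1 : ℤ) N, pk (2 * M1 + 1) w k →
      (fun i : Fin N => pk (2 * M2 + 1) (compW M1 M2 w) ((i : ℤ) + 1)) ∈
        PP (M2 + 1) (2 * M2 + 1) (τ + δ) N := by
    intro w hw h1 hm
    refine ⟨compW M1 M2 w, comp_degree M1 M2 w, (comp_W_nsq hw).trans h1, ?_, fun i => rfl⟩
    have h2 : ∑ k ∈ Finset.Icc (1 : ℤ) N, pk (2 * M1 + 1) w k ≤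
        ∑ k ∈ Finset.Icc (1 : ℤ) N, (pk (2 * M2 + 1) (compW M1 M2 w) k
          + 40 * N / (M2 + 1 : ℕ)) := by
      refine Finset.sum_le_sum (fun k hk => ?_)
      rw [Finset.mem_Icc] at hk
      have h3 := abs_le.1 (comp_pk_diff hp h21 hw h1 hk.1)
      have h4 : (k : ℝ) ≤ N := by exact_mod_cast hk.2
      have h5 : 40 * (k : ℝ) / (M2 + 1 : ℕ) ≤ 40 * N / (M2 + 1 : ℕ) := by gcongr
      linarith [h3.2]
    rw [Finset.sum_add_distrib, Finset.sum_const, Int.card_Icc, nsmul_eq_mul] at h2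
    have h3 : ((((N : ℤ) + 1 - 1).toNat : ℕ) : ℝ) = N := by simp
    rw [h3] at h2
    linarith
  have hSimp : Simp (PP (M2 + 1) (2 * M2 + 1) (τ + δ) N) := by
    refine ⟨?_, ?_, ?_⟩
    · obtain ⟨p, w, hw, h1, hm, _⟩ := hP.ne
      exact ⟨_, hmap w hw h1 hm⟩
    · rintro p ⟨w, hw, h1, hm, he⟩ i
      rw [he i]
      exact comp_pk_nonneg _ _ _
    · rintro p ⟨w, hw, h1, hm, he⟩
      have e1 : ∑ i, p i = ∑ k ∈ Finset.Icc (1 : ℤ) N, pk (2 * M2 + 1) w k := by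
        rw [comp_sum_Icc]
        exact Finset.sum_congr rfl (fun i _ => he i)
      rw [e1]
      have e2 := hp.2 M2 (M2 + 1) w 1 hw (by omega)
      refine le_trans ?_ h1
      rw [← e2]
      refine Finset.sum_le_sum_of_subset_of_nonneg ?_ (fun i _ _ => comp_pk_nonneg _ _ _)
      intro k hk
      rw [Finset.mem_Icc] at hk ⊢
      omega
  refine ⟨hSimp, ?_⟩
  unfold spp
  refine csSup_le (hP.ne.image _) ?_
  rintro _ ⟨p, ⟨w, hw, h1, hm, he⟩, rfl⟩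
  have hle := (hs N _ hSimp).2.2.1 g _ (hmap w hw h1 hm)
  unfold spp at hle
  have hdiff : ∑ i, g i * p i ≤
      ∑ i, (g i * pk (2 * M2 + 1) (compW M1 M2 w) ((i : ℤ) + 1) + G * (40 * N / (M2 + 1 : ℕ))) := by
    refine Finset.sum_le_sum (fun i _ => ?_)
    rw [he i]
    have h3 := comp_pk_diff hp h21 hw h1 (k := (i : ℤ) + 1) (by omega)
    set A := pk (2 * M1 + 1) w ((i : ℤ) + 1)
    set B := pk (2 * M2 + 1) (compW M1 M2 w) ((i : ℤ) + 1)
    have h4 : 40 * (((i : ℤ) + 1 : ℤ) : ℝ) / (M2 + 1 : ℕ) ≤ 40 * N / (M2 + 1 : ℕ) := by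
      have : (((i : ℤ) + 1 : ℤ) : ℝ) ≤ N := by exact_mod_cast (by omega : (i : ℕ) + 1 ≤ N)
      gcongr
    have h5 : g i * (A - B) ≤ |g i| * |A - B| := by
      rw [← abs_mul]
      exact le_abs_self _
    have h6 : |g i| * |A - B| ≤ G * (40 * N / (M2 + 1 : ℕ)) :=
      mul_le_mul (hg i) (h3.trans h4) (abs_nonneg _) hG
    nlinarith
  rw [Finset.sum_add_distrib, Finset.sum_const, Finset.card_univ, Fintype.card_fin,
    nsmul_eq_mul] at hdiff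
  have h7 : (N : ℝ) * (G * (40 * N / (M2 + 1 : ℕ))) ≤ G * δ := by
    have := mul_le_mul_of_nonneg_left hN40 hG
    linarith
  have h8 : G * (60 * (N : ℝ) ^ 2 / M2) = G * δ := rfl
  show ∑ i, g i * p i ≤ _
  linarith

end Pool.Agent.Work.MP_3574a2_pr.Dil
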