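import Pool.Agent.Work.MP_3574a2_pr.Dil.Claims

/-!
# Gumbel limit for random Toeplitz matrices: concavity by dilation
-/

set_option autoImplicit false

namespace Pool.Agent.Work.MP_3574a2_pr.Dil

open MeasureTheory ProbabilityTheory Set Polynomial Filter Topology
open scoped ENNReal NNReal

/-- The Gaussian measure has the product density. -/
lemma conc_gm (N : ℕ) : gm N = (volume : Measure (Fin N → ℝ)).withDensity
    (fun x => ENNReal.ofReal (∏ i, gaussianPDFReal 0 1 (x i))) := by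
  unfold gm
  refine Measure.pi_eq fun s hs => ?_
  have hm : MeasurableSet (Set.pi univ s) := MeasurableSet.univ_pi hs
  rw [withDensity_apply _ hm, ← ofReal_integral_eq_lintegral_ofReal]
  · rw [volume_pi, Measure.restrict_pi_pi, integral_fintype_prod_eq_prod
      (fun (i : Fin N) (y : ℝ) => gaussianPDFReal 0 1 y), ENNReal.ofReal_prod_of_nonneg]
    · exact Finset.prod_congr rfl fun i _ => (gaussianReal_apply_eq_integral 0 one_ne_zero _).symm
    · exact fun i _ => integral_nonneg fun y => gaussianPDFReal_nonneg _ _ _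
  · apply Integrable.restrict
    exact Integrable.fintype_prod (μ := fun _ : Fin N => (volume : Measure ℝ))
      fun _ => integrable_gaussianPDFReal 0 1
  · exact ae_of_all _ fun x => Finset.prod_nonneg fun i _ => gaussianPDFReal_nonneg _ _ _

/-- The integral of the dilated Gaussian weight over a set. -/
noncomputable def concJ {N : ℕ} (C : Set (Fin N → ℝ)) (κ : ℝ) : ℝ≥0∞ :=
  ∫⁻ x in C, ENNReal.ofReal (Real.exp (-κ * ((∑ i, x i ^ 2) / 2)))

lemma conc_integrable (N : ℕ) {κ : ℝ} (hκ : 0 < κ) :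
    Integrable (fun x : Fin N → ℝ => Real.exp (-κ * ((∑ i, x i ^ 2) / 2))) := by
  have h1 : Integrable (fun x : Fin N → ℝ => ∏ i, Real.exp (-(κ / 2) * x i ^ 2)) :=
    Integrable.fintype_prod (μ := fun _ : Fin N => (volume : Measure ℝ))
      fun _ => integrable_exp_neg_mul_sq (by positivity)
  convert h1 using 2 with x
  rw [← Real.exp_sum]
  congr 1
  rw [← Finset.mul_sum]
  ring

lemma concJ_ne_top {N : ℕ} (C : Set (Fin N → ℝ)) {κ : ℝ} (hκ : 0 < κ) : concJ C κ ≠ ∞ := by
  have h1 := (conc_integrable N hκ).lintegral_lt_top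
  exact ((setLIntegral_le_lintegral _ _).trans_lt h1).ne

lemma concJ_real {N : ℕ} {C : Set (Fin N → ℝ)} {κ : ℝ} :
    (concJ C κ).toReal = ∫ x in C, Real.exp (-κ * ((∑ i, x i ^ 2) / 2)) := by
  rw [integral_eq_lintegral_of_nonneg_ae]
  · rfl
  · exact ae_of_all _ fun x => (Real.exp_pos _).le
  · exact Measurable.aestronglyMeasurable (by fun_prop)

/-- Hölder. -/
lemma concJ_le {N : ℕ} (C : Set (Fin N → ℝ)) {κ₁ κ₂ a b : ℝ} (ha : 0 ≤ a) (hb : 0 ≤ b)
    (hab : a + b = 1) : concJ C (a * κ₁ + b * κ₂) ≤ concJ C κ₁ ^ a * concJ C κ₂ ^ b := by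
  unfold concJ
  refine le_trans (le_of_eq ?_) (ENNReal.lintegral_mul_norm_pow_le
    (f := fun x : Fin N → ℝ => ENNReal.ofReal (Real.exp (-κ₁ * ((∑ i, x i ^ 2) / 2))))
    (g := fun x : Fin N → ℝ => ENNReal.ofReal (Real.exp (-κ₂ * ((∑ i, x i ^ 2) / 2))))
    (Measurable.aemeasurable (by fun_prop)) (Measurable.aemeasurable (by fun_prop)) ha hb hab)
  congr 1
  ext x
  rw [ENNReal.ofReal_rpow_of_pos (Real.exp_pos _), ENNReal.ofReal_rpow_of_pos (Real.exp_pos _),
    ← ENNReal.ofReal_mul (by positivity), ← Real.exp_mul, ← Real.exp_mul, ← Real.exp_add]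
  congr 2
  ring

/-- The tail as an integral. -/
lemma conc_Fb {N : ℕ} {P : Set (Fin N → ℝ)} (hc : Continuous (spp P))
    (hh : ∀ (g : Fin N → ℝ) (c : ℝ), 0 ≤ c → spp P (fun i => c * g i) = c * spp P g)
    {κ u : ℝ} (hκ : 0 < κ) :
    Fb P (Real.sqrt κ * u) =
      Real.sqrt κ ^ N * ((Real.sqrt (2 * Real.pi))⁻¹ ^ N * (concJ {x | u < spp P x} κ).toReal) := by
  have hs : 0 < Real.sqrt κ := Real.sqrt_pos.2 hκ
  have hmeas : ∀ v : ℝ, MeasurableSet {x | v < spp P x} := fun v =>
    (isOpen_lt continuous_const hc).measurableSet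
  have e1 : Fb P (Real.sqrt κ * u) =
      ∫ x in {x | Real.sqrt κ * u < spp P x}, ∏ i, gaussianPDFReal 0 1 (x i) := by
    unfold Fb
    rw [conc_gm, measureReal_def, withDensity_apply _ (hmeas _), integral_eq_lintegral_of_nonneg_ae]
    · exact ae_of_all _ fun x => Finset.prod_nonneg fun i _ => gaussianPDFReal_nonneg _ _ _
    · apply Measurable.aestronglyMeasurable
      have := measurable_gaussianPDFReal 0 1
      fun_prop
  have e2 := Measure.integral_comp_smul_of_nonneg (volume : Measure (Fin N → ℝ))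
    (fun x => indicator {x | Real.sqrt κ * u < spp P x}
      (fun x => ∏ i, gaussianPDFReal 0 1 (x i)) x) (Real.sqrt κ) (hR := hs.le)
  rw [integral_indicator (hmeas _), ← e1, Module.finrank_fin_fun, smul_eq_mul] at e2
  have e3 : Fb P (Real.sqrt κ * u) = Real.sqrt κ ^ N *
      ∫ x : Fin N → ℝ, indicator {x | Real.sqrt κ * u < spp P x}
      (fun x => ∏ i, gaussianPDFReal 0 1 (x i)) (Real.sqrt κ • x) := by
    rw [e2]
    field_simp
  rw [e3]
  congr 1
  rw [concJ_real, ← integral_const_mul, ← integral_indicator (hmeas _)]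
  congr 1
  ext x
  have hsx : spp P (Real.sqrt κ • x) = Real.sqrt κ * spp P x := hh x _ hs.le
  by_cases hx : u < spp P x
  · rw [indicator_of_mem (by simpa [hsx] using (mul_lt_mul_iff_right₀ hs).2 hx),
      indicator_of_mem (by simpa using hx)]
    have e4 : ∀ i, gaussianPDFReal 0 1 ((Real.sqrt κ • x) i) =
        (Real.sqrt (2 * Real.pi))⁻¹ * Real.exp (-κ * (x i ^ 2 / 2)) := by
      intro i
      rw [gaussianPDFReal_def]
      simp only [Pi.smul_apply, smul_eq_mul, NNReal.coe_one, mul_one, sub_zero, mul_pow,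
        Real.sq_sqrt hκ.le]
      congr 2
      ring
    simp only [e4]
    rw [Finset.prod_mul_distrib, Finset.prod_const, ← Real.exp_sum, Finset.card_univ,
      Fintype.card_fin]
    congr 2
    rw [← Finset.mul_sum, ← Finset.sum_div]
  · rw [indicator_of_notMem, indicator_of_notMem]
    · simpa using hx
    · intro h
      apply hx
      have h' : Real.sqrt κ * u < spp P (Real.sqrt κ • x) := h
      rw [hsx] at h'
      exact lt_of_mul_lt_mul_left h' hs.le

theorem claimConc (hS : ClaimSpp) : ClaimConc := by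
  intro N P hP hpos u hu
  obtain ⟨hc, hh, -⟩ := hS N P hP
  set C : Set (Fin N → ℝ) := {x | u < spp P x} with hC
  have h2π : (0 : ℝ) < (Real.sqrt (2 * Real.pi))⁻¹ := by positivity
  have hF : ∀ κ : ℝ, 0 < κ → Fb P (Real.sqrt κ * u) =
      Real.sqrt κ ^ N * ((Real.sqrt (2 * Real.pi))⁻¹ ^ N * (concJ C κ).toReal) :=
    fun κ hκ => conc_Fb hc hh hκ
  have hJ : ∀ κ : ℝ, 0 < κ → 0 < (concJ C κ).toReal := by
    intro κ hκ
    have hs : 0 < Real.sqrt κ := Real.sqrt_pos.2 hκ
    have h1 := hpos (Real.sqrt κ * u) (by positivity)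
    rw [hF κ hκ] at h1
    by_contra h
    have h0 : (concJ C κ).toReal = 0 := le_antisymm (not_lt.1 h) ENNReal.toReal_nonneg
    simp [h0] at h1
  have hlog : ∀ κ : ℝ, 0 < κ → -Real.log (Fb P (Real.sqrt κ * u)) + (N / 2 : ℝ) * Real.log κ =
      -(Real.log ((Real.sqrt (2 * Real.pi))⁻¹ ^ N)) - Real.log (concJ C κ).toReal := by
    intro κ hκ
    have hs : 0 < Real.sqrt κ := Real.sqrt_pos.2 hκ
    rw [hF κ hκ, Real.log_mul (by positivity) (by have := hJ κ hκ; positivity),
      Real.log_mul (by positivity) (hJ κ hκ).ne', Real.log_pow, Real.log_sqrt hκ.le]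
    ring
  refine ⟨convex_Ioi 0, ?_⟩
  intro κ₁ h₁ κ₂ h₂ a b ha hb hab
  have h₁' : 0 < κ₁ := h₁
  have h₂' : 0 < κ₂ := h₂
  have h3 : 0 < a * κ₁ + b * κ₂ := (convex_Ioi (0 : ℝ)) h₁ h₂ ha hb hab
  simp only [smul_eq_mul]
  rw [hlog _ h₁', hlog _ h₂', hlog _ h3]
  have h4 : Real.log (concJ C (a * κ₁ + b * κ₂)).toReal ≤
      a * Real.log (concJ C κ₁).toReal + b * Real.log (concJ C κ₂).toReal := by
    have h5 : (concJ C (a * κ₁ + b * κ₂)).toReal ≤
        (concJ C κ₁).toReal ^ a * (concJ C κ₂).toReal ^ b := by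
      rw [ENNReal.toReal_rpow, ENNReal.toReal_rpow, ← ENNReal.toReal_mul]
      apply ENNReal.toReal_mono _ (concJ_le C ha hb hab)
      exact ENNReal.mul_ne_top (ENNReal.rpow_ne_top_of_nonneg ha (concJ_ne_top C h₁'))
        (ENNReal.rpow_ne_top_of_nonneg hb (concJ_ne_top C h₂'))
    have h6 := Real.log_le_log (hJ _ h3) h5
    have j1 := hJ _ h₁'
    have j2 := hJ _ h₂'
    rwa [Real.log_mul (by positivity) (by positivity), Real.log_rpow j1, Real.log_rpow j2] at h6
  have h7 : a * -(Real.log ((Real.sqrt (2 * Real.pi))⁻¹ ^ N)) +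
      b * -(Real.log ((Real.sqrt (2 * Real.pi))⁻¹ ^ N)) =
      -(Real.log ((Real.sqrt (2 * Real.pi))⁻¹ ^ N)) := by
    rw [← add_mul, hab, one_mul]
  linarith [h4, h7]

end Pool.Agent.Work.MP_3574a2_pr.Dil
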