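import Pool.Agent.Work.MP_3574a2_pr.Dil.Claims

/-!
# C7. Crossing blocks are rarely high
-/

set_option autoImplicit false

namespace Pool.Agent.Work.MP_3574a2_pr.Dil

open MeasureTheory ProbabilityTheory Set Polynomial

lemma cross_prob (N : ℕ) : IsProbabilityMeasure (gm N) := by
  unfold gm; infer_instance

lemma cross_num (q ρ : ℝ) (r : ℕ) (hr : 1 ≤ r) (hq1 : q ≤ 1) (hρ0 : 0 ≤ ρ)
    (hρ : ρ < 1 / 2) (h : 1 ≤ (1 - q) ^ r + ρ) : q ≤ 2 * ρ / r := by
  have hr0 : (0 : ℝ) < r := by exact_mod_cast hr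
  rw [le_div_iff₀ hr0]
  have h1 : (1 - q) ^ r ≤ Real.exp (-(r * q)) := by
    calc (1 - q) ^ r ≤ (Real.exp (-q)) ^ r :=
          pow_le_pow_left₀ (by linarith) (by linarith [Real.add_one_le_exp (-q)]) r
      _ = Real.exp (-(r * q)) := by rw [← Real.exp_nat_mul]; congr 1; ring
  have h2 : 1 - ρ ≤ Real.exp (-(r * q)) := by linarith
  have h3 : Real.log (1 - ρ) ≤ -(r * q) := by
    rw [← Real.log_exp (-(r * q))]
    exact Real.log_le_log (by linarith) h2
  have h4 : 1 - (1 - ρ)⁻¹ ≤ Real.log (1 - ρ) := Real.one_sub_inv_le_log_of_pos (by linarith)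
  have h5 : (1 - ρ)⁻¹ ≤ 1 + 2 * ρ := by
    rw [inv_le_iff_one_le_mul₀ (by linarith)]
    nlinarith
  nlinarith

theorem claimCross (hSub : ClaimSub) (hBlocks : ClaimBlocks.{0}) (hMax : ClaimMax.{0}) :
    ClaimCross := by
  intro M n N N' τ G u ρ hn hN hN'1 hN'N hG hS hρ hρ2
  have := cross_prob N
  have := cross_prob N'
  set r : ℕ := N / N' with hr
  have hr1 : 1 ≤ r := by
    rw [hr]
    exact (Nat.one_le_div_iff (by omega)).mpr hN'N
  have hrN : r * N' ≤ N := Nat.div_mul_le_self N N'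
  have hidx : ∀ (i : Fin r) (l : Fin N'), (i : ℕ) * N' + (l : ℕ) < N := by
    intro i l
    have h1 : ((i : ℕ) + 1) * N' ≤ r * N' := Nat.mul_le_mul_right _ i.2
    have h2 := l.2
    have h3 : ((i : ℕ) + 1) * N' = (i : ℕ) * N' + N' := by ring
    omega
  have hmeas : ∀ k : Fin N, Measurable (fun ω : Fin N → ℝ => ω k) := fun k => measurable_pi_apply k
  have hmap : ∀ k : Fin N, (gm N).map (fun ω : Fin N → ℝ => ω k) = gaussianReal 0 1 := by
    intro k
    exact (measurePreserving_eval (fun _ : Fin N => gaussianReal 0 1) k).map_eq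
  have hind : iIndepFun (fun (k : Fin N) (ω : Fin N → ℝ) => ω k) (gm N) := by
    unfold gm
    exact iIndepFun_pi (X := fun _ : Fin N => (id : ℝ → ℝ)) (fun _ => aemeasurable_id)
  have hinj : Function.Injective (fun q : Fin r × Fin N' =>
      (⟨(q.1 : ℕ) * N' + (q.2 : ℕ), hidx q.1 q.2⟩ : Fin N)) := by
    rintro ⟨i, l⟩ ⟨i', l'⟩ h
    simp only [Fin.mk.injEq] at h
    have hl := l.2
    have hl' := l'.2
    have h1 : (i : ℕ) = i' := by
      have h2 : ((i : ℕ) * N' + (l : ℕ)) / N' = ((i' : ℕ) * N' + (l' : ℕ)) / N' := by rw [h]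
      rw [Nat.mul_comm, Nat.mul_add_div (by omega), Nat.div_eq_of_lt hl, Nat.mul_comm,
        Nat.mul_add_div (by omega), Nat.div_eq_of_lt hl'] at h2
      omega
    have h3 : (l : ℕ) = l' := by
      rw [h1] at h
      omega
    rw [Prod.mk.injEq]
    exact ⟨Fin.ext h1, Fin.ext h3⟩
  have hB := hBlocks (Fin N → ℝ) inferInstance (gm N) N N' r (fun k ω => ω k)
    (fun i l => ⟨(i : ℕ) * N' + (l : ℕ), hidx i l⟩) (PP n (2 * M + 1) τ N') u
    inferInstance hmeas hind hmap hinj hS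
  have hM := hMax (Fin N → ℝ) inferInstance (gm N) N (fun k ω => ω k) 1 G inferInstance hmeas hmap
    (by norm_num) hG
  set q := Fb (PP n (2 * M + 1) τ N') u with hq
  have hq0 : 0 ≤ q := measureReal_nonneg
  have hq1 : q ≤ 1 := measureReal_le_one
  have hρ0 : 0 ≤ ρ := by
    have h1 : 0 ≤ Fb (PP n (2 * M + 1) τ N) (u - G * τ) := measureReal_nonneg
    have h2 : 0 ≤ 2 * (N : ℝ) * Real.exp (-G ^ 2 / 4) := by positivity
    linarith
  refine cross_num q ρ r hr1 hq1 hρ0 hρ2 ?_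
  have hcov : (univ : Set (Fin N → ℝ)) ⊆
      {ω | ∀ i : Fin r, spp (PP n (2 * M + 1) τ N')
        (fun l => ω ⟨(i : ℕ) * N' + (l : ℕ), hidx i l⟩) ≤ u} ∪
      ({ω | u - G * τ < spp (PP n (2 * M + 1) τ N) ω} ∪ {ω | ∃ k, G < |ω k|}) := by
    intro ω _
    by_cases h1 : ∃ k, G < |ω k|
    · exact Or.inr (Or.inr h1)
    by_cases h2 : ∀ i : Fin r, spp (PP n (2 * M + 1) τ N')
        (fun l => ω ⟨(i : ℕ) * N' + (l : ℕ), hidx i l⟩) ≤ u
    · exact Or.inl h2
    push Not at h1 h2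
    obtain ⟨i, hi⟩ := h2
    right; left
    have hiN : (i : ℕ) * N' + N' ≤ N := by
      have h3 : ((i : ℕ) + 1) * N' ≤ r * N' := Nat.mul_le_mul_right _ i.2
      have h4 : ((i : ℕ) + 1) * N' = (i : ℕ) * N' + N' := by ring
      omega
    have h5 := hSub M n N N' ((i : ℕ) * N') τ G ω
      (fun l => ω ⟨(i : ℕ) * N' + (l : ℕ), hidx i l⟩) hn hN hiN hG h1 (fun l _ => rfl) hS
    simp only [mem_ofPred_eq]
    linarith
  have h1 : (1 : ℝ) = (gm N).real univ := by simp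
  calc (1 : ℝ) = (gm N).real univ := h1
    _ ≤ (gm N).real ({ω | ∀ i : Fin r, spp (PP n (2 * M + 1) τ N')
        (fun l => ω ⟨(i : ℕ) * N' + (l : ℕ), hidx i l⟩) ≤ u} ∪
      ({ω | u - G * τ < spp (PP n (2 * M + 1) τ N) ω} ∪ {ω | ∃ k, G < |ω k|})) :=
        measureReal_mono hcov
    _ ≤ (gm N).real {ω | ∀ i : Fin r, spp (PP n (2 * M + 1) τ N')
        (fun l => ω ⟨(i : ℕ) * N' + (l : ℕ), hidx i l⟩) ≤ u} +
        ((gm N).real {ω | u - G * τ < spp (PP n (2 * M + 1) τ N) ω} +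
          (gm N).real {ω | ∃ k, G < |ω k|}) :=
        (measureReal_union_le _ _).trans (by gcongr; exact measureReal_union_le _ _)
    _ ≤ (1 - q) ^ r + ρ := by
        rw [hB]
        have h6 : (gm N).real {ω | u - G * τ < spp (PP n (2 * M + 1) τ N) ω} =
          Fb (PP n (2 * M + 1) τ N) (u - G * τ) := rfl
        rw [h6]
        linarith

end Pool.Agent.Work.MP_3574a2_pr.Dil
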