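import Pool.Agent.Work.MP_3574a2_pr.Dil.Claims

/-!
# MP_3574a2_pr, C4: the frequencies are independent Gaussian variables
-/

set_option autoImplicit false

namespace Pool.Agent.Work.MP_3574a2_pr.Dil

open MeasureTheory ProbabilityTheory Set Filter Topology
open scoped ENNReal NNReal

/-- `∑_{l=1}^M cos(2πrl/m) = -1/2` for `m = 2M+1` not dividing `r`. -/
lemma gauss_cos_sum (M : ℕ) (r : ℤ) (hr : ¬ ((2 * M + 1 : ℕ) : ℤ) ∣ r) :
    ∑ l ∈ Finset.Icc 1 M, Real.cos (2 * Real.pi * r * l / (2 * M + 1)) = -1 / 2 := by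
  set θ : ℝ := Real.pi * r / (2 * M + 1) with hθ
  have hm : (0 : ℝ) < 2 * M + 1 := by positivity
  have hs : Real.sin θ ≠ 0 := by
    intro h
    rw [Real.sin_eq_zero_iff] at h
    obtain ⟨k, hk⟩ := h
    apply hr
    refine ⟨k, ?_⟩
    have h1 : (k : ℝ) * (2 * M + 1) = r := by
      rw [hθ] at hk
      have hpi := Real.pi_ne_zero
      field_simp at hk
      linarith
    have h2 : (r : ℝ) = ((((2 * M + 1 : ℕ) : ℤ) * k : ℤ) : ℝ) := by
      push_cast
      linarith
    exact_mod_cast h2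
  have h1 : ∀ N : ℕ, 2 * Real.sin θ * ∑ l ∈ Finset.Icc 1 N,
      Real.cos (2 * Real.pi * r * l / (2 * M + 1)) = Real.sin ((2 * N + 1) * θ) - Real.sin θ := by
    intro N
    induction N with
    | zero => simp
    | succ N ih =>
      rw [Finset.sum_Icc_succ_top (by omega), mul_add, ih]
      have e1 : 2 * Real.pi * r * ((N + 1 : ℕ) : ℝ) / (2 * M + 1) = (2 * N + 2) * θ := by
        rw [hθ]
        push_cast
        ring
      rw [e1]
      have e2 : Real.sin ((2 * ((N + 1 : ℕ) : ℝ) + 1) * θ) =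
          Real.sin ((2 * N + 2) * θ + θ) := by
        congr 1
        push_cast
        ring
      have e3 : Real.sin ((2 * (N : ℝ) + 1) * θ) = Real.sin ((2 * N + 2) * θ - θ) := by
        congr 1
        ring
      rw [e2, e3, Real.sin_add, Real.sin_sub]
      ring
  have h2 := h1 M
  have h3 : Real.sin ((2 * (M : ℝ) + 1) * θ) = 0 := by
    have : (2 * (M : ℝ) + 1) * θ = r * Real.pi := by
      rw [hθ]
      field_simp
    rw [this]
    exact Real.sin_int_mul_pi r
  rw [h3] at h2
  have h4 : Real.sin θ * (2 * (∑ l ∈ Finset.Icc 1 M,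
      Real.cos (2 * Real.pi * r * l / (2 * M + 1))) + 1) = 0 := by linarith
  rcases mul_eq_zero.mp h4 with h | h
  · exact absurd h hs
  · linarith

/-- Linear images of a standard Gaussian vector. -/
lemma gauss_linear {Ω : Type*} [MeasurableSpace Ω] {P : Measure Ω} {X : ℕ → Ω → ℝ}
    [IsProbabilityMeasure P] (hXm : ∀ k, Measurable (X k)) (hXi : iIndepFun X P)
    (hXl : ∀ k, P.map (X k) = gaussianReal 0 1) {ι : Type*} [Fintype ι] {N : ℕ}
    (a : ι → Fin N → ℝ) (Z : ι → Ω → ℝ) (hZ : ∀ i ω, Z i ω = ∑ j, a i j * X j ω) :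
    HasGaussianLaw (fun ω i => Z i ω) P ∧
    (∀ i i', cov[Z i, Z i'; P] = ∑ j, a i j * a i' j) ∧ (∀ i, P[Z i] = 0) := by
  have hlaw : ∀ k, HasGaussianLaw (X k) P := by
    intro k
    have : IsGaussian (P.map (X k)) := by
      rw [hXl k]
      infer_instance
    exact IsGaussian.hasGaussianLaw
  have hmem : ∀ k, MemLp (X k) 2 P := fun k => (hlaw k).memLp_two
  have hvar : ∀ k, Var[X k; P] = 1 := by
    intro k
    have h1 := variance_map (X := (id : ℝ → ℝ)) (μ := P) (Y := X k)
      aemeasurable_id (hXm k).aemeasurable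
    rw [hXl k, variance_id_gaussianReal] at h1
    rw [← Function.id_comp (X k), ← h1]
    simp
  have hmean : ∀ k, ∫ ω, X k ω ∂P = 0 := by
    intro k
    have h1 := integral_map (μ := P) (φ := X k) (hXm k).aemeasurable (f := fun x : ℝ => x)
      (by fun_prop)
    rw [hXl k] at h1
    rw [← h1]
    simp
  have hcov : ∀ k l, k ≠ l → cov[X k, X l; P] = 0 := fun k l hkl =>
    (hXi.indepFun hkl).covariance_eq_zero (hmem k) (hmem l)
  have hZ' : ∀ i, Z i = fun ω => ∑ j, a i j * X j ω := fun i => funext (hZ i)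
  refine ⟨?_, ?_, ?_⟩
  · have hind : iIndepFun (fun j : Fin N => X j) P :=
      hXi.precomp (g := fun j : Fin N => (j : ℕ)) Fin.val_injective
    have hjoint : HasGaussianLaw (fun ω (j : Fin N) => X j ω) P :=
      iIndepFun.hasGaussianLaw (X := fun (j : Fin N) => X (j : ℕ)) (fun j => hlaw j) hind
    let L : (Fin N → ℝ) →L[ℝ] (ι → ℝ) := ContinuousLinearMap.pi fun i =>
      ∑ j, a i j • ContinuousLinearMap.proj (R := ℝ) (φ := fun _ : Fin N => ℝ) j
    have h2 := hjoint.map_fun L
    have h3 : (fun ω => L (fun j : Fin N => X j ω)) = fun ω i => Z i ω := by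
      ext ω i
      rw [hZ]
      simp [L]
    rw [h3] at h2
    exact h2
  · intro i i'
    rw [hZ' i, hZ' i', covariance_fun_sum_fun_sum (X := fun (j : Fin N) ω => a i j * X j ω)
      (Y := fun (j : Fin N) ω => a i' j * X j ω) (fun j => (hmem j).const_mul _)
      (fun j => (hmem j).const_mul _)]
    apply Finset.sum_congr rfl
    intro j _
    rw [Finset.sum_eq_single j]
    · rw [covariance_const_mul_left, covariance_const_mul_right, covariance_self
        (hXm j).aemeasurable, hvar]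
      ring
    · intro j' _ hj'
      rw [covariance_const_mul_left, covariance_const_mul_right, hcov]
      · ring
      · intro h
        exact hj' (Fin.ext h).symm
    · intro h
      exact absurd (Finset.mem_univ j) h
  · intro i
    rw [hZ' i, integral_finsetSum]
    · apply Finset.sum_eq_zero
      intro j _
      rw [integral_const_mul, hmean, mul_zero]
    · intro j _
      exact ((hmem j).integrable (by norm_num)).const_mul _

/-- The coefficients of the frequencies. -/
noncomputable def gaussA (M : ℕ) (k : ℤ) (j : Fin (M + 1)) : ℝ :=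
  if (j : ℕ) = 0 then Real.sqrt 2 / Real.sqrt (2 * M + 1)
  else 2 * Real.cos (2 * Real.pi * k * (j : ℕ) / (2 * M + 1)) / Real.sqrt (2 * M + 1)

lemma gauss_sum_fin (M : ℕ) (F : ℕ → ℝ) :
    ∑ j : Fin (M + 1), F j = F 0 + ∑ l ∈ Finset.Icc 1 M, F l := by
  rw [Fin.sum_univ_eq_sum_range (fun i => F i) (M + 1), Finset.sum_range_succ', add_comm]
  congr 1
  rw [Finset.range_eq_Ico, Finset.sum_Ico_add' F 0 M 1]
  congr 1

lemma gauss_gk (M : ℕ) (x : ℕ → ℝ) (k : ℤ) :
    gk M x k = ∑ j : Fin (M + 1), gaussA M k j * x j := by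
  have h := gauss_sum_fin M (fun j => (if j = 0 then Real.sqrt 2 / Real.sqrt (2 * M + 1)
    else 2 * Real.cos (2 * Real.pi * k * j / (2 * M + 1)) / Real.sqrt (2 * M + 1)) * x j)
  unfold gaussA
  rw [h]
  unfold gk
  rw [if_pos rfl, add_div, Finset.mul_sum, Finset.sum_div]
  congr 1
  · ring
  · apply Finset.sum_congr rfl
    intro l hl
    have : l ≠ 0 := by
      have := (Finset.mem_Icc.mp hl).1
      omega
    rw [if_neg this]
    ring

lemma gauss_cov (M : ℕ) (k k' : ℤ) : ∑ j : Fin (M + 1), gaussA M k j * gaussA M k' j =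
    (2 + 2 * (∑ l ∈ Finset.Icc 1 M, Real.cos (2 * Real.pi * ((k - k' : ℤ) : ℝ) * l / (2 * M + 1)) +
      ∑ l ∈ Finset.Icc 1 M, Real.cos (2 * Real.pi * ((k + k' : ℤ) : ℝ) * l / (2 * M + 1)))) /
      (2 * M + 1) := by
  have h := gauss_sum_fin M (fun j => (if j = 0 then Real.sqrt 2 / Real.sqrt (2 * M + 1)
    else 2 * Real.cos (2 * Real.pi * k * j / (2 * M + 1)) / Real.sqrt (2 * M + 1)) *
    (if j = 0 then Real.sqrt 2 / Real.sqrt (2 * M + 1)
    else 2 * Real.cos (2 * Real.pi * k' * j / (2 * M + 1)) / Real.sqrt (2 * M + 1)))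
  unfold gaussA
  rw [h, if_pos rfl, if_pos rfl]
  have hm : (0 : ℝ) < 2 * M + 1 := by positivity
  have hq : Real.sqrt (2 * M + 1) * Real.sqrt (2 * M + 1) = 2 * M + 1 := Real.mul_self_sqrt hm.le
  have h2 : Real.sqrt 2 * Real.sqrt 2 = 2 := Real.mul_self_sqrt (by norm_num)
  rw [div_mul_div_comm, h2, hq, ← Finset.sum_add_distrib, add_div, Finset.mul_sum,
    Finset.sum_div]
  congr 1
  apply Finset.sum_congr rfl
  intro l hl
  have : l ≠ 0 := by
    have := (Finset.mem_Icc.mp hl).1
    omega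
  rw [if_neg this, if_neg this, div_mul_div_comm, hq]
  congr 1
  have e1 : 2 * Real.pi * ((k - k' : ℤ) : ℝ) * l / (2 * M + 1) =
      2 * Real.pi * k * l / (2 * M + 1) - 2 * Real.pi * k' * l / (2 * M + 1) := by
    push_cast
    ring
  have e2 : 2 * Real.pi * ((k + k' : ℤ) : ℝ) * l / (2 * M + 1) =
      2 * Real.pi * k * l / (2 * M + 1) + 2 * Real.pi * k' * l / (2 * M + 1) := by
    push_cast
    ring
  rw [e1, e2, Real.cos_sub, Real.cos_add]
  ring

lemma gauss_ndvd (M : ℕ) (r : ℤ) (h0 : r ≠ 0) (h1 : -(2 * M) ≤ r) (h2 : r ≤ 2 * M) :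
    ¬ ((2 * M + 1 : ℕ) : ℤ) ∣ r := by
  rintro ⟨c, hc⟩
  push_cast at hc
  rcases lt_trichotomy c 0 with h | h | h
  · have : (2 * (M : ℤ) + 1) * c ≤ (2 * (M : ℤ) + 1) * (-1) :=
      mul_le_mul_of_nonneg_left (by omega) (by positivity)
    omega
  · rw [h, mul_zero] at hc
    exact h0 hc
  · have : (2 * (M : ℤ) + 1) * 1 ≤ (2 * (M : ℤ) + 1) * c :=
      mul_le_mul_of_nonneg_left (by omega) (by positivity)
    omega

/-- C4. The law of the noise. -/
theorem claimGauss.{u} : ClaimGauss.{u} := by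
  intro Ω _ P X hP hXm hXi hXl M
  have hm : (0 : ℝ) < 2 * M + 1 := by positivity
  obtain ⟨hG, hC, hE⟩ := gauss_linear (P := P) hXm hXi hXl
    (fun (k : Fin M) => gaussA M ((k : ℤ) + 1))
    (fun (k : Fin M) ω => gk M (fun l => X l ω) ((k : ℤ) + 1))
    (fun k ω => gauss_gk M (fun l => X l ω) ((k : ℤ) + 1))
  obtain ⟨hG0, hC0, hE0⟩ := gauss_linear (P := P) hXm hXi hXl
    (fun (_ : Fin 1) => gaussA M 0)
    (fun (_ : Fin 1) ω => gk M (fun l => X l ω) 0)
    (fun k ω => gauss_gk M (fun l => X l ω) 0)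
  refine ⟨?_, ?_, ?_⟩
  · apply hG.iIndepFun_of_covariance_eq_zero
    intro i j hij
    rw [hC i j, gauss_cov, gauss_cos_sum, gauss_cos_sum]
    · norm_num
    · apply gauss_ndvd
      · omega
      · omega
      · omega
    · apply gauss_ndvd
      · intro h
        apply hij
        ext
        omega
      · omega
      · omega
  · intro k
    have h1 := (hG.eval k).map_eq_gaussianReal
    rw [h1]
    have h2 : Var[fun ω => gk M (fun l => X l ω) ((k : ℤ) + 1); P] = 1 := by
      rw [← covariance_self (hG.eval k).aemeasurable, hC k k, gauss_cov,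
        gauss_cos_sum M (((k : ℤ) + 1) + ((k : ℤ) + 1))
        (gauss_ndvd M _ (by omega) (by omega) (by omega))]
      have h3 : ∑ l ∈ Finset.Icc 1 M, Real.cos (2 * Real.pi *
          ((((k : ℤ) + 1) - ((k : ℤ) + 1) : ℤ) : ℝ) * l / (2 * M + 1)) = M := by
        rw [Finset.sum_congr rfl (g := fun _ => (1 : ℝ))]
        · simp
        · intro l _
          simp
      rw [h3]
      field_simp
      ring
    have h4 := hE k
    rw [h2, h4]
    simp
  · have h1 := (hG0.eval 0).map_eq_gaussianReal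
    rw [h1]
    have h2 : Var[fun ω => gk M (fun l => X l ω) 0; P] = 2 := by
      rw [← covariance_self (hG0.eval 0).aemeasurable, hC0 0 0, gauss_cov]
      have h3 : ∀ z : ℤ, z = 0 → ∑ l ∈ Finset.Icc 1 M, Real.cos (2 * Real.pi *
          (z : ℝ) * l / (2 * M + 1)) = M := by
        intro z hz
        rw [Finset.sum_congr rfl (g := fun _ => (1 : ℝ))]
        · simp
        · intro l _
          simp [hz]
      rw [h3 _ (by ring), h3 _ (by ring)]
      field_simp
      ring
    have h4 := hE0 0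
    rw [h2, h4]
    congr 1
    norm_num

end Pool.Agent.Work.MP_3574a2_pr.Dil
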