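import Pool.Agent.Work.MP_3574a2_pr.Dil.Claims

/-!
# Item C3: the largest eigenvalue and complex vectors
-/

set_option autoImplicit false

namespace Pool.Agent.Work.MP_3574a2_pr.Dil

open Polynomial Matrix

theorem lam_dot {n : ℕ} (u : EuclideanSpace ℝ (Fin n)) (v : Fin n → ℝ) :
    v ⬝ᵥ (u : Fin n → ℝ) = inner ℝ u (WithLp.toLp 2 v) := by
  rw [← WithLp.toLp_ofLp 2 u, EuclideanSpace.inner_toLp_toLp]
  simp

theorem lam_expand {n : ℕ} {A : Matrix (Fin n) (Fin n) ℝ} (hA : A.IsHermitian) (v : Fin n → ℝ) :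
    v = ∑ i, (v ⬝ᵥ (hA.eigenvectorBasis i : Fin n → ℝ)) • (hA.eigenvectorBasis i : Fin n → ℝ) := by
  have h1 := hA.eigenvectorBasis.sum_repr (WithLp.toLp 2 v)
  have h2 := congrArg (fun u : EuclideanSpace ℝ (Fin n) => (u : Fin n → ℝ)) h1
  simp only [WithLp.ofLp_sum, WithLp.ofLp_smul] at h2
  rw [← h2]
  refine Finset.sum_congr rfl fun i _ => ?_
  rw [h2, lam_dot, OrthonormalBasis.repr_apply_apply]

theorem lam_rayleigh {n : ℕ} {A : Matrix (Fin n) (Fin n) ℝ} (hA : A.IsHermitian)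
    (v : Fin n → ℝ) : v ⬝ᵥ (A *ᵥ v) ≤ (⨆ i, hA.eigenvalues i) * (v ⬝ᵥ v) := by
  have h1 : v ⬝ᵥ v = ∑ i, (v ⬝ᵥ (hA.eigenvectorBasis i : Fin n → ℝ)) ^ 2 := by
    conv_lhs => rw [lam_expand hA v]
    rw [sum_dotProduct]
    refine Finset.sum_congr rfl fun i _ => ?_
    rw [← lam_expand hA v, smul_dotProduct, smul_eq_mul, dotProduct_comm _ v, sq]
  have h2 : A *ᵥ v = ∑ i, (v ⬝ᵥ (hA.eigenvectorBasis i : Fin n → ℝ)) •
      (hA.eigenvalues i • (hA.eigenvectorBasis i : Fin n → ℝ)) := by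
    conv_lhs => rw [lam_expand hA v]
    rw [mulVec_sum]
    refine Finset.sum_congr rfl fun i _ => ?_
    rw [mulVec_smul, hA.mulVec_eigenvectorBasis]
  have h3 : v ⬝ᵥ (A *ᵥ v) = ∑ i, hA.eigenvalues i *
      (v ⬝ᵥ (hA.eigenvectorBasis i : Fin n → ℝ)) ^ 2 := by
    rw [h2, dotProduct_sum]
    refine Finset.sum_congr rfl fun i _ => ?_
    rw [dotProduct_smul, dotProduct_smul, smul_eq_mul, smul_eq_mul]
    ring
  rw [h3, h1, Finset.mul_sum]
  refine Finset.sum_le_sum fun i _ => ?_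
  exact mul_le_mul_of_nonneg_right (le_ciSup (Finite.bddAbove_range _) i) (sq_nonneg _)

theorem lam_QF (n : ℕ) (x : ℕ → ℝ) (w : ℂ[X]) :
    QF n x w = (fun i : Fin n => (w.coeff i).re) ⬝ᵥ (toep n x *ᵥ fun i : Fin n => (w.coeff i).re) +
      (fun i : Fin n => (w.coeff i).im) ⬝ᵥ (toep n x *ᵥ fun i : Fin n => (w.coeff i).im) := by
  unfold QF
  simp only [dotProduct, mulVec, Finset.mul_sum]
  rw [← Finset.sum_add_distrib, Complex.re_sum, Finset.sum_range]
  refine Finset.sum_congr rfl fun i _ => ?_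
  rw [Complex.re_sum, Finset.sum_range, ← Finset.sum_add_distrib]
  refine Finset.sum_congr rfl fun j _ => ?_
  simp only [toep, Matrix.of_apply, Complex.mul_re, Complex.mul_im, Complex.ofReal_re,
    Complex.ofReal_im, Complex.conj_re, Complex.conj_im]
  ring

theorem lam_nsq (n : ℕ) (w : ℂ[X]) (hw : w.degree < n) :
    nsq w = (fun i : Fin n => (w.coeff i).re) ⬝ᵥ (fun i : Fin n => (w.coeff i).re) +
      (fun i : Fin n => (w.coeff i).im) ⬝ᵥ (fun i : Fin n => (w.coeff i).im) := by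
  unfold nsq
  have h1 : ∑ i ∈ w.support, ‖w.coeff i‖ ^ 2 = ∑ i ∈ Finset.range n, ‖w.coeff i‖ ^ 2 := by
    refine Finset.sum_subset ?_ ?_
    · intro i hi
      rw [Finset.mem_range]
      by_contra h
      have h2 : w.coeff i = 0 :=
        coeff_eq_zero_of_degree_lt (hw.trans_le (by exact_mod_cast not_lt.1 h))
      exact (mem_support_iff.1 hi) h2
    · intro i _ hi
      rw [notMem_support_iff.1 hi]
      simp
  rw [h1, Finset.sum_range]
  simp only [dotProduct]
  rw [← Finset.sum_add_distrib]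
  refine Finset.sum_congr rfl fun i _ => ?_
  rw [← Complex.normSq_eq_norm_sq, Complex.normSq_apply]

/-- Item C3. -/
theorem claimLam : ClaimLam := by
  intro n x hn
  refine ⟨fun w hw => ?_, ?_⟩
  · rw [lam_QF, lam_nsq n w hw, mul_add]
    exact add_le_add (lam_rayleigh (toep_herm n x) _) (lam_rayleigh (toep_herm n x) _)
  · have : Nonempty (Fin n) := ⟨⟨0, hn⟩⟩
    obtain ⟨i0, hi0⟩ := exists_eq_ciSup_of_finite (f := (toep_herm n x).eigenvalues)
    set e : Fin n → ℝ := ((toep_herm n x).eigenvectorBasis i0 : Fin n → ℝ) with he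
    set w : ℂ[X] := ∑ i : Fin n, C ((e i : ℝ) : ℂ) * X ^ (i : ℕ) with hw
    have hdeg : w.degree < n := degree_sum_fin_lt _
    have hcoeff : ∀ i : Fin n, w.coeff i = ((e i : ℝ) : ℂ) := by
      intro i
      rw [hw, finsetSum_coeff]
      simp only [coeff_C_mul_X_pow]
      rw [Finset.sum_eq_single i]
      · simp
      · intro j _ hj
        rw [if_neg]
        intro h
        exact hj (Fin.ext h.symm)
      · simp
    have hre : (fun i : Fin n => (w.coeff i).re) = e := by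
      funext i; rw [hcoeff, Complex.ofReal_re]
    have him : (fun i : Fin n => (w.coeff i).im) = 0 := by
      funext i; rw [hcoeff, Complex.ofReal_im]; rfl
    have hee : e ⬝ᵥ e = 1 := by
      rw [he, lam_dot]
      have := (toep_herm n x).eigenvectorBasis.orthonormal.1 i0
      rw [WithLp.toLp_ofLp, real_inner_self_eq_norm_sq, this, one_pow]
    refine ⟨w, hdeg, ?_, ?_⟩
    · rw [lam_nsq n w hdeg, hre, him, hee]
      simp
    · rw [lam_QF, hre, him, he, (toep_herm n x).mulVec_eigenvectorBasis, ← he, dotProduct_smul, hee]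
      simp only [zero_dotProduct, add_zero, smul_eq_mul, mul_one]
      exact hi0

end Pool.Agent.Work.MP_3574a2_pr.Dil
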