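import Pool.Agent.Work.MP_3574a2_pr.Dil.Claims

/-!
# Lower bound of the tail by one functional
-/

set_option autoImplicit false

namespace Pool.Agent.Work.MP_3574a2_pr.Dil

open MeasureTheory ProbabilityTheory Set Polynomial Filter Topology
open scoped ENNReal NNReal

instance low_prob (N : ℕ) : IsProbabilityMeasure (gm N) := by
  unfold gm
  infer_instance

/-- The law of a linear functional of a standard Gaussian vector. -/
lemma low_law {N : ℕ} (q : Fin N → ℝ) :
    (gm N).map (fun g => ∑ i, g i * q i) =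
      gaussianReal 0 (NNReal.mk (l2 q ^ 2) (sq_nonneg _)) := by
  have hm : Measurable (fun g : Fin N → ℝ => ∑ i, g i * q i) := by fun_prop
  have hpm : IsProbabilityMeasure ((gm N).map (fun g => ∑ i, g i * q i)) :=
    Measure.isProbabilityMeasure_map hm.aemeasurable
  have hl2 : l2 q ^ 2 = ∑ i, q i ^ 2 :=
    Real.sq_sqrt (Finset.sum_nonneg fun i _ => sq_nonneg _)
  apply Measure.ext_of_charFun
  ext t
  rw [charFun_apply_real, integral_map hm.aemeasurable (by fun_prop)]
  have h1 : ∀ g : Fin N → ℝ, Complex.exp ((t : ℂ) * ((∑ i, g i * q i : ℝ) : ℂ) * Complex.I) =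
      ∏ i, Complex.exp (((t * q i : ℝ) : ℂ) * (g i : ℂ) * Complex.I) := by
    intro g
    rw [← Complex.exp_sum]
    congr 1
    push_cast
    rw [Finset.mul_sum, Finset.sum_mul]
    refine Finset.sum_congr rfl fun i _ => ?_
    ring
  simp_rw [h1]
  unfold gm
  rw [integral_fintype_prod_eq_prod (𝕜 := ℂ)
    (f := fun i (x : ℝ) => Complex.exp (((t * q i : ℝ) : ℂ) * (x : ℂ) * Complex.I))]
  simp_rw [← charFun_apply_real, charFun_gaussianReal]
  rw [← Complex.exp_sum]
  congr 1
  simp only [Complex.ofReal_zero, mul_zero, zero_mul, zero_sub, NNReal.coe_one, Complex.ofReal_one,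
    one_mul, NNReal.coe_mk]
  rw [hl2]
  push_cast
  rw [Finset.sum_mul, Finset.sum_div, ← Finset.sum_neg_distrib]
  refine Finset.sum_congr rfl fun i _ => ?_
  ring

/-- The tail of a linear functional. -/
lemma low_tail {N : ℕ} (q : Fin N → ℝ) (hq : 0 < l2 q) (u : ℝ) :
    (gm N).real {g | u < ∑ i, g i * q i} = (gaussianReal 0 1).real (Ioi (u / l2 q)) := by
  have hm : Measurable (fun g : Fin N → ℝ => ∑ i, g i * q i) := by fun_prop
  have h1 : (gm N).real {g | u < ∑ i, g i * q i} =
      ((gm N).map (fun g => ∑ i, g i * q i)).real (Ioi u) := by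
    rw [map_measureReal_apply hm measurableSet_Ioi]
    rfl
  have h2 : gaussianReal 0 (NNReal.mk (l2 q ^ 2) (sq_nonneg _)) = (gaussianReal 0 1).map (l2 q * ·) := by
    rw [gaussianReal_map_const_mul, mul_zero, mul_one]
  rw [h1, low_law, h2, map_measureReal_apply (by fun_prop) measurableSet_Ioi]
  congr 1
  ext x
  rw [mem_preimage, mem_Ioi, mem_Ioi, div_lt_iff₀ hq, mul_comm]

/-- Lower bound of the Gaussian tail. -/
lemma low_gauss {y : ℝ} (hy : 0 ≤ y) :
    (Real.sqrt (2 * Real.pi))⁻¹ * Real.exp (-(y + 1) ^ 2 / 2) ≤ (gaussianReal 0 1).real (Ioi y) := by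
  rw [Measure.real, gaussianReal_apply_eq_integral 0 one_ne_zero,
    ENNReal.toReal_ofReal (by
      refine integral_nonneg fun x => gaussianPDFReal_nonneg 0 1 x)]
  have hint : Integrable (gaussianPDFReal 0 1) := integrable_gaussianPDFReal 0 1
  calc (Real.sqrt (2 * Real.pi))⁻¹ * Real.exp (-(y + 1) ^ 2 / 2)
      = ∫ x in Ioc y (y + 1), (Real.sqrt (2 * Real.pi))⁻¹ * Real.exp (-(y + 1) ^ 2 / 2) := by
        rw [setIntegral_const, smul_eq_mul]
        simp
    _ ≤ ∫ x in Ioc y (y + 1), gaussianPDFReal 0 1 x := by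
        refine setIntegral_mono_on (integrableOn_const (by simp)) hint.integrableOn
          measurableSet_Ioc fun x hx => ?_
        rw [gaussianPDFReal]
        simp only [NNReal.coe_one, mul_one, sub_zero]
        refine mul_le_mul_of_nonneg_left (Real.exp_le_exp.mpr ?_) (by positivity)
        have h1 : x ^ 2 ≤ (y + 1) ^ 2 := by
          have := hx.1
          have := hx.2
          nlinarith
        linarith
    _ ≤ ∫ x in Ioi y, gaussianPDFReal 0 1 x := by
        refine setIntegral_mono_set hint.integrableOn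
          (Filter.Eventually.of_forall fun x => gaussianPDFReal_nonneg 0 1 x)
          (LE.le.eventuallyLE Ioc_subset_Ioi_self)

theorem claimLow (hS : ClaimSpp) : ClaimLow := by
  intro N P hP hsig u hu
  obtain ⟨-, -, -, hlt, -, -, hsup, -, -⟩ := hS N P hP
  have hpt : ∀ p ∈ P, 0 < l2 p →
      (Real.sqrt (2 * Real.pi))⁻¹ * Real.exp (-(u / l2 p + 1) ^ 2 / 2) ≤ Fb P u := by
    intro p hp hp0
    refine (low_gauss (by positivity : 0 ≤ u / l2 p)).trans ?_
    rw [← low_tail p hp0 u]
    unfold Fb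
    exact measureReal_mono fun g hg => (hlt g u).mpr ⟨p, hp, hg⟩
  have hs : ∀ s ∈ Ioo 0 (sig P),
      (Real.sqrt (2 * Real.pi))⁻¹ * Real.exp (-(u / s + 1) ^ 2 / 2) ≤ Fb P u := by
    intro s hs
    obtain ⟨p, hp, hps⟩ := hsup s hs.2
    have hp0 : 0 < l2 p := hs.1.trans hps
    refine le_trans ?_ (hpt p hp hp0)
    refine mul_le_mul_of_nonneg_left (Real.exp_le_exp.mpr ?_) (by positivity)
    have h1 : u / l2 p ≤ u / s := div_le_div_of_nonneg_left hu hs.1 hps.le
    have h2 : 0 ≤ u / l2 p := by positivity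
    have h3 : (u / l2 p + 1) ^ 2 ≤ (u / s + 1) ^ 2 := by
      gcongr
    linarith
  have hlim : (Real.sqrt (2 * Real.pi))⁻¹ * Real.exp (-(u / sig P + 1) ^ 2 / 2) ≤ Fb P u := by
    have hc : ContinuousAt
        (fun s : ℝ => (Real.sqrt (2 * Real.pi))⁻¹ * Real.exp (-(u / s + 1) ^ 2 / 2)) (sig P) := by
      have h0 : sig P ≠ 0 := hsig.ne'
      fun_prop (disch := assumption)
    have hc' : Tendsto
        (fun s : ℝ => (Real.sqrt (2 * Real.pi))⁻¹ * Real.exp (-(u / s + 1) ^ 2 / 2))
        (𝓝[<] (sig P)) (𝓝 ((Real.sqrt (2 * Real.pi))⁻¹ *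
          Real.exp (-(u / sig P + 1) ^ 2 / 2))) := hc.tendsto.mono_left nhdsWithin_le_nhds
    refine le_of_tendsto hc' ?_
    filter_upwards [Ioo_mem_nhdsLT hsig] with s hs'
    exact hs s hs'
  refine le_trans ?_ hlim
  rw [div_eq_inv_mul]
  refine mul_le_mul_of_nonneg_right ?_ (Real.exp_pos _).le
  refine inv_anti₀ (by positivity) ?_
  rw [Real.sqrt_le_left (by norm_num)]
  linarith [Real.pi_le_four]

end Pool.Agent.Work.MP_3574a2_pr.Dil
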