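import Pool.Agent.Work.MP_3574a2_pr.Dil.Pars

/-!
# Gumbel limit for random Toeplitz matrices: one block, sub-block
-/

set_option autoImplicit false

namespace Pool.Agent.Work.MP_3574a2_pr.Dil

open MeasureTheory ProbabilityTheory Set Polynomial Filter Topology
open scoped ENNReal NNReal

theorem low_pk_nonneg (m : ℕ) (w : ℂ[X]) (k : ℤ) : 0 ≤ pk m w k := by
  unfold pk
  positivity

theorem low_G_nonneg {M : ℕ} {g : ℤ → ℝ} {G : ℝ} (h : Noise M g G) : 0 ≤ G :=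
  (abs_nonneg _).trans (h.bdd 0)

/-- Sums over `Fin N` as sums over integer intervals. -/
theorem low_sum_fin (N : ℕ) (c : ℤ) (F : ℤ → ℝ) :
    ∑ i : Fin N, F (c + 1 + (i : ℤ)) = ∑ k ∈ Finset.Icc (c + 1) (c + N), F k := by
  refine Finset.sum_bij (fun i _ => c + 1 + (i : ℤ)) ?_ ?_ ?_ ?_
  · intro i _
    have := i.2
    rw [Finset.mem_Icc]
    constructor <;> omega
  · intro i _ j _ h
    apply Fin.ext
    have h' : c + 1 + (i : ℤ) = c + 1 + (j : ℤ) := h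
    omega
  · intro k hk
    rw [Finset.mem_Icc] at hk
    refine ⟨⟨(k - c - 1).toNat, by omega⟩, Finset.mem_univ _, ?_⟩
    change c + 1 + (((k - c - 1).toNat : ℕ) : ℤ) = k
    rw [Int.toNat_of_nonneg (by omega)]
    ring
  · intro i _
    rfl

/-- Translation of sums over intervals. -/
theorem low_sum_shift (a b c : ℤ) (F : ℤ → ℝ) :
    ∑ k ∈ Finset.Icc a b, F (k + c) = ∑ k ∈ Finset.Icc (a + c) (b + c), F k := by
  refine Finset.sum_bij (fun k _ => k + c) ?_ ?_ ?_ ?_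
  · intro k hk
    rw [Finset.mem_Icc] at hk ⊢
    constructor <;> omega
  · intro i _ j _ h
    have h' : i + c = j + c := h
    omega
  · intro k hk
    rw [Finset.mem_Icc] at hk
    refine ⟨k - c, ?_, ?_⟩
    · rw [Finset.mem_Icc]
      constructor <;> omega
    · change k - c + c = k
      ring
  · intro i _
    rfl

theorem low_mass (M n : ℕ) (w : ℂ[X]) (a b : ℤ) (hd : w.degree < n) (hn : n ≤ 2 * M + 1)
    (hab : b ≤ a + 2 * M) : ∑ k ∈ Finset.Icc a b, pk (2 * M + 1) w k ≤ nsq w := by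
  rw [← claimPars.2 M n w a hd hn]
  exact Finset.sum_le_sum_of_subset_of_nonneg (Finset.Icc_subset_Icc le_rfl hab)
    fun k _ _ => low_pk_nonneg _ _ _

/-- The rest of a sum outside a set of large mass. -/
theorem low_block (B R : Finset ℤ) (hBR : B ⊆ R) (q g : ℤ → ℝ) (G τ : ℝ) (hq : ∀ k, 0 ≤ q k)
    (hg : ∀ k, |g k| ≤ G) (hG : 0 ≤ G) (hR : ∑ k ∈ R, q k ≤ 1) (hB : 1 - τ ≤ ∑ k ∈ B, q k) :
    ∑ k ∈ B, g k * q k - G * τ ≤ ∑ k ∈ R, g k * q k := by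
  have h1 : ∑ k ∈ R, g k * q k = ∑ k ∈ R \ B, g k * q k + ∑ k ∈ B, g k * q k :=
    (Finset.sum_sdiff hBR).symm
  have h2 : ∑ k ∈ R, q k = ∑ k ∈ R \ B, q k + ∑ k ∈ B, q k := (Finset.sum_sdiff hBR).symm
  have h3 : -(G * ∑ k ∈ R \ B, q k) ≤ ∑ k ∈ R \ B, g k * q k := by
    rw [Finset.mul_sum, ← Finset.sum_neg_distrib]
    refine Finset.sum_le_sum fun k _ => ?_
    have := (abs_le.1 (hg k)).1
    nlinarith [hq k]
  have h4 : ∑ k ∈ R \ B, q k ≤ τ := by linarith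
  have h5 : G * ∑ k ∈ R \ B, q k ≤ G * τ := mul_le_mul_of_nonneg_left h4 hG
  linarith

theorem low_simp (M n N : ℕ) (τ : ℝ) (hn : n ≤ 2 * M + 1) (hN : N ≤ 2 * M + 1)
    (hne : (PP n (2 * M + 1) τ N).Nonempty) : Simp (PP n (2 * M + 1) τ N) := by
  refine ⟨hne, ?_, ?_⟩
  · rintro p ⟨w, -, -, -, hp⟩ i
    rw [hp i]
    exact low_pk_nonneg _ _ _
  · rintro p ⟨w, hd, hw, -, hp⟩
    have e : ∑ i, p i = ∑ i : Fin N, pk (2 * M + 1) w ((0 : ℤ) + 1 + (i : ℤ)) := by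
      refine Finset.sum_congr rfl fun i _ => ?_
      rw [hp i, show (0 : ℤ) + 1 + (i : ℤ) = (i : ℤ) + 1 by ring]
    rw [e, low_sum_fin N 0 (fun k => pk (2 * M + 1) w k)]
    refine (low_mass M n w _ _ hd hn ?_).trans hw
    omega

/-- The central lemma: a vector with mass at least `1 - τ` in `B`, where `B` is inside the
interval `{s + 1, …, s + L}`, gives an element of the class translated by `s`. -/
theorem low_elem (M n L : ℕ) (τ : ℝ) (s : ℤ) (v : ℂ[X]) (hd : v.degree < n) (hv : nsq v ≤ 1)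
    (hmass : 1 - τ ≤ ∑ k ∈ Finset.Icc (s + 1) (s + L), pk (2 * M + 1) v k) :
    (fun i : Fin L => pk (2 * M + 1) v (s + 1 + (i : ℤ))) ∈ PP n (2 * M + 1) τ L := by
  obtain ⟨w', hw1, hw2, hw3⟩ := claimSym.1 (2 * M + 1) v s (Nat.succ_pos _)
  refine ⟨w', hw2 n hd, hw1.le.trans hv, ?_, ?_⟩
  · have e : ∑ k ∈ Finset.Icc (1 : ℤ) L, pk (2 * M + 1) w' k =
        ∑ k ∈ Finset.Icc (1 : ℤ) L, pk (2 * M + 1) v (k + s) :=
      Finset.sum_congr rfl fun k _ => hw3 k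
    rw [e, low_sum_shift 1 L s (fun k => pk (2 * M + 1) v k), add_comm (1 : ℤ), add_comm (L : ℤ)]
    exact hmass
  · intro i
    rw [hw3]
    change pk (2 * M + 1) v (s + 1 + (i : ℤ)) = pk (2 * M + 1) v ((i : ℤ) + 1 + s)
    rw [show s + 1 + (i : ℤ) = (i : ℤ) + 1 + s by ring]

theorem claimLower (hS : ClaimSpp) : ClaimLower := by
  intro M n N k0 τ G u g hn hk hg hsimp hu
  have hG := low_G_nonneg hg
  obtain ⟨p, ⟨w, hd, hw, hm, hp⟩, hup⟩ := ((hS N _ hsimp).2.2.2.1 _ u).1 hu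
  obtain ⟨w', hw1, hw2, hw3⟩ := claimSym.1 (2 * M + 1) w (-(k0 : ℤ)) (Nat.succ_pos _)
  refine ⟨w', hw2 n hd, hw1.le.trans hw, ?_⟩
  have hmass : ∑ k ∈ Finset.Icc ((k0 : ℤ) + 1) (k0 + N), pk (2 * M + 1) w' k =
      ∑ k ∈ Finset.Icc (1 : ℤ) N, pk (2 * M + 1) w k := by
    rw [Finset.sum_congr rfl fun k _ => hw3 k,
      low_sum_shift _ _ (-(k0 : ℤ)) (fun k => pk (2 * M + 1) w k)]
    congr 1
    congr 1 <;> ring
  have hsum : ∑ k ∈ Finset.Icc ((k0 : ℤ) + 1) (k0 + N), g k * pk (2 * M + 1) w' k =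
      ∑ i : Fin N, g ((k0 : ℤ) + 1 + (i : ℤ)) * p i := by
    rw [← low_sum_fin N k0 (fun k => g k * pk (2 * M + 1) w' k)]
    refine Finset.sum_congr rfl fun i _ => ?_
    rw [hp i, hw3, show (k0 : ℤ) + 1 + (i : ℤ) + -(k0 : ℤ) = (i : ℤ) + 1 by ring]
  have htot : ∑ k ∈ Finset.Icc (-(M : ℤ)) M, pk (2 * M + 1) w' k ≤ 1 :=
    (low_mass M n w' _ _ (hw2 n hd) hn (by omega)).trans (hw1.le.trans hw)
  have hsub : Finset.Icc ((k0 : ℤ) + 1) (k0 + N) ⊆ Finset.Icc (-(M : ℤ)) M :=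
    Finset.Icc_subset_Icc (by omega) (by omega)
  have := low_block _ _ hsub (fun k => pk (2 * M + 1) w' k) g G τ
    (fun k => low_pk_nonneg _ _ _) hg.bdd hG htot (by rw [hmass]; exact hm)
  rw [hsum] at this
  unfold XX
  linarith

theorem claimSub (hS : ClaimSpp) : ClaimSub := by
  intro M n N N' j τ G g g' hn hN hj hG hgb hg' hsimp
  by_contra hcon
  push Not at hcon
  obtain ⟨p, ⟨w, hd, hw, hm, hp⟩, hup⟩ := ((hS N' _ hsimp).2.2.2.1 _ _).1 hcon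
  obtain ⟨w', hw1, hw2, hw3⟩ := claimSym.1 (2 * M + 1) w (-(j : ℤ)) (Nat.succ_pos _)
  classical
  set gh : ℤ → ℝ := fun k => if h : 1 ≤ k ∧ k ≤ N then g ⟨(k - 1).toNat, by omega⟩ else 0 with hgh
  have hghb : ∀ k, |gh k| ≤ G := by
    intro k
    rw [hgh]
    dsimp only
    split_ifs
    · exact hgb _
    · rw [abs_zero]
      exact hG
  have hmass : ∑ k ∈ Finset.Icc ((j : ℤ) + 1) (j + N'), pk (2 * M + 1) w' k =
      ∑ k ∈ Finset.Icc (1 : ℤ) N', pk (2 * M + 1) w k := by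
    rw [Finset.sum_congr rfl fun k _ => hw3 k,
      low_sum_shift _ _ (-(j : ℤ)) (fun k => pk (2 * M + 1) w k)]
    congr 1
    congr 1 <;> ring
  have hsub : Finset.Icc ((j : ℤ) + 1) (j + N') ⊆ Finset.Icc ((0 : ℤ) + 1) (0 + N) :=
    Finset.Icc_subset_Icc (by omega) (by omega)
  have hm' : 1 - τ ≤ ∑ k ∈ Finset.Icc ((0 : ℤ) + 1) (0 + N), pk (2 * M + 1) w' k := by
    refine le_trans (by rw [hmass]; exact hm) (Finset.sum_le_sum_of_subset_of_nonneg hsub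
      fun k _ _ => low_pk_nonneg _ _ _)
  have hel := low_elem M n N τ 0 w' (hw2 n hd) (hw1.le.trans hw) hm'
  have hsimpN := low_simp M n N τ hn hN ⟨_, hel⟩
  have hle := (hS N _ hsimpN).2.2.1 g _ hel
  have hs1 : ∑ i : Fin N, g i * pk (2 * M + 1) w' ((0 : ℤ) + 1 + (i : ℤ)) =
      ∑ k ∈ Finset.Icc ((0 : ℤ) + 1) (0 + N), gh k * pk (2 * M + 1) w' k := by
    rw [← low_sum_fin N 0 (fun k => gh k * pk (2 * M + 1) w' k)]
    refine Finset.sum_congr rfl fun i _ => ?_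
    have : gh ((0 : ℤ) + 1 + (i : ℤ)) = g i := by
      rw [hgh]
      dsimp only
      have hi := i.2
      rw [dif_pos (by constructor <;> omega)]
      congr 1
      apply Fin.ext
      change ((0 : ℤ) + 1 + (i : ℤ) - 1).toNat = (i : ℕ)
      omega
    rw [this]
  have hs2 : ∑ k ∈ Finset.Icc ((j : ℤ) + 1) (j + N'), gh k * pk (2 * M + 1) w' k =
      ∑ i, g' i * p i := by
    rw [← low_sum_fin N' j (fun k => gh k * pk (2 * M + 1) w' k)]
    refine Finset.sum_congr rfl fun i _ => ?_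
    have hi := i.2
    have e1 : gh ((j : ℤ) + 1 + (i : ℤ)) = g' i := by
      rw [hgh]
      dsimp only
      rw [dif_pos (by constructor <;> omega), hg' i (by omega)]
      congr 1
      apply Fin.ext
      change ((j : ℤ) + 1 + (i : ℤ) - 1).toNat = j + (i : ℕ)
      omega
    rw [e1, hp i, hw3, show (j : ℤ) + 1 + (i : ℤ) + -(j : ℤ) = (i : ℤ) + 1 by ring]
  have htot : ∑ k ∈ Finset.Icc ((0 : ℤ) + 1) (0 + N), pk (2 * M + 1) w' k ≤ 1 :=
    (low_mass M n w' _ _ (hw2 n hd) hn (by omega)).trans (hw1.le.trans hw)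
  have hb := low_block _ _ hsub (fun k => pk (2 * M + 1) w' k) gh G τ
    (fun k => low_pk_nonneg _ _ _) hghb hG htot (by rw [hmass]; exact hm)
  rw [hs2, ← hs1] at hb
  linarith

end Pool.Agent.Work.MP_3574a2_pr.Dil
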