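import Pool.Agent.Work.MP_3574a2_pr.Dil.Claims

/-!
# Item A4: Maurey's empirical method
-/

set_option autoImplicit false

namespace Pool.Agent.Work.MP_3574a2_pr.Dil

/-- One greedy step. -/
theorem maurey_step {N : ℕ} (p v : Fin N → ℝ) (hp : ∀ i, 0 ≤ p i) (hs : ∑ i, p i ≤ 1) :
    ∃ o : Option (Fin N),
      ∑ i, (v i + (if o = some i then (1 : ℝ) else 0) - p i) ^ 2 ≤ ∑ i, v i ^ 2 + 1 := by
  by_contra hcon
  push Not at hcon
  have h0 := hcon none
  have h1 : ∀ a : Fin N, ∑ i, (v i + (if (some a : Option (Fin N)) = some i then (1 : ℝ) else 0) -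
      p i) ^ 2 = ∑ i, (v i - p i) ^ 2 + (2 * (v a - p a) + 1) := by
    intro a
    have : ∀ i, (v i + (if (some a : Option (Fin N)) = some i then (1 : ℝ) else 0) - p i) ^ 2 =
        (v i - p i) ^ 2 + (if a = i then 2 * (v i - p i) + 1 else 0) := by
      intro i
      by_cases h : a = i
      · subst h
        simp only [if_true]
        ring
      · have h' : ¬ ((some a : Option (Fin N)) = some i) := fun e => h (Option.some.inj e)
        rw [if_neg h, if_neg h']
        ring
    simp only [this, Finset.sum_add_distrib, Finset.sum_ite_eq, Finset.mem_univ, if_true]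
  have h2 : ∑ i, (v i + (if (none : Option (Fin N)) = some i then (1 : ℝ) else 0) - p i) ^ 2 =
      ∑ i, (v i - p i) ^ 2 := by
    refine Finset.sum_congr rfl fun i _ => ?_
    rw [if_neg (by simp)]
    ring
  rw [h2] at h0
  have h3 : ∀ a : Fin N, 0 ≤ p a * (∑ i, (v i - p i) ^ 2 + (2 * (v a - p a) + 1) -
      (∑ i, v i ^ 2 + 1)) := by
    intro a
    have := hcon (some a)
    rw [h1 a] at this
    exact mul_nonneg (hp a) (by linarith)
  have h4 : 0 ≤ ∑ a, p a * (∑ i, (v i - p i) ^ 2 + (2 * (v a - p a) + 1) -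
      (∑ i, v i ^ 2 + 1)) := Finset.sum_nonneg fun a _ => h3 a
  have h5 : 0 ≤ (1 - ∑ i, p i) * (∑ i, (v i - p i) ^ 2 - (∑ i, v i ^ 2 + 1)) :=
    mul_nonneg (by linarith) (by linarith)
  have h6 : ∑ a, p a * (∑ i, (v i - p i) ^ 2 + (2 * (v a - p a) + 1) - (∑ i, v i ^ 2 + 1)) =
      (∑ i, p i) * (∑ i, (v i - p i) ^ 2 - (∑ i, v i ^ 2 + 1)) +
        ∑ a, p a * (2 * (v a - p a) + 1) := by
    rw [Finset.sum_mul, ← Finset.sum_add_distrib]
    exact Finset.sum_congr rfl fun a _ => by ring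
  have h7 : ∑ i, (v i - p i) ^ 2 + ∑ a, p a * (2 * (v a - p a) + 1) =
      ∑ i, v i ^ 2 + (∑ i, p i - ∑ i, p i ^ 2) := by
    rw [← Finset.sum_add_distrib, ← Finset.sum_sub_distrib, ← Finset.sum_add_distrib]
    exact Finset.sum_congr rfl fun a _ => by ring
  have h8 : ∑ i, p i - ∑ i, p i ^ 2 < 1 := by
    have hsq : 0 ≤ ∑ i, p i ^ 2 := Finset.sum_nonneg fun i _ => sq_nonneg _
    rcases hsq.lt_or_eq with h | h
    · linarith
    · have h9 : ∀ i, p i = 0 := by
        intro i
        have := (Finset.sum_eq_zero_iff_of_nonneg (fun i _ => sq_nonneg (p i))).1 h.symm i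
          (Finset.mem_univ i)
        exact pow_eq_zero_iff (two_ne_zero) |>.1 this
      simp [h9]
  rw [h6] at h4
  nlinarith

/-- The greedy choice of `s` points. -/
theorem maurey_greedy {N : ℕ} (p : Fin N → ℝ) (hp : ∀ i, 0 ≤ p i) (hs : ∑ i, p i ≤ 1) (s : ℕ) :
    ∃ j : Fin s → Option (Fin N),
      ∑ i, ((∑ k, if j k = some i then (1 : ℝ) else 0) - s * p i) ^ 2 ≤ s := by
  induction s with
  | zero => exact ⟨Fin.elim0, by simp⟩
  | succ s ih =>
    obtain ⟨j, hj⟩ := ih
    obtain ⟨o, ho⟩ := maurey_step p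
      (fun i => (∑ k, if j k = some i then (1 : ℝ) else 0) - s * p i) hp hs
    refine ⟨Fin.cons o j, ?_⟩
    have : ∀ i, (∑ k, if (Fin.cons o j : Fin (s + 1) → Option (Fin N)) k = some i then (1 : ℝ)
        else 0) = (if o = some i then (1 : ℝ) else 0) + ∑ k, if j k = some i then (1 : ℝ) else 0 := by
      intro i
      rw [Fin.sum_univ_succ]
      simp only [Fin.cons_zero, Fin.cons_succ]
    simp only [this]
    push_cast
    refine le_trans (le_of_eq ?_) (ho.trans (by linarith))
    exact Finset.sum_congr rfl fun i _ => by ring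

/-- Item A4. -/
theorem claimMaurey : ClaimMaurey := by
  intro N t p ht hp hs
  obtain ⟨j, hj⟩ := maurey_greedy p hp hs t
  refine ⟨j, ?_⟩
  have ht0 : (0 : ℝ) < t := by exact_mod_cast ht
  unfold l2
  have h1 : ∀ i, (p i - ((Finset.univ.filter fun k => j k = some i).card : ℝ) / t) ^ 2 =
      ((∑ k, if j k = some i then (1 : ℝ) else 0) - t * p i) ^ 2 / t ^ 2 := by
    intro i
    have : ((Finset.univ.filter fun k => j k = some i).card : ℝ) =
        ∑ k, if j k = some i then (1 : ℝ) else 0 := by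
      rw [Finset.card_filter]
      push_cast
      rfl
    rw [this]
    field_simp
    ring
  simp only [h1]
  rw [← Finset.sum_div]
  have h2 : (1 : ℝ) / Real.sqrt t = Real.sqrt (1 / t) := by
    rw [Real.sqrt_div zero_le_one, Real.sqrt_one]
  rw [h2]
  apply Real.sqrt_le_sqrt
  rw [div_le_div_iff₀ (by positivity) ht0]
  nlinarith

end Pool.Agent.Work.MP_3574a2_pr.Dil
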