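import Pool.Agent.Work.MP_3574a2_pr.Dil.Claims

/-!
# B9. The classes are nonempty, and the standard deviation is bounded below
-/

set_option autoImplicit false

namespace Pool.Agent.Work.MP_3574a2_pr.Dil

open Finset Polynomial

lemma ne_pk_nonneg (m : ℕ) (w : ℂ[X]) (k : ℤ) : 0 ≤ pk m w k := by
  unfold pk; positivity

lemma ne_sum_fin (N : ℕ) (F : ℤ → ℝ) :
    ∑ i : Fin N, F ((i : ℤ) + 1) = ∑ k ∈ Icc (1 : ℤ) N, F k := by
  rw [Fin.sum_univ_eq_sum_range (fun i => F ((i : ℤ) + 1)) N]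
  refine sum_bij (fun i _ => (i : ℤ) + 1) ?_ ?_ ?_ ?_
  · intro i hi
    simp only [mem_range, mem_Icc] at hi ⊢
    omega
  · intro i _ j _ h
    omega
  · intro k hk
    simp only [mem_Icc] at hk
    refine ⟨(k - 1).toNat, ?_, ?_⟩
    · simp only [mem_range]; omega
    · omega
  · intro i _
    rfl

/-- The set `PP` is a set of sub-probability vectors. -/
lemma ne_simp (hPars : ClaimPars) (n M N : ℕ) (τ : ℝ) (hn : n ≤ 2 * M + 1) (hN : N ≤ 2 * M + 1)
    (hne : (PP n (2 * M + 1) τ N).Nonempty) : Simp (PP n (2 * M + 1) τ N) where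
  ne := hne
  nonneg := by
    rintro p ⟨w, -, -, -, hp⟩ i
    rw [hp i]
    exact ne_pk_nonneg _ _ _
  sum_le := by
    rintro p ⟨w, hw, hw1, -, hp⟩
    have h1 : ∑ i, p i = ∑ k ∈ Icc (1 : ℤ) N, pk (2 * M + 1) w k := by
      rw [← ne_sum_fin N (fun k => pk (2 * M + 1) w k)]
      exact sum_congr rfl fun i _ => hp i
    rw [h1]
    calc ∑ k ∈ Icc (1 : ℤ) N, pk (2 * M + 1) w k
        ≤ ∑ k ∈ Icc (1 : ℤ) (1 + 2 * M), pk (2 * M + 1) w k := by
          refine sum_le_sum_of_subset_of_nonneg ?_ fun k _ _ => ne_pk_nonneg _ _ _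
          intro k hk
          simp only [mem_Icc] at hk ⊢
          omega
      _ = nsq w := hPars.2 M n w 1 hw hn
      _ ≤ 1 := hw1

theorem claimNe (hWin : ClaimWin) (hPars : ClaimPars) (hSym : ClaimSym) (hSpp : ClaimSpp) :
    ClaimNe := by
  intro n M N τ hn1 hnM hMn hN8 hNM hτ
  set h : ℕ := (n - 1) / 8 + 1 with hh
  have hh1 : 8 * (h - 1) + 1 ≤ n := by omega
  have hh2 : n ≤ 8 * h := by omega
  set W : ℕ := N / 2 - 1 with hW
  have hW3 : 3 ≤ W := by omega
  have hWN : N ≤ 4 * W := by omega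
  set j0 : ℕ := (N + 1) / 2 with hj0
  have hj1 : 1 + W ≤ j0 := by omega
  have hj2 : j0 + W ≤ N := by omega
  obtain ⟨A, hA, hA1⟩ := hWin 8 h W M (by norm_num) (by omega) (by omega) (by omega)
  set m : ℕ := 2 * M + 1 with hm
  have hm0 : 0 < m := by omega
  have hmR : (0 : ℝ) < m := by exact_mod_cast hm0
  set κ : ℤ → ℝ := fun r => ‖A.eval (zt m r)‖ ^ 2 with hκ
  -- the vector
  set c : ℂ := ((Real.sqrt m : ℝ) : ℂ) with hc
  have hc2 : ‖c‖ ^ 2 = m := by
    rw [hc, Complex.norm_real, Real.norm_eq_abs, sq_abs, Real.sq_sqrt hmR.le]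
  have hpkA : ∀ k, pk m (C c * A) k = κ k := by
    intro k
    rw [(hSym.2.2.1 m A c).2 k, hc2]
    simp only [pk, hκ]
    field_simp
  have hAdeg : A.degree < (n : WithBot ℕ) := lt_of_lt_of_le hA.deg (by exact_mod_cast hh1)
  have hcdeg : (C c * A).degree < (n : WithBot ℕ) := by
    refine lt_of_le_of_lt (degree_mul_le _ _) ?_
    refine lt_of_le_of_lt (add_le_add_left degree_C_le _) ?_
    rw [zero_add]
    exact hAdeg
  have hone : ∑ k ∈ Icc (-(M : ℤ)) M, κ k = 1 := hA.one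
  have hnsq : nsq (C c * A) = 1 := by
    rw [← hone]
    have h1 := hPars.2 M n (C c * A) (-(M : ℤ)) hcdeg (by omega)
    have e : -(M : ℤ) + 2 * M = M := by ring
    rw [e] at h1
    rw [← h1]
    exact sum_congr rfl fun k _ => hpkA k
  obtain ⟨w, hw1, hw2, hw3⟩ := hSym.1 m (C c * A) (-(j0 : ℤ)) hm0
  have hpkw : ∀ k, pk m w k = κ (k + -(j0 : ℤ)) := fun k => by rw [hw3, hpkA]
  -- the mass
  have htail : ∑ k ∈ (Icc (-(M : ℤ)) M).filter (fun k => (W : ℤ) < |k|), κ k ≤ τ := by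
    refine hA.tail.trans (le_trans ?_ hτ)
    norm_num only [Nat.reduceMul, Nat.reduceSub]
    have hhR : (0 : ℝ) < h := by exact_mod_cast (by omega : 0 < h)
    have hWR : (0 : ℝ) < W := by exact_mod_cast (by omega : 0 < W)
    have hNR : (0 : ℝ) < N := by exact_mod_cast (by omega : 0 < N)
    have hle : (m : ℝ) / (2 * W * h) ≤ 64 / N := by
      rw [div_le_div_iff₀ (by positivity) hNR]
      have hnat : m * N ≤ 64 * (2 * W * h) := by
        calc m * N ≤ (4 * n) * (4 * W) := Nat.mul_le_mul (by omega) hWN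
          _ ≤ (4 * (8 * h)) * (4 * W) := Nat.mul_le_mul_right _ (Nat.mul_le_mul_left _ hh2)
          _ = 64 * (2 * W * h) := by ring
      exact_mod_cast hnat
    exact mul_le_mul_of_nonneg_left (pow_le_pow_left₀ (by positivity) hle 14) (by norm_num)
  have hmass : 1 - τ ≤ ∑ k ∈ Icc (1 : ℤ) N, pk m w k := by
    calc 1 - τ ≤ ∑ k ∈ Icc (-(W : ℤ)) W, κ k := by
          rw [← hone]
          rw [← sum_filter_add_sum_filter_not (Icc (-(M : ℤ)) M) (fun k => (W : ℤ) < |k|)]
          have h2 : (Icc (-(M : ℤ)) M).filter (fun k => ¬ (W : ℤ) < |k|) ⊆ Icc (-(W : ℤ)) W := by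
            intro k hk
            simp only [mem_filter, mem_Icc, not_lt, abs_le] at hk ⊢
            exact hk.2
          have h3 := sum_le_sum_of_subset_of_nonneg (f := κ) h2 fun k _ _ => by
            simp only [hκ]; positivity
          linarith
      _ = ∑ k ∈ Icc ((j0 : ℤ) - W) (j0 + W), pk m w k := by
          refine sum_bij (fun k _ => k + (j0 : ℤ)) ?_ ?_ ?_ ?_
          · intro k hk
            simp only [mem_Icc] at hk ⊢
            omega
          · intro a _ b _ hab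
            omega
          · intro k hk
            simp only [mem_Icc] at hk
            exact ⟨k - j0, by simp only [mem_Icc]; omega, by simp⟩
          · intro k _
            rw [hpkw]
            simp
      _ ≤ ∑ k ∈ Icc (1 : ℤ) N, pk m w k := by
          refine sum_le_sum_of_subset_of_nonneg ?_ fun k _ _ => ne_pk_nonneg _ _ _
          intro k hk
          simp only [mem_Icc] at hk ⊢
          omega
  have hmem : (fun i : Fin N => pk m w ((i : ℤ) + 1)) ∈ PP n m τ N :=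
    ⟨w, hw2 n hcdeg, by rw [hw1, hnsq], hmass, fun i => rfl⟩
  have hS : Simp (PP n m τ N) := ne_simp hPars n M N τ (by omega) (by omega) ⟨_, hmem⟩
  refine ⟨hS, ?_⟩
  obtain ⟨-, -, -, -, -, h6, -, -, -⟩ := hSpp N (PP n m τ N) hS
  refine le_trans ?_ (h6 _ hmem)
  -- the central coefficient
  have hj0' : j0 - 1 < N := by omega
  have hcen : pk m w ((((⟨j0 - 1, hj0'⟩ : Fin N) : ℕ) : ℤ) + 1) = ‖A.eval 1‖ ^ 2 := by
    rw [hpkw]
    simp only [hκ]
    have e : (((j0 - 1 : ℕ) : ℤ) + 1 + -(j0 : ℤ)) = 0 := by omega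
    rw [e]
    simp [zt]
  have hge : (1 : ℝ) / 32 ≤ ‖A.eval 1‖ ^ 2 := by
    refine le_trans ?_ hA1
    rw [div_le_div_iff₀ (by norm_num) hmR]
    have : m ≤ 32 * h := by omega
    have h2 : (m : ℝ) ≤ 32 * h := by exact_mod_cast this
    linarith
  unfold l2
  refine le_trans hge ?_
  rw [← hcen]
  refine Real.le_sqrt_of_sq_le ?_
  exact single_le_sum (f := fun i : Fin N => (pk m w ((i : ℤ) + 1)) ^ 2)
    (fun i _ => sq_nonneg _) (mem_univ (⟨j0 - 1, hj0'⟩ : Fin N))

end Pool.Agent.Work.MP_3574a2_pr.Dil
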