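import Pool.Agent.Work.MP_3574a2_pr.Dil.Claims

/-!
# Gumbel limit for random Toeplitz matrices: roots of unity, Parseval, symmetries
-/

set_option autoImplicit false

namespace Pool.Agent.Work.MP_3574a2_pr.Dil

open MeasureTheory ProbabilityTheory Set Polynomial Filter Topology
open scoped ENNReal NNReal

theorem pars_zt_zero (m : ℕ) : zt m 0 = 1 := by
  simp [zt]

theorem pars_zt_add (m : ℕ) (a b : ℤ) : zt m (a + b) = zt m a * zt m b := by
  unfold zt
  rw [← Complex.exp_add]
  congr 1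
  push_cast
  ring

theorem pars_zt_mul (m : ℕ) (k : ℤ) (x : ℕ) : zt m (k * x) = zt m k ^ x := by
  unfold zt
  rw [← Complex.exp_nat_mul]
  congr 1
  push_cast
  ring

theorem pars_zt_self (m : ℕ) (hm : 0 < m) : zt m (m : ℤ) = 1 := by
  unfold zt
  have hm' : (m : ℂ) ≠ 0 := by exact_mod_cast hm.ne'
  have : 2 * (Real.pi : ℂ) * Complex.I * ((m : ℤ) : ℂ) / (m : ℂ) = 2 * Real.pi * Complex.I := by
    push_cast
    field_simp
  rw [this, Complex.exp_two_pi_mul_I]

theorem pars_norm_zt (m : ℕ) (k : ℤ) : ‖zt m k‖ = 1 := by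
  unfold zt
  have : 2 * (Real.pi : ℂ) * Complex.I * (k : ℂ) / (m : ℂ) =
      ((2 * Real.pi * k / m : ℝ) : ℂ) * Complex.I := by
    push_cast
    ring
  rw [this, Complex.norm_exp_ofReal_mul_I]

theorem pars_conj_zt (m : ℕ) (k : ℤ) : (starRingEnd ℂ) (zt m k) = zt m (-k) := by
  unfold zt
  rw [← Complex.exp_conj]
  congr 1
  rw [map_div₀, map_mul, map_mul, map_mul, Complex.conj_ofReal, Complex.conj_I, map_ofNat]
  simp

theorem pars_zt_ne_one (m : ℕ) (d : ℤ) (hd : d ≠ 0) (h : |d| < m) : zt m d ≠ 1 := by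
  intro he
  unfold zt at he
  rw [Complex.exp_eq_one_iff] at he
  obtain ⟨n, hn⟩ := he
  have hm : 0 < (m : ℤ) := lt_of_le_of_lt (abs_nonneg d) h
  have hm' : (m : ℂ) ≠ 0 := by
    have : m ≠ 0 := by omega
    exact_mod_cast this
  have h2 : (d : ℂ) = n * m := by
    have hpi : (2 * (Real.pi : ℂ) * Complex.I) ≠ 0 := Complex.two_pi_I_ne_zero
    have h3 : 2 * (Real.pi : ℂ) * Complex.I * (d : ℂ) = n * (2 * Real.pi * Complex.I) * m := by
      rw [← hn]
      field_simp
    apply mul_left_cancel₀ hpi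
    rw [h3]
    ring
  have h4 : d = n * m := by exact_mod_cast h2
  by_cases hn0 : n = 0
  · rw [hn0] at h4
    simp at h4
    exact hd h4
  · have h5 : (m : ℤ) ≤ |d| := by
      rw [h4, abs_mul, abs_of_pos hm]
      have := Int.one_le_abs hn0
      nlinarith
    linarith

theorem pars_sum_Icc (M : ℕ) (a : ℤ) (F : ℤ → ℂ) :
    ∑ k ∈ Finset.Icc a (a + 2 * M), F k = ∑ i ∈ Finset.range (2 * M + 1), F (a + (i : ℤ)) := by
  symm
  refine Finset.sum_bij (fun i _ => a + (i : ℤ)) ?_ ?_ ?_ ?_
  · intro i hi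
    rw [Finset.mem_range] at hi
    rw [Finset.mem_Icc]
    constructor <;> omega
  · intro i _ j _ h
    simpa using h
  · intro k hk
    rw [Finset.mem_Icc] at hk
    refine ⟨(k - a).toNat, ?_, ?_⟩
    · rw [Finset.mem_range]
      omega
    · rw [Int.toNat_of_nonneg (by omega)]
      ring
  · intro i _
    rfl

theorem pars_sum_zt (M : ℕ) (a d : ℤ) (h : |d| < (2 * M + 1 : ℕ)) :
    ∑ k ∈ Finset.Icc a (a + 2 * M), zt (2 * M + 1) (k * d) =
      if d = 0 then ((2 * M + 1 : ℕ) : ℂ) else 0 := by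
  rw [pars_sum_Icc]
  split_ifs with hd
  · rw [hd]
    simp [pars_zt_zero]
  · have e : ∀ i ∈ Finset.range (2 * M + 1), zt (2 * M + 1) ((a + (i : ℤ)) * d) =
        zt (2 * M + 1) (a * d) * zt (2 * M + 1) d ^ i := by
      intro i _
      rw [← pars_zt_mul, ← pars_zt_add]
      congr 1
      ring
    rw [Finset.sum_congr rfl e, ← Finset.mul_sum]
    have h1 := pars_zt_ne_one (2 * M + 1) d hd h
    rw [geom_sum_eq h1, ← pars_zt_mul, mul_comm, mul_comm d]
    rw [show zt (2 * M + 1) (((2 * M + 1 : ℕ) : ℤ) * d) = 1 from ?_]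
    · simp
    · have : ∀ n : ℤ, zt (2 * M + 1) (((2 * M + 1 : ℕ) : ℤ) * n) = 1 := by
        intro n
        have hnn : ∀ n : ℕ, zt (2 * M + 1) (((2 * M + 1 : ℕ) : ℤ) * (n : ℤ)) = 1 := by
          intro n
          rw [pars_zt_mul, pars_zt_self _ (Nat.succ_pos _), one_pow]
        obtain ⟨n', rfl | rfl⟩ := n.eq_nat_or_neg
        · exact hnn n'
        · rw [mul_neg, ← pars_conj_zt, hnn n', map_one]
      exact this d

theorem pars_eval (w : ℂ[X]) (z : ℂ) : w.eval z = ∑ x ∈ w.support, w.coeff x * z ^ x := by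
  rw [Polynomial.eval_eq_sum, Polynomial.sum_def]

theorem claimPars : ClaimPars := by
  constructor
  · intro m w k hm
    unfold pk
    rw [pars_zt_add, pars_zt_self m hm, mul_one]
  · intro M n w a hdeg hn
    have hsupp : ∀ x ∈ w.support, x < 2 * M + 1 := by
      intro x hx
      by_contra hc
      push Not at hc
      have := (Polynomial.degree_lt_iff_coeff_zero w n).1 hdeg x (hn.trans hc)
      exact (Polynomial.mem_support_iff.1 hx) this
    have key : (∑ k ∈ Finset.Icc a (a + 2 * M), ((‖w.eval (zt (2 * M + 1) k)‖ : ℂ)) ^ 2) =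
        ((2 * M + 1 : ℕ) : ℂ) * ∑ x ∈ w.support, ((‖w.coeff x‖ : ℂ)) ^ 2 := by
      have e1 : ∀ k ∈ Finset.Icc a (a + 2 * M), ((‖w.eval (zt (2 * M + 1) k)‖ : ℂ)) ^ 2 =
          ∑ x ∈ w.support, ∑ y ∈ w.support, (w.coeff x * (starRingEnd ℂ) (w.coeff y)) *
            zt (2 * M + 1) (k * ((x : ℤ) - (y : ℤ))) := by
        intro k _
        rw [← Complex.mul_conj', pars_eval, map_sum, Finset.sum_mul_sum]
        refine Finset.sum_congr rfl fun x _ => Finset.sum_congr rfl fun y _ => ?_
        rw [map_mul, map_pow, pars_conj_zt, ← pars_zt_mul, ← pars_zt_mul]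
        have : zt (2 * M + 1) (k * ((x : ℤ) - (y : ℤ))) =
            zt (2 * M + 1) (k * (x : ℤ)) * zt (2 * M + 1) (-k * (y : ℤ)) := by
          rw [← pars_zt_add]
          congr 1
          ring
        rw [this]
        ring
      rw [Finset.sum_congr rfl e1, Finset.sum_comm, Finset.mul_sum]
      refine Finset.sum_congr rfl fun x hx => ?_
      rw [Finset.sum_comm]
      have e2 : ∀ y ∈ w.support, ∑ k ∈ Finset.Icc a (a + 2 * M),
          (w.coeff x * (starRingEnd ℂ) (w.coeff y)) *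
            zt (2 * M + 1) (k * ((x : ℤ) - (y : ℤ))) =
          if x = y then ((2 * M + 1 : ℕ) : ℂ) * ((‖w.coeff x‖ : ℂ)) ^ 2 else 0 := by
        intro y hy
        rw [← Finset.mul_sum, pars_sum_zt]
        · by_cases hxy : x = y
          · rw [if_pos (by rw [hxy]; ring), if_pos hxy, ← Complex.mul_conj', hxy]
            ring
          · rw [if_neg (by omega), if_neg hxy, mul_zero]
        · have h1 := hsupp x hx
          have h2 := hsupp y hy
          rw [abs_lt]
          constructor <;> omega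
      rw [Finset.sum_congr rfl e2, Finset.sum_ite_eq, if_pos hx]
    have key' : (∑ k ∈ Finset.Icc a (a + 2 * M), ‖w.eval (zt (2 * M + 1) k)‖ ^ 2) =
        ((2 * M + 1 : ℕ) : ℝ) * nsq w := by
      unfold nsq
      exact_mod_cast key
    unfold pk
    rw [← Finset.sum_div, key']
    have : ((2 * M + 1 : ℕ) : ℝ) ≠ 0 := by positivity
    field_simp

theorem sym_nsq_of_subset (w : ℂ[X]) (s : Finset ℕ) (h : w.support ⊆ s) :
    nsq w = ∑ x ∈ s, ‖w.coeff x‖ ^ 2 := by
  unfold nsq
  refine Finset.sum_subset h fun x _ hx => ?_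
  rw [Polynomial.notMem_support_iff.1 hx]
  simp

theorem sym_nsq_congr (w w' : ℂ[X]) (h : ∀ x, ‖w'.coeff x‖ = ‖w.coeff x‖) : nsq w' = nsq w := by
  rw [sym_nsq_of_subset w (w.support ∪ w'.support) Finset.subset_union_left,
    sym_nsq_of_subset w' (w.support ∪ w'.support) Finset.subset_union_right]
  exact Finset.sum_congr rfl fun x _ => by rw [h x]

theorem sym_deg_congr (w w' : ℂ[X]) (h : ∀ x, ‖w'.coeff x‖ = ‖w.coeff x‖) (n : ℕ)
    (hn : w.degree < n) : w'.degree < n := by
  rw [Polynomial.degree_lt_iff_coeff_zero] at hn ⊢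
  intro x hx
  rw [← norm_eq_zero, h x, hn x hx, norm_zero]

theorem sym_coeff_rot (m : ℕ) (w : ℂ[X]) (j : ℤ) (x : ℕ) :
    ‖(w.comp (C (zt m j) * X)).coeff x‖ = ‖w.coeff x‖ := by
  rw [Polynomial.comp_C_mul_X_coeff, norm_mul, norm_pow, pars_norm_zt, one_pow, mul_one]

theorem sym_eval_rot (m : ℕ) (w : ℂ[X]) (j k : ℤ) :
    (w.comp (C (zt m j) * X)).eval (zt m k) = w.eval (zt m (k + j)) := by
  rw [Polynomial.eval_comp, Polynomial.eval_mul, Polynomial.eval_C, Polynomial.eval_X,
    pars_zt_add, mul_comm]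

theorem claimSym : ClaimSym := by
  refine ⟨?_, ?_, ?_, ?_, ?_⟩
  · intro m w j _
    refine ⟨w.comp (C (zt m j) * X), sym_nsq_congr _ _ (sym_coeff_rot m w j),
      fun n hn => sym_deg_congr _ _ (sym_coeff_rot m w j) n hn, fun k => ?_⟩
    unfold pk
    rw [sym_eval_rot]
  · intro m w
    have hc : ∀ x, ‖(w.map (starRingEnd ℂ)).coeff x‖ = ‖w.coeff x‖ := by
      intro x
      rw [Polynomial.coeff_map, Complex.norm_conj]
    refine ⟨w.map (starRingEnd ℂ), sym_nsq_congr _ _ hc, fun n hn => sym_deg_congr _ _ hc n hn,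
      fun k => ?_⟩
    unfold pk
    have : (w.map (starRingEnd ℂ)).eval (zt m k) = (starRingEnd ℂ) (w.eval (zt m (-k))) := by
      have h1 : zt m k = (starRingEnd ℂ) (zt m (-k)) := by rw [pars_conj_zt, neg_neg]
      rw [h1, Polynomial.eval_map, Polynomial.eval₂_at_apply]
    rw [this, Complex.norm_conj]
  · intro m w c
    constructor
    · have hs : (C c * w).support ⊆ w.support := by
        intro x hx
        rw [Polynomial.mem_support_iff, Polynomial.coeff_C_mul] at hx
        rw [Polynomial.mem_support_iff]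
        exact right_ne_zero_of_mul hx
      rw [sym_nsq_of_subset (C c * w) w.support hs]
      unfold nsq
      rw [Finset.mul_sum]
      refine Finset.sum_congr rfl fun x _ => ?_
      rw [Polynomial.coeff_C_mul, norm_mul, mul_pow]
    · intro k
      unfold pk
      rw [Polynomial.eval_mul, Polynomial.eval_C, norm_mul, mul_pow]
      ring
  · intro m A w j _
    refine ⟨(A.comp (C (zt m (-j)) * X)) * w, ?_, ?_⟩
    · intro n H hw hA
      by_cases hw0 : w = 0
      · rw [hw0, mul_zero, Polynomial.degree_zero]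
        exact WithBot.bot_lt_coe _
      have hA' : (A.comp (C (zt m (-j)) * X)).degree < ((H + 1 : ℕ) : WithBot ℕ) :=
        sym_deg_congr _ _ (sym_coeff_rot m A (-j)) (H + 1) hA
      by_cases hA0 : A.comp (C (zt m (-j)) * X) = 0
      · rw [hA0, zero_mul, Polynomial.degree_zero]
        exact WithBot.bot_lt_coe _
      have h1 := (Polynomial.natDegree_lt_iff_degree_lt hw0).2 hw
      have h2 := (Polynomial.natDegree_lt_iff_degree_lt hA0).2 hA'
      rw [← Polynomial.natDegree_lt_iff_degree_lt (mul_ne_zero hA0 hw0)]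
      have h3 := Polynomial.natDegree_mul_le (p := A.comp (C (zt m (-j)) * X)) (q := w)
      omega
    · intro k
      unfold pk
      rw [Polynomial.eval_mul, sym_eval_rot, norm_mul, mul_pow, ← sub_eq_add_neg]
      ring
  · intro w
    constructor
    · exact Finset.sum_nonneg fun x _ => sq_nonneg _
    · intro h
      unfold nsq at h
      rw [Finset.sum_eq_zero_iff_of_nonneg (fun x _ => sq_nonneg _)] at h
      by_contra hw
      obtain ⟨x, hx⟩ := Polynomial.support_nonempty.2 hw
      have := h x hx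
      rw [pow_eq_zero_iff two_ne_zero, norm_eq_zero] at this
      exact (Polynomial.mem_support_iff.1 hx) this

end Pool.Agent.Work.MP_3574a2_pr.Dil
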