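import Pool.Agent.Work.MP_3574a2_pr.Dil.Claims

/-!
# B4. The weighted pigeonhole principle
-/

set_option autoImplicit false

namespace Pool.Agent.Work.MP_3574a2_pr.Dil

open Finset Polynomial

lemma pigeon_shift (F : ℤ → ℝ) (j a b : ℤ) :
    ∑ k ∈ Icc (j + a) (j + b), F k = ∑ r ∈ Icc a b, F (j + r) := by
  rw [← Finset.map_add_left_Icc, Finset.sum_map]
  rfl

lemma pigeon_per (M : ℕ) (F : ℤ → ℝ) (hF : ∀ k, F (k + (2 * M + 1)) = F k) (a : ℤ) :
    ∑ k ∈ Icc a (a + 2 * M), F k = ∑ k ∈ Icc (-(M : ℤ)) M, F k := by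
  have hp : Function.Periodic (fun a : ℤ => ∑ k ∈ Icc a (a + 2 * M), F k) 1 := by
    intro b
    have h1 : Icc (b + 1) (b + 1 + 2 * (M : ℤ)) = insert (b + 2 * M + 1) (Icc (b + 1) (b + 2 * M)) := by
      ext x
      simp only [mem_Icc, mem_insert]
      omega
    have h2 : Icc b (b + 2 * (M : ℤ)) = insert b (Icc (b + 1) (b + 2 * M)) := by
      ext x
      simp only [mem_Icc, mem_insert]
      omega
    simp only
    rw [h1, h2, sum_insert (by simp), sum_insert (by simp)]
    congr 1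
    have := hF b
    rw [← this]
    congr 1
    ring
  have h3 := hp.int_mul_eq a
  have h4 := hp.int_mul_eq (-(M : ℤ))
  simp only [mul_one, Int.cast_id] at h3 h4
  rw [h3, ← h4]
  congr 1
  congr 1
  ring

lemma pigeon_per' (M : ℕ) (F : ℤ → ℝ) (hF : ∀ k, F (k + (2 * M + 1)) = F k) (r : ℤ) :
    ∑ j ∈ Icc (-(M : ℤ)) M, F (j + r) = ∑ k ∈ Icc (-(M : ℤ)) M, F k := by
  have h := pigeon_shift F r (-(M : ℤ)) M
  rw [← pigeon_per M F hF (r + -(M : ℤ))]
  have e : r + -(M : ℤ) + 2 * M = r + M := by ring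
  rw [e, h]
  exact sum_congr rfl fun j _ => by rw [add_comm]

theorem claimPigeon (hPars : ClaimPars) (hSym : ClaimSym) : ClaimPigeon := by
  intro M n H W τ0 G K u A w g hnH hWM hA hg hτ0 hK hu hw hw1 huX
  obtain ⟨-, -, hscal, hmul, hnsq⟩ := hSym
  obtain ⟨hper, hpars⟩ := hPars
  have hm : 0 < 2 * M + 1 := by omega
  have hG : 0 ≤ G := le_trans (abs_nonneg _) (hg.bdd 0)
  choose wj hwdeg hwpk using fun j => hmul (2 * M + 1) A w j hm
  set κ : ℤ → ℝ := fun r => ‖A.eval (zt (2 * M + 1) r)‖ ^ 2 with hκ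
  set q : ℤ → ℝ := fun k => pk (2 * M + 1) w k with hq
  have hκ0 : ∀ r, 0 ≤ κ r := fun r => by positivity
  have hq0 : ∀ k, 0 ≤ q k := fun k => by simp only [hq, pk]; positivity
  have hqper : ∀ k, q (k + (2 * M + 1)) = q k := by
    intro k
    have := hper (2 * M + 1) w k hm
    push_cast at this
    exact this
  set I : Finset ℤ := Icc (-(M : ℤ)) M with hI
  set ch : ℤ → ℝ := fun r => if (W : ℤ) < |r| then 1 else 0 with hch
  -- the mass of `wj j`
  have hpkj : ∀ j r, pk (2 * M + 1) (wj j) (j + r) = κ r * q (j + r) := by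
    intro j r
    rw [hwpk j (j + r)]
    simp only [hκ, hq]
    rw [add_sub_cancel_left]
  have hnsqj : ∀ j, nsq (wj j) = ∑ r ∈ I, κ r * q (j + r) := by
    intro j
    have h1 := hpars M (n + H) (wj j) (j + -(M : ℤ)) (hwdeg j n H hw hA.deg) hnH
    have e : j + -(M : ℤ) + 2 * M = j + M := by ring
    rw [e, pigeon_shift] at h1
    rw [← h1]
    exact sum_congr rfl fun r _ => hpkj j r
  -- the average of the excess
  have hsum : 0 < ∑ j ∈ I, ∑ r ∈ I, κ r * (q (j + r) * (g (j + r) - u + K * τ0 - K * ch r)) := by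
    rw [sum_comm]
    have h1 : ∀ r ∈ I, ∑ j ∈ I, κ r * (q (j + r) * (g (j + r) - u + K * τ0 - K * ch r)) =
        κ r * (XX M g w - u + K * τ0 - K * ch r) := by
      intro r _
      rw [← mul_sum]
      congr 1
      have h2 := pigeon_per' M (fun k => q k * (g k - u + K * τ0 - K * ch r))
        (fun k => by rw [hqper, hg.per]) r
      rw [h2]
      have h3 : ∑ k ∈ I, q k = 1 := by
        have := hpars M n w (-(M : ℤ)) hw (by omega)
        have e : -(M : ℤ) + 2 * M = M := by ring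
        rw [e] at this
        rw [← hw1, ← this]
      have h4 : XX M g w = ∑ k ∈ I, g k * q k := rfl
      rw [h4]
      have h5 : ∀ k ∈ I, q k * (g k - u + K * τ0 - K * ch r) =
          g k * q k + (-u + K * τ0 - K * ch r) * q k := fun k _ => by ring
      rw [sum_congr rfl h5, sum_add_distrib, ← mul_sum, h3]
      ring
    rw [sum_congr rfl h1]
    have h6 : ∀ r ∈ I, κ r * (XX M g w - u + K * τ0 - K * ch r) =
        (XX M g w - u + K * τ0) * κ r - K * (κ r * ch r) := fun r _ => by ring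
    rw [sum_congr rfl h6, sum_sub_distrib, ← mul_sum, ← mul_sum]
    have h7 : ∑ r ∈ I, κ r = 1 := hA.one
    have h8 : ∑ r ∈ I, κ r * ch r ≤ τ0 := by
      have : ∑ r ∈ I, κ r * ch r = ∑ r ∈ I.filter (fun k => (W : ℤ) < |k|), κ r := by
        rw [sum_filter]
        refine sum_congr rfl fun r _ => ?_
        simp only [hch]
        split_ifs <;> simp
      rw [this]
      exact hA.tail
    rw [h7]
    nlinarith
  obtain ⟨j, hjI, hj⟩ : ∃ j ∈ I, 0 < ∑ r ∈ I, κ r * (q (j + r) *
      (g (j + r) - u + K * τ0 - K * ch r)) := by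
    by_contra hcon
    push Not at hcon
    exact absurd (sum_nonpos hcon) (not_le.mpr hsum)
  set ν : ℝ := ∑ r ∈ I, κ r * q (j + r) with hν
  set X : ℝ := ∑ r ∈ I, κ r * q (j + r) * g (j + r) with hX
  set bad : ℝ := ∑ r ∈ I, κ r * q (j + r) * ch r with hbad
  have hj' : 0 < X - u * ν + K * τ0 * ν - K * bad := by
    have : ∑ r ∈ I, κ r * (q (j + r) * (g (j + r) - u + K * τ0 - K * ch r)) =
        X - u * ν + K * τ0 * ν - K * bad := by
      rw [hX, hν, hbad, mul_sum, mul_sum, mul_sum, ← sum_sub_distrib, ← sum_add_distrib,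
        ← sum_sub_distrib]
      exact sum_congr rfl fun r _ => by ring
    rw [← this]
    exact hj
  have hterm : ∀ r, 0 ≤ κ r * q (j + r) := fun r => mul_nonneg (hκ0 r) (hq0 _)
  have hch0 : ∀ r, 0 ≤ ch r := fun r => by simp only [hch]; split_ifs <;> norm_num
  have hch1 : ∀ r, ch r ≤ 1 := fun r => by simp only [hch]; split_ifs <;> norm_num
  have hν0 : 0 ≤ ν := sum_nonneg fun r _ => hterm r
  have hbad0 : 0 ≤ bad := sum_nonneg fun r _ => mul_nonneg (hterm r) (hch0 r)
  have hXle : X ≤ G * ν := by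
    rw [hX, hν, mul_sum]
    refine sum_le_sum fun r _ => ?_
    have := (abs_le.mp (hg.bdd (j + r))).2
    nlinarith [hterm r]
  have hνpos : 0 < ν := by
    rcases hν0.lt_or_eq with h | h
    · exact h
    · exfalso
      rw [← h] at hj' hXle
      nlinarith
  have hbadlt : K * bad < (G + K * τ0) * ν := by nlinarith
  set c : ℂ := ((1 / Real.sqrt ν : ℝ) : ℂ) with hc
  have hc2 : ‖c‖ ^ 2 = 1 / ν := by
    rw [hc, Complex.norm_real, Real.norm_eq_abs, sq_abs, div_pow, one_pow,
      Real.sq_sqrt hν0]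
  have hpkv : ∀ r, pk (2 * M + 1) (C c * wj j) (j + r) = κ r * q (j + r) / ν := by
    intro r
    rw [(hscal (2 * M + 1) (wj j) c).2, hpkj, hc2]
    ring
  -- near sums
  have hnear : ∀ F : ℤ → ℝ, ∑ k ∈ Icc (j - W) (j + W), F k * pk (2 * M + 1) (C c * wj j) k =
      (∑ r ∈ I, κ r * q (j + r) * F (j + r) - ∑ r ∈ I, κ r * q (j + r) * ch r * F (j + r)) / ν := by
    intro F
    have e : j - (W : ℤ) = j + -(W : ℤ) := by ring
    rw [e, pigeon_shift, ← sum_sub_distrib, sum_div]
    have hsub : Icc (-(W : ℤ)) W ⊆ I := by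
      intro x hx
      simp only [hI, mem_Icc] at hx ⊢
      omega
    rw [← sum_subset hsub]
    · refine sum_congr rfl fun r hr => ?_
      have h0 : ch r = 0 := by
        simp only [mem_Icc] at hr
        simp only [hch]
        rw [if_neg]
        rw [not_lt, abs_le]
        omega
      rw [hpkv, h0]
      ring
    · intro r _ hr
      have h1 : ch r = 1 := by
        simp only [hch]
        rw [if_pos]
        by_contra hcon
        rw [not_lt, abs_le] at hcon
        exact hr (by simp only [mem_Icc]; omega)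
      rw [h1]
      ring
  refine ⟨j, hjI, C c * wj j, ?_, ?_, ?_, ?_⟩
  · have hcne : c ≠ 0 := by
      intro h0
      rw [h0] at hc2
      simp at hc2
      exact absurd hc2.symm hνpos.ne'
    rw [degree_mul, degree_C hcne, zero_add]
    exact hwdeg j n H hw hA.deg
  · rw [(hscal (2 * M + 1) (wj j) c).1, hc2, hnsqj j, ← hν]
    field_simp
  · have h1 := hnear (fun _ => 1)
    simp only [one_mul, mul_one] at h1
    rw [h1]
    have h2 : ∑ r ∈ I, κ r * q (j + r) = ν := rfl
    have h3 : ∑ r ∈ I, κ r * q (j + r) * ch r = bad := rfl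
    rw [h2, h3, le_div_iff₀ hνpos]
    have h4 : bad ≤ (τ0 + G / K) * ν := by
      have : K * bad ≤ K * ((τ0 + G / K) * ν) := by
        have e : K * ((τ0 + G / K) * ν) = (G + K * τ0) * ν := by field_simp; ring
        rw [e]; exact hbadlt.le
      exact le_of_mul_le_mul_left this hK
    nlinarith
  · rw [hnear g, lt_div_iff₀ hνpos]
    have h2 : ∑ r ∈ I, κ r * q (j + r) * g (j + r) = X := rfl
    rw [h2]
    have h3 : ∑ r ∈ I, κ r * q (j + r) * ch r * g (j + r) ≤ G * bad := by
      rw [hbad, mul_sum]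
      refine sum_le_sum fun r _ => ?_
      have := (abs_le.mp (hg.bdd (j + r))).2
      have h5 : 0 ≤ κ r * q (j + r) * ch r := mul_nonneg (hterm r) (hch0 r)
      nlinarith
    have h4 : bad ≤ (τ0 + G / K) * ν := by
      have : K * bad ≤ K * ((τ0 + G / K) * ν) := by
        have e : K * ((τ0 + G / K) * ν) = (G + K * τ0) * ν := by field_simp; ring
        rw [e]; exact hbadlt.le
      exact le_of_mul_le_mul_left this hK
    have h5 : G * bad ≤ G * ((τ0 + G / K) * ν) := mul_le_mul_of_nonneg_left h4 hG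
    have h6 : 0 ≤ K * bad := mul_nonneg hK.le hbad0
    nlinarith

end Pool.Agent.Work.MP_3574a2_pr.Dil
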