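import Pool.Agent.Work.MP_3574a2_pr.Dil.Claims

/-!
# Item A10: tail regularity
-/

set_option autoImplicit false

namespace Pool.Agent.Work.MP_3574a2_pr.Dil

open MeasureTheory ProbabilityTheory Set Polynomial Filter Topology
open scoped ENNReal NNReal

theorem Reg_rr (n : ℕ) :
    ((rr n : ℝ)) ^ 40 ≤ Real.log n ∧ Real.log n < ((rr n : ℝ) + 1) ^ 40 := by
  have h0 : 0 ≤ Real.log n := Real.log_natCast_nonneg n
  set x : ℝ := (Real.log n) ^ (1 / 40 : ℝ) with hx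
  have hx0 : 0 ≤ x := Real.rpow_nonneg h0 _
  have hx40 : x ^ 40 = Real.log n := by
    rw [hx, ← Real.rpow_natCast, ← Real.rpow_mul h0]
    norm_num
  have h1 : ((rr n : ℕ) : ℝ) ≤ x := Nat.floor_le hx0
  have h2 : x < (rr n : ℝ) + 1 := Nat.lt_floor_add_one x
  constructor
  · rw [← hx40]
    exact pow_le_pow_left₀ (Nat.cast_nonneg _) h1 40
  · rw [← hx40]
    exact pow_lt_pow_left₀ h2 hx0 (by norm_num)

theorem Reg_tendsto : Tendsto rr atTop atTop := by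
  unfold rr
  apply tendsto_nat_floor_atTop.comp
  apply (tendsto_rpow_atTop (by norm_num)).comp
  exact Real.tendsto_log_atTop.comp tendsto_natCast_atTop_atTop

theorem Reg_large (C : ℝ) (hC : 0 < C) : ∀ᶠ r : ℕ in atTop, 2 ≤ r ∧
    (r : ℝ) ^ 40 / 2 + C * (r : ℝ) ^ 30 < (r : ℝ) ^ 40 - 48 * Real.log r ∧
    ((r : ℝ) + 1) ^ 40 < 2 * (r : ℝ) ^ 40 - C * (r : ℝ) ^ 30 := by
  have hlim : Tendsto (fun r : ℕ => (1 + 1 / (r : ℝ)) ^ 40 + C * (1 / (r : ℝ)) ^ 10) atTop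
      (𝓝 ((1 + 0) ^ 40 + C * 0 ^ 10)) :=
    ((tendsto_const_nhds.add tendsto_one_div_atTop_nhds_zero_nat).pow 40).add
      (tendsto_const_nhds.mul (tendsto_one_div_atTop_nhds_zero_nat.pow 10))
  have hev := hlim.eventually_lt_const (show ((1 + 0) ^ 40 + C * 0 ^ 10 : ℝ) < 2 by norm_num)
  obtain ⟨k, hk⟩ := exists_nat_gt (2 * (C + 48))
  filter_upwards [hev, eventually_ge_atTop 2, eventually_ge_atTop k] with r h1 h2 h3
  have hr2 : (2 : ℝ) ≤ r := by exact_mod_cast h2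
  have hrk : 2 * (C + 48) < r := hk.trans_le (by exact_mod_cast h3)
  have hr0 : (0 : ℝ) < r := by linarith
  refine ⟨h2, ?_, ?_⟩
  · have hlog : Real.log r ≤ r := (Real.log_le_sub_one_of_pos hr0).trans (by linarith)
    have e1 : (r : ℝ) ≤ (r : ℝ) ^ 30 := le_self_pow₀ (by linarith) (by norm_num)
    have e2 : (r : ℝ) ≤ (r : ℝ) ^ 10 := le_self_pow₀ (by linarith) (by norm_num)
    have e3 : (r : ℝ) ^ 40 = (r : ℝ) ^ 30 * (r : ℝ) ^ 10 := by ring
    have e4 : (0 : ℝ) < (r : ℝ) ^ 30 := by positivity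
    have e5 : (r : ℝ) ^ 30 * (2 * (C + 48)) < (r : ℝ) ^ 30 * (r : ℝ) ^ 10 :=
      mul_lt_mul_of_pos_left (hrk.trans_le e2) e4
    rw [e3]
    nlinarith
  · have e4 : (0 : ℝ) < (r : ℝ) ^ 40 := by positivity
    have e5 := mul_lt_mul_of_pos_left h1 e4
    have e6 : (r : ℝ) ^ 40 * ((1 + 1 / (r : ℝ)) ^ 40 + C * (1 / (r : ℝ)) ^ 10) =
        ((r : ℝ) + 1) ^ 40 + C * (r : ℝ) ^ 30 := by
      rw [mul_add, ← mul_pow]
      have : (r : ℝ) * (1 + 1 / (r : ℝ)) = r + 1 := by field_simp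
      rw [this]
      congr 1
      rw [div_pow, one_pow]
      field_simp
    rw [e6] at e5
    linarith

/-- continuity of the tail -/
theorem Reg_cont {N : ℕ} {P : Set (Fin N → ℝ)} {c : ℝ}
    (h : ConcaveOn ℝ (Ioi (0 : ℝ))
      (fun κ => -Real.log (Fb P (Real.sqrt κ * c)) + (N / 2 : ℝ) * Real.log κ)) :
    ContinuousOn (fun v : ℝ => -Real.log (Fb P (c * v))) (Ioi 0) := by
  have h1 : ContinuousOn (fun κ => -Real.log (Fb P (Real.sqrt κ * c)) +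
      (N / 2 : ℝ) * Real.log κ) (Ioi (0 : ℝ)) := h.continuousOn isOpen_Ioi
  have h2 : ContinuousOn (fun v : ℝ => v ^ 2) (Ioi (0 : ℝ)) := by fun_prop
  have h3 : MapsTo (fun v : ℝ => v ^ 2) (Ioi (0 : ℝ)) (Ioi 0) := fun v hv => by
    have : (0 : ℝ) < v := hv
    exact pow_pos this 2
  have h4 := h1.comp h2 h3
  have h5 : ContinuousOn (fun v : ℝ => (N / 2 : ℝ) * Real.log (v ^ 2)) (Ioi (0 : ℝ)) := by
    apply continuousOn_const.mul
    apply Real.continuousOn_log.comp h2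
    intro v hv
    have : (0 : ℝ) < v := hv
    exact (pow_pos this 2).ne'
  refine (h4.sub h5).congr ?_
  intro v hv
  have hv' : (0 : ℝ) < v := hv
  simp only [Pi.sub_apply, Function.comp_apply]
  rw [Real.sqrt_sq hv'.le, mul_comm v c]
  ring

theorem Reg_exists (hLow : ClaimLow) (hConc : ClaimConc) {n : ℕ} {C : ℝ}
    (P : Set (Fin (NN n) → ℝ)) (hn : 1 ≤ n) (hS : Simp P) (hsig : 0 < sig P)
    (hr : 2 ≤ rr n)
    (h1 : (rr n : ℝ) ^ 40 / 2 + C * (rr n : ℝ) ^ 30 < (rr n : ℝ) ^ 40 - 48 * Real.log (rr n))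
    (h2 : ((rr n : ℝ) + 1) ^ 40 < 2 * (rr n : ℝ) ^ 40 - C * (rr n : ℝ) ^ 30)
    (hT : ∀ y : ℝ, (rr n : ℝ) ^ 20 / 2 ≤ y → y ≤ 6 * (rr n : ℝ) ^ 20 →
      |-Real.log (Fb P (sig P * y)) - y ^ 2 / 2| ≤ C * (rr n : ℝ) ^ 30) :
    ∃ s ∈ Icc ((rr n : ℝ) ^ 20) (2 * (rr n : ℝ) ^ 20),
      -Real.log (Fb P (sig P * s)) = Real.log ((n : ℝ) / NN n) := by
  have hr0 : (0 : ℝ) < rr n := by
    have : (2 : ℝ) ≤ rr n := by exact_mod_cast hr
    linarith
  have hr20 : (0 : ℝ) < (rr n : ℝ) ^ 20 := by positivity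
  have hpos : ∀ v, 0 < v → 0 < Fb P v := fun v hv =>
    lt_of_lt_of_le (by positivity) (hLow _ P hS hsig v hv.le)
  have hcont := (Reg_cont (hConc _ P hS hpos (sig P) hsig)).mono
    (show Icc ((rr n : ℝ) ^ 20) (2 * (rr n : ℝ) ^ 20) ⊆ Ioi 0 from fun v hv => by
      exact lt_of_lt_of_le hr20 hv.1)
  have hlog : Real.log ((n : ℝ) / NN n) = Real.log n - 48 * Real.log (rr n) := by
    have hn0 : (n : ℝ) ≠ 0 := by
      have : (1 : ℝ) ≤ n := by exact_mod_cast hn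
      linarith
    have : ((NN n : ℕ) : ℝ) = (rr n : ℝ) ^ 48 := by unfold NN; push_cast; ring
    rw [this, Real.log_div hn0 (by positivity), Real.log_pow]
    norm_num
  obtain ⟨hl1, hl2⟩ := Reg_rr n
  have hlr : 0 ≤ Real.log (rr n : ℝ) := Real.log_natCast_nonneg _
  have ha := hT ((rr n : ℝ) ^ 20) (by linarith) (by linarith)
  have hb := hT (2 * (rr n : ℝ) ^ 20) (by linarith) (by linarith)
  have e1 : ((rr n : ℝ) ^ 20) ^ 2 = (rr n : ℝ) ^ 40 := by ring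
  have e2 : (2 * (rr n : ℝ) ^ 20) ^ 2 = 4 * (rr n : ℝ) ^ 40 := by ring
  rw [e1] at ha
  rw [e2] at hb
  have ha' := (abs_le.mp ha).2
  have hb' := (abs_le.mp hb).1
  have hmem : Real.log ((n : ℝ) / NN n) ∈ Icc (-Real.log (Fb P (sig P * (rr n : ℝ) ^ 20)))
      (-Real.log (Fb P (sig P * (2 * (rr n : ℝ) ^ 20)))) := by
    rw [hlog]
    constructor <;> linarith
  obtain ⟨s, hs, hse⟩ := intermediate_value_Icc (by linarith) hcont hmem
  exact ⟨s, hs, hse⟩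


/-- the estimate at a fixed good `n` -/
theorem Reg_step (hLow : ClaimLow) (hConc : ClaimConc) (hSlope : ClaimSlope) {N r : ℕ} {C s ξ L : ℝ}
    (P : Set (Fin N → ℝ)) (hC : 0 < C) (hN : N = r ^ 48) (hS : Simp P) (hsig : 0 < sig P)
    (hr : 2 ≤ r) (hs : s ∈ Icc ((r : ℝ) ^ 20) (2 * (r : ℝ) ^ 20))
    (hL : -Real.log (Fb P (sig P * s)) = L)
    (hT : ∀ y : ℝ, (r : ℝ) ^ 20 / 2 ≤ y → y ≤ 6 * (r : ℝ) ^ 20 →
      |-Real.log (Fb P (sig P * y)) - y ^ 2 / 2| ≤ C * (r : ℝ) ^ 30)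
    (hξ : 2 * |ξ| + ξ ^ 2 ≤ r) :
    ∃ e : ℝ, |e| ≤ (2 * |ξ| + ξ ^ 2) * (2 * C + 4) / r ∧
      Real.exp L * Fb P (sig P * s * (1 + ξ / s ^ 2)) =
        Real.exp (-(ξ + ξ ^ 2 / (2 * s ^ 2) + e)) := by
  have hr2 : (2 : ℝ) ≤ r := by exact_mod_cast hr
  have hr0 : (0 : ℝ) < r := by linarith
  have hr1 : (1 : ℝ) ≤ r := by linarith
  have hr20 : (0 : ℝ) < (r : ℝ) ^ 20 := by positivity
  have hs0 : 0 < s := lt_of_lt_of_le hr20 hs.1
  have hs2 : (r : ℝ) ^ 40 ≤ s ^ 2 := by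
    have : (r : ℝ) ^ 40 = ((r : ℝ) ^ 20) ^ 2 := by ring
    rw [this]
    exact pow_le_pow_left₀ hr20.le hs.1 2
  have hs2' : 0 < s ^ 2 := by positivity
  have hpos : ∀ v, 0 < v → 0 < Fb P v := fun v hv =>
    lt_of_lt_of_le (by positivity) (hLow _ P hS hsig v hv.le)
  have hr40 : (1 : ℝ) ≤ (r : ℝ) ^ 40 := one_le_pow₀ hr1
  have hs1 : 1 ≤ s ^ 2 := hr40.trans hs2
  set κ : ℝ := (1 + ξ / s ^ 2) ^ 2 with hκ
  -- smallness
  have habs : |κ - 1| ≤ (2 * |ξ| + ξ ^ 2) / (r : ℝ) ^ 40 := by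
    have e1 : κ - 1 = (2 * ξ + ξ ^ 2 / s ^ 2) / s ^ 2 := by
      rw [hκ]; field_simp; ring
    rw [e1, abs_div, abs_of_pos hs2']
    have e2 : |2 * ξ + ξ ^ 2 / s ^ 2| ≤ 2 * |ξ| + ξ ^ 2 := by
      refine (abs_add_le _ _).trans ?_
      rw [abs_mul, abs_of_pos (show (0 : ℝ) < 2 by norm_num)]
      have : |ξ ^ 2 / s ^ 2| ≤ ξ ^ 2 := by
        rw [abs_of_nonneg (by positivity)]
        exact div_le_self (sq_nonneg _) hs1
      linarith
    have e3 : 0 ≤ 2 * |ξ| + ξ ^ 2 := by positivity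
    gcongr
  have hw : |κ - 1| ≤ ((r : ℝ) ^ 9)⁻¹ := by
    refine habs.trans ?_
    rw [div_le_iff₀ (by positivity)]
    have e4 : ((r : ℝ) ^ 9)⁻¹ * (r : ℝ) ^ 40 = (r : ℝ) ^ 31 := by
      field_simp
    rw [e4]
    exact hξ.trans (le_self_pow₀ hr1 (by norm_num))
  have hw8 : ((r : ℝ) ^ 9)⁻¹ ≤ 1 / 8 := by
    rw [one_div]
    apply inv_anti₀ (by norm_num)
    calc (8 : ℝ) ≤ 2 ^ 9 := by norm_num
      _ ≤ (r : ℝ) ^ 9 := pow_le_pow_left₀ (by norm_num) hr2 9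
  have hpos1 : 0 < 1 + ξ / s ^ 2 := by
    have h1 : |ξ / s ^ 2| < 1 := by
      rw [abs_div, abs_of_pos hs2', div_lt_one hs2']
      have h2 : |ξ| ≤ r / 2 := by nlinarith [sq_nonneg ξ]
      have h3 : (r : ℝ) ≤ (r : ℝ) ^ 40 := le_self_pow₀ hr1 (by norm_num)
      linarith
    have := (abs_lt.mp h1).1
    linarith
  have hsqrt : Real.sqrt κ = 1 + ξ / s ^ 2 := by
    rw [hκ]; exact Real.sqrt_sq hpos1.le
  have hconc := hConc N P hS hpos (sig P * s) (by positivity)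
  have hmain := hSlope (N : ℝ) (C * (r : ℝ) ^ 30) s ((r : ℝ) ^ 9)⁻¹
    (fun κ => -Real.log (Fb P (Real.sqrt κ * (sig P * s)))) (Nat.cast_nonneg _) (by positivity)
    (by positivity) hw8 hconc (by
      intro k hk
      have hk0 : (0 : ℝ) ≤ k := by linarith [hk.1]
      have hq1 : 1 / 2 ≤ Real.sqrt k := by
        apply Real.le_sqrt_of_sq_le
        linarith [hk.1]
      have hq2 : Real.sqrt k ≤ 2 := by
        rw [Real.sqrt_le_left (by norm_num)]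
        linarith [hk.2]
      have h1 := hT (Real.sqrt k * s) (by nlinarith [hs.1]) (by nlinarith [hs.2])
      have e1 : sig P * (Real.sqrt k * s) = Real.sqrt k * (sig P * s) := by ring
      have e2 : (Real.sqrt k * s) ^ 2 / 2 = k * s ^ 2 / 2 := by
        rw [mul_pow, Real.sq_sqrt hk0]
      rw [e1, e2] at h1
      exact h1) κ hw
  simp only [Real.sqrt_one, one_mul] at hmain
  rw [hL, hsqrt] at hmain
  refine ⟨-Real.log (Fb P ((1 + ξ / s ^ 2) * (sig P * s))) - L - (κ - 1) * s ^ 2 / 2, ?_, ?_⟩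
  · refine hmain.trans ?_
    have e1 : 2 * (C * (r : ℝ) ^ 30) / ((r : ℝ) ^ 9)⁻¹ + 4 * (N : ℝ) * ((r : ℝ) ^ 9)⁻¹ =
        (2 * C + 4) * (r : ℝ) ^ 39 := by
      rw [hN]
      push_cast
      field_simp
    rw [e1]
    calc |κ - 1| * ((2 * C + 4) * (r : ℝ) ^ 39) ≤
        (2 * |ξ| + ξ ^ 2) / (r : ℝ) ^ 40 * ((2 * C + 4) * (r : ℝ) ^ 39) := by gcongr
      _ = (2 * |ξ| + ξ ^ 2) * (2 * C + 4) / r := by field_simp
  · have e1 : sig P * s * (1 + ξ / s ^ 2) = (1 + ξ / s ^ 2) * (sig P * s) := by ring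
    rw [e1]
    have hp1 : 0 < Fb P ((1 + ξ / s ^ 2) * (sig P * s)) := hpos _ (by positivity)
    have e2 : ξ + ξ ^ 2 / (2 * s ^ 2) = (κ - 1) * s ^ 2 / 2 := by
      rw [hκ]; field_simp; ring
    rw [e2]
    conv_lhs => rw [← Real.exp_log hp1]
    rw [← Real.exp_add]
    congr 1
    ring

theorem claimReg (hConc : ClaimConc) (hLow : ClaimLow) (hTwo : ClaimTwo) (hSlope : ClaimSlope) :
    ClaimReg := by
  classical
  intro c0 P hc0 hP
  obtain ⟨C, r0, hC, hT⟩ := hTwo c0 hc0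
  have hlarge := Reg_tendsto.eventually (Reg_large C hC)
  have hr0 := Reg_tendsto.eventually (eventually_ge_atTop r0)
  have hT' : ∀ᶠ n in atTop, ∀ y : ℝ, (rr n : ℝ) ^ 20 / 2 ≤ y → y ≤ 6 * (rr n : ℝ) ^ 20 →
      |-Real.log (Fb (P n) (sig (P n) * y)) - y ^ 2 / 2| ≤ C * (rr n : ℝ) ^ 30 := by
    filter_upwards [hP, hr0] with n h1 h2
    exact hT (rr n) h2 (P n) h1.1 h1.2
  let Q : ℕ → ℝ → Prop := fun n s => s ∈ Icc ((rr n : ℝ) ^ 20) (2 * (rr n : ℝ) ^ 20) ∧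
      -Real.log (Fb (P n) (sig (P n) * s)) = Real.log ((n : ℝ) / NN n)
  let s : ℕ → ℝ := fun n => if h : ∃ s, Q n s then h.choose else 1
  have hs : ∀ᶠ n in atTop, Q n (s n) := by
    filter_upwards [hP, hlarge, hT', eventually_ge_atTop 1] with n h1 h2 h3 h4
    have hex : ∃ s, Q n s := by
      obtain ⟨s, hs1, hs2⟩ := Reg_exists hLow hConc (P n) h4 h1.1 (hc0.trans_le h1.2) h2.1
        h2.2.1 h2.2.2 h3
      exact ⟨s, hs1, hs2⟩
    simp only [s]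
    rw [dif_pos hex]
    exact hex.choose_spec
  refine ⟨fun n => sig (P n) * s n, ?_, ?_⟩
  · filter_upwards [hP, hs] with n h1 h2
    have h3 : 0 < sig (P n) := hc0.trans_le h1.2
    rw [mul_div_cancel_left₀ _ h3.ne']
    exact h2.1
  · intro x ξ hξ
    have hrr : Tendsto (fun n => (1 : ℝ) / (rr n : ℝ)) atTop (𝓝 0) :=
      tendsto_one_div_atTop_nhds_zero_nat.comp Reg_tendsto
    have hbig : Tendsto (fun n => (2 * |ξ n| + ξ n ^ 2) * (1 / (rr n : ℝ))) atTop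
        (𝓝 ((2 * |x| + x ^ 2) * 0)) :=
      ((hξ.abs.const_mul 2).add (hξ.pow 2)).mul hrr
    rw [mul_zero] at hbig
    have hsmall : ∀ᶠ n in atTop, 2 * |ξ n| + ξ n ^ 2 ≤ rr n := by
      filter_upwards [hbig.eventually_lt_const (show (0 : ℝ) < 1 by norm_num), hlarge] with n h1 h2
      have h3 : (0 : ℝ) < rr n := by
        have : (2 : ℝ) ≤ rr n := by exact_mod_cast h2.1
        linarith
      rw [mul_one_div, div_lt_one h3] at h1
      exact h1.le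
    have hstep : ∀ᶠ n in atTop, ∃ e : ℝ,
        |e| ≤ (2 * |ξ n| + ξ n ^ 2) * (2 * C + 4) / rr n ∧
        (n : ℝ) / NN n * Fb (P n) (sig (P n) * s n * (1 + ξ n / (s n) ^ 2)) =
          Real.exp (-(ξ n + ξ n ^ 2 / (2 * s n ^ 2) + e)) := by
      filter_upwards [hP, hs, hlarge, hT', hsmall, eventually_ge_atTop 1] with n h1 h2 h3 h4 h5 h6
      obtain ⟨e, he1, he2⟩ := Reg_step hLow hConc hSlope (P n) hC rfl h1.1 (hc0.trans_le h1.2)
        h3.1 h2.1 h2.2 h4 h5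
      refine ⟨e, he1, ?_⟩
      rw [← he2, Real.exp_log]
      have h7 : (0 : ℝ) < n := by exact_mod_cast h6
      have h8 : (0 : ℝ) < NN n := by
        have : 0 < NN n := by
          unfold NN
          have := h3.1
          positivity
        exact_mod_cast this
      positivity
    have hstep' : ∃ e : ℕ → ℝ, ∀ᶠ n in atTop,
        |e n| ≤ (2 * |ξ n| + ξ n ^ 2) * (2 * C + 4) / rr n ∧
        (n : ℝ) / NN n * Fb (P n) (sig (P n) * s n * (1 + ξ n / (s n) ^ 2)) =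
          Real.exp (-(ξ n + ξ n ^ 2 / (2 * s n ^ 2) + e n)) := by
      have := hstep.exists_forall_of_atTop
      obtain ⟨n0, hn0⟩ := this
      choose! e he using hn0
      exact ⟨e, eventually_atTop.mpr ⟨n0, he⟩⟩
    obtain ⟨e, he⟩ := hstep'
    have he0 : Tendsto e atTop (𝓝 0) := by
      rw [tendsto_zero_iff_abs_tendsto_zero]
      have hb2 := hbig.mul_const (2 * C + 4)
      rw [zero_mul] at hb2
      refine squeeze_zero' (Eventually.of_forall fun n => abs_nonneg _) ?_ hb2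
      filter_upwards [he] with n h1
      refine h1.1.trans (le_of_eq ?_)
      ring
    have hs0 : Tendsto (fun n => ξ n ^ 2 / (2 * s n ^ 2)) atTop (𝓝 0) := by
      have h1 : Tendsto (fun n => ξ n ^ 2 * (1 / (rr n : ℝ))) atTop (𝓝 (x ^ 2 * 0)) :=
        (hξ.pow 2).mul hrr
      rw [mul_zero] at h1
      refine squeeze_zero' (Eventually.of_forall fun n => by positivity) ?_ h1
      filter_upwards [hs, hlarge] with n h2 h3
      have h4 : (2 : ℝ) ≤ rr n := by exact_mod_cast h3.1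
      have h5 : (rr n : ℝ) ≤ (rr n : ℝ) ^ 20 := le_self_pow₀ (by linarith) (by norm_num)
      have h6 : (rr n : ℝ) ≤ s n := h5.trans h2.1.1
      have h7 : (rr n : ℝ) ≤ 2 * s n ^ 2 := by nlinarith
      rw [mul_one_div]
      have h8 : (0 : ℝ) < rr n := by linarith
      gcongr
    have hfin : Tendsto (fun n => Real.exp (-(ξ n + ξ n ^ 2 / (2 * s n ^ 2) + e n))) atTop
        (𝓝 (Real.exp (-(x + 0 + 0)))) :=
      (Real.continuous_exp.tendsto _).comp (((hξ.add hs0).add he0).neg)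
    rw [add_zero, add_zero] at hfin
    refine hfin.congr' ?_
    filter_upwards [he, hP] with n h1 h2
    have h3 : 0 < sig (P n) := hc0.trans_le h2.2
    rw [mul_div_cancel_left₀ _ h3.ne']
    exact h1.2.symm

end Pool.Agent.Work.MP_3574a2_pr.Dil
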