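import Pool.Agent.Work.MP_3574a2_pr.Dil.Claims

/-!
# A9: slopes of a concave function between two close lines
-/

set_option autoImplicit false

namespace Pool.Agent.Work.MP_3574a2_pr.Dil

open Set

theorem slope_adj (H : ℝ → ℝ) (hH : ConcaveOn ℝ (Ioi (0 : ℝ)) H) (x y z : ℝ) (h0 : 0 < x)
    (h1 : x < y) (h2 : y < z) : (H z - H y) * (y - x) ≤ (H y - H x) * (z - y) := by
  have h := hH.slope_anti_adjacent (x := x) (y := y) (z := z) h0 (h0.trans (h1.trans h2)) h1 h2
  rwa [div_le_div_iff₀ (by linarith) (by linarith)] at h

/-- Final step: division by `w`. -/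
theorem slope_fin (X w h N E s : ℝ) (hw : 0 < w) (hh : 0 ≤ h) (hN : 0 ≤ N)
    (hX : X * w ≤ h * (w * s ^ 2 / 2 + 2 * E) + N / 2 * (w * h * (3 * w))) :
    X ≤ h * s ^ 2 / 2 + h * (2 * E / w + 4 * N * w) := by
  refine le_of_mul_le_mul_right ?_ hw
  refine hX.trans ?_
  have e1 : (h * s ^ 2 / 2 + h * (2 * E / w + 4 * N * w)) * w =
      h * (w * s ^ 2 / 2 + 2 * E) + 4 * N * w * w * h := by
    field_simp
    ring
  rw [e1]
  have : 0 ≤ N * w * w * h := by positivity
  nlinarith

/-- **A9**. -/
theorem claimSlope : ClaimSlope := by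
  intro N E s w F hN hE hw hw8 hH hF κ hκ
  have hb := abs_le.1 hκ
  have l1 : ∀ x : ℝ, 0 < x → Real.log x ≤ x - 1 := fun x hx => Real.log_le_sub_one_of_pos hx
  have l2 : ∀ x : ℝ, 0 < x → 1 - x⁻¹ ≤ Real.log x := fun x hx => Real.one_sub_inv_le_log_of_pos hx
  have hF' : ∀ x : ℝ, 1 / 2 ≤ x → x ≤ 3 / 2 → x * s ^ 2 / 2 - E ≤ F x ∧ F x ≤ x * s ^ 2 / 2 + E := by
    intro x h1 h2
    have := abs_le.1 (hF x ⟨h1, h2⟩)
    constructor <;> linarith
  have hN2 : 0 ≤ N / 2 := by linarith
  rcases lt_trichotomy κ 1 with hlt | rfl | hgt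
  · -- below one
    set h : ℝ := 1 - κ with hh
    have hh0 : 0 < h := by linarith
    have hhw : h ≤ w := by linarith
    have hκ0 : 0 < κ := by linarith
    have habs : |κ - 1| = h := by rw [abs_of_neg (by linarith)]; linarith
    rw [habs, abs_le]
    have f1 := hF' 1 (by norm_num) (by norm_num)
    have fk := hF' κ (by linarith) (by linarith)
    have fkw := hF' (κ - w) (by linarith) (by linarith)
    have f1w := hF' (1 + w) (by linarith) (by linarith)
    constructor
    · -- upper bound of F 1 - F κ
      have hs := slope_adj _ hH (κ - w) κ 1 (by linarith) (by linarith) hlt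
      simp only [Real.log_one, mul_zero, add_zero] at hs
      have g1 : Real.log κ - Real.log (κ - w) ≤ w * (1 + 3 * w) := by
        have e1 : Real.log κ - Real.log (κ - w) = - Real.log ((κ - w) / κ) := by
          rw [Real.log_div (by linarith) (by linarith)]
          ring
        have e2 := l2 ((κ - w) / κ) (div_pos (by linarith) hκ0)
        have e3 : ((κ - w) / κ)⁻¹ = 1 + w / (κ - w) := by
          have : κ - w ≠ 0 := by linarith
          field_simp
          ring
        have e4 : w / (κ - w) ≤ w * (1 + 3 * w) := by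
          rw [div_le_iff₀ (by linarith)]
          have e5 : 1 ≤ (1 + 3 * w) * (κ - w) := by nlinarith
          nlinarith
        linarith
      have g2 := l1 κ hκ0
      have key : (F 1 - F κ) * w ≤ h * (w * s ^ 2 / 2 + 2 * E) + N / 2 * (w * h * (3 * w)) := by
        have k1 : (F 1 - (F κ + N / 2 * Real.log κ)) * w ≤
            (F κ + N / 2 * Real.log κ - (F (κ - w) + N / 2 * Real.log (κ - w))) * h := by
          have : κ - (κ - w) = w := by ring
          rw [this] at hs
          exact hs
        have k2 : N / 2 * (Real.log κ - Real.log (κ - w)) ≤ N / 2 * (w * (1 + 3 * w)) :=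
          mul_le_mul_of_nonneg_left g1 hN2
        have k3 : N / 2 * Real.log κ ≤ N / 2 * (-h) :=
          mul_le_mul_of_nonneg_left (by linarith) hN2
        have k4 : F κ - F (κ - w) ≤ w * s ^ 2 / 2 + 2 * E := by
          have := fk.2
          have := fkw.1
          nlinarith
        have k5 : (F κ + N / 2 * Real.log κ - (F (κ - w) + N / 2 * Real.log (κ - w))) * h ≤
            (w * s ^ 2 / 2 + 2 * E + N / 2 * (w * (1 + 3 * w))) * h :=
          mul_le_mul_of_nonneg_right (by linarith) hh0.le
        have k6 : N / 2 * Real.log κ * w ≤ N / 2 * (-h) * w := mul_le_mul_of_nonneg_right k3 hw.le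
        nlinarith
      have := slope_fin (F 1 - F κ) w h N E s hw hh0.le hN key
      have e7 : (κ - 1) * s ^ 2 / 2 = -(h * s ^ 2 / 2) := by rw [hh]; ring
      rw [e7]
      linarith
    · -- lower bound of F 1 - F κ
      have hs := slope_adj _ hH κ 1 (1 + w) hκ0 hlt (by linarith)
      simp only [Real.log_one, mul_zero, add_zero] at hs
      have g1 : w * (1 - w) ≤ Real.log (1 + w) := by
        have e2 := l2 (1 + w) (by linarith)
        have e3 : 1 - (1 + w)⁻¹ = w / (1 + w) := by
          have : (1 : ℝ) + w ≠ 0 := by linarith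
          field_simp
          ring
        have e4 : w * (1 - w) ≤ w / (1 + w) := by
          rw [le_div_iff₀ (by linarith)]
          nlinarith [mul_pos hw hw]
        linarith
      have g2 : -(h * (1 + 2 * w)) ≤ Real.log κ := by
        have e2 := l2 κ hκ0
        have e3 : 1 - κ⁻¹ = -(h / κ) := by
          rw [hh]
          field_simp
          ring
        have e4 : h / κ ≤ h * (1 + 2 * w) := by
          rw [div_le_iff₀ hκ0]
          have e5 : 1 ≤ (1 + 2 * w) * κ := by nlinarith
          nlinarith
        linarith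
      have key : (F κ - F 1) * w ≤ h * (w * 0 ^ 2 / 2 + (2 * E - w * s ^ 2 / 2)) +
          N / 2 * (w * h * (3 * w)) := by
        have k1 : (F (1 + w) + N / 2 * Real.log (1 + w) - F 1) * h ≤
            (F 1 - (F κ + N / 2 * Real.log κ)) * w := by
          have e1 : (1 : ℝ) + w - 1 = w := by ring
          rw [e1] at hs
          exact hs
        have k2 : N / 2 * (w * (1 - w)) ≤ N / 2 * Real.log (1 + w) :=
          mul_le_mul_of_nonneg_left g1 hN2
        have k3 : N / 2 * (-(h * (1 + 2 * w))) ≤ N / 2 * Real.log κ :=
          mul_le_mul_of_nonneg_left g2 hN2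
        have k4 : w * s ^ 2 / 2 - 2 * E ≤ F (1 + w) - F 1 := by
          have := f1.2
          have := f1w.1
          nlinarith
        have k5 : (w * s ^ 2 / 2 - 2 * E + N / 2 * (w * (1 - w))) * h ≤
            (F (1 + w) + N / 2 * Real.log (1 + w) - F 1) * h :=
          mul_le_mul_of_nonneg_right (by linarith) hh0.le
        have k6 : N / 2 * (-(h * (1 + 2 * w))) * w ≤ N / 2 * Real.log κ * w :=
          mul_le_mul_of_nonneg_right k3 hw.le
        nlinarith
      have hw' : (F κ - F 1) * w ≤ (-(h * s ^ 2 / 2) + h * (2 * E / w + 4 * N * w)) * w := by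
        refine key.trans ?_
        have e1 : (-(h * s ^ 2 / 2) + h * (2 * E / w + 4 * N * w)) * w =
            h * (2 * E - w * s ^ 2 / 2) + 4 * N * w * w * h := by
          field_simp
          ring
        rw [e1]
        have : 0 ≤ N * w * w * h := by positivity
        nlinarith
      have := le_of_mul_le_mul_right hw' hw
      have e7 : (κ - 1) * s ^ 2 / 2 = -(h * s ^ 2 / 2) := by rw [hh]; ring
      rw [e7]
      linarith
  · simp
  · -- above one
    set h : ℝ := κ - 1 with hh
    have hh0 : 0 < h := by linarith
    have hhw : h ≤ w := by linarith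
    have hκ0 : 0 < κ := by linarith
    have habs : |h| = h := abs_of_pos hh0
    rw [habs, abs_le]
    have f1 := hF' 1 (by norm_num) (by norm_num)
    have fk := hF' κ (by linarith) (by linarith)
    have fkw := hF' (κ + w) (by linarith) (by linarith)
    have f1w := hF' (1 - w) (by linarith) (by linarith)
    constructor
    · -- lower bound of F κ - F 1
      have hs := slope_adj _ hH 1 κ (κ + w) one_pos hgt (by linarith)
      simp only [Real.log_one, mul_zero, add_zero] at hs
      have g1 : w * (1 - 2 * w) ≤ Real.log (κ + w) - Real.log κ := by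
        have e1 : Real.log (κ + w) - Real.log κ = Real.log ((κ + w) / κ) := by
          rw [Real.log_div (by linarith) (by linarith)]
        have e2 := l2 ((κ + w) / κ) (div_pos (by linarith) hκ0)
        have e3 : 1 - ((κ + w) / κ)⁻¹ = w / (κ + w) := by
          have : κ + w ≠ 0 := by linarith
          field_simp
          ring
        have e4 : w * (1 - 2 * w) ≤ w / (κ + w) := by
          rw [le_div_iff₀ (by linarith)]
          have e5 : (1 - 2 * w) * (κ + w) ≤ 1 := by nlinarith
          nlinarith
        linarith
      have g2 := l1 κ hκ0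
      have key : (F 1 - F κ) * w ≤ h * (2 * E - w * s ^ 2 / 2) + N / 2 * (w * h * (3 * w)) := by
        have k1 : (F (κ + w) + N / 2 * Real.log (κ + w) - (F κ + N / 2 * Real.log κ)) * h ≤
            (F κ + N / 2 * Real.log κ - F 1) * w := by
          have e1 : κ + w - κ = w := by ring
          rw [e1] at hs
          exact hs
        have k2 : N / 2 * (w * (1 - 2 * w)) ≤ N / 2 * (Real.log (κ + w) - Real.log κ) :=
          mul_le_mul_of_nonneg_left g1 hN2
        have k3 : N / 2 * Real.log κ ≤ N / 2 * h :=
          mul_le_mul_of_nonneg_left (by linarith) hN2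
        have k4 : w * s ^ 2 / 2 - 2 * E ≤ F (κ + w) - F κ := by
          have := fk.2
          have := fkw.1
          nlinarith
        have k5 : (w * s ^ 2 / 2 - 2 * E + N / 2 * (w * (1 - 2 * w))) * h ≤
            (F (κ + w) + N / 2 * Real.log (κ + w) - (F κ + N / 2 * Real.log κ)) * h :=
          mul_le_mul_of_nonneg_right (by linarith) hh0.le
        have k6 : N / 2 * Real.log κ * w ≤ N / 2 * h * w := mul_le_mul_of_nonneg_right k3 hw.le
        nlinarith [mul_nonneg hN2 (mul_nonneg (mul_nonneg hw.le hw.le) hh0.le)]
      have hw' : (F 1 - F κ) * w ≤ (-(h * s ^ 2 / 2) + h * (2 * E / w + 4 * N * w)) * w := by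
        refine key.trans ?_
        have e1 : (-(h * s ^ 2 / 2) + h * (2 * E / w + 4 * N * w)) * w =
            h * (2 * E - w * s ^ 2 / 2) + 4 * N * w * w * h := by
          field_simp
          ring
        rw [e1]
        have : 0 ≤ N * w * w * h := by positivity
        nlinarith
      have := le_of_mul_le_mul_right hw' hw
      linarith
    · -- upper bound of F κ - F 1
      have hs := slope_adj _ hH (1 - w) 1 κ (by linarith) (by linarith) hgt
      simp only [Real.log_one, mul_zero, add_zero] at hs
      have g1 : -(w * (1 + 2 * w)) ≤ Real.log (1 - w) := by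
        have e2 := l2 (1 - w) (by linarith)
        have e3 : 1 - (1 - w)⁻¹ = -(w / (1 - w)) := by
          have : (1 : ℝ) - w ≠ 0 := by linarith
          field_simp
          ring
        have e4 : w / (1 - w) ≤ w * (1 + 2 * w) := by
          rw [div_le_iff₀ (by linarith)]
          nlinarith [mul_pos hw hw]
        linarith
      have g2 : h * (1 - w) ≤ Real.log κ := by
        have e2 := l2 κ hκ0
        have e3 : 1 - κ⁻¹ = h / κ := by
          rw [hh]
          field_simp
        have e4 : h * (1 - w) ≤ h / κ := by
          rw [le_div_iff₀ hκ0]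
          have e5 : (1 - w) * κ ≤ 1 := by nlinarith
          nlinarith
        linarith
      have key : (F κ - F 1) * w ≤ h * (w * s ^ 2 / 2 + 2 * E) + N / 2 * (w * h * (3 * w)) := by
        have k1 : (F κ + N / 2 * Real.log κ - F 1) * w ≤
            (F 1 - (F (1 - w) + N / 2 * Real.log (1 - w))) * h := by
          have e1 : (1 : ℝ) - (1 - w) = w := by ring
          rw [e1] at hs
          exact hs
        have k2 : N / 2 * (-(w * (1 + 2 * w))) ≤ N / 2 * Real.log (1 - w) :=
          mul_le_mul_of_nonneg_left g1 hN2
        have k3 : N / 2 * (h * (1 - w)) ≤ N / 2 * Real.log κ :=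
          mul_le_mul_of_nonneg_left g2 hN2
        have k4 : F 1 - F (1 - w) ≤ w * s ^ 2 / 2 + 2 * E := by
          have := f1.2
          have := f1w.1
          nlinarith
        have k5 : (F 1 - (F (1 - w) + N / 2 * Real.log (1 - w))) * h ≤
            (w * s ^ 2 / 2 + 2 * E + N / 2 * (w * (1 + 2 * w))) * h :=
          mul_le_mul_of_nonneg_right (by linarith) hh0.le
        have k6 : N / 2 * (h * (1 - w)) * w ≤ N / 2 * Real.log κ * w :=
          mul_le_mul_of_nonneg_right k3 hw.le
        nlinarith
      have := slope_fin (F κ - F 1) w h N E s hw hh0.le hN key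
      linarith

end Pool.Agent.Work.MP_3574a2_pr.Dil
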