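import Pool.Agent.Work.MP_3574a2_pr.Dil.Claims

/-!
# Basic properties of the support functional
-/

set_option autoImplicit false

namespace Pool.Agent.Work.MP_3574a2_pr.Dil

open MeasureTheory ProbabilityTheory Set Polynomial Filter Topology
open scoped ENNReal NNReal Pointwise

lemma spp_le_one {N : ℕ} {P : Set (Fin N → ℝ)} (hP : Simp P) {p : Fin N → ℝ} (hp : p ∈ P)
    (i : Fin N) : p i ≤ 1 :=
  (Finset.single_le_sum (fun j _ => hP.nonneg p hp j) (Finset.mem_univ i)).trans (hP.sum_le p hp)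

lemma spp_l2_le_one {N : ℕ} {P : Set (Fin N → ℝ)} (hP : Simp P) {p : Fin N → ℝ} (hp : p ∈ P) :
    l2 p ≤ 1 := by
  unfold l2
  rw [Real.sqrt_le_one]
  refine le_trans (Finset.sum_le_sum fun i _ => ?_) (hP.sum_le p hp)
  have h1 := hP.nonneg p hp i
  have h2 := spp_le_one hP hp i
  nlinarith

lemma spp_val_le {N : ℕ} {P : Set (Fin N → ℝ)} (hP : Simp P) {p : Fin N → ℝ} (hp : p ∈ P)
    (g : Fin N → ℝ) {G : ℝ} (hG : 0 ≤ G) (hg : ∀ i, g i ≤ G) : ∑ i, g i * p i ≤ G := by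
  calc ∑ i, g i * p i ≤ ∑ i, G * p i :=
        Finset.sum_le_sum fun i _ => mul_le_mul_of_nonneg_right (hg i) (hP.nonneg p hp i)
    _ = G * ∑ i, p i := by rw [Finset.mul_sum]
    _ ≤ G * 1 := mul_le_mul_of_nonneg_left (hP.sum_le p hp) hG
    _ = G := mul_one _

lemma spp_bdd {N : ℕ} {P : Set (Fin N → ℝ)} (hP : Simp P) (g : Fin N → ℝ) :
    BddAbove ((fun p => ∑ i, g i * p i) '' P) := by
  refine ⟨‖g‖, ?_⟩
  rintro _ ⟨p, hp, rfl⟩
  exact spp_val_le hP hp g (norm_nonneg _) fun i => (le_abs_self _).trans (norm_le_pi_norm g i)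

lemma spp_ne {N : ℕ} {P : Set (Fin N → ℝ)} (hP : Simp P) (g : Fin N → ℝ) :
    ((fun p => ∑ i, g i * p i) '' P).Nonempty := hP.ne.image _

lemma spp_sig_bdd {N : ℕ} {P : Set (Fin N → ℝ)} (hP : Simp P) : BddAbove (l2 '' P) := by
  refine ⟨1, ?_⟩
  rintro _ ⟨p, hp, rfl⟩
  exact spp_l2_le_one hP hp

theorem claimSpp : ClaimSpp := by
  intro N P hP
  have h3 : ∀ (g : Fin N → ℝ), ∀ p ∈ P, ∑ i, g i * p i ≤ spp P g := fun g p hp =>
    le_csSup (spp_bdd hP g) ⟨p, hp, rfl⟩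
  have h5 : ∀ (g : Fin N → ℝ) (G : ℝ), 0 ≤ G → (∀ i, g i ≤ G) → spp P g ≤ G := by
    intro g G hG hg
    refine csSup_le (spp_ne hP g) ?_
    rintro _ ⟨p, hp, rfl⟩
    exact spp_val_le hP hp g hG hg
  have h6 : ∀ p ∈ P, l2 p ≤ sig P := fun p hp => le_csSup (spp_sig_bdd hP) ⟨p, hp, rfl⟩
  refine ⟨?_, ?_, h3, ?_, h5, h6, ?_, ?_, ?_⟩
  · refine (LipschitzWith.of_le_add fun g g' => ?_).continuous
    refine csSup_le (spp_ne hP g) ?_
    rintro _ ⟨p, hp, rfl⟩
    have h1 := h3 g' p hp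
    have h2 := spp_val_le hP hp (g - g') (norm_nonneg (g - g'))
      fun i => (le_abs_self _).trans (norm_le_pi_norm (g - g') i)
    have h4 : ∑ i, g i * p i = ∑ i, g' i * p i + ∑ i, (g - g') i * p i := by
      rw [← Finset.sum_add_distrib]
      refine Finset.sum_congr rfl fun i _ => ?_
      rw [Pi.sub_apply]
      ring
    rw [dist_eq_norm]
    simp only
    rw [h4]
    linarith
  · intro g c hc
    unfold spp
    have : (fun p : Fin N → ℝ => ∑ i, c * g i * p i) '' P =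
        c • ((fun p : Fin N → ℝ => ∑ i, g i * p i) '' P) := by
      rw [← image_smul, image_image]
      refine image_congr fun p _ => ?_
      rw [smul_eq_mul, Finset.mul_sum]
      exact Finset.sum_congr rfl fun i _ => by ring
    rw [this, Real.sSup_smul_of_nonneg hc, smul_eq_mul]
  · intro g u
    constructor
    · intro h
      obtain ⟨_, ⟨p, hp, rfl⟩, hb⟩ := exists_lt_of_lt_csSup (spp_ne hP g) h
      exact ⟨p, hp, hb⟩
    · rintro ⟨p, hp, hb⟩
      exact hb.trans_le (h3 g p hp)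
  · intro s hs
    obtain ⟨_, ⟨p, hp, rfl⟩, hb⟩ := exists_lt_of_lt_csSup (hP.ne.image _) hs
    exact ⟨p, hp, hb⟩
  · obtain ⟨p, hp⟩ := hP.ne
    exact le_trans (Real.sqrt_nonneg _) (h6 p hp)
  · refine csSup_le (hP.ne.image _) ?_
    rintro _ ⟨p, hp, rfl⟩
    exact spp_l2_le_one hP hp

end Pool.Agent.Work.MP_3574a2_pr.Dil
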