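import Pool.Agent.Work.MP_3574a2_pr.Dil.Claims

/-!
# Two Gaussian tails
-/

set_option autoImplicit false

namespace Pool.Agent.Work.MP_3574a2_pr.Dil

open MeasureTheory ProbabilityTheory Set Polynomial Filter Topology
open scoped ENNReal NNReal

instance tail_gm_prob (N : ℕ) : IsProbabilityMeasure (gm N) := by unfold gm; infer_instance

/-- The coordinates are standard Gaussian. -/
theorem tail_map_eval (N : ℕ) (i : Fin N) :
    (gm N).map (fun g => g i) = gaussianReal 0 1 :=
  (measurePreserving_eval (fun _ : Fin N => gaussianReal 0 1) i).map_eq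

theorem claimTail : ClaimTail := by
  intro N q x s hx hs hq
  have hind : iIndepFun (fun (i : Fin N) (g : Fin N → ℝ) => g i * q i) (gm N) :=
    iIndepFun_pi (μ := fun _ : Fin N => gaussianReal 0 1) (X := fun i y => y * q i)
      (fun i => by fun_prop)
  have hsub : ∀ i ∈ (Finset.univ : Finset (Fin N)),
      HasSubgaussianMGF (fun g : Fin N → ℝ => g i * q i) (Real.toNNReal (q i ^ 2)) (gm N) := by
    intro i _
    constructor
    · intro t
      have h1 : Integrable (fun y : ℝ => Real.exp (t * (y * q i)))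
          ((gm N).map (fun g => g i)) := by
        rw [tail_map_eval]
        have := integrable_exp_mul_gaussianReal (μ := 0) (v := 1) (t * q i)
        refine this.congr (ae_of_all _ fun y => ?_)
        simp only
        ring_nf
      exact h1.comp_measurable (measurable_pi_apply i)
    · intro t
      have h2 : mgf (fun g : Fin N → ℝ => g i * q i) (gm N) t
          = mgf (fun g : Fin N → ℝ => g i) (gm N) (t * q i) := by
        simp only [mgf]
        congr 1
        funext g
        ring_nf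
      rw [h2, mgf_gaussianReal (tail_map_eval N i)]
      apply Real.exp_le_exp.2
      rw [Real.coe_toNNReal _ (sq_nonneg _)]
      push_cast
      nlinarith
  have hsum := HasSubgaussianMGF.sum_of_iIndepFun hind hsub
  have hc : (((∑ i, Real.toNNReal (q i ^ 2) : ℝ≥0)) : ℝ) ≤ s ^ 2 := by
    push_cast
    have e : ∀ i, ((Real.toNNReal (q i ^ 2) : ℝ≥0) : ℝ) = q i ^ 2 := fun i =>
      Real.coe_toNNReal _ (sq_nonneg _)
    simp only [e]
    have h3 : l2 q ^ 2 ≤ s ^ 2 := pow_le_pow_left₀ (Real.sqrt_nonneg _) hq 2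
    rwa [l2, Real.sq_sqrt (Finset.sum_nonneg fun i _ => sq_nonneg _)] at h3
  have hsub2 : HasSubgaussianMGF (fun g : Fin N → ℝ => ∑ i, g i * q i)
      (Real.toNNReal (s ^ 2)) (gm N) := by
    constructor
    · exact hsum.integrable_exp_mul
    · intro t
      refine (hsum.mgf_le t).trans (Real.exp_le_exp.2 ?_)
      rw [Real.coe_toNNReal _ (sq_nonneg _)]
      nlinarith [sq_nonneg t]
  have h4 := hsub2.measure_ge_le hx
  rw [Real.coe_toNNReal _ (sq_nonneg _)] at h4
  refine le_trans (measureReal_mono ?_) h4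
  intro g hg
  rw [mem_ofPred_eq] at hg
  exact le_of_lt hg

/-- `E exp (g ^ 2 / 4) = sqrt 2`. -/
theorem tail_chi_one :
    Integrable (fun y : ℝ => Real.exp ((1 / 4) * y ^ 2)) (gaussianReal 0 1) ∧
      ∫ y, Real.exp ((1 / 4) * y ^ 2) ∂(gaussianReal 0 1) = Real.sqrt 2 := by
  have hpt : ∀ y : ℝ, gaussianPDFReal 0 1 y • Real.exp ((1 / 4) * y ^ 2)
      = (Real.sqrt (2 * Real.pi))⁻¹ * Real.exp (-(1 / 4) * y ^ 2) := by
    intro y
    rw [gaussianPDFReal_def, smul_eq_mul]
    simp only [NNReal.coe_one, mul_one, sub_zero]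
    rw [mul_assoc, ← Real.exp_add]
    congr 2
    ring
  constructor
  · rw [gaussianReal_of_var_ne_zero 0 one_ne_zero,
      integrable_withDensity_iff_integrable_smul' (measurable_gaussianPDF 0 1)
        (ae_of_all _ fun _ => ENNReal.ofReal_lt_top)]
    have : (fun y : ℝ => (gaussianPDF 0 1 y).toReal • Real.exp ((1 / 4) * y ^ 2))
        = fun y => (Real.sqrt (2 * Real.pi))⁻¹ * Real.exp (-(1 / 4) * y ^ 2) := by
      funext y
      rw [gaussianPDF, ENNReal.toReal_ofReal (gaussianPDFReal_nonneg _ _ _), hpt]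
    rw [this]
    exact (integrable_exp_neg_mul_sq (by norm_num)).const_mul _
  · rw [integral_gaussianReal_eq_integral_smul one_ne_zero]
    simp_rw [hpt]
    rw [integral_const_mul, integral_gaussian, ← Real.sqrt_inv, ← Real.sqrt_mul (by positivity)]
    congr 1
    field_simp
    norm_num

theorem claimChi : ClaimChi := by
  intro N
  have hind : iIndepFun (fun (i : Fin N) (g : Fin N → ℝ) => g i ^ 2) (gm N) :=
    iIndepFun_pi (μ := fun _ : Fin N => gaussianReal 0 1) (X := fun _ y => y ^ 2)
      (fun i => by fun_prop)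
  have hint : ∀ i ∈ (Finset.univ : Finset (Fin N)),
      Integrable (fun g : Fin N → ℝ => Real.exp ((1 / 4) * (g i ^ 2))) (gm N) := by
    intro i _
    have h1 : Integrable (fun y : ℝ => Real.exp ((1 / 4) * y ^ 2))
        ((gm N).map (fun g => g i)) := by
      rw [tail_map_eval]
      exact tail_chi_one.1
    exact h1.comp_measurable (measurable_pi_apply i)
  have hmgf : ∀ i : Fin N, mgf (fun g : Fin N → ℝ => g i ^ 2) (gm N) (1 / 4) = Real.sqrt 2 := by
    intro i
    have h1 := integral_map (μ := gm N) (φ := fun g : Fin N → ℝ => g i)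
      (f := fun y : ℝ => Real.exp ((1 / 4) * y ^ 2)) (measurable_pi_apply i).aemeasurable
      (by fun_prop)
    rw [tail_map_eval, tail_chi_one.2] at h1
    exact h1.symm
  have hmeas : ∀ i, Measurable (fun g : Fin N → ℝ => g i ^ 2) := fun i => by fun_prop
  have hi2 := hind.integrable_exp_mul_sum hmeas hint
  have hm2 := hind.mgf_sum (t := 1 / 4) hmeas Finset.univ
  have h5 := measure_ge_le_exp_mul_mgf (μ := gm N)
    (X := ∑ i, fun g : Fin N → ℝ => g i ^ 2) (4 * N : ℝ) (by norm_num : (0 : ℝ) ≤ 1 / 4) hi2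
  rw [hm2] at h5
  simp only [hmgf, Finset.prod_const, Finset.card_univ, Fintype.card_fin] at h5
  have hsub : {g : Fin N → ℝ | 4 * N < ∑ i, g i ^ 2}
      ⊆ {g | (4 * N : ℝ) ≤ (∑ i, fun g : Fin N → ℝ => g i ^ 2) g} := by
    intro g hg
    rw [mem_ofPred_eq] at hg
    rw [mem_ofPred_eq, Finset.sum_apply]
    exact le_of_lt hg
  refine (measureReal_mono hsub).trans (h5.trans ?_)
  have hs2 : Real.sqrt 2 ≤ Real.exp (1 / 2) := by
    rw [Real.sqrt_le_left (Real.exp_pos _).le, ← Real.exp_nat_mul]
    have := Real.add_one_le_exp (1 : ℝ)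
    norm_num at this ⊢
    linarith
  calc Real.exp (-(1 / 4) * (4 * N)) * Real.sqrt 2 ^ N
      ≤ Real.exp (-(1 / 4) * (4 * N)) * Real.exp (1 / 2) ^ N :=
        mul_le_mul_of_nonneg_left (pow_le_pow_left₀ (Real.sqrt_nonneg _) hs2 N)
          (Real.exp_pos _).le
    _ = Real.exp (-(N / 2 : ℝ)) := by
        rw [← Real.exp_nat_mul, ← Real.exp_add]
        congr 1
        ring

end Pool.Agent.Work.MP_3574a2_pr.Dil
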