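import Pool.Agent.Work.MP_3574a2_pr.Dil.Claims

/-!
# A8: two sided bound of the logarithm of the tail
-/

set_option autoImplicit false

namespace Pool.Agent.Work.MP_3574a2_pr.Dil

open MeasureTheory ProbabilityTheory Set Polynomial Filter Topology
open scoped ENNReal NNReal

/-- The exponent. -/
theorem two_exp {c0 s y R : ℝ} (hc0 : 0 < c0) (hs : c0 ≤ s) (hR : 1 ≤ R)
    (hR4 : 4 / c0 ≤ R) (hy1 : R ^ 20 / 2 ≤ y) (hy2 : y ≤ 6 * R ^ 20) :
    y ^ 2 / 2 - 48 / c0 * R ^ 30 ≤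
      (s * y - 2 * R ^ 10) ^ 2 / (2 * (s + 1 / R ^ 14) ^ 2) := by
  have hs0 : 0 < s := by linarith
  have hR0 : 0 < R := by linarith
  set a : ℝ := 2 * R ^ 10 / s with ha
  set e : ℝ := 1 / R ^ 14 / s with he
  have ha0 : 0 ≤ a := by positivity
  have he0 : 0 ≤ e := by positivity
  have hy0 : 0 ≤ y := le_trans (by positivity) hy1
  have h1 : (s * y - 2 * R ^ 10) ^ 2 / (2 * (s + 1 / R ^ 14) ^ 2) =
      (y - a) ^ 2 / (1 + e) ^ 2 / 2 := by
    have e1 : s * y - 2 * R ^ 10 = s * (y - a) := by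
      rw [ha]
      field_simp
    have e2 : s + 1 / R ^ 14 = s * (1 + e) := by
      rw [he]
      field_simp
    rw [e1, e2]
    field_simp
  have hR10 : 4 / c0 ≤ R ^ 10 := hR4.trans (le_self_pow₀ hR (by norm_num))
  have hay : a ≤ y := by
    have h2 : a ≤ 2 * R ^ 10 / c0 := by
      rw [ha]
      exact div_le_div_of_nonneg_left (by positivity) hc0 hs
    have h3 : 2 * R ^ 10 / c0 ≤ R ^ 20 / 2 := by
      have : 2 * R ^ 10 / c0 = (4 / c0) * R ^ 10 / 2 := by ring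
      rw [this]
      have h4 : (4 / c0) * R ^ 10 ≤ R ^ 10 * R ^ 10 := mul_le_mul_of_nonneg_right hR10 (by positivity)
      have h5 : R ^ 10 * R ^ 10 = R ^ 20 := by ring
      linarith
    linarith
  have h2 : (1 - 2 * e) * (y - a) ^ 2 ≤ (y - a) ^ 2 / (1 + e) ^ 2 := by
    rw [le_div_iff₀ (by positivity)]
    have h3 : (1 - 2 * e) * (1 + e) ^ 2 ≤ 1 := by nlinarith [pow_nonneg he0 2, pow_nonneg he0 3]
    calc (1 - 2 * e) * (y - a) ^ 2 * (1 + e) ^ 2 = (1 - 2 * e) * (1 + e) ^ 2 * (y - a) ^ 2 := by ring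
      _ ≤ 1 * (y - a) ^ 2 := mul_le_mul_of_nonneg_right h3 (sq_nonneg _)
      _ = _ := one_mul _
  have h3 : y ^ 2 - 2 * a * y ≤ (y - a) ^ 2 := by nlinarith [sq_nonneg a]
  have h4 : (y - a) ^ 2 ≤ y ^ 2 := pow_le_pow_left₀ (by linarith) (by linarith) 2
  have h5 : y ^ 2 - 2 * a * y - 2 * e * y ^ 2 ≤ (1 - 2 * e) * (y - a) ^ 2 := by
    have : e * (y - a) ^ 2 ≤ e * y ^ 2 := mul_le_mul_of_nonneg_left h4 he0
    nlinarith
  have h6 : a * y ≤ 12 / c0 * R ^ 30 := by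
    have e1 : a ≤ 2 * R ^ 10 / c0 := by
      rw [ha]
      exact div_le_div_of_nonneg_left (by positivity) hc0 hs
    calc a * y ≤ (2 * R ^ 10 / c0) * (6 * R ^ 20) :=
          mul_le_mul e1 hy2 hy0 (by positivity)
      _ = 12 / c0 * R ^ 30 := by ring
  have h7 : e * y ^ 2 ≤ 36 / c0 * R ^ 30 := by
    have e1 : e ≤ 1 / R ^ 14 / c0 := by
      rw [he]
      exact div_le_div_of_nonneg_left (by positivity) hc0 hs
    have e2 : y ^ 2 ≤ (6 * R ^ 20) ^ 2 := pow_le_pow_left₀ hy0 hy2 2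
    calc e * y ^ 2 ≤ (1 / R ^ 14 / c0) * (6 * R ^ 20) ^ 2 :=
          mul_le_mul e1 e2 (by positivity) (by positivity)
      _ = 36 / c0 * R ^ 26 := by
        field_simp
        ring
      _ ≤ 36 / c0 * R ^ 30 := by
        apply mul_le_mul_of_nonneg_left _ (by positivity)
        exact pow_le_pow_right₀ hR (by norm_num)
  rw [h1]
  have h8 : 48 / c0 * R ^ 30 = 12 / c0 * R ^ 30 + 36 / c0 * R ^ 30 := by ring
  rw [h8]
  linarith

/-- The number of vectors. -/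
theorem two_card {r : ℕ} (hr : 49 ≤ r) :
    ((((r ^ 48 : ℕ) : ℝ)) + 1) ^ (r ^ 28) ≤ Real.exp ((r : ℝ) ^ 30) := by
  have hR : (49 : ℝ) ≤ r := by exact_mod_cast hr
  have hR0 : (0 : ℝ) < r := by linarith
  have h1 : (((r ^ 48 : ℕ) : ℝ)) + 1 ≤ (r : ℝ) ^ 49 := by
    push_cast
    have h2 : (1 : ℝ) ≤ (r : ℝ) ^ 48 := one_le_pow₀ (by linarith)
    calc (r : ℝ) ^ 48 + 1 ≤ (r : ℝ) ^ 48 + (r : ℝ) ^ 48 := by linarith
      _ = 2 * (r : ℝ) ^ 48 := by ring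
      _ ≤ r * (r : ℝ) ^ 48 := mul_le_mul_of_nonneg_right (by linarith) (by positivity)
      _ = (r : ℝ) ^ 49 := by ring
  have h2 : (r : ℝ) ^ 49 ≤ Real.exp ((r : ℝ) ^ 2) := by
    have h3 : Real.log r ≤ r := (Real.log_le_sub_one_of_pos hR0).trans (by linarith)
    calc (r : ℝ) ^ 49 = Real.exp (49 * Real.log r) := by
          rw [mul_comm, ← Real.rpow_natCast, Real.rpow_def_of_pos hR0]
          norm_num
      _ ≤ Real.exp ((r : ℝ) ^ 2) := by
        apply Real.exp_le_exp.2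
        nlinarith
  calc ((((r ^ 48 : ℕ) : ℝ)) + 1) ^ (r ^ 28) ≤ (Real.exp ((r : ℝ) ^ 2)) ^ (r ^ 28) :=
        pow_le_pow_left₀ (by positivity) (h1.trans h2) _
    _ = Real.exp ((r : ℝ) ^ 30) := by
      rw [← Real.exp_nat_mul]
      congr 1
      push_cast
      ring

theorem claimTwo (h1 : ClaimSpp) (h3 : ClaimLow) (h7 : ClaimUp) : ClaimTwo := by
  intro c0 hc0
  obtain ⟨r1, hr1⟩ := exists_nat_ge (4 / c0)
  refine ⟨10 + 48 / c0, max 49 r1, by positivity, ?_⟩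
  intro r hr P hP hsig y hy1 hy2
  obtain ⟨-, -, -, -, -, -, -, -, hsig1⟩ := h1 _ P hP
  have hr49 : 49 ≤ r := (le_max_left _ _).trans hr
  have hR : (49 : ℝ) ≤ r := by exact_mod_cast hr49
  have hR1 : (1 : ℝ) ≤ r := by linarith
  have hR0 : (0 : ℝ) < r := by linarith
  have hR4 : 4 / c0 ≤ (r : ℝ) := hr1.trans (by exact_mod_cast (le_max_right 49 r1).trans hr)
  have hs0 : 0 < sig P := by linarith
  have hy0 : 0 ≤ y := le_trans (by positivity) hy1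
  have hR30 : (1 : ℝ) ≤ (r : ℝ) ^ 30 := one_le_pow₀ hR1
  have hR2030 : (r : ℝ) ^ 20 ≤ (r : ℝ) ^ 30 := pow_le_pow_right₀ hR1 (by norm_num)
  have hlow := h3 _ P hP hs0 (sig P * y) (by positivity)
  rw [mul_div_cancel_left₀ _ hs0.ne'] at hlow
  have hFpos : 0 < Fb P (sig P * y) := lt_of_lt_of_le (by positivity) hlow
  -- lower bound of the tail
  have hA : -Real.log (Fb P (sig P * y)) ≤ y ^ 2 / 2 + 8 * (r : ℝ) ^ 30 := by
    have h2 := Real.log_le_log (by positivity) hlow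
    rw [Real.log_div (Real.exp_pos _).ne' (by norm_num), Real.log_exp] at h2
    have h4 : Real.log 4 ≤ 3 / 2 := by
      have : Real.log 4 = 2 * Real.log 2 := by
        rw [show (4 : ℝ) = 2 ^ 2 by norm_num, Real.log_pow]
        norm_num
      rw [this]
      have := Real.log_two_lt_d9
      linarith
    have h5 : (y + 1) ^ 2 / 2 = y ^ 2 / 2 + y + 1 / 2 := by ring
    have h6 : -(y + 1) ^ 2 / 2 = -((y + 1) ^ 2 / 2) := by ring
    rw [h6, h5] at h2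
    linarith
  -- upper bound of the tail
  have ht1 : 1 ≤ r ^ 28 := Nat.one_le_pow _ _ (by omega)
  have hsq1 : Real.sqrt (((r ^ 48 : ℕ) : ℝ) / ((r ^ 28 : ℕ) : ℝ)) = (r : ℝ) ^ 10 := by
    push_cast
    have e1 : (r : ℝ) ^ 48 / (r : ℝ) ^ 28 = ((r : ℝ) ^ 10) ^ 2 := by
      field_simp
    rw [e1, Real.sqrt_sq (by positivity)]
  have hsq2 : Real.sqrt ((r ^ 28 : ℕ) : ℝ) = (r : ℝ) ^ 14 := by
    push_cast
    have e1 : (r : ℝ) ^ 28 = ((r : ℝ) ^ 14) ^ 2 := by ring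
    rw [e1, Real.sqrt_sq (by positivity)]
  have hR10 : 4 / c0 ≤ (r : ℝ) ^ 10 := hR4.trans (le_self_pow₀ hR1 (by norm_num))
  have hu : 2 * (r : ℝ) ^ 10 ≤ sig P * y := by
    have e1 : 4 ≤ c0 * (r : ℝ) ^ 10 := by
      rw [div_le_iff₀ hc0] at hR10
      linarith
    calc 2 * (r : ℝ) ^ 10 ≤ (c0 * (r : ℝ) ^ 10) / 2 * (r : ℝ) ^ 10 :=
          mul_le_mul_of_nonneg_right (by linarith) (by positivity)
      _ = c0 * ((r : ℝ) ^ 20 / 2) := by ring
      _ ≤ sig P * y := mul_le_mul hsig hy1 (by positivity) hs0.le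
  have hup := h7 _ (r ^ 28) P hP ht1 (sig P * y) (by rw [hsq1]; exact hu)
  rw [hsq1, hsq2] at hup
  have hexp := two_exp hc0 hsig hR1 hR4 hy1 hy2
  have hB : Fb P (sig P * y) ≤ 2 * Real.exp (-(y ^ 2 / 2) + (1 + 48 / c0) * (r : ℝ) ^ 30) := by
    have e1 : Real.exp (-(((r ^ 48 : ℕ) : ℝ) / 2)) ≤
        Real.exp (-(y ^ 2 / 2) + (1 + 48 / c0) * (r : ℝ) ^ 30) := by
      apply Real.exp_le_exp.2
      have e2 : y ^ 2 ≤ (r : ℝ) ^ 48 := by
        calc y ^ 2 ≤ (6 * (r : ℝ) ^ 20) ^ 2 := pow_le_pow_left₀ hy0 hy2 2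
          _ = 36 * (r : ℝ) ^ 40 := by ring
          _ ≤ (r : ℝ) ^ 8 * (r : ℝ) ^ 40 := by
            apply mul_le_mul_of_nonneg_right _ (by positivity)
            calc (36 : ℝ) ≤ r := by linarith
              _ ≤ (r : ℝ) ^ 8 := le_self_pow₀ hR1 (by norm_num)
          _ = (r : ℝ) ^ 48 := by ring
      have e3 : 0 ≤ (1 + 48 / c0) * (r : ℝ) ^ 30 := by positivity
      push_cast
      linarith
    have e4 : ((((r ^ 48 : ℕ) : ℝ)) + 1) ^ (r ^ 28) *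
        Real.exp (-(sig P * y - 2 * (r : ℝ) ^ 10) ^ 2 / (2 * (sig P + 1 / (r : ℝ) ^ 14) ^ 2)) ≤
        Real.exp (-(y ^ 2 / 2) + (1 + 48 / c0) * (r : ℝ) ^ 30) := by
      calc _ ≤ Real.exp ((r : ℝ) ^ 30) * Real.exp (-(y ^ 2 / 2 - 48 / c0 * (r : ℝ) ^ 30)) := by
            apply mul_le_mul (two_card hr49) _ (Real.exp_pos _).le (Real.exp_pos _).le
            apply Real.exp_le_exp.2
            rw [neg_div]
            linarith
        _ = _ := by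
          rw [← Real.exp_add]
          congr 1
          ring
    linarith
  have hC : y ^ 2 / 2 - (2 + 48 / c0) * (r : ℝ) ^ 30 ≤ -Real.log (Fb P (sig P * y)) := by
    have e1 := Real.log_le_log hFpos hB
    rw [Real.log_mul (by norm_num) (Real.exp_pos _).ne', Real.log_exp] at e1
    have e2 := Real.log_two_lt_d9
    have e3 : (2 + 48 / c0) * (r : ℝ) ^ 30 = (1 + 48 / c0) * (r : ℝ) ^ 30 + (r : ℝ) ^ 30 := by ring
    rw [e3]
    linarith
  have hc48 : 0 ≤ 48 / c0 * (r : ℝ) ^ 30 := by positivity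
  have e5 : (10 + 48 / c0) * (r : ℝ) ^ 30 = 10 * (r : ℝ) ^ 30 + 48 / c0 * (r : ℝ) ^ 30 := by ring
  have e6 : (2 + 48 / c0) * (r : ℝ) ^ 30 = 2 * (r : ℝ) ^ 30 + 48 / c0 * (r : ℝ) ^ 30 := by ring
  rw [e6] at hC
  rw [abs_le, e5]
  constructor <;> linarith

end Pool.Agent.Work.MP_3574a2_pr.Dil
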