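import Pool.Agent.Work.MP_3574a2_pr.Dil.Lower

/-!
# Gumbel limit for random Toeplitz matrices: upper bound by blocks
-/

set_option autoImplicit false

namespace Pool.Agent.Work.MP_3574a2_pr.Dil

open MeasureTheory ProbabilityTheory Set Polynomial Filter Topology
open scoped ENNReal NNReal

/-- Reflection of sums over intervals. -/
theorem upper_sum_neg (a b : ℤ) (F : ℤ → ℝ) :
    ∑ k ∈ Finset.Icc a b, F (-k) = ∑ k ∈ Finset.Icc (-b) (-a), F k := by
  refine Finset.sum_bij (fun k _ => -k) ?_ ?_ ?_ ?_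
  · intro k hk
    rw [Finset.mem_Icc] at hk ⊢
    constructor <;> omega
  · intro i _ j _ h
    have h' : -i = -j := h
    omega
  · intro k hk
    rw [Finset.mem_Icc] at hk
    refine ⟨-k, ?_, ?_⟩
    · rw [Finset.mem_Icc]
      constructor <;> omega
    · change - -k = k
      ring
  · intro i _
    rfl

theorem upper_window (hS : ClaimSpp) (M n W L : ℕ) (τ G u : ℝ) (g : ℤ → ℝ) (v : ℂ[X]) (j s : ℤ)
    (hn : n ≤ 2 * M + 1) (hL : L ≤ 2 * M + 1) (hg : Noise M g G) (hd : v.degree < n)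
    (hv : nsq v = 1) (h1 : s + 1 ≤ j - W) (h2 : j + W ≤ s + L)
    (hm : 1 - τ ≤ ∑ k ∈ Finset.Icc (j - W) (j + W), pk (2 * M + 1) v k)
    (hnear : u + G * τ < ∑ k ∈ Finset.Icc (j - W) (j + W), g k * pk (2 * M + 1) v k)
    (hspp : spp (PP n (2 * M + 1) τ L) (fun l => g (s + 1 + (l : ℤ))) ≤ u) : False := by
  have hsub : Finset.Icc (j - (W : ℤ)) (j + W) ⊆ Finset.Icc (s + 1) (s + L) :=
    Finset.Icc_subset_Icc h1 h2
  have hm' : 1 - τ ≤ ∑ k ∈ Finset.Icc (s + 1) (s + L), pk (2 * M + 1) v k :=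
    hm.trans (Finset.sum_le_sum_of_subset_of_nonneg hsub fun k _ _ => low_pk_nonneg _ _ _)
  have hel := low_elem M n L τ s v hd hv.le hm'
  have hsimp := low_simp M n L τ hn hL ⟨_, hel⟩
  have hle := (hS L _ hsimp).2.2.1 (fun l => g (s + 1 + (l : ℤ))) _ hel
  have htot : ∑ k ∈ Finset.Icc (s + 1) (s + L), pk (2 * M + 1) v k ≤ 1 :=
    (low_mass M n v _ _ hd hn (by omega)).trans hv.le
  have hb := low_block _ _ hsub (fun k => pk (2 * M + 1) v k) g G τ
    (fun k => low_pk_nonneg _ _ _) hg.bdd (low_G_nonneg hg) htot hm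
  have hsum : ∑ l : Fin L, g (s + 1 + (l : ℤ)) * pk (2 * M + 1) v (s + 1 + (l : ℤ)) =
      ∑ k ∈ Finset.Icc (s + 1) (s + L), g k * pk (2 * M + 1) v k :=
    low_sum_fin L s (fun k => g k * pk (2 * M + 1) v k)
  rw [hsum] at hle
  linarith

/-- The case of a positive centre, far from the two ends. -/
theorem upper_mid (hS : ClaimSpp) (M n W N I : ℕ) (τ G u : ℝ) (g : ℤ → ℝ) (v : ℂ[X]) (j : ℤ)
    (hn : n ≤ 2 * M + 1) (hN : 4 * W + 1 ≤ N) (hI : 1 ≤ I) (hIN : I * N ≤ M)
    (hg : Noise M g G) (hd : v.degree < n) (hv : nsq v = 1) (hj1 : (W : ℤ) < j)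
    (hj2 : j < (I : ℤ) * N - W)
    (hm : 1 - τ ≤ ∑ k ∈ Finset.Icc (j - W) (j + W), pk (2 * M + 1) v k)
    (hnear : u + G * τ < ∑ k ∈ Finset.Icc (j - W) (j + W), g k * pk (2 * M + 1) v k)
    (hblock : ∀ i < I, spp (PP n (2 * M + 1) τ N)
      (fun l => g ((i : ℤ) * N + 1 + (l : ℤ))) ≤ u)
    (hcross : ∀ i < I, 1 ≤ i → spp (PP n (2 * M + 1) τ (4 * W + 1))
      (fun l => g ((i : ℤ) * N - 2 * W + (l : ℤ))) ≤ u) : False := by
  have hNM : N ≤ M := by
    calc N = 1 * N := (one_mul N).symm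
      _ ≤ I * N := Nat.mul_le_mul_right N hI
      _ ≤ M := hIN
  have hcr : ∀ i : ℕ, i < I → 1 ≤ i → (i : ℤ) * N - W ≤ j → j ≤ (i : ℤ) * N + W → False := by
    intro i hi hi1 h1 h2
    refine upper_window hS M n W (4 * W + 1) τ G u g v j ((i : ℤ) * N - 2 * W - 1) hn (by omega)
      hg hd hv (by omega) (by push_cast; omega) hm hnear ?_
    have := hcross i hi hi1
    have e : (fun l : Fin (4 * W + 1) => g ((i : ℤ) * N - 2 * W - 1 + 1 + (l : ℤ))) =
        fun l : Fin (4 * W + 1) => g ((i : ℤ) * N - 2 * W + (l : ℤ)) := by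
      funext l
      congr 1
      ring
    rw [e]
    exact this
  have hN0 : (0 : ℤ) < N := by omega
  have hj0 : 0 ≤ j := by omega
  set q := j / (N : ℤ) with hq
  have hq0 : 0 ≤ q := Int.ediv_nonneg hj0 hN0.le
  have hq1 : q * N ≤ j := Int.ediv_mul_le j hN0.ne'
  have hq2 : j < (q + 1) * N := Int.lt_ediv_add_one_mul_self j hN0
  obtain ⟨i, hi⟩ := Int.eq_ofNat_of_zero_le hq0
  rw [hi] at hq1 hq2
  have hiI : i < I := by
    have h3 : (i : ℤ) * N < (I : ℤ) * N := by linarith
    have h4 : (i : ℤ) < I := lt_of_mul_lt_mul_right h3 hN0.le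
    exact_mod_cast h4
  by_cases c1 : j ≤ (i : ℤ) * N + W
  · have hi1 : 1 ≤ i := by
      rcases Nat.eq_zero_or_pos i with h0 | h0
      · rw [h0] at c1
        simp at c1
        omega
      · exact h0
    exact hcr i hiI hi1 (by linarith) c1
  · by_cases c2 : ((i : ℤ) + 1) * N - W ≤ j
    · have hi2 : i + 1 < I := by
        by_contra hc
        have h5 : i + 1 = I := by omega
        have h6 : ((i : ℤ) + 1) = (I : ℤ) := by exact_mod_cast h5
        rw [h6] at c2
        linarith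
      refine hcr (i + 1) hi2 (by omega) (by push_cast; exact c2) (by push_cast; linarith)
    · push Not at c1 c2
      refine upper_window hS M n W N τ G u g v j ((i : ℤ) * N) hn (by omega)
        hg hd hv (by linarith) (by linarith) hm hnear (hblock i hiI)

theorem claimUpper (hS : ClaimSpp) (hPi : ClaimPigeon) : ClaimUpper := by
  intro M n H W N I τ0 G K u A w g hnH hW hN hI hIN hA hg hτ0 hK hu hblock hcross hspec hdw hw
  have hG := low_G_nonneg hg
  have hNM : N ≤ M := by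
    calc N = 1 * N := (one_mul N).symm
      _ ≤ I * N := Nat.mul_le_mul_right N hI
      _ ≤ M := hIN
  set τ := τ0 + G / K with hτ
  have hτ' : 0 ≤ τ := add_nonneg hτ0 (div_nonneg hG hK.le)
  have hGτ : 0 ≤ G * τ := mul_nonneg hG hτ'
  have hKτ : 0 ≤ K * τ0 := mul_nonneg hK.le hτ0
  by_contra hcon
  push Not at hcon
  obtain ⟨j, hj, v, hdv, hv, hm, hnear⟩ := hPi M n H W τ0 G K (u + K * τ0 + 2 * G * τ) A w g hnH
    (by omega) hA hg hτ0 hK (by linarith) hdw hw hcon
  rw [← hτ] at hm hnear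
  rw [Finset.mem_Icc] at hj
  have hnear' : u + G * τ < ∑ k ∈ Finset.Icc (j - W) (j + W), g k * pk (2 * M + 1) v k := by
    linarith
  have hINz : (I : ℤ) * N ≤ M := by exact_mod_cast hIN
  have hN4 : 4 * (W : ℤ) + 1 ≤ (I : ℤ) * N := by
    have h1 : (1 : ℤ) * N ≤ (I : ℤ) * N :=
      mul_le_mul_of_nonneg_right (by exact_mod_cast hI) (by omega)
    have h2 : 4 * (W : ℤ) + 1 ≤ N := by exact_mod_cast hN
    linarith
  by_cases hcase : |j| ≤ W ∨ (I : ℤ) * N - W ≤ |j|
  · -- all the frequencies near `j` are special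
    have hgk : ∀ k ∈ Finset.Icc (j - (W : ℤ)) (j + W), g k ≤ u := by
      intro k hk
      rw [Finset.mem_Icc] at hk
      have habs : g k = g |k| := by
        rcases abs_choice k with h | h
        · rw [h]
        · rw [h, hg.even]
      rw [habs]
      have hjM : |j| ≤ M := abs_le.2 hj
      have hkj : |k - j| ≤ W := abs_le.2 ⟨by linarith, by linarith⟩
      have hk1 : |k| ≤ |j| + W := by
        have : |k| ≤ |j| + |k - j| := by
          calc |k| = |j + (k - j)| := by rw [add_sub_cancel]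
            _ ≤ |j| + |k - j| := abs_add_le _ _
        linarith
      have hk2 : |j| - W ≤ |k| := by
        have : |j| ≤ |k| + |k - j| := by
          calc |j| = |k - (k - j)| := by rw [sub_sub_cancel]
            _ ≤ |k| + |k - j| := abs_sub _ _
        linarith
      have hk0 := abs_nonneg k
      rcases hcase with h | h
      · exact hspec |k| (Or.inl ⟨hk0, by linarith⟩)
      · by_cases hkM : |k| ≤ M
        · exact hspec |k| (Or.inr ⟨by linarith, hkM⟩)
        · push Not at hkM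
          have e : g |k| = g (2 * M + 1 - |k|) := by
            have h1 := hg.per (-(|k|))
            have h2 := hg.even |k|
            rw [show -|k| + (2 * (M : ℤ) + 1) = 2 * M + 1 - |k| by ring] at h1
            rw [h1, h2]
          rw [e]
          exact hspec _ (Or.inr ⟨by linarith, by linarith⟩)
    have h1 : ∑ k ∈ Finset.Icc (j - (W : ℤ)) (j + W), g k * pk (2 * M + 1) v k ≤
        u * ∑ k ∈ Finset.Icc (j - (W : ℤ)) (j + W), pk (2 * M + 1) v k := by
      rw [Finset.mul_sum]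
      exact Finset.sum_le_sum fun k hk =>
        mul_le_mul_of_nonneg_right (hgk k hk) (low_pk_nonneg _ _ _)
    have h2 : ∑ k ∈ Finset.Icc (j - (W : ℤ)) (j + W), pk (2 * M + 1) v k ≤ 1 :=
      (low_mass M (n + H) v _ _ hdv hnH (by omega)).trans hv.le
    have h3 : u * ∑ k ∈ Finset.Icc (j - (W : ℤ)) (j + W), pk (2 * M + 1) v k ≤ u * 1 :=
      mul_le_mul_of_nonneg_left h2 hu
    linarith
  · push Not at hcase
    obtain ⟨hc1, hc2⟩ := hcase
    rcases abs_cases j with ⟨h, _⟩ | ⟨h, _⟩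
    · rw [h] at hc1 hc2
      exact upper_mid hS M (n + H) W N I τ G u g v j hnH hN hI hIN hg hdv hv hc1 hc2 hm hnear'
        hblock hcross
    · rw [h] at hc1 hc2
      obtain ⟨v', hv1, hv2, hv3⟩ := claimSym.2.1 (2 * M + 1) v
      have e1 : ∑ k ∈ Finset.Icc (-j - (W : ℤ)) (-j + W), pk (2 * M + 1) v' k =
          ∑ k ∈ Finset.Icc (j - (W : ℤ)) (j + W), pk (2 * M + 1) v k := by
        rw [Finset.sum_congr rfl fun k _ => hv3 k,
          upper_sum_neg _ _ (fun k => pk (2 * M + 1) v k),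
          show -(-j + (W : ℤ)) = j - W by ring, show -(-j - (W : ℤ)) = j + W by ring]
      have e2 : ∑ k ∈ Finset.Icc (-j - (W : ℤ)) (-j + W), g k * pk (2 * M + 1) v' k =
          ∑ k ∈ Finset.Icc (j - (W : ℤ)) (j + W), g k * pk (2 * M + 1) v k := by
        have e3 : ∀ k ∈ Finset.Icc (-j - (W : ℤ)) (-j + W), g k * pk (2 * M + 1) v' k =
            g (-k) * pk (2 * M + 1) v (-k) := by
          intro k _
          rw [hv3, hg.even]
        rw [Finset.sum_congr rfl e3,
          upper_sum_neg _ _ (fun k => g k * pk (2 * M + 1) v k),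
          show -(-j + (W : ℤ)) = j - W by ring, show -(-j - (W : ℤ)) = j + W by ring]
      exact upper_mid hS M (n + H) W N I τ G u g v' (-j) hnH hN hI hIN hg (hv2 _ hdv)
        (hv1.trans hv) hc1 hc2 (by rw [e1]; exact hm) (by rw [e2]; exact hnear') hblock hcross

end Pool.Agent.Work.MP_3574a2_pr.Dil
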