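import Pool.Agent.Work.MP_3574a2_pr.Dil.Claims

/-!
# B3: the window
-/

set_option autoImplicit false

namespace Pool.Agent.Work.MP_3574a2_pr.Dil

open MeasureTheory ProbabilityTheory Set Polynomial Filter Topology
open scoped ENNReal NNReal

/-- The Dirichlet polynomial with natural coefficients. -/
noncomputable def winD (h : ℕ) : ℕ[X] := ∑ i ∈ Finset.range h, X ^ i

lemma winD_eval_one (h : ℕ) : (winD h).eval 1 = h := by
  simp [winD, eval_finsetSum]

lemma winD_coeff (h x : ℕ) : (winD h).coeff x = if x < h then 1 else 0 := by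
  simp [winD, coeff_X_pow]

lemma winD_degree (h : ℕ) (hh : 1 ≤ h) : (winD h).natDegree ≤ h - 1 := by
  rw [natDegree_le_iff_coeff_eq_zero]
  intro N hN
  rw [winD_coeff, if_neg (by omega)]

lemma win_eval_one_eq (Q : ℕ[X]) : Q.eval 1 = ∑ x ∈ Q.support, Q.coeff x := by
  rw [eval_eq_sum]
  simp [Polynomial.sum]

lemma win_coeff_le (Q : ℕ[X]) (x : ℕ) : Q.coeff x ≤ Q.eval 1 := by
  rw [win_eval_one_eq]
  by_cases hx : x ∈ Q.support
  · exact Finset.single_le_sum (f := fun x => Q.coeff x) (fun i _ => Nat.zero_le _) hx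
  · rw [notMem_support_iff.mp hx]
    exact Nat.zero_le _

lemma win_sum_coeff_le (Q : ℕ[X]) (s : Finset ℕ) : ∑ x ∈ s, Q.coeff x ≤ Q.eval 1 := by
  rw [win_eval_one_eq]
  calc ∑ x ∈ s, Q.coeff x = ∑ x ∈ s.filter (fun x => x ∈ Q.support), Q.coeff x := by
        rw [Finset.sum_filter]
        refine Finset.sum_congr rfl fun x _ => ?_
        split_ifs with h
        · rfl
        · exact notMem_support_iff.mp h
    _ ≤ ∑ x ∈ Q.support, Q.coeff x := by
        refine Finset.sum_le_sum_of_subset fun x hx => ?_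
        exact (Finset.mem_filter.mp hx).2

lemma winD_mul_coeff (h : ℕ) (Q : ℕ[X]) (x : ℕ) : (winD h * Q).coeff x ≤ Q.eval 1 := by
  have h1 : (winD h * Q).coeff x = ∑ i ∈ Finset.range h, if i ≤ x then Q.coeff (x - i) else 0 := by
    rw [winD, Finset.sum_mul, finsetSum_coeff]
    refine Finset.sum_congr rfl fun i _ => ?_
    rw [coeff_X_pow_mul']
  rw [h1, ← Finset.sum_filter]
  have h2 : ∑ i ∈ (Finset.range h).filter (fun i => i ≤ x), Q.coeff (x - i) =
      ∑ y ∈ ((Finset.range h).filter (fun i => i ≤ x)).image (fun i => x - i), Q.coeff y := by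
    rw [Finset.sum_image]
    intro i hi j hj hij
    simp only [Finset.coe_filter, Set.mem_ofPred_eq] at hi hj
    have : x - i = x - j := hij
    omega
  rw [h2]
  exact win_sum_coeff_le Q _

/-- The power of the Dirichlet polynomial over the complex numbers. -/
noncomputable def winB (p h : ℕ) : ℂ[X] := ((winD h) ^ p).map (Nat.castRingHom ℂ)

/-- Sum of the squares of the coefficients. -/
noncomputable def winS (p h : ℕ) : ℝ :=
  ∑ x ∈ ((winD h) ^ p).support, (((winD h) ^ p).coeff x : ℝ) ^ 2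

lemma winB_nsq (p h : ℕ) : nsq (winB p h) = winS p h := by
  unfold nsq winS winB
  rw [support_map_of_injective _ Nat.cast_injective]
  refine Finset.sum_congr rfl fun x _ => ?_
  rw [coeff_map]
  simp

lemma win_sum_coeff (p h : ℕ) :
    ∑ x ∈ ((winD h) ^ p).support, (((winD h) ^ p).coeff x : ℝ) = (h : ℝ) ^ p := by
  have h1 := win_eval_one_eq ((winD h) ^ p)
  rw [eval_pow, winD_eval_one] at h1
  exact_mod_cast h1.symm

lemma winD_pow_natDegree (p h : ℕ) (hh : 1 ≤ h) : ((winD h) ^ p).natDegree ≤ p * (h - 1) :=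
  natDegree_pow_le_of_le p (winD_degree h hh)

lemma winS_lower (p h : ℕ) (hp : 1 ≤ p) (hh : 1 ≤ h) :
    (h : ℝ) ^ (2 * p) ≤ (p * h) * winS p h := by
  have h1 := Finset.sum_mul_sq_le_sq_mul_sq ((winD h) ^ p).support
    (fun _ => (1 : ℝ)) (fun x => (((winD h) ^ p).coeff x : ℝ))
  simp only [one_mul, one_pow, Finset.sum_const, nsmul_eq_mul, mul_one] at h1
  rw [win_sum_coeff] at h1
  have h2 : (((winD h) ^ p).support.card : ℝ) ≤ p * h := by
    have h3 : ((winD h) ^ p).support.card ≤ p * (h - 1) + 1 := by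
      have h30 := card_supp_le_succ_natDegree ((winD h) ^ p)
      have := winD_pow_natDegree p h hh
      omega
    have h4 : p * (h - 1) + 1 ≤ p * h := by
      obtain ⟨k, rfl⟩ : ∃ k, h = k + 1 := ⟨h - 1, by omega⟩
      simp only [Nat.add_sub_cancel]
      nlinarith
    exact_mod_cast h3.trans h4
  have h5 : 0 ≤ winS p h := Finset.sum_nonneg fun i _ => by positivity
  calc (h : ℝ) ^ (2 * p) = ((h : ℝ) ^ p) ^ 2 := by rw [← pow_mul, mul_comm]
    _ ≤ (((winD h) ^ p).support.card : ℝ) * winS p h := h1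
    _ ≤ (p * h) * winS p h := by gcongr

lemma winS_upper (p h : ℕ) (hp : 1 ≤ p) : winS p h ≤ (h : ℝ) ^ (2 * p - 1) := by
  have h1 : ∀ x, (((winD h) ^ p).coeff x : ℝ) ≤ (h : ℝ) ^ (p - 1) := by
    intro x
    have h2 : ((winD h) ^ p).coeff x ≤ h ^ (p - 1) := by
      have h3 : (winD h) ^ p = winD h * (winD h) ^ (p - 1) := by
        rw [← pow_succ']
        congr 1
        omega
      rw [h3]
      refine (winD_mul_coeff h _ x).trans ?_
      rw [eval_pow, winD_eval_one]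
    exact_mod_cast h2
  calc winS p h ≤ ∑ x ∈ ((winD h) ^ p).support, (h : ℝ) ^ (p - 1) *
        (((winD h) ^ p).coeff x : ℝ) := by
        refine Finset.sum_le_sum fun x _ => ?_
        rw [sq]
        have := h1 x
        gcongr
    _ = (h : ℝ) ^ (p - 1) * (h : ℝ) ^ p := by rw [← Finset.mul_sum, win_sum_coeff]
    _ = (h : ℝ) ^ (2 * p - 1) := by
        rw [← pow_add]
        congr 1
        omega

lemma winB_eval (p h : ℕ) (z : ℂ) : (winB p h).eval z = (∑ i ∈ Finset.range h, z ^ i) ^ p := by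
  unfold winB winD
  rw [Polynomial.map_pow, eval_pow]
  congr 1
  simp [Polynomial.map_sum, eval_finsetSum]

lemma win_zt_norm (M : ℕ) (k : ℤ) : ‖zt (2 * M + 1) k‖ = 1 := by
  unfold zt
  rw [Complex.norm_exp]
  have : (2 * (Real.pi : ℂ) * Complex.I * k / ((2 * M + 1 : ℕ) : ℂ)).re = 0 := by
    have : (2 * (Real.pi : ℂ) * Complex.I * k / ((2 * M + 1 : ℕ) : ℂ)) =
        (((2 * Real.pi * k / ((2 * M + 1 : ℕ) : ℝ)) : ℝ) : ℂ) * Complex.I := by
      push_cast
      ring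
    rw [this, Complex.re_ofReal_mul, Complex.I_re, mul_zero]
  rw [this, Real.exp_zero]

lemma win_zt_sub (M : ℕ) (k : ℤ) (hk : |k| ≤ M) :
    4 * (|k| : ℝ) / (2 * M + 1 : ℕ) ≤ ‖zt (2 * M + 1) k - 1‖ := by
  have hm : (0 : ℝ) < ((2 * M + 1 : ℕ) : ℝ) := by positivity
  have h1 : zt (2 * M + 1) k =
      Complex.exp (Complex.I * ((2 * Real.pi * k / ((2 * M + 1 : ℕ) : ℝ) : ℝ) : ℂ)) := by
    unfold zt
    congr 1
    push_cast
    ring
  rw [h1, Complex.norm_exp_I_mul_ofReal_sub_one, Real.norm_eq_abs, abs_mul, abs_two]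
  have h2 : |Real.sin (2 * Real.pi * k / ((2 * M + 1 : ℕ) : ℝ) / 2)| =
      |Real.sin (Real.pi * |(k : ℝ)| / ((2 * M + 1 : ℕ) : ℝ))| := by
    rcases abs_cases (k : ℝ) with ⟨h, -⟩ | ⟨h, -⟩
    · rw [h]
      congr 2
      ring
    · rw [h]
      have : 2 * Real.pi * k / ((2 * M + 1 : ℕ) : ℝ) / 2 =
          -(Real.pi * (-(k : ℝ)) / ((2 * M + 1 : ℕ) : ℝ)) := by ring
      rw [this, Real.sin_neg, abs_neg]
  rw [h2]
  have hkM : |(k : ℝ)| ≤ M := by exact_mod_cast hk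
  have h3 : Real.pi * |(k : ℝ)| / ((2 * M + 1 : ℕ) : ℝ) ≤ Real.pi / 2 := by
    rw [div_le_div_iff₀ hm (by norm_num)]
    push_cast
    nlinarith [Real.pi_pos]
  have h4 := Real.mul_le_sin (x := Real.pi * |(k : ℝ)| / ((2 * M + 1 : ℕ) : ℝ)) (by positivity) h3
  have h5 : 2 / Real.pi * (Real.pi * |(k : ℝ)| / ((2 * M + 1 : ℕ) : ℝ)) =
      2 * |(k : ℝ)| / ((2 * M + 1 : ℕ) : ℝ) := by
    have := Real.pi_pos.ne'
    field_simp
  rw [h5] at h4
  calc 4 * (|(k : ℝ)|) / ((2 * M + 1 : ℕ) : ℝ) = 2 * (2 * |(k : ℝ)| / ((2 * M + 1 : ℕ) : ℝ)) := by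
        ring
    _ ≤ 2 * |Real.sin (Real.pi * |(k : ℝ)| / ((2 * M + 1 : ℕ) : ℝ))| := by
        gcongr
        exact h4.trans (le_abs_self _)

lemma win_geom (M h : ℕ) (k : ℤ) (hk : |k| ≤ M) {W : ℝ} (hW : 0 < W) (hkW : W ≤ |(k : ℝ)|) :
    ‖∑ i ∈ Finset.range h, zt (2 * M + 1) k ^ i‖ ≤ ((2 * M + 1 : ℕ) : ℝ) / (2 * W) := by
  have hm : (0 : ℝ) < ((2 * M + 1 : ℕ) : ℝ) := by positivity
  have h1 := win_zt_sub M k hk
  have h2 : 4 * W / ((2 * M + 1 : ℕ) : ℝ) ≤ ‖zt (2 * M + 1) k - 1‖ := by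
    refine le_trans ?_ h1
    gcongr
  have h3 : 0 < 4 * W / ((2 * M + 1 : ℕ) : ℝ) := by positivity
  have hne : zt (2 * M + 1) k ≠ 1 := by
    intro h
    rw [h, sub_self, norm_zero] at h2
    linarith
  rw [geom_sum_eq hne, norm_div]
  have h4 : ‖zt (2 * M + 1) k ^ h - 1‖ ≤ 2 := by
    calc ‖zt (2 * M + 1) k ^ h - 1‖ ≤ ‖zt (2 * M + 1) k ^ h‖ + ‖(1 : ℂ)‖ := norm_sub_le _ _
      _ = 2 := by rw [norm_pow, win_zt_norm]; norm_num
  calc ‖zt (2 * M + 1) k ^ h - 1‖ / ‖zt (2 * M + 1) k - 1‖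
      ≤ 2 / (4 * W / ((2 * M + 1 : ℕ) : ℝ)) := by gcongr
    _ = ((2 * M + 1 : ℕ) : ℝ) / (2 * W) := by
        field_simp
        norm_num

theorem claimWin (hpars : ClaimPars) : ClaimWin := by
  intro p h W M hp hh hM hW
  have hm : (0 : ℝ) < ((2 * M + 1 : ℕ) : ℝ) := by positivity
  have hh' : (0 : ℝ) < h := by exact_mod_cast hh
  have hp' : (0 : ℝ) < p := by exact_mod_cast hp
  have hW' : (0 : ℝ) < W := by exact_mod_cast hW
  have hS1 := winS_lower p h hp hh
  have hS2 := winS_upper p h hp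
  have hS : 0 < winS p h := by
    have : (0 : ℝ) < (h : ℝ) ^ (2 * p) := by positivity
    by_contra hcon
    push Not at hcon
    have h1 : (p * h : ℝ) * winS p h ≤ 0 := mul_nonpos_of_nonneg_of_nonpos (by positivity) hcon
    linarith
  set c : ℝ := (Real.sqrt (((2 * M + 1 : ℕ) : ℝ) * winS p h))⁻¹ with hc
  have hc2 : c ^ 2 = (((2 * M + 1 : ℕ) : ℝ) * winS p h)⁻¹ := by
    rw [hc, inv_pow, Real.sq_sqrt (by positivity)]
  have hc0 : 0 ≤ c := by positivity
  set A : ℂ[X] := C (c : ℂ) * winB p h with hA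
  have hAe : ∀ z : ℂ, ‖A.eval z‖ ^ 2 = c ^ 2 * ‖(winB p h).eval z‖ ^ 2 := by
    intro z
    rw [hA, eval_mul, eval_C, norm_mul, mul_pow, Complex.norm_real, Real.norm_of_nonneg hc0]
  have hBdeg : (winB p h).degree < ((p * (h - 1) + 1 : ℕ) : WithBot ℕ) := by
    refine lt_of_le_of_lt degree_le_natDegree ?_
    have h1 : (winB p h).natDegree ≤ p * (h - 1) :=
      (natDegree_map_le).trans (winD_pow_natDegree p h hh)
    exact_mod_cast Nat.lt_succ_of_le h1
  have hIcc : Finset.Icc (-(M : ℤ)) M = Finset.Icc (-(M : ℤ)) (-(M : ℤ) + 2 * M) := by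
    congr 1
    ring
  have hsum : ∀ (w : ℂ[X]) (n : ℕ), w.degree < n → n ≤ 2 * M + 1 →
      ∑ k ∈ Finset.Icc (-(M : ℤ)) M, ‖w.eval (zt (2 * M + 1) k)‖ ^ 2 =
        ((2 * M + 1 : ℕ) : ℝ) * nsq w := by
    intro w n h1 h2
    have h3 := hpars.2 M n w (-(M : ℤ)) h1 h2
    rw [← hIcc] at h3
    rw [← h3, Finset.mul_sum]
    refine Finset.sum_congr rfl fun k _ => ?_
    unfold pk
    field_simp
  refine ⟨A, ⟨?_, ?_, ?_⟩, ?_⟩
  · refine lt_of_le_of_lt ?_ hBdeg
    have hcne : (c : ℂ) ≠ 0 := by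
      have : c ≠ 0 := by positivity
      exact_mod_cast this
    rw [hA, degree_C_mul hcne]
  · rw [Finset.sum_congr rfl fun k _ => hAe _, ← Finset.mul_sum, hsum _ _ hBdeg hM, winB_nsq, hc2]
    field_simp
  · -- the tail
    have hD : ∑ k ∈ Finset.Icc (-(M : ℤ)) M,
        ‖∑ i ∈ Finset.range h, zt (2 * M + 1) k ^ i‖ ^ 2 = ((2 * M + 1 : ℕ) : ℝ) * h := by
      have h1 : ∀ z : ℂ, (∑ i ∈ Finset.range h, z ^ i) = (winB 1 h).eval z := by
        intro z
        rw [winB_eval, pow_one]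
      have h2 : (winB 1 h).degree < ((h : ℕ) : WithBot ℕ) := by
        refine lt_of_le_of_lt degree_le_natDegree ?_
        have h3 : (winB 1 h).natDegree ≤ 1 * (h - 1) :=
          (natDegree_map_le).trans (winD_pow_natDegree 1 h hh)
        have h4 : (winB 1 h).natDegree < h := by omega
        exact_mod_cast h4
      have h5 : h ≤ 2 * M + 1 := by
        have : h - 1 ≤ p * (h - 1) := Nat.le_mul_of_pos_left _ hp
        omega
      rw [Finset.sum_congr rfl fun k _ => by rw [h1], hsum _ h h2 h5, winB_nsq]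
      congr 1
      unfold winS
      rw [pow_one]
      have h6 : ∀ x ∈ (winD h).support, ((winD h).coeff x : ℝ) ^ 2 = ((winD h).coeff x : ℝ) := by
        intro x _
        rw [winD_coeff]
        split_ifs <;> simp
      rw [Finset.sum_congr rfl h6]
      have h7 := win_sum_coeff 1 h
      simpa using h7
    have hterm : ∀ k ∈ (Finset.Icc (-(M : ℤ)) M).filter (fun k => (W : ℤ) < |k|),
        ‖A.eval (zt (2 * M + 1) k)‖ ^ 2 ≤ c ^ 2 * ((((2 * M + 1 : ℕ) : ℝ) / (2 * W)) ^ (2 * p - 2) *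
          ‖∑ i ∈ Finset.range h, zt (2 * M + 1) k ^ i‖ ^ 2) := by
      intro k hk
      rw [Finset.mem_filter, Finset.mem_Icc] at hk
      obtain ⟨⟨hk1, hk2⟩, hk3⟩ := hk
      rw [hAe, winB_eval, norm_pow]
      have h1 := win_geom M h k (abs_le.mpr ⟨hk1, hk2⟩) hW' (by
        have : (W : ℤ) ≤ |k| := hk3.le
        exact_mod_cast this)
      have h2 : (‖∑ i ∈ Finset.range h, zt (2 * M + 1) k ^ i‖ ^ p) ^ 2 =
          ‖∑ i ∈ Finset.range h, zt (2 * M + 1) k ^ i‖ ^ (2 * p - 2) *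
          ‖∑ i ∈ Finset.range h, zt (2 * M + 1) k ^ i‖ ^ 2 := by
        rw [← pow_mul, ← pow_add]
        congr 1
        omega
      rw [h2]
      gcongr
    refine (Finset.sum_le_sum hterm).trans ?_
    rw [← Finset.mul_sum, ← Finset.mul_sum]
    have h3 : ∑ k ∈ (Finset.Icc (-(M : ℤ)) M).filter (fun k => (W : ℤ) < |k|),
        ‖∑ i ∈ Finset.range h, zt (2 * M + 1) k ^ i‖ ^ 2 ≤ ((2 * M + 1 : ℕ) : ℝ) * h := by
      rw [← hD]
      exact Finset.sum_le_sum_of_subset_of_nonneg (Finset.filter_subset _ _)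
        fun k _ _ => by positivity
    calc c ^ 2 * ((((2 * M + 1 : ℕ) : ℝ) / (2 * W)) ^ (2 * p - 2) *
          ∑ k ∈ (Finset.Icc (-(M : ℤ)) M).filter (fun k => (W : ℤ) < |k|),
          ‖∑ i ∈ Finset.range h, zt (2 * M + 1) k ^ i‖ ^ 2)
        ≤ c ^ 2 * ((((2 * M + 1 : ℕ) : ℝ) / (2 * W)) ^ (2 * p - 2) *
          (((2 * M + 1 : ℕ) : ℝ) * h)) := by gcongr
      _ = (((2 * M + 1 : ℕ) : ℝ) / (2 * W)) ^ (2 * p - 2) * (h / winS p h) := by
          rw [hc2]
          field_simp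
      _ ≤ (((2 * M + 1 : ℕ) : ℝ) / (2 * W)) ^ (2 * p - 2) * (p / (h : ℝ) ^ (2 * p - 2)) := by
          gcongr ?_ * ?_
          rw [div_le_div_iff₀ hS (by positivity)]
          have h8 : (h : ℝ) ^ (2 * p) = h * (h * (h : ℝ) ^ (2 * p - 2)) := by
            rw [← pow_succ', ← pow_succ']
            congr 1
            omega
          rw [h8] at hS1
          have h9 : h * (h * (h : ℝ) ^ (2 * p - 2)) ≤ h * (p * winS p h) := by
            calc h * (h * (h : ℝ) ^ (2 * p - 2)) ≤ (p * h) * winS p h := hS1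
              _ = h * (p * winS p h) := by ring
          exact le_of_mul_le_mul_left h9 hh'
      _ = p * (((2 * M + 1 : ℕ) : ℝ) / (2 * W * h)) ^ (2 * p - 2) := by
          have h11 : ((2 * M + 1 : ℕ) : ℝ) / (2 * W * h) = ((2 * M + 1 : ℕ) : ℝ) / (2 * W) / h := by
            rw [div_div]
          rw [h11, div_pow (((2 * M + 1 : ℕ) : ℝ) / (2 * W)) (h : ℝ)]
          ring
  · rw [hAe, winB_eval, hc2]
    simp only [one_pow, Finset.sum_const, Finset.card_range, nsmul_eq_mul, mul_one]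
    rw [norm_pow, Complex.norm_natCast, ← pow_mul, inv_mul_eq_div,
      div_le_div_iff₀ hm (by positivity)]
    have h10 : (h : ℝ) ^ (p * 2) = h * (h : ℝ) ^ (2 * p - 1) := by
      rw [← pow_succ']
      congr 1
      omega
    rw [h10]
    calc (h : ℝ) * (((2 * M + 1 : ℕ) : ℝ) * winS p h)
        ≤ (h : ℝ) * (((2 * M + 1 : ℕ) : ℝ) * (h : ℝ) ^ (2 * p - 1)) := by gcongr
      _ = _ := by ring

end Pool.Agent.Work.MP_3574a2_pr.Dil
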