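import Pool.Agent.Work.MP_3574a2_pr.Dil.Claims

/-!
# Gumbel limit for random Toeplitz matrices: the parameters and their asymptotics
-/

set_option autoImplicit false

namespace Pool.Agent.Work.MP_3574a2_pr.Dil

open Filter Topology

/-- The side of the box window. -/
noncomputable def hh (n : ℕ) : ℕ := n / (8 * (rr n) ^ 41)

/-- The length of the window. -/
noncomputable def HH (n : ℕ) : ℕ := 8 * (hh n - 1)

/-- The radius of the window in frequency. -/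
noncomputable def WW (n : ℕ) : ℕ := (rr n) ^ 47

/-- The size of the upper lattice. -/
noncomputable def MM (n : ℕ) : ℕ := n + HH n - 1

/-- The tail of the window. -/
noncomputable def tz (n : ℕ) : ℝ :=
  (8 : ℕ) * (((2 * MM n + 1 : ℕ) : ℝ) / (2 * (WW n : ℕ) * (hh n : ℕ))) ^ (2 * 8 - 2)

/-- The weight of the bad mass. -/
noncomputable def kk (n : ℕ) : ℝ := (rr n : ℝ) ^ 61

/-- The bound of the noise. -/
noncomputable def GG (n : ℕ) : ℝ := 6 * (rr n : ℝ) ^ 20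

/-- The tolerance of the upper class. -/
noncomputable def t1 (n : ℕ) : ℝ := tz n + GG n / kk n

/-- The cost of the comparison of the lattices. -/
noncomputable def ep (C : ℝ) (n : ℕ) : ℝ := C * (NN n : ℝ) ^ 2 / ((n - 1 : ℕ) : ℝ)

lemma rr_tendsto : Tendsto rr atTop atTop := by
  unfold rr
  exact tendsto_nat_floor_atTop.comp ((tendsto_rpow_atTop (by norm_num)).comp
    (Real.tendsto_log_atTop.comp tendsto_natCast_atTop_atTop))

lemma rr_tendsto' : Tendsto (fun n => (rr n : ℝ)) atTop atTop :=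
  tendsto_natCast_atTop_atTop.comp rr_tendsto

lemma rr_pow_le (n : ℕ) : (rr n : ℝ) ^ 40 ≤ Real.log n := by
  have hl : 0 ≤ Real.log n := Real.log_natCast_nonneg n
  have h1 : (rr n : ℝ) ≤ (Real.log n) ^ (1 / 40 : ℝ) :=
    Nat.floor_le (Real.rpow_nonneg hl _)
  calc (rr n : ℝ) ^ 40 ≤ ((Real.log n) ^ (1 / 40 : ℝ)) ^ 40 :=
        pow_le_pow_left₀ (by positivity) h1 _
    _ = Real.log n := by
        rw [← Real.rpow_natCast, ← Real.rpow_mul hl]; norm_num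

lemma log_le (n : ℕ) : Real.log n ≤ ((rr n : ℝ) + 1) ^ 40 := by
  have hl : 0 ≤ Real.log n := Real.log_natCast_nonneg n
  have h1 : (Real.log n) ^ (1 / 40 : ℝ) ≤ (rr n : ℝ) + 1 := (Nat.lt_floor_add_one _).le
  calc Real.log n = ((Real.log n) ^ (1 / 40 : ℝ)) ^ 40 := by
        rw [← Real.rpow_natCast, ← Real.rpow_mul hl]; norm_num
    _ ≤ ((rr n : ℝ) + 1) ^ 40 := pow_le_pow_left₀ (Real.rpow_nonneg hl _) h1 _

lemma ev_rr (k : ℕ) : ∀ᶠ n in atTop, k ≤ rr n := rr_tendsto.eventually_ge_atTop k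

lemma ev_rr' (c : ℝ) : ∀ᶠ n in atTop, c ≤ (rr n : ℝ) := rr_tendsto'.eventually_ge_atTop c

/-- Powers of `r` are negligible against `n`. -/
lemma pow_div (k : ℕ) : Tendsto (fun n : ℕ => (rr n : ℝ) ^ k / n) atTop (𝓝 0) := by
  have h1 : Tendsto (fun x : ℝ => (Real.log x) ^ k / x) atTop (𝓝 0) := by
    have := Real.isLittleO_pow_log_id_atTop (n := k)
    simpa using this.tendsto_div_nhds_zero
  have h2 := h1.comp tendsto_natCast_atTop_atTop (α := ℕ)
  refine squeeze_zero' (Eventually.of_forall fun n => by positivity) ?_ h2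
  filter_upwards [eventually_ge_atTop 1, ev_rr 1] with n hn hr
  simp only [Function.comp_apply]
  gcongr
  have h3 := rr_pow_le n
  have h4 : (1 : ℝ) ≤ rr n := by exact_mod_cast hr
  calc (rr n : ℝ) ≤ (rr n : ℝ) ^ 40 := le_self_pow₀ h4 (by norm_num)
    _ ≤ _ := h3

lemma pow_div_sub (k : ℕ) :
    Tendsto (fun n : ℕ => (rr n : ℝ) ^ k / ((n - 1 : ℕ) : ℝ)) atTop (𝓝 0) := by
  have h := (pow_div k).const_mul 2
  rw [mul_zero] at h
  refine squeeze_zero' (Eventually.of_forall fun n => by positivity) ?_ h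
  filter_upwards [eventually_ge_atTop 2] with n hn
  have h1 : ((n - 1 : ℕ) : ℝ) = n - 1 := by push_cast [Nat.cast_sub (show 1 ≤ n by omega)]; ring
  have h2 : (2 : ℝ) ≤ n := by exact_mod_cast hn
  rw [h1, ← mul_div_assoc, div_le_div_iff₀ (by linarith) (by linarith)]
  nlinarith [pow_nonneg (Nat.cast_nonneg (α := ℝ) (rr n)) k]

/-- Eventually any fixed multiple of a power of `r` is at most `n`. -/
lemma ev_pow_le (c : ℝ) (k : ℕ) : ∀ᶠ n : ℕ in atTop, c * (rr n : ℝ) ^ k ≤ n := by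
  have h := (pow_div k).const_mul c
  rw [mul_zero] at h
  filter_upwards [h.eventually_lt_const (show (0 : ℝ) < 1 by norm_num),
    eventually_ge_atTop 1] with n hn h1
  have h2 : (0 : ℝ) < n := by exact_mod_cast h1
  rw [← mul_div_assoc, div_lt_one h2] at hn
  exact hn.le

lemma ev_hh : ∀ᶠ n : ℕ in atTop, 2 ≤ hh n ∧ (n : ℝ) ≤ 16 * (rr n : ℝ) ^ 41 * hh n ∧
    (hh n : ℝ) * (8 * (rr n : ℝ) ^ 41) ≤ n := by
  filter_upwards [ev_pow_le 16 41, ev_rr 1] with n hn hr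
  have hr' : (1 : ℝ) ≤ rr n := by exact_mod_cast hr
  have hpos : 0 < 8 * (rr n) ^ 41 := by positivity
  have hn' : 16 * (rr n) ^ 41 ≤ n := by exact_mod_cast hn
  have h1 : hh n * (8 * (rr n) ^ 41) ≤ n := Nat.div_mul_le_self _ _
  have h2 : n < (hh n + 1) * (8 * (rr n) ^ 41) := by
    have := Nat.lt_mul_div_succ n hpos
    unfold hh
    calc n < 8 * (rr n) ^ 41 * (n / (8 * (rr n) ^ 41) + 1) := this
      _ = _ := by ring
  have h3 : 2 ≤ hh n := by
    unfold hh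
    rw [Nat.le_div_iff_mul_le hpos]
    calc 2 * (8 * (rr n) ^ 41) = 16 * (rr n) ^ 41 := by ring
      _ ≤ n := hn'
  refine ⟨h3, ?_, by exact_mod_cast h1⟩
  have h2' : (n : ℝ) < ((hh n : ℝ) + 1) * (8 * (rr n : ℝ) ^ 41) := by exact_mod_cast h2
  have h3' : (2 : ℝ) ≤ hh n := by exact_mod_cast h3
  have h4 : (0 : ℝ) < 8 * (rr n : ℝ) ^ 41 := by positivity
  nlinarith

lemma ev_HH : ∀ᶠ n : ℕ in atTop, (HH n : ℝ) * (rr n : ℝ) ^ 41 ≤ n ∧ HH n ≤ n := by
  filter_upwards [ev_hh, ev_rr 1] with n ⟨h1, _, h3⟩ hr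
  have hr' : (1 : ℝ) ≤ (rr n : ℝ) ^ 41 := one_le_pow₀ (by exact_mod_cast hr)
  have h4 : (HH n : ℝ) ≤ 8 * hh n := by
    have : HH n ≤ 8 * hh n := by unfold HH; omega
    exact_mod_cast this
  have h5 : (HH n : ℝ) * (rr n : ℝ) ^ 41 ≤ n := by nlinarith
  refine ⟨h5, ?_⟩
  have : (HH n : ℝ) ≤ n := by nlinarith [Nat.cast_nonneg (α := ℝ) (HH n)]
  exact_mod_cast this

lemma ev_tz : ∀ᶠ n : ℕ in atTop, 0 ≤ tz n ∧ tz n ≤ 8 * 32 ^ 14 / (rr n : ℝ) ^ 84 := by
  filter_upwards [ev_hh, ev_rr 1, ev_HH, eventually_ge_atTop 1] with n ⟨h1, h2, _⟩ hr ⟨_, hH⟩ hn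
  have hr' : (1 : ℝ) ≤ (rr n : ℝ) := by exact_mod_cast hr
  have hh' : (2 : ℝ) ≤ hh n := by exact_mod_cast h1
  have hn' : (1 : ℝ) ≤ n := by exact_mod_cast hn
  have hM : ((2 * MM n + 1 : ℕ) : ℝ) ≤ 4 * n := by
    have : 2 * MM n + 1 ≤ 4 * n := by unfold MM; omega
    exact_mod_cast this
  unfold tz
  refine ⟨by positivity, ?_⟩
  have hb : ((2 * MM n + 1 : ℕ) : ℝ) / (2 * (WW n : ℕ) * (hh n : ℕ)) ≤ 32 / (rr n : ℝ) ^ 6 := by
    have hW : ((WW n : ℕ) : ℝ) = (rr n : ℝ) ^ 47 := by unfold WW; push_cast; ring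
    rw [hW, div_le_div_iff₀ (by positivity) (by positivity)]
    have h5 : (rr n : ℝ) ^ 47 = (rr n : ℝ) ^ 6 * (rr n : ℝ) ^ 41 := by ring
    have h6 : 0 < (rr n : ℝ) ^ 6 := by positivity
    calc ((2 * MM n + 1 : ℕ) : ℝ) * (rr n : ℝ) ^ 6 ≤ 4 * n * (rr n : ℝ) ^ 6 := by gcongr
      _ ≤ 4 * (16 * (rr n : ℝ) ^ 41 * hh n) * (rr n : ℝ) ^ 6 := by gcongr
      _ = 32 * (2 * (rr n : ℝ) ^ 47 * hh n) := by rw [h5]; ring
  calc ((8 : ℕ) : ℝ) * (((2 * MM n + 1 : ℕ) : ℝ) / (2 * (WW n : ℕ) * (hh n : ℕ))) ^ (2 * 8 - 2)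
      ≤ ((8 : ℕ) : ℝ) * (32 / (rr n : ℝ) ^ 6) ^ (2 * 8 - 2) := by gcongr
    _ = 8 * 32 ^ 14 / (rr n : ℝ) ^ 84 := by
        rw [div_pow, ← pow_mul]; push_cast; ring

/-- Negative powers tend to zero. -/
lemma inv_pow_tendsto (c : ℝ) (k : ℕ) (hk : k ≠ 0) :
    Tendsto (fun n : ℕ => c / (rr n : ℝ) ^ k) atTop (𝓝 0) :=
  tendsto_const_nhds.div_atTop ((tendsto_pow_atTop hk).comp rr_tendsto')

lemma t1_bound : ∀ᶠ n : ℕ in atTop, 0 ≤ t1 n ∧ 6 / (rr n : ℝ) ^ 41 ≤ t1 n ∧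
    t1 n ≤ 7 / (rr n : ℝ) ^ 41 := by
  filter_upwards [ev_tz, ev_rr 1, ev_rr' (8 * 32 ^ 14)] with n ⟨h1, h2⟩ hr hr2
  have hr' : (1 : ℝ) ≤ (rr n : ℝ) := by exact_mod_cast hr
  have hg : GG n / kk n = 6 / (rr n : ℝ) ^ 41 := by
    unfold GG kk
    rw [div_eq_div_iff (by positivity) (by positivity)]; ring
  have h3 : (8 : ℝ) * 32 ^ 14 / (rr n : ℝ) ^ 84 ≤ 1 / (rr n : ℝ) ^ 41 := by
    rw [div_le_div_iff₀ (by positivity) (by positivity)]
    calc (8 : ℝ) * 32 ^ 14 * (rr n : ℝ) ^ 41 ≤ rr n * (rr n : ℝ) ^ 41 := by gcongr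
      _ = (rr n : ℝ) ^ 42 := by ring
      _ ≤ (rr n : ℝ) ^ 84 := pow_le_pow_right₀ hr' (by norm_num)
      _ = 1 * (rr n : ℝ) ^ 84 := by ring
  have h4 : (0 : ℝ) < 6 / (rr n : ℝ) ^ 41 := by positivity
  unfold t1
  rw [hg]
  refine ⟨by linarith, by linarith, ?_⟩
  have h5 : (7 : ℝ) / (rr n : ℝ) ^ 41 = 1 / (rr n : ℝ) ^ 41 + 6 / (rr n : ℝ) ^ 41 := by ring
  rw [h5]; linarith

lemma ep_tendsto (C : ℝ) (k : ℕ) :
    Tendsto (fun n : ℕ => (rr n : ℝ) ^ k * ep C n) atTop (𝓝 0) := by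
  have h := (pow_div_sub (k + 96)).const_mul C
  rw [mul_zero] at h
  refine h.congr fun n => ?_
  unfold ep NN
  push_cast
  ring

/-- The main error of the noise. -/
lemma exp_tendsto : Tendsto (fun n : ℕ => (n : ℝ) * Real.exp (-GG n ^ 2 / 4)) atTop (𝓝 0) := by
  have h1 : Tendsto (fun n : ℕ => ((n : ℝ))⁻¹) atTop (𝓝 0) :=
    tendsto_inv_atTop_zero.comp tendsto_natCast_atTop_atTop
  refine squeeze_zero' (Eventually.of_forall fun n => by positivity) ?_ h1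
  filter_upwards [eventually_ge_atTop 1, ev_rr 40] with n hn hr
  have hn' : (0 : ℝ) < n := by exact_mod_cast hn
  have hr' : (40 : ℝ) ≤ rr n := by exact_mod_cast hr
  have h2 : ((rr n : ℝ) + 1) ^ 40 ≤ 3 * (rr n : ℝ) ^ 40 := by
    have e1 : (rr n : ℝ) + 1 = rr n * (1 + 1 / rr n) := by field_simp
    rw [e1, mul_pow, mul_comm]
    gcongr
    calc (1 + 1 / (rr n : ℝ)) ^ 40 ≤ (Real.exp (1 / rr n)) ^ 40 := by
          gcongr; linarith [Real.add_one_le_exp (1 / (rr n : ℝ))]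
      _ = Real.exp (40 * (1 / rr n)) := by rw [← Real.exp_nat_mul]; norm_num
      _ ≤ Real.exp 1 := by
          apply Real.exp_le_exp.mpr
          rw [mul_one_div, div_le_one (by linarith)]; exact hr'
      _ ≤ 3 := by linarith [Real.exp_one_lt_d9]
  have h3 : 2 * Real.log n ≤ GG n ^ 2 / 4 := by
    have := log_le n
    unfold GG
    calc 2 * Real.log n ≤ 2 * (3 * (rr n : ℝ) ^ 40) := by linarith
      _ ≤ (6 * (rr n : ℝ) ^ 20) ^ 2 / 4 := by
        rw [mul_pow, ← pow_mul]; nlinarith [pow_nonneg (Nat.cast_nonneg (α := ℝ) (rr n)) 40]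
  calc (n : ℝ) * Real.exp (-GG n ^ 2 / 4) ≤ n * Real.exp (-(2 * Real.log n)) := by
        gcongr; linarith
    _ = (n : ℝ)⁻¹ := by
        rw [Real.exp_neg, two_mul, Real.exp_add, Real.exp_log hn']
        field_simp

/-- Quotients: `⌊x_n / N_n⌋ N_n / n → 1` when `x_n / n → 1`. -/
lemma div_tendsto (x : ℕ → ℕ) (hx : Tendsto (fun n : ℕ => (x n : ℝ) / n) atTop (𝓝 1)) :
    Tendsto (fun n : ℕ => ((x n / NN n : ℕ) : ℝ) * NN n / n) atTop (𝓝 1) := by
  have h1 := pow_div 48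
  have h2 : Tendsto (fun n : ℕ => (x n : ℝ) / n - (rr n : ℝ) ^ 48 / n) atTop (𝓝 1) := by
    simpa using hx.sub h1
  refine tendsto_of_tendsto_of_tendsto_of_le_of_le' h2 hx ?_ ?_
  · filter_upwards [ev_rr 1] with n hr
    have hN : 0 < NN n := by unfold NN; positivity
    have h3 : x n < (x n / NN n + 1) * NN n := by
      have := Nat.lt_mul_div_succ (x n) hN
      linarith [mul_comm (NN n) (x n / NN n + 1)]
    have h4 : (x n : ℝ) ≤ ((x n / NN n : ℕ) + 1) * (NN n : ℝ) := by exact_mod_cast h3.le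
    have h5 : (NN n : ℝ) = (rr n : ℝ) ^ 48 := by unfold NN; push_cast; ring
    rw [← sub_div, ← h5]
    gcongr
    linarith
  · filter_upwards with n
    gcongr
    exact_mod_cast Nat.div_mul_le_self _ _

lemma HH_div : Tendsto (fun n : ℕ => (HH n : ℝ) / n) atTop (𝓝 0) := by
  have h := inv_pow_tendsto 1 41 (by norm_num)
  refine squeeze_zero' (Eventually.of_forall fun n => by positivity) ?_ h
  filter_upwards [ev_HH, ev_rr 1, eventually_ge_atTop 1] with n ⟨h1, _⟩ hr hn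
  have hn' : (0 : ℝ) < n := by exact_mod_cast hn
  have hr' : (0 : ℝ) < rr n := by exact_mod_cast hr
  rw [div_le_div_iff₀ hn' (by positivity)]
  linarith

lemma MM_div : Tendsto (fun n : ℕ => (MM n : ℝ) / n) atTop (𝓝 1) := by
  have h1 : Tendsto (fun n : ℕ => 1 + (HH n : ℝ) / n - ((n : ℝ))⁻¹) atTop (𝓝 1) := by
    simpa using (HH_div.const_add 1).sub
      (tendsto_inv_atTop_zero.comp tendsto_natCast_atTop_atTop)
  refine h1.congr' ?_
  filter_upwards [eventually_ge_atTop 1] with n hn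
  have hn' : (0 : ℝ) < n := by exact_mod_cast hn
  have : (MM n : ℝ) = n + HH n - 1 := by
    unfold MM; push_cast [Nat.cast_sub (show 1 ≤ n + HH n by omega)]; ring
  rw [this]; field_simp

lemma sub_one_div : Tendsto (fun n : ℕ => ((n - 1 : ℕ) : ℝ) / n) atTop (𝓝 1) := by
  have h0 : Tendsto (fun n : ℕ => ((n : ℝ))⁻¹) atTop (𝓝 0) :=
    tendsto_inv_atTop_zero.comp tendsto_natCast_atTop_atTop
  have h1 : Tendsto (fun n : ℕ => 1 - ((n : ℝ))⁻¹) atTop (𝓝 1) := by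
    simpa using h0.const_sub 1
  refine h1.congr' ?_
  filter_upwards [eventually_ge_atTop 1] with n hn
  have hn' : (0 : ℝ) < n := by exact_mod_cast hn
  push_cast [Nat.cast_sub hn]; field_simp

/-- `(1 - p) ^ I → exp (- y)` when `I p → y` and `p → 0`. -/
lemma one_sub_pow (I : ℕ → ℕ) (p : ℕ → ℝ) (y : ℝ) (hp : Tendsto p atTop (𝓝 0))
    (hIp : Tendsto (fun n => (I n : ℝ) * p n) atTop (𝓝 y)) :
    Tendsto (fun n => (1 - p n) ^ (I n)) atTop (𝓝 (Real.exp (-y))) := by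
  have h1 : Tendsto (fun n => Real.exp (-((I n : ℝ) * p n / (1 - p n)))) atTop
      (𝓝 (Real.exp (-y))) := by
    have : Tendsto (fun n => (I n : ℝ) * p n / (1 - p n)) atTop (𝓝 (y / (1 - 0))) :=
      hIp.div (tendsto_const_nhds.sub hp) (by norm_num)
    rw [sub_zero, div_one] at this
    exact (Real.continuous_exp.tendsto _).comp this.neg
  have h2 : Tendsto (fun n => Real.exp (-((I n : ℝ) * p n))) atTop (𝓝 (Real.exp (-y))) :=
    (Real.continuous_exp.tendsto _).comp hIp.neg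
  have h3 : ∀ᶠ n in atTop, p n < 1 / 2 := hp.eventually_lt_const (by norm_num)
  refine tendsto_of_tendsto_of_tendsto_of_le_of_le' h1 h2 ?_ ?_
  · filter_upwards [h3] with n hn
    have hq : 0 < 1 - p n := by linarith
    have h4 : Real.exp (-(p n / (1 - p n))) ≤ 1 - p n := by
      have h5 : (1 - p n)⁻¹ ≤ Real.exp (p n / (1 - p n)) := by
        have := Real.add_one_le_exp (p n / (1 - p n))
        have e : (1 - p n)⁻¹ = p n / (1 - p n) + 1 := by field_simp; ring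
        rw [e]; exact this
      rw [Real.exp_neg]
      exact inv_le_of_inv_le₀ hq h5
    calc Real.exp (-((I n : ℝ) * p n / (1 - p n))) = (Real.exp (-(p n / (1 - p n)))) ^ (I n) := by
          rw [← Real.exp_nat_mul]; congr 1; ring
      _ ≤ (1 - p n) ^ (I n) := by gcongr
  · filter_upwards [h3] with n hn
    have hq : 0 ≤ 1 - p n := by linarith
    calc (1 - p n) ^ (I n) ≤ (Real.exp (-p n)) ^ (I n) := by
          gcongr; linarith [Real.add_one_le_exp (-p n)]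
      _ = Real.exp (-((I n : ℝ) * p n)) := by
          rw [← Real.exp_nat_mul]; congr 1; ring

end Pool.Agent.Work.MP_3574a2_pr.Dil
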