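import Pool.Agent.Work.MP_3574a2_pr.Dil.Defs

/-!
# Gumbel limit for random Toeplitz matrices: the list of claims
-/

set_option autoImplicit false

namespace Pool.Agent.Work.MP_3574a2_pr.Dil

open MeasureTheory ProbabilityTheory Set Polynomial Filter Topology
open scoped ENNReal NNReal

/-! ### A. Tail regularity of support functionals -/

/-- A1. Basic properties of the support functional. -/
def ClaimSpp : Prop := ∀ (N : ℕ) (P : Set (Fin N → ℝ)), Simp P →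
  Continuous (spp P) ∧
  (∀ (g : Fin N → ℝ) (c : ℝ), 0 ≤ c → spp P (fun i => c * g i) = c * spp P g) ∧
  (∀ (g : Fin N → ℝ), ∀ p ∈ P, ∑ i, g i * p i ≤ spp P g) ∧
  (∀ (g : Fin N → ℝ) (u : ℝ), u < spp P g ↔ ∃ p ∈ P, u < ∑ i, g i * p i) ∧
  (∀ (g : Fin N → ℝ) (G : ℝ), 0 ≤ G → (∀ i, g i ≤ G) → spp P g ≤ G) ∧
  (∀ p ∈ P, l2 p ≤ sig P) ∧ (∀ s < sig P, ∃ p ∈ P, s < l2 p) ∧ 0 ≤ sig P ∧ sig P ≤ 1

/-- A2. Concavity by dilation. -/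
def ClaimConc : Prop := ∀ (N : ℕ) (P : Set (Fin N → ℝ)), Simp P → (∀ v, 0 < v → 0 < Fb P v) →
  ∀ u : ℝ, 0 < u → ConcaveOn ℝ (Ioi (0 : ℝ))
    (fun κ => -Real.log (Fb P (Real.sqrt κ * u)) + (N / 2 : ℝ) * Real.log κ)

/-- A3. Lower bound of the tail by one functional. -/
def ClaimLow : Prop := ∀ (N : ℕ) (P : Set (Fin N → ℝ)), Simp P → 0 < sig P → ∀ u : ℝ, 0 ≤ u →
  Real.exp (-(u / sig P + 1) ^ 2 / 2) / 4 ≤ Fb P u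

open Classical in
/-- A4. Maurey's empirical method. -/
def ClaimMaurey : Prop := ∀ (N t : ℕ) (p : Fin N → ℝ), 1 ≤ t → (∀ i, 0 ≤ p i) → ∑ i, p i ≤ 1 →
  ∃ j : Fin t → Option (Fin N),
    l2 (fun i => p i - ((Finset.univ.filter fun k => j k = some i).card : ℝ) / t) ≤ 1 / Real.sqrt t

/-- A5. Tail of the chi square law. -/
def ClaimChi : Prop := ∀ N : ℕ, (gm N).real {g | 4 * N < ∑ i, g i ^ 2} ≤ Real.exp (-(N / 2 : ℝ))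

/-- A6. Tail of a linear functional. -/
def ClaimTail : Prop := ∀ (N : ℕ) (q : Fin N → ℝ) (x s : ℝ), 0 ≤ x → 0 < s → l2 q ≤ s →
  (gm N).real {g | x < ∑ i, g i * q i} ≤ Real.exp (-x ^ 2 / (2 * s ^ 2))

/-- A7. Upper bound of the tail. -/
def ClaimUp : Prop := ∀ (N t : ℕ) (P : Set (Fin N → ℝ)), Simp P → 1 ≤ t → ∀ u : ℝ,
  2 * Real.sqrt (N / t) ≤ u →
  Fb P u ≤ Real.exp (-(N / 2 : ℝ)) + ((N : ℝ) + 1) ^ t *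
    Real.exp (-(u - 2 * Real.sqrt (N / t)) ^ 2 / (2 * (sig P + 1 / Real.sqrt t) ^ 2))

/-- A8. Two sided bound of the logarithm of the tail. -/
def ClaimTwo : Prop := ∀ c0 : ℝ, 0 < c0 → ∃ (C : ℝ) (r0 : ℕ), 0 < C ∧ ∀ r : ℕ, r0 ≤ r →
  ∀ P : Set (Fin (r ^ 48) → ℝ), Simp P → c0 ≤ sig P → ∀ y : ℝ, (r : ℝ) ^ 20 / 2 ≤ y →
    y ≤ 6 * (r : ℝ) ^ 20 → |-Real.log (Fb P (sig P * y)) - y ^ 2 / 2| ≤ C * (r : ℝ) ^ 30

/-- A9. Slopes of a concave function between two close lines. -/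
def ClaimSlope : Prop := ∀ (N E s w : ℝ) (F : ℝ → ℝ), 0 ≤ N → 0 ≤ E → 0 < w → w ≤ 1 / 8 →
  ConcaveOn ℝ (Ioi (0 : ℝ)) (fun κ => F κ + N / 2 * Real.log κ) →
  (∀ κ ∈ Icc (1 / 2 : ℝ) (3 / 2), |F κ - κ * s ^ 2 / 2| ≤ E) →
  ∀ κ : ℝ, |κ - 1| ≤ w →
    |F κ - F 1 - (κ - 1) * s ^ 2 / 2| ≤ |κ - 1| * (2 * E / w + 4 * N * w)

/-- A10. Tail regularity: the tail is in the domain of attraction of the Gumbel law. -/
def ClaimReg : Prop := ∀ (c0 : ℝ) (P : ∀ n, Set (Fin (NN n) → ℝ)), 0 < c0 →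
  (∀ᶠ n in atTop, Simp (P n) ∧ c0 ≤ sig (P n)) →
  ∃ a : ℕ → ℝ, (∀ᶠ n in atTop, (rr n : ℝ) ^ 20 ≤ a n / sig (P n) ∧
      a n / sig (P n) ≤ 2 * (rr n : ℝ) ^ 20) ∧
    ∀ (x : ℝ) (ξ : ℕ → ℝ), Tendsto ξ atTop (𝓝 x) →
      Tendsto (fun n : ℕ => (n : ℝ) / NN n * Fb (P n) (a n * (1 + ξ n / (a n / sig (P n)) ^ 2)))
        atTop (𝓝 (Real.exp (-x)))

/-! ### B. Localisation -/

/-- B1. Periodicity and Parseval. -/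
def ClaimPars : Prop :=
  (∀ (m : ℕ) (w : ℂ[X]) (k : ℤ), 0 < m → pk m w (k + m) = pk m w k) ∧
  (∀ (M n : ℕ) (w : ℂ[X]) (a : ℤ), w.degree < n → n ≤ 2 * M + 1 →
    ∑ k ∈ Finset.Icc a (a + 2 * M), pk (2 * M + 1) w k = nsq w)

/-- B2. Translations, conjugation, multiplication. -/
def ClaimSym : Prop :=
  (∀ (m : ℕ) (w : ℂ[X]) (j : ℤ), 0 < m → ∃ w' : ℂ[X], nsq w' = nsq w ∧
    (∀ n : ℕ, w.degree < n → w'.degree < n) ∧ ∀ k, pk m w' k = pk m w (k + j)) ∧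
  (∀ (m : ℕ) (w : ℂ[X]), ∃ w' : ℂ[X], nsq w' = nsq w ∧
    (∀ n : ℕ, w.degree < n → w'.degree < n) ∧ ∀ k, pk m w' k = pk m w (-k)) ∧
  (∀ (m : ℕ) (w : ℂ[X]) (c : ℂ), nsq (C c * w) = ‖c‖ ^ 2 * nsq w ∧
    ∀ k, pk m (C c * w) k = ‖c‖ ^ 2 * pk m w k) ∧
  (∀ (m : ℕ) (A w : ℂ[X]) (j : ℤ), 0 < m → ∃ w' : ℂ[X],
    (∀ n H : ℕ, w.degree < n → A.degree < ((H + 1 : ℕ) : WithBot ℕ) →
      w'.degree < ((n + H : ℕ) : WithBot ℕ)) ∧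
    ∀ k, pk m w' k = ‖A.eval (zt m (k - j))‖ ^ 2 * pk m w k) ∧
  (∀ w : ℂ[X], 0 ≤ nsq w ∧ (nsq w = 0 → w = 0))

/-- B3. The window. -/
def ClaimWin : Prop := ∀ p h W M : ℕ, 1 ≤ p → 1 ≤ h → p * (h - 1) + 1 ≤ 2 * M + 1 → 1 ≤ W →
  ∃ A : ℂ[X], Window M (p * (h - 1)) W
    (p * (((2 * M + 1 : ℕ) : ℝ) / (2 * W * h)) ^ (2 * p - 2)) A ∧
    (h : ℝ) / (2 * M + 1 : ℕ) ≤ ‖A.eval 1‖ ^ 2

/-- B4. The weighted pigeonhole principle: some localised vector is as good. -/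
def ClaimPigeon : Prop := ∀ (M n H W : ℕ) (τ0 G K u : ℝ) (A w : ℂ[X]) (g : ℤ → ℝ),
  n + H ≤ 2 * M + 1 → W ≤ M → Window M H W τ0 A → Noise M g G → 0 ≤ τ0 → 0 < K → 0 ≤ u →
  w.degree < n → nsq w = 1 → u < XX M g w →
  ∃ j ∈ Finset.Icc (-(M : ℤ)) M, ∃ v : ℂ[X], v.degree < ((n + H : ℕ) : WithBot ℕ) ∧ nsq v = 1 ∧
    1 - (τ0 + G / K) ≤ ∑ k ∈ Finset.Icc (j - W) (j + W), pk (2 * M + 1) v k ∧
    u - K * τ0 - G * (τ0 + G / K) < ∑ k ∈ Finset.Icc (j - W) (j + W), g k * pk (2 * M + 1) v k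

/-- B5. Upper bound of the quadratic form by blocks, crossing blocks and special frequencies. -/
def ClaimUpper : Prop := ∀ (M n H W N I : ℕ) (τ0 G K u : ℝ) (A w : ℂ[X]) (g : ℤ → ℝ),
  n + H ≤ 2 * M + 1 → 1 ≤ W → 4 * W + 1 ≤ N → 1 ≤ I → I * N ≤ M → Window M H W τ0 A →
  Noise M g G → 0 ≤ τ0 → 0 < K → 0 ≤ u →
  (∀ i < I, spp (PP (n + H) (2 * M + 1) (τ0 + G / K) N)
    (fun l => g ((i : ℤ) * N + 1 + (l : ℤ))) ≤ u) →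
  (∀ i < I, 1 ≤ i → spp (PP (n + H) (2 * M + 1) (τ0 + G / K) (4 * W + 1))
    (fun l => g ((i : ℤ) * N - 2 * W + (l : ℤ))) ≤ u) →
  (∀ k : ℤ, (0 ≤ k ∧ k ≤ 2 * W ∨ (I : ℤ) * N - 2 * W ≤ k ∧ k ≤ M) → g k ≤ u) →
  w.degree < n → nsq w = 1 → XX M g w ≤ u + K * τ0 + 2 * G * (τ0 + G / K)

/-- B6. Lower bound of the quadratic form by one block. -/
def ClaimLower : Prop := ∀ (M n N k0 : ℕ) (τ G u : ℝ) (g : ℤ → ℝ), n ≤ 2 * M + 1 → k0 + N ≤ M →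
  Noise M g G → Simp (PP n (2 * M + 1) τ N) →
  u < spp (PP n (2 * M + 1) τ N) (fun l => g ((k0 : ℤ) + 1 + (l : ℤ))) →
  ∃ w : ℂ[X], w.degree < n ∧ nsq w ≤ 1 ∧ u - G * τ < XX M g w

/-- B7. Comparison of two lattices. -/
def ClaimComp : Prop := ∃ C : ℝ, 1 ≤ C ∧ ∀ (M1 M2 N : ℕ) (τ G : ℝ) (g : Fin N → ℝ),
  M2 ≤ M1 → M1 ≤ 2 * M2 → 1 ≤ N → N ≤ M2 → 0 ≤ G → (∀ i, |g i| ≤ G) →
  Simp (PP (M1 + 1) (2 * M1 + 1) τ N) →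
  Simp (PP (M2 + 1) (2 * M2 + 1) (τ + C * N ^ 2 / M2) N) ∧
  spp (PP (M1 + 1) (2 * M1 + 1) τ N) g ≤
    spp (PP (M2 + 1) (2 * M2 + 1) (τ + C * N ^ 2 / M2) N) g + G * (C * N ^ 2 / M2)

/-- B8. A sub-block. -/
def ClaimSub : Prop := ∀ (M n N N' j : ℕ) (τ G : ℝ) (g : Fin N → ℝ) (g' : Fin N' → ℝ),
  n ≤ 2 * M + 1 → N ≤ 2 * M + 1 → j + N' ≤ N → 0 ≤ G → (∀ i, |g i| ≤ G) →
  (∀ (l : Fin N') (hl : j + (l : ℕ) < N), g' l = g ⟨j + (l : ℕ), hl⟩) →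
  Simp (PP n (2 * M + 1) τ N') →
  spp (PP n (2 * M + 1) τ N') g' ≤ spp (PP n (2 * M + 1) τ N) g + G * τ

/-- B9. The classes are nonempty, and the standard deviation is bounded below. -/
def ClaimNe : Prop := ∀ (n M N : ℕ) (τ : ℝ), 1 ≤ n → n ≤ M + 1 → M + 1 ≤ 2 * n → 8 ≤ N → N ≤ M →
  8 * (64 / N : ℝ) ^ 14 ≤ τ →
  Simp (PP n (2 * M + 1) τ N) ∧ 1 / 32 ≤ sig (PP n (2 * M + 1) τ N)

/-! ### C. The matrix, the noise, independence -/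

/-- C1. The noise is even and periodic. -/
def ClaimNoise : Prop := ∀ (M : ℕ) (x : ℕ → ℝ) (k : ℤ),
  gk M x (k + (2 * M + 1)) = gk M x k ∧ gk M x (-k) = gk M x k

/-- C2. The quadratic form of the matrix in the frequencies. -/
def ClaimQuad : Prop := ∀ (M n : ℕ) (x : ℕ → ℝ) (w : ℂ[X]), n ≤ M + 1 → w.degree < n →
  QF n x w + (Real.sqrt 2 - 1) * x 0 * nsq w = Real.sqrt (2 * M + 1) * XX M (gk M x) w

/-- C3. The largest eigenvalue. -/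
def ClaimLam : Prop := ∀ (n : ℕ) (x : ℕ → ℝ), 1 ≤ n →
  (∀ w : ℂ[X], w.degree < n → QF n x w ≤ lam1 n x * nsq w) ∧
  (∃ w : ℂ[X], w.degree < n ∧ nsq w = 1 ∧ QF n x w = lam1 n x)

/-- C4. The law of the noise. -/
def ClaimGauss.{u} : Prop := ∀ (Ω : Type u) (_ : MeasurableSpace Ω) (P : Measure Ω)
  (X : ℕ → Ω → ℝ), IsProbabilityMeasure P → (∀ k, Measurable (X k)) → iIndepFun X P →
  (∀ k, P.map (X k) = gaussianReal 0 1) → ∀ M : ℕ,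
  iIndepFun (fun (k : Fin M) ω => gk M (fun l => X l ω) ((k : ℤ) + 1)) P ∧
  (∀ k : Fin M, P.map (fun ω => gk M (fun l => X l ω) ((k : ℤ) + 1)) = gaussianReal 0 1) ∧
  P.map (fun ω => gk M (fun l => X l ω) 0) = gaussianReal 0 2

/-- C5. Independence of the blocks. -/
def ClaimBlocks.{u} : Prop := ∀ (Ω : Type u) (_ : MeasurableSpace Ω) (P : Measure Ω) (L N I : ℕ)
  (Y : Fin L → Ω → ℝ) (f : Fin I → Fin N → Fin L) (S : Set (Fin N → ℝ)) (u : ℝ),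
  IsProbabilityMeasure P → (∀ k, Measurable (Y k)) → iIndepFun Y P →
  (∀ k, P.map (Y k) = gaussianReal 0 1) → Function.Injective (fun q : Fin I × Fin N => f q.1 q.2) →
  Simp S → P.real {ω | ∀ i, spp S (fun l => Y (f i l) ω) ≤ u} = (1 - Fb S u) ^ I

/-- C6. Gaussian union bound. -/
def ClaimMax.{u} : Prop := ∀ (Ω : Type u) (_ : MeasurableSpace Ω) (P : Measure Ω) (L : ℕ)
  (Y : Fin L → Ω → ℝ) (v : ℝ≥0) (t : ℝ), IsProbabilityMeasure P → (∀ k, Measurable (Y k)) →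
  (∀ k, P.map (Y k) = gaussianReal 0 v) → v ≤ 2 → 0 ≤ t →
  P.real {ω | ∃ k, t < |Y k ω|} ≤ 2 * L * Real.exp (-t ^ 2 / 4)

/-- C7. Crossing blocks are rarely high. -/
def ClaimCross : Prop := ∀ (M n N N' : ℕ) (τ G u ρ : ℝ), n ≤ 2 * M + 1 → N ≤ 2 * M + 1 →
  1 ≤ N' → N' ≤ N → 0 ≤ G → Simp (PP n (2 * M + 1) τ N') →
  Fb (PP n (2 * M + 1) τ N) (u - G * τ) + 2 * N * Real.exp (-G ^ 2 / 4) ≤ ρ → ρ < 1 / 2 →
  Fb (PP n (2 * M + 1) τ N') u ≤ 2 * ρ / (N / N' : ℕ)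

/-- The main theorem. -/
def ClaimMain.{u} : Prop := ∃ a b : ℕ → ℝ, (∀ n, 0 < b n) ∧
  ∀ (Ω : Type u) (_ : MeasurableSpace Ω) (P : Measure Ω) (X : ℕ → Ω → ℝ),
  IsProbabilityMeasure P → (∀ k, Measurable (X k)) → iIndepFun X P →
  (∀ k, P.map (X k) = gaussianReal 0 1) → ∀ x : ℝ,
  Tendsto (fun n => P.real {ω | (lam1 n (fun k => X k ω) - a n) / b n ≤ x}) atTop
    (𝓝 (Real.exp (-Real.exp (-x))))

end Pool.Agent.Work.MP_3574a2_pr.Dil
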