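import Mathlib

/-!
# Gumbel limit for random Toeplitz matrices: definitions
-/

set_option autoImplicit false

namespace Pool.Agent.Work.MP_3574a2_pr.Dil

open MeasureTheory ProbabilityTheory Set Polynomial
open scoped ENNReal NNReal

/-! ### A. Support functionals of sets of sub-probability vectors -/

/-- Standard Gaussian measure on `Fin N → ℝ`. -/
noncomputable def gm (N : ℕ) : Measure (Fin N → ℝ) := Measure.pi fun _ => gaussianReal 0 1

/-- The support functional `sup_{p ∈ P} ∑ g_i p_i`. -/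
noncomputable def spp {N : ℕ} (P : Set (Fin N → ℝ)) (g : Fin N → ℝ) : ℝ :=
  sSup ((fun p => ∑ i, g i * p i) '' P)

/-- `P` is a nonempty set of sub-probability vectors. -/
structure Simp {N : ℕ} (P : Set (Fin N → ℝ)) : Prop where
  ne : P.Nonempty
  nonneg : ∀ p ∈ P, ∀ i, 0 ≤ p i
  sum_le : ∀ p ∈ P, ∑ i, p i ≤ 1

/-- Euclidean norm. -/
noncomputable def l2 {N : ℕ} (p : Fin N → ℝ) : ℝ := Real.sqrt (∑ i, p i ^ 2)

/-- The largest standard deviation. -/
noncomputable def sig {N : ℕ} (P : Set (Fin N → ℝ)) : ℝ := sSup (l2 '' P)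

/-- The tail of the support functional of a standard Gaussian vector. -/
noncomputable def Fb {N : ℕ} (P : Set (Fin N → ℝ)) (u : ℝ) : ℝ := (gm N).real {g | u < spp P g}

/-- The basic parameter, about `(log n) ^ (1/40)`. -/
noncomputable def rr (n : ℕ) : ℕ := ⌊(Real.log n) ^ (1 / 40 : ℝ)⌋₊

/-- The length of a block of frequencies. -/
noncomputable def NN (n : ℕ) : ℕ := (rr n) ^ 48

/-! ### B. Localised vectors; vectors are polynomials -/

/-- The `m`-th root of unity `exp (2 π i k / m)`. -/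
noncomputable def zt (m : ℕ) (k : ℤ) : ℂ := Complex.exp (2 * Real.pi * Complex.I * k / m)

/-- The energy of `w` at the frequency `k` of the lattice `ℤ / m`. -/
noncomputable def pk (m : ℕ) (w : ℂ[X]) (k : ℤ) : ℝ := ‖w.eval (zt m k)‖ ^ 2 / m

/-- Sum of the squares of the coefficients. -/
noncomputable def nsq (w : ℂ[X]) : ℝ := ∑ x ∈ w.support, ‖w.coeff x‖ ^ 2

/-- Coefficient vectors of vectors of length `n` with mass at least `1 - τ` in the
frequencies `1, ..., N`. -/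
def PP (n m : ℕ) (τ : ℝ) (N : ℕ) : Set (Fin N → ℝ) :=
  {p | ∃ w : ℂ[X], w.degree < n ∧ nsq w ≤ 1 ∧ 1 - τ ≤ ∑ k ∈ Finset.Icc (1 : ℤ) N, pk m w k ∧
    ∀ i : Fin N, p i = pk m w ((i : ℤ) + 1)}

/-- Even and periodic noise bounded by `G`. -/
structure Noise (M : ℕ) (g : ℤ → ℝ) (G : ℝ) : Prop where
  per : ∀ k, g (k + (2 * M + 1)) = g k
  even : ∀ k, g (-k) = g k
  bdd : ∀ k, |g k| ≤ G

/-- A spectral window of length `H + 1`, with tail `τ0` outside the radius `W`. -/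
structure Window (M H W : ℕ) (τ0 : ℝ) (A : ℂ[X]) : Prop where
  deg : A.degree < ((H + 1 : ℕ) : WithBot ℕ)
  one : ∑ k ∈ Finset.Icc (-(M : ℤ)) M, ‖A.eval (zt (2 * M + 1) k)‖ ^ 2 = 1
  tail : ∑ k ∈ (Finset.Icc (-(M : ℤ)) M).filter (fun k => (W : ℤ) < |k|),
    ‖A.eval (zt (2 * M + 1) k)‖ ^ 2 ≤ τ0

/-- The quadratic form of the noise. -/
noncomputable def XX (M : ℕ) (g : ℤ → ℝ) (w : ℂ[X]) : ℝ :=
  ∑ k ∈ Finset.Icc (-(M : ℤ)) M, g k * pk (2 * M + 1) w k

/-! ### C. The matrix -/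

/-- The symmetric Toeplitz matrix with entries `x |i - j|`. -/
def toep (n : ℕ) (x : ℕ → ℝ) : Matrix (Fin n) (Fin n) ℝ :=
  Matrix.of fun i j => x ((i : ℤ) - (j : ℤ)).natAbs

lemma toep_herm (n : ℕ) (x : ℕ → ℝ) : (toep n x).IsHermitian := by
  refine Matrix.IsHermitian.ext fun i j => ?_
  simp only [toep, Matrix.of_apply, star_trivial]
  congr 1
  omega

/-- The largest eigenvalue of the Toeplitz matrix. -/
noncomputable def lam1 (n : ℕ) (x : ℕ → ℝ) : ℝ := ⨆ i, (toep_herm n x).eigenvalues i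

/-- The quadratic form of the Toeplitz matrix. -/
noncomputable def QF (n : ℕ) (x : ℕ → ℝ) (w : ℂ[X]) : ℝ :=
  (∑ i ∈ Finset.range n, ∑ j ∈ Finset.range n,
    (x ((i : ℤ) - (j : ℤ)).natAbs : ℂ) * w.coeff i * (starRingEnd ℂ) (w.coeff j)).re

/-- The frequency noise of the lattice `ℤ / (2 M + 1)`. -/
noncomputable def gk (M : ℕ) (x : ℕ → ℝ) (k : ℤ) : ℝ :=
  (Real.sqrt 2 * x 0 + 2 * ∑ l ∈ Finset.Icc 1 M, x l * Real.cos (2 * Real.pi * k * l / (2 * M + 1)))
    / Real.sqrt (2 * M + 1)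

end Pool.Agent.Work.MP_3574a2_pr.Dil
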