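import Pool.Agent.Work.MP_3574a2_pr.Dil.Claims

/-!
# Gumbel limit for random Toeplitz matrices: the two inequalities for the distribution function
-/

set_option autoImplicit false

namespace Pool.Agent.Work.MP_3574a2_pr.Dil

open MeasureTheory ProbabilityTheory Set Polynomial Filter Topology
open scoped ENNReal NNReal

section

universe u

variable {Ω : Type u} [mΩ : MeasurableSpace Ω] (P : Measure Ω) [hP : IsProbabilityMeasure P]
  (X : ℕ → Ω → ℝ)

/-- The shifted largest eigenvalue. -/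
noncomputable def lamS (n : ℕ) (x : ℕ → ℝ) : ℝ := lam1 n x + (Real.sqrt 2 - 1) * x 0

lemma nsq_nonneg (w : ℂ[X]) : 0 ≤ nsq w := by
  unfold nsq; positivity

lemma periodic_int {M : ℕ} {g : ℤ → ℝ} (h : ∀ k, g (k + (2 * M + 1)) = g k) (k q : ℤ) :
    g (k + (2 * M + 1) * q) = g k := by
  induction q using Int.induction_on with
  | zero => simp
  | succ i ih =>
    have := h (k + (2 * M + 1) * i)
    rw [ih] at this
    rw [← this]; congr 1; ring
  | pred i ih =>
    have := h (k + (2 * M + 1) * (-(i : ℤ) - 1))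
    rw [← this, ← ih]; congr 1; ring

/-- The noise is bounded as soon as it is bounded on `0, …, M`. -/
lemma noise_of (hNoise : ClaimNoise) (M : ℕ) (x : ℕ → ℝ) (G : ℝ) (h0 : |gk M x 0| ≤ G)
    (h1 : ∀ k : Fin M, |gk M x ((k : ℤ) + 1)| ≤ G) : Noise M (gk M x) G := by
  refine ⟨fun k => (hNoise M x k).1, fun k => (hNoise M x k).2, fun k => ?_⟩
  have hnn : ∀ j : ℕ, j ≤ M → |gk M x (j : ℤ)| ≤ G := by
    intro j hj
    rcases Nat.eq_zero_or_pos j with h | h
    · subst h; simpa using h0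
    · have := h1 ⟨j - 1, by omega⟩
      have e : (((⟨j - 1, by omega⟩ : Fin M) : ℕ) : ℤ) + 1 = (j : ℤ) := by
        simp only []; omega
      rwa [e] at this
  -- reduce modulo the period
  have hper := periodic_int (g := gk M x) (M := M) (fun k => (hNoise M x k).1)
  set q := k / (2 * M + 1) with hq
  set s := k % (2 * M + 1) with hs
  have hk : k = s + (2 * M + 1) * q := by
    rw [hs, hq]; exact (Int.emod_add_mul_ediv k _).symm
  have hs0 : 0 ≤ s := Int.emod_nonneg _ (by positivity)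
  have hs1 : s < 2 * M + 1 := Int.emod_lt_of_pos _ (by positivity)
  rw [hk, hper]
  rcases le_or_gt s M with h | h
  · have := hnn s.toNat (by omega)
    rwa [Int.toNat_of_nonneg hs0] at this
  · have e1 : gk M x s = gk M x (-(2 * M + 1 - s)) := by
      have := (hNoise M x (-(2 * M + 1 - s))).1
      rw [← this]; congr 1; ring
    rw [e1, (hNoise M x (2 * M + 1 - s)).2]
    have := hnn (2 * M + 1 - s).toNat (by omega)
    rwa [Int.toNat_of_nonneg (by omega)] at this

include hP in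
/-- Upper bound of the distribution function. -/
theorem up_ineq (hNoise : ClaimNoise) (hQuad : ClaimQuad) (hLam : ClaimLam)
    (hGauss : ClaimGauss.{u}) (hBlocks : ClaimBlocks.{u}) (hMax : ClaimMax.{u})
    (hLower : ClaimLower) (hmeas : ∀ k, Measurable (X k)) (hind : iIndepFun X P)
    (hlaw : ∀ k, P.map (X k) = gaussianReal 0 1) (n N I : ℕ) (τ G u : ℝ) (hn : 1 ≤ n)
    (hI : I * N ≤ n - 1) (hS : Simp (PP n (2 * (n - 1) + 1) τ N)) (hG : 0 ≤ G)
    (hu : 0 ≤ u - G * τ) :
    P.real {ω | lamS n (fun k => X k ω) ≤ Real.sqrt (2 * ((n - 1 : ℕ) : ℝ) + 1) * (u - G * τ)} ≤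
      (1 - Fb (PP n (2 * (n - 1) + 1) τ N) u) ^ I + 2 * (n : ℝ) * Real.exp (-G ^ 2 / 4) := by
  set M := n - 1 with hM
  obtain ⟨g1, g2, g3⟩ := hGauss Ω mΩ P X hP hmeas hind hlaw M
  have hgm : ∀ k : ℤ, Measurable (fun ω => gk M (fun l => X l ω) k) := by
    intro k; unfold gk; fun_prop
  set Y : Fin M → Ω → ℝ := fun k ω => gk M (fun l => X l ω) ((k : ℤ) + 1) with hY
  have hfl : ∀ (i : Fin I) (l : Fin N), (i : ℕ) * N + (l : ℕ) < M := by
    intro i l
    have h1 : (i : ℕ) * N + (l : ℕ) < ((i : ℕ) + 1) * N := by nlinarith [l.2]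
    have h2 : ((i : ℕ) + 1) * N ≤ I * N := Nat.mul_le_mul_right _ i.2
    omega
  set f : Fin I → Fin N → Fin M := fun i l => ⟨(i : ℕ) * N + l, hfl i l⟩ with hf
  have hinj : Function.Injective (fun q : Fin I × Fin N => f q.1 q.2) := by
    rintro ⟨i, l⟩ ⟨i', l'⟩ h
    simp only [hf, Fin.mk.injEq] at h
    have hN : 0 < N := lt_of_le_of_lt (Nat.zero_le _) l.2
    have h1 : (i : ℕ) = i' := by
      have a1 : ((i : ℕ) * N + l) / N = i := by
        rw [mul_comm, Nat.mul_add_div hN, Nat.div_eq_of_lt l.2, add_zero]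
      have a2 : ((i' : ℕ) * N + l') / N = i' := by
        rw [mul_comm, Nat.mul_add_div hN, Nat.div_eq_of_lt l'.2, add_zero]
      rw [← a1, h, a2]
    have h2 : (l : ℕ) = l' := by rw [h1] at h; omega
    exact Prod.ext (Fin.ext h1) (Fin.ext h2)
  have hb := hBlocks Ω mΩ P M N I Y f (PP n (2 * M + 1) τ N) u hP
    (fun k => hgm _) g1 g2 hinj hS
  have hm1 := hMax Ω mΩ P M Y 1 G hP (fun k => hgm _) g2 (by norm_num) hG
  have hm2 := hMax Ω mΩ P 1 (fun _ ω => gk M (fun l => X l ω) 0) 2 G hP (fun k => hgm _)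
    (fun _ => g3) (le_refl _) hG
  have hsub : {ω | lamS n (fun k => X k ω) ≤ Real.sqrt (2 * (M : ℝ) + 1) * (u - G * τ)} ⊆
      {ω | ∀ i, spp (PP n (2 * M + 1) τ N) (fun l => Y (f i l) ω) ≤ u} ∪
      ({ω | ∃ k, G < |Y k ω|} ∪ {ω | ∃ _k : Fin 1, G < |gk M (fun l => X l ω) 0|}) := by
    intro ω hω
    by_contra hcon
    simp only [mem_union, mem_ofPred_eq, not_or, not_forall, not_le, not_exists, not_lt] at hcon hω
    obtain ⟨⟨i, hi⟩, hk, h0⟩ := hcon
    have hno : Noise M (gk M (fun l => X l ω)) G := noise_of hNoise M _ G (h0 0) hk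
    have hki : (i : ℕ) * N + N ≤ M := by
      have h2 : ((i : ℕ) + 1) * N ≤ I * N := Nat.mul_le_mul_right _ i.2
      have h3 : ((i : ℕ) + 1) * N = (i : ℕ) * N + N := by ring
      omega
    have e : (fun l : Fin N => Y (f i l) ω) =
        fun l : Fin N => gk M (fun l => X l ω) ((((i : ℕ) * N : ℕ) : ℤ) + 1 + (l : ℤ)) := by
      funext l
      simp only [hY, hf]
      congr 1
      push_cast; ring
    rw [e] at hi
    obtain ⟨w, w1, w2, w3⟩ := hLower M n N ((i : ℕ) * N) τ G u _ (by omega) hki hno hS hi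
    have q := hQuad M n (fun l => X l ω) w (by omega) w1
    have l := (hLam n (fun l => X l ω) hn).1 w w1
    have hsq : 0 < Real.sqrt (2 * (M : ℝ) + 1) := Real.sqrt_pos.mpr (by positivity)
    have k1 : Real.sqrt (2 * (M : ℝ) + 1) * (u - G * τ) < lamS n (fun k => X k ω) * nsq w := by
      have : Real.sqrt (2 * (M : ℝ) + 1) * (u - G * τ) <
          Real.sqrt (2 * (M : ℝ) + 1) * XX M (gk M fun l => X l ω) w :=
        mul_lt_mul_of_pos_left w3 hsq
      unfold lamS
      nlinarith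
    have k2 : 0 ≤ Real.sqrt (2 * (M : ℝ) + 1) * (u - G * τ) := mul_nonneg hsq.le hu
    have k3 := nsq_nonneg w
    have k4 : 0 < lamS n (fun k => X k ω) := by
      by_contra hc
      push Not at hc
      nlinarith [mul_nonneg (neg_nonneg.mpr hc) k3]
    nlinarith [mul_nonneg k4.le (sub_nonneg.mpr w2)]
  calc P.real {ω | lamS n (fun k => X k ω) ≤ Real.sqrt (2 * (M : ℝ) + 1) * (u - G * τ)}
      ≤ P.real ({ω | ∀ i, spp (PP n (2 * M + 1) τ N) (fun l => Y (f i l) ω) ≤ u} ∪
      ({ω | ∃ k, G < |Y k ω|} ∪ {ω | ∃ _k : Fin 1, G < |gk M (fun l => X l ω) 0|})) :=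
        measureReal_mono hsub (measure_ne_top _ _)
    _ ≤ P.real {ω | ∀ i, spp (PP n (2 * M + 1) τ N) (fun l => Y (f i l) ω) ≤ u} +
      (P.real {ω | ∃ k, G < |Y k ω|} + P.real {ω | ∃ _k : Fin 1, G < |gk M (fun l => X l ω) 0|}) :=
        (measureReal_union_le _ _).trans (add_le_add_right (measureReal_union_le _ _) _)
    _ ≤ (1 - Fb (PP n (2 * M + 1) τ N) u) ^ I + (2 * M * Real.exp (-G ^ 2 / 4) +
        2 * ((1 : ℕ) : ℝ) * Real.exp (-G ^ 2 / 4)) := by
        rw [hb]; gcongr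
    _ = (1 - Fb (PP n (2 * M + 1) τ N) u) ^ I + 2 * (n : ℝ) * Real.exp (-G ^ 2 / 4) := by
        have : (n : ℝ) = M + 1 := by rw [hM]; push_cast [Nat.cast_sub hn]; ring
        rw [this]; push_cast; ring

include hP in
/-- Probability that the support functional of distinct coordinates is high. -/
lemma prob_spp (hBlocks : ClaimBlocks.{u}) (hSpp : ClaimSpp) {M N : ℕ} (Y : Fin M → Ω → ℝ)
    (hY : ∀ k, Measurable (Y k)) (g1 : iIndepFun Y P) (g2 : ∀ k, P.map (Y k) = gaussianReal 0 1)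
    (f : Fin N → Fin M) (hf : Function.Injective f) (S : Set (Fin N → ℝ)) (hS : Simp S) (u : ℝ) :
    P.real {ω | u < spp S (fun l => Y (f l) ω)} = Fb S u := by
  have h := hBlocks Ω mΩ P M N 1 Y (fun _ => f) S u hP hY g1 g2
    (by
      rintro ⟨i, l⟩ ⟨i', l'⟩ h
      exact Prod.ext (Subsingleton.elim _ _) (hf h)) hS
  have hmS : MeasurableSet {ω | ∀ _i : Fin 1, spp S (fun l => Y (f l) ω) ≤ u} := by
    have hc := (hSpp N S hS).1
    have : Measurable (fun ω => spp S (fun l => Y (f l) ω)) :=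
      hc.measurable.comp (measurable_pi_lambda _ fun l => hY _)
    have e : {ω | ∀ _i : Fin 1, spp S (fun l => Y (f l) ω) ≤ u} =
        {ω | spp S (fun l => Y (f l) ω) ≤ u} := by
      ext ω; simp
    rw [e]
    exact measurableSet_le this measurable_const
  have e2 : {ω | u < spp S (fun l => Y (f l) ω)} =
      {ω | ∀ _i : Fin 1, spp S (fun l => Y (f l) ω) ≤ u}ᶜ := by
    ext ω; simp
  rw [e2, probReal_compl_eq_one_sub hmS, h]
  ring

include hP in
/-- Lower bound of the distribution function. -/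
theorem lo_ineq (hNoise : ClaimNoise) (hQuad : ClaimQuad) (hLam : ClaimLam)
    (hGauss : ClaimGauss.{u}) (hBlocks : ClaimBlocks.{u}) (hMax : ClaimMax.{u}) (hSpp : ClaimSpp)
    (hUpper : ClaimUpper) (hmeas : ∀ k, Measurable (X k)) (hind : iIndepFun X P)
    (hlaw : ∀ k, P.map (X k) = gaussianReal 0 1) (n H W N I M : ℕ) (τ0 G K u : ℝ) (A : ℂ[X])
    (hn : 1 ≤ n) (hM : M + 1 = n + H) (hW : 1 ≤ W) (hWN : 4 * W + 1 ≤ N) (hI : 1 ≤ I)
    (hIM : I * N ≤ M) (hA : Window M H W τ0 A) (hτ0 : 0 ≤ τ0) (hG : 0 ≤ G) (hK : 0 < K)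
    (hu : 0 ≤ u) (hS : Simp (PP (n + H) (2 * M + 1) (τ0 + G / K) N))
    (hS' : Simp (PP (n + H) (2 * M + 1) (τ0 + G / K) (4 * W + 1))) :
    (1 - Fb (PP (n + H) (2 * M + 1) (τ0 + G / K) N) u) ^ I -
        I * Fb (PP (n + H) (2 * M + 1) (τ0 + G / K) (4 * W + 1)) u -
        2 * ((M : ℝ) - I * N + 4 * W + 2) * Real.exp (-u ^ 2 / 4) -
        2 * ((M : ℝ) + 1) * Real.exp (-G ^ 2 / 4) ≤
      P.real {ω | lamS n (fun k => X k ω) ≤
        Real.sqrt (2 * (M : ℝ) + 1) * (u + K * τ0 + 2 * G * (τ0 + G / K))} := by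
  obtain ⟨g1, g2, g3⟩ := hGauss Ω mΩ P X hP hmeas hind hlaw M
  have hgm : ∀ k : ℤ, Measurable (fun ω => gk M (fun l => X l ω) k) := by
    intro k; unfold gk; fun_prop
  set Y : Fin M → Ω → ℝ := fun k ω => gk M (fun l => X l ω) ((k : ℤ) + 1) with hY
  -- the blocks
  have hfl : ∀ (i : Fin I) (l : Fin N), (i : ℕ) * N + (l : ℕ) < M := by
    intro i l
    have h1 : (i : ℕ) * N + (l : ℕ) < ((i : ℕ) + 1) * N := by nlinarith [l.2]
    have h2 : ((i : ℕ) + 1) * N ≤ I * N := Nat.mul_le_mul_right _ i.2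
    omega
  set f : Fin I → Fin N → Fin M := fun i l => ⟨(i : ℕ) * N + l, hfl i l⟩ with hf
  have hinj : Function.Injective (fun q : Fin I × Fin N => f q.1 q.2) := by
    rintro ⟨i, l⟩ ⟨i', l'⟩ h
    simp only [hf, Fin.mk.injEq] at h
    have hN : 0 < N := lt_of_le_of_lt (Nat.zero_le _) l.2
    have h1 : (i : ℕ) = i' := by
      have a1 : ((i : ℕ) * N + l) / N = i := by
        rw [mul_comm, Nat.mul_add_div hN, Nat.div_eq_of_lt l.2, add_zero]
      have a2 : ((i' : ℕ) * N + l') / N = i' := by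
        rw [mul_comm, Nat.mul_add_div hN, Nat.div_eq_of_lt l'.2, add_zero]
      rw [← a1, h, a2]
    have h2 : (l : ℕ) = l' := by rw [h1] at h; omega
    exact Prod.ext (Fin.ext h1) (Fin.ext h2)
  have hb := hBlocks Ω mΩ P M N I Y f (PP (n + H) (2 * M + 1) (τ0 + G / K) N) u hP
    (fun k => hgm _) g1 g2 hinj hS
  have hNI : N ≤ I * N := Nat.le_mul_of_pos_left _ hI
  -- the crossing blocks
  have hcl : ∀ (i : Fin I) (l : Fin (4 * W + 1)), (i : ℕ) * N + (l : ℕ) - (2 * W + 1) < M := by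
    intro i l
    have h2 : ((i : ℕ) + 1) * N ≤ I * N := Nat.mul_le_mul_right _ i.2
    have h3 : ((i : ℕ) + 1) * N = (i : ℕ) * N + N := by ring
    have := l.2
    omega
  set c : Fin I → Fin (4 * W + 1) → Fin M :=
    fun i l => ⟨(i : ℕ) * N + l - (2 * W + 1), hcl i l⟩ with hc
  have hge : ∀ i : Fin I, 1 ≤ (i : ℕ) → N ≤ (i : ℕ) * N := fun i h => Nat.le_mul_of_pos_left _ h
  have hcinj : ∀ i : Fin I, 1 ≤ (i : ℕ) → Function.Injective (c i) := by
    intro i hi l l' h
    simp only [hc, Fin.mk.injEq] at h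
    have := hge i hi
    exact Fin.ext (by omega)
  have hcr : ∀ i : Fin I, 1 ≤ (i : ℕ) →
      P.real {ω | u < spp (PP (n + H) (2 * M + 1) (τ0 + G / K) (4 * W + 1))
        (fun l => Y (c i l) ω)} = Fb (PP (n + H) (2 * M + 1) (τ0 + G / K) (4 * W + 1)) u :=
    fun i hi => prob_spp P hBlocks hSpp Y (fun k => hgm _) g1 g2 (c i) (hcinj i hi) _ hS' u
  -- the special frequencies
  have hs1l : ∀ k : Fin (2 * W), (k : ℕ) < M := fun k => by have := k.2; omega
  have hs1 := hMax Ω mΩ P (2 * W) (fun k => Y ⟨k, hs1l k⟩) 1 u hP (fun k => hgm _)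
    (fun k => g2 _) (by norm_num) hu
  have hs2l : ∀ k : Fin (M - I * N + 2 * W + 1), I * N - (2 * W + 1) + (k : ℕ) < M := fun k => by
    have := k.2; omega
  have hs2 := hMax Ω mΩ P (M - I * N + 2 * W + 1) (fun k => Y ⟨I * N - (2 * W + 1) + k, hs2l k⟩)
    1 u hP (fun k => hgm _) (fun k => g2 _) (by norm_num) hu
  have hs3 := hMax Ω mΩ P 1 (fun _ ω => gk M (fun l => X l ω) 0) 2 u hP (fun k => hgm _)
    (fun _ => g3) (le_refl _) hu
  -- the bound of the noise
  have hm1 := hMax Ω mΩ P M Y 1 G hP (fun k => hgm _) g2 (by norm_num) hG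
  have hm2 := hMax Ω mΩ P 1 (fun _ ω => gk M (fun l => X l ω) 0) 2 G hP (fun k => hgm _)
    (fun _ => g3) (le_refl _) hG
  set E0 := {ω | lamS n (fun k => X k ω) ≤
        Real.sqrt (2 * (M : ℝ) + 1) * (u + K * τ0 + 2 * G * (τ0 + G / K))} with hE0
  set E1 : Fin I → Set Ω := fun i => {ω | 1 ≤ (i : ℕ) ∧
    u < spp (PP (n + H) (2 * M + 1) (τ0 + G / K) (4 * W + 1)) (fun l => Y (c i l) ω)} with hE1
  set F1 := {ω | ∃ k : Fin (2 * W), u < |Y ⟨k, hs1l k⟩ ω|} with hF1
  set F2 := {ω | ∃ k : Fin (M - I * N + 2 * W + 1),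
    u < |Y ⟨I * N - (2 * W + 1) + k, hs2l k⟩ ω|} with hF2
  set F3 := {ω | ∃ _k : Fin 1, u < |gk M (fun l => X l ω) 0|} with hF3
  set F4 := {ω | ∃ k, G < |Y k ω|} with hF4
  set F5 := {ω | ∃ _k : Fin 1, G < |gk M (fun l => X l ω) 0|} with hF5
  have hsub : {ω | ∀ i, spp (PP (n + H) (2 * M + 1) (τ0 + G / K) N) (fun l => Y (f i l) ω) ≤ u} ⊆
      E0 ∪ ((⋃ i, E1 i) ∪ ((F1 ∪ (F2 ∪ F3)) ∪ (F4 ∪ F5))) := by
    intro ω hω
    by_contra hcon
    simp only [mem_union, not_or, mem_iUnion, not_exists] at hcon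
    obtain ⟨h0, h1, ⟨f1, f2, f3⟩, f4, f5⟩ := hcon
    simp only [hF1, hF2, hF3, hF4, hF5, mem_ofPred_eq, not_exists, not_lt] at f1 f2 f3 f4 f5
    simp only [hE1, mem_ofPred_eq, not_and, not_lt] at h1
    simp only [mem_ofPred_eq] at hω
    apply h0
    rw [hE0, mem_ofPred_eq]
    have hno : Noise M (gk M (fun l => X l ω)) G := noise_of hNoise M _ G (f5 0) f4
    obtain ⟨w, w1, w2, w3⟩ := (hLam n (fun l => X l ω) hn).2
    have q := hQuad M n (fun l => X l ω) w (by omega) w1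
    have hup := hUpper M n H W N I τ0 G K u A w (gk M (fun l => X l ω)) (by omega) hW hWN hI hIM
      hA hno hτ0 hK hu
      (by
        intro i hi
        have := hω ⟨i, hi⟩
        have e : (fun l : Fin N => Y (f ⟨i, hi⟩ l) ω) =
            fun l : Fin N => gk M (fun l => X l ω) ((i : ℤ) * N + 1 + (l : ℤ)) := by
          funext l
          simp only [hY, hf]
          congr 1
          push_cast; ring
        rwa [e] at this)
      (by
        intro i hi hi1
        have := h1 ⟨i, hi⟩ hi1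
        have hg := hge ⟨i, hi⟩ hi1
        have e : (fun l : Fin (4 * W + 1) => Y (c ⟨i, hi⟩ l) ω) =
            fun l : Fin (4 * W + 1) => gk M (fun l => X l ω) ((i : ℤ) * N - 2 * W + (l : ℤ)) := by
          funext l
          simp only [hY, hc]
          congr 1
          simp only [] at hg
          push_cast [Nat.cast_sub (show 2 * W + 1 ≤ i * N + (l : ℕ) by omega)]
          ring
        rwa [e] at this)
      (by
        intro k hk
        refine le_trans (le_abs_self _) ?_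
        rcases hk with ⟨k0, k1⟩ | ⟨k0, k1⟩
        · rcases eq_or_lt_of_le k0 with h | h
          · rw [← h]; exact f3 0
          · have := f1 ⟨k.toNat - 1, by omega⟩
            simp only [hY] at this
            have e : (((k.toNat - 1 : ℕ) : ℤ) + 1) = k := by omega
            rwa [e] at this
        · have hz : ((I * N : ℕ) : ℤ) = (I : ℤ) * N := by push_cast; ring
          rw [← hz] at k0
          have := f2 ⟨k.toNat - (I * N - 2 * W), by omega⟩
          simp only [hY] at this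
          have e : ((I * N - (2 * W + 1) + (k.toNat - (I * N - 2 * W)) : ℕ) : ℤ) + 1 = k := by
            omega
          rwa [e] at this)
      w1 w2
    rw [w2, w3, mul_one] at q
    unfold lamS
    have hsq : 0 ≤ Real.sqrt (2 * (M : ℝ) + 1) := Real.sqrt_nonneg _
    rw [q]
    exact mul_le_mul_of_nonneg_left hup hsq
  have hE1b : ∀ i, P.real (E1 i) ≤ Fb (PP (n + H) (2 * M + 1) (τ0 + G / K) (4 * W + 1)) u := by
    intro i
    by_cases hi : 1 ≤ (i : ℕ)
    · rw [← hcr i hi]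
      exact measureReal_mono (fun ω h => h.2) (measure_ne_top _ _)
    · have : E1 i = ∅ := by
        ext ω; simp [hE1, hi]
      rw [this]; simp only [measureReal_empty]
      unfold Fb; positivity
  have hU : P.real (⋃ i, E1 i) ≤ I * Fb (PP (n + H) (2 * M + 1) (τ0 + G / K) (4 * W + 1)) u := by
    refine (measureReal_iUnion_fintype_le _).trans ?_
    refine (Finset.sum_le_sum fun i _ => hE1b i).trans ?_
    simp
  have hcast : ((M - I * N + 2 * W + 1 : ℕ) : ℝ) = (M : ℝ) - I * N + 2 * W + 1 := by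
    push_cast [Nat.cast_sub hIM]; ring
  have htot := calc
    (1 - Fb (PP (n + H) (2 * M + 1) (τ0 + G / K) N) u) ^ I
      = P.real {ω | ∀ i, spp (PP (n + H) (2 * M + 1) (τ0 + G / K) N)
          (fun l => Y (f i l) ω) ≤ u} := hb.symm
    _ ≤ P.real (E0 ∪ ((⋃ i, E1 i) ∪ ((F1 ∪ (F2 ∪ F3)) ∪ (F4 ∪ F5)))) :=
        measureReal_mono hsub (measure_ne_top _ _)
    _ ≤ P.real E0 + (P.real (⋃ i, E1 i) + ((P.real F1 + (P.real F2 + P.real F3)) +
          (P.real F4 + P.real F5))) := by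
        refine (measureReal_union_le _ _).trans (add_le_add_right ?_ _)
        refine (measureReal_union_le _ _).trans (add_le_add_right ?_ _)
        refine (measureReal_union_le _ _).trans (add_le_add ?_ (measureReal_union_le _ _))
        refine (measureReal_union_le _ _).trans (add_le_add_right ?_ _)
        exact measureReal_union_le _ _
  rw [hcast] at hs2
  push_cast at hs1 hs3 hm2
  linarith

end

end Pool.Agent.Work.MP_3574a2_pr.Dil
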