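import Pool.Agent.Work.MP_3574a2_pr.Dil.Ineq
import Pool.Agent.Work.MP_3574a2_pr.Dil.Asym

/-!
# Gumbel limit for random Toeplitz matrices: the assembly
-/

set_option autoImplicit false

namespace Pool.Agent.Work.MP_3574a2_pr.Dil

open MeasureTheory ProbabilityTheory Set Polynomial Filter Topology
open scoped ENNReal NNReal

/-- The canonical class. -/
noncomputable def PC (C : ℝ) (n : ℕ) : Set (Fin (NN n) → ℝ) :=
  PP n (2 * (n - 1) + 1) (t1 n + ep C n) (NN n)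

lemma NN_real (n : ℕ) : (NN n : ℝ) = (rr n : ℝ) ^ 48 := by unfold NN; push_cast; ring

lemma WW_real (n : ℕ) : (WW n : ℝ) = (rr n : ℝ) ^ 47 := by unfold WW; push_cast; ring

lemma ep_nonneg {C : ℝ} (hC : 1 ≤ C) (n : ℕ) : 0 ≤ ep C n := by
  unfold ep; positivity

/-- Smallness of the tails required by `ClaimNe`. -/
lemma small_tail {r : ℝ} (hr : 64 ≤ r) {y : ℝ} (hy : r ^ 47 ≤ y) :
    8 * (64 / y) ^ 14 ≤ 6 / r ^ 41 := by
  have h0 : (0 : ℝ) < r := by linarith
  have h1 : 64 / y ≤ 1 / r ^ 46 := by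
    rw [div_le_div_iff₀ (lt_of_lt_of_le (by positivity) hy) (by positivity)]
    calc 64 * r ^ 46 ≤ r * r ^ 46 := by gcongr
      _ = r ^ 47 := by ring
      _ ≤ 1 * y := by linarith
  have hy0 : 0 ≤ 64 / y := div_nonneg (by norm_num) (le_trans (by positivity) hy)
  calc 8 * (64 / y) ^ 14 ≤ 8 * (1 / r ^ 46) ^ 14 := by gcongr
    _ = 8 / r ^ 644 := by rw [div_pow, one_pow, ← pow_mul]; ring
    _ ≤ 6 / r ^ 41 := by
        rw [div_le_div_iff₀ (by positivity) (by positivity)]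
        calc 8 * r ^ 41 ≤ r * r ^ 41 := by gcongr; linarith
          _ = r ^ 42 := by ring
          _ ≤ r ^ 644 := pow_le_pow_right₀ (by linarith) (by norm_num)
          _ ≤ 6 * r ^ 644 := by linarith [pow_pos h0 644]

lemma ev_basic : ∀ᶠ n : ℕ in atTop, 64 ≤ rr n ∧ 2 ≤ n ∧ NN n ≤ n - 1 ∧ 4 * WW n + 1 ≤ NN n ∧
    n - 1 ≤ MM n ∧ MM n ≤ 2 * (n - 1) ∧ MM n + 1 = n + HH n ∧ MM n + 1 ≤ 2 * n := by
  filter_upwards [ev_rr 64, eventually_ge_atTop 2, ev_pow_le 2 48, ev_HH] with n h1 h2 h3 ⟨h4, h5⟩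
  have h1' : (64 : ℝ) ≤ rr n := by exact_mod_cast h1
  have hN : 2 * NN n ≤ n := by
    have : (2 * NN n : ℝ) ≤ n := by rw [NN_real]; exact h3
    exact_mod_cast this
  have hN1 : 1 ≤ NN n := by unfold NN; exact Nat.one_le_pow _ _ (by omega)
  have hH : HH n ≤ n - 2 := by
    have h6 : (HH n : ℝ) * 64 ≤ n := by
      calc (HH n : ℝ) * 64 ≤ HH n * rr n := by gcongr
        _ ≤ HH n * (rr n : ℝ) ^ 41 := by
            gcongr
            exact le_self_pow₀ (by linarith) (by norm_num)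
        _ ≤ n := h4
    have h7 : HH n * 64 ≤ n := by exact_mod_cast h6
    omega
  have hW : 4 * WW n + 1 ≤ NN n := by
    have e : NN n = rr n * WW n := by unfold NN WW; ring
    have hW1 : 1 ≤ WW n := by unfold WW; exact Nat.one_le_pow _ _ (by omega)
    rw [e]; nlinarith
  refine ⟨h1, h2, by omega, hW, ?_, ?_, ?_, ?_⟩ <;> · unfold MM; omega

lemma ev_simp {C : ℝ} (hC : 1 ≤ C) (hNe : ClaimNe) : ∀ᶠ n : ℕ in atTop,
    (Simp (PC C n) ∧ 1 / 32 ≤ sig (PC C n)) ∧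
    Simp (PP (n + HH n) (2 * MM n + 1) (t1 n) (NN n)) ∧
    Simp (PP (n + HH n) (2 * MM n + 1) (t1 n) (4 * WW n + 1)) := by
  filter_upwards [ev_basic, t1_bound] with n ⟨h1, h2, h3, h4, h5, h6, h7, h8⟩ ⟨t0, t6, _⟩
  have h1' : (64 : ℝ) ≤ rr n := by exact_mod_cast h1
  have hep := ep_nonneg hC n
  have hW1 : 64 ≤ WW n := by
    unfold WW; exact h1.trans (Nat.le_self_pow (by norm_num) _)
  have hN : (rr n : ℝ) ^ 47 ≤ NN n := by
    rw [NN_real]; exact pow_le_pow_right₀ (by linarith) (by norm_num)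
  have hW : (rr n : ℝ) ^ 47 ≤ ((4 * WW n + 1 : ℕ) : ℝ) := by
    push_cast; rw [WW_real]; linarith [pow_nonneg (show (0 : ℝ) ≤ rr n by linarith) 47]
  refine ⟨hNe n (n - 1) (NN n) (t1 n + ep C n) (by omega) (by omega) (by omega) (by omega) h3
    ((small_tail h1' hN).trans (by linarith)), ?_, ?_⟩
  · exact (hNe (n + HH n) (MM n) (NN n) (t1 n) (by omega) (by omega) (by omega) (by omega)
      (by omega) ((small_tail h1' hN).trans t6)).1
  · exact (hNe (n + HH n) (MM n) (4 * WW n + 1) (t1 n) (by omega) (by omega) (by omega)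
      (by omega) (by omega) ((small_tail h1' hW).trans t6)).1

/-- Comparison of the two lattices for the tails. -/
lemma Fb_comp {C : ℝ} (hMax0 : ClaimMax.{0})
    (hC : ∀ (M1 M2 N : ℕ) (τ G : ℝ) (g : Fin N → ℝ),
      M2 ≤ M1 → M1 ≤ 2 * M2 → 1 ≤ N → N ≤ M2 → 0 ≤ G → (∀ i, |g i| ≤ G) →
      Simp (PP (M1 + 1) (2 * M1 + 1) τ N) →
      Simp (PP (M2 + 1) (2 * M2 + 1) (τ + C * N ^ 2 / M2) N) ∧
      spp (PP (M1 + 1) (2 * M1 + 1) τ N) g ≤
        spp (PP (M2 + 1) (2 * M2 + 1) (τ + C * N ^ 2 / M2) N) g + G * (C * N ^ 2 / M2))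
    (n : ℕ) (h1 : 1 ≤ n) (h2 : 1 ≤ NN n) (h3 : NN n ≤ n - 1) (h5 : n - 1 ≤ MM n)
    (h6 : MM n ≤ 2 * (n - 1)) (h7 : MM n + 1 = n + HH n)
    (hS : Simp (PP (n + HH n) (2 * MM n + 1) (t1 n) (NN n))) (u : ℝ) :
    Fb (PP (n + HH n) (2 * MM n + 1) (t1 n) (NN n)) u ≤
      Fb (PC C n) (u - GG n * ep C n) + 2 * NN n * Real.exp (-GG n ^ 2 / 4) := by
  have hG : 0 ≤ GG n := by unfold GG; positivity
  have hm := hMax0 (Fin (NN n) → ℝ) inferInstance (gm (NN n)) (NN n) (fun k g => g k) 1 (GG n)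
    (by unfold gm; infer_instance) (fun k => measurable_pi_apply k)
    (fun k => by
      unfold gm
      exact (measurePreserving_eval (fun _ : Fin (NN n) => gaussianReal 0 1) k).map_eq)
    (by norm_num) hG
  have hprob : IsProbabilityMeasure (gm (NN n)) := by unfold gm; infer_instance
  have hsub : {g : Fin (NN n) → ℝ | u < spp (PP (n + HH n) (2 * MM n + 1) (t1 n) (NN n)) g} ⊆
      {g | u - GG n * ep C n < spp (PC C n) g} ∪ {g | ∃ k, GG n < |g k|} := by
    intro g hg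
    by_contra hcon
    simp only [mem_union, mem_ofPred_eq, not_or, not_lt, not_exists] at hcon hg
    obtain ⟨c1, c2⟩ := hcon
    have e1 : n - 1 + 1 = n := by omega
    have hc := (hC (MM n) (n - 1) (NN n) (t1 n) (GG n) g h5 h6 h2 h3 hG c2 (by rwa [h7])).2
    rw [h7, e1] at hc
    have e2 : C * (NN n : ℝ) ^ 2 / ((n - 1 : ℕ) : ℝ) = ep C n := rfl
    rw [e2] at hc
    unfold PC at c1
    linarith
  calc Fb (PP (n + HH n) (2 * MM n + 1) (t1 n) (NN n)) u
      ≤ (gm (NN n)).real ({g | u - GG n * ep C n < spp (PC C n) g} ∪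
          {g | ∃ k, GG n < |g k|}) := measureReal_mono hsub (measure_ne_top _ _)
    _ ≤ _ := (measureReal_union_le _ _).trans (add_le_add_right hm _)

/-- The data produced by tail regularity. -/
structure RegData (C : ℝ) (a : ℕ → ℝ) : Prop where
  sg : ∀ᶠ n in atTop, 1 / 32 ≤ sig (PC C n) ∧ sig (PC C n) ≤ 1
  lo : ∀ᶠ n in atTop, (rr n : ℝ) ^ 20 ≤ a n / sig (PC C n)
  hi : ∀ᶠ n in atTop, a n / sig (PC C n) ≤ 2 * (rr n : ℝ) ^ 20
  lim : ∀ (x : ℝ) (ξ : ℕ → ℝ), Tendsto ξ atTop (𝓝 x) →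
    Tendsto (fun n : ℕ => (n : ℝ) / NN n *
      Fb (PC C n) (a n * (1 + ξ n / (a n / sig (PC C n)) ^ 2))) atTop (𝓝 (Real.exp (-x)))

section

variable {C : ℝ} {a : ℕ → ℝ}

/-- Basic inequalities. -/
lemma RegData.basic (h : RegData C a) : ∀ᶠ n in atTop, 0 < a n ∧ 0 < a n / sig (PC C n) ∧
    (rr n : ℝ) ^ 20 / 32 ≤ a n ∧ a n ≤ 2 * (rr n : ℝ) ^ 20 ∧
    (a n / sig (PC C n)) ^ 2 / a n ≤ 64 * (rr n : ℝ) ^ 20 ∧
    (a n / sig (PC C n)) ^ 2 ≤ 4 * (rr n : ℝ) ^ 40 ∧ (rr n : ℝ) ^ 40 ≤ (a n / sig (PC C n)) ^ 2 := by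
  filter_upwards [h.sg, h.lo, h.hi, ev_rr 1] with n ⟨s1, s2⟩ l u hr
  have hr' : (1 : ℝ) ≤ rr n := by exact_mod_cast hr
  have hp : (0 : ℝ) < (rr n : ℝ) ^ 20 := by positivity
  set σ := sig (PC C n) with hσ
  have hσ0 : 0 < σ := by linarith
  have h1 : 0 < a n / σ := by linarith
  have h2 : 0 < a n := by
    have := mul_pos h1 hσ0
    rwa [div_mul_cancel₀ _ hσ0.ne'] at this
  have h3 : a n = (a n / σ) * σ := by rw [div_mul_cancel₀ _ hσ0.ne']
  refine ⟨h2, h1, ?_, ?_, ?_, ?_, ?_⟩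
  · calc (rr n : ℝ) ^ 20 / 32 = (rr n : ℝ) ^ 20 * (1 / 32) := by ring
      _ ≤ (a n / σ) * σ := by gcongr
      _ = a n := h3.symm
  · calc a n = (a n / σ) * σ := h3
      _ ≤ (a n / σ) * 1 := by gcongr
      _ ≤ _ := by linarith
  · have e : (a n / σ) ^ 2 / a n = (a n / σ) * (1 / σ) := by field_simp
    rw [e]
    have h4 : 1 / σ ≤ 32 := by
      rw [div_le_iff₀ hσ0]; linarith
    calc (a n / σ) * (1 / σ) ≤ (2 * (rr n : ℝ) ^ 20) * 32 := by gcongr
      _ = _ := by ring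
  · calc (a n / σ) ^ 2 ≤ (2 * (rr n : ℝ) ^ 20) ^ 2 := by gcongr
      _ = _ := by ring
  · calc (rr n : ℝ) ^ 40 = ((rr n : ℝ) ^ 20) ^ 2 := by ring
      _ ≤ _ := by gcongr

/-- Regularity along a general sequence of levels. -/
lemma RegData.reg (h : RegData C a) (u : ℕ → ℝ) (x : ℝ)
    (hu : Tendsto (fun n => (a n / sig (PC C n)) ^ 2 * (u n / a n - 1)) atTop (𝓝 x)) :
    Tendsto (fun n : ℕ => (n : ℝ) / NN n * Fb (PC C n) (u n)) atTop (𝓝 (Real.exp (-x))) := by
  refine (h.lim x _ hu).congr' ?_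
  filter_upwards [h.basic] with n ⟨h1, h2, _⟩
  have hs : sig (PC C n) ≠ 0 := by
    intro h0; rw [h0, div_zero] at h2; exact lt_irrefl _ h2
  congr 2
  have e : (a n / sig (PC C n)) ^ 2 * (u n / a n - 1) / (a n / sig (PC C n)) ^ 2 =
      u n / a n - 1 := mul_div_cancel_left₀ _ (by positivity)
  rw [e]
  field_simp
  ring

/-- The perturbed levels `q a (1 + x / s²) - e`. -/
lemma RegData.level (h : RegData C a) (x : ℝ) (q e : ℕ → ℝ)
    (hq : Tendsto (fun n => (rr n : ℝ) ^ 40 * (q n - 1)) atTop (𝓝 0))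
    (he : Tendsto (fun n => (rr n : ℝ) ^ 20 * e n) atTop (𝓝 0)) :
    Tendsto (fun n => (a n / sig (PC C n)) ^ 2 *
      ((q n * (a n * (1 + x / (a n / sig (PC C n)) ^ 2)) - e n) / a n - 1)) atTop (𝓝 x) := by
  have h1 : Tendsto (fun n => (a n / sig (PC C n)) ^ 2 * (q n - 1)) atTop (𝓝 0) := by
    have h4 := hq.abs.const_mul 4
    rw [abs_zero, mul_zero] at h4
    refine squeeze_zero_norm' ?_ h4
    filter_upwards [h.basic] with n ⟨_, _, _, _, _, b, _⟩
    rw [Real.norm_eq_abs, abs_mul, abs_mul, abs_of_nonneg (sq_nonneg (a n / sig (PC C n))),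
      abs_of_nonneg (show (0 : ℝ) ≤ (rr n : ℝ) ^ 40 by positivity), ← mul_assoc]
    gcongr
  have h2 : Tendsto (fun n => (a n / sig (PC C n)) ^ 2 / a n * e n) atTop (𝓝 0) := by
    have h4 := he.abs.const_mul 64
    rw [abs_zero, mul_zero] at h4
    refine squeeze_zero_norm' ?_ h4
    filter_upwards [h.basic] with n ⟨b0, _, _, _, b, _⟩
    rw [Real.norm_eq_abs, abs_mul, abs_mul,
      abs_of_nonneg (show 0 ≤ (a n / sig (PC C n)) ^ 2 / a n by positivity),
      abs_of_nonneg (show (0 : ℝ) ≤ (rr n : ℝ) ^ 20 by positivity), ← mul_assoc]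
    gcongr
  have h3 : Tendsto q atTop (𝓝 1) := by
    have h4 : Tendsto (fun n => q n - 1) atTop (𝓝 0) := by
      have h5 := hq.abs
      rw [abs_zero] at h5
      refine squeeze_zero_norm' ?_ h5
      filter_upwards [ev_rr 1] with n hr
      have hr' : (1 : ℝ) ≤ (rr n : ℝ) ^ 40 := one_le_pow₀ (by exact_mod_cast hr)
      rw [Real.norm_eq_abs, abs_mul, abs_of_nonneg (show (0 : ℝ) ≤ (rr n : ℝ) ^ 40 by positivity)]
      exact le_mul_of_one_le_left (abs_nonneg _) hr'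
    simpa using h4.add_const 1
  have h5 : Tendsto (fun n => (a n / sig (PC C n)) ^ 2 * (q n - 1) + q n * x -
      (a n / sig (PC C n)) ^ 2 / a n * e n) atTop (𝓝 (0 + 1 * x - 0)) :=
    (h1.add (h3.mul_const x)).sub h2
  rw [zero_add, one_mul, sub_zero] at h5
  refine h5.congr' ?_
  filter_upwards [h.basic] with n ⟨b0, b1, _⟩
  have hs : sig (PC C n) ≠ 0 := by
    intro h0; rw [h0, div_zero] at b1; exact lt_irrefl _ b1
  field_simp
  ring

end

/-! ### Limits of the errors -/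

lemma lim_Gt1 : Tendsto (fun n => (rr n : ℝ) ^ 20 * (GG n * t1 n)) atTop (𝓝 0) := by
  have h := inv_pow_tendsto 42 1 (by norm_num)
  refine squeeze_zero' ?_ ?_ h
  · filter_upwards [t1_bound] with n ⟨h0, _⟩
    unfold GG; positivity
  · filter_upwards [t1_bound, ev_rr 1] with n ⟨h0, _, h1⟩ hr
    have hr' : (0 : ℝ) < rr n := by exact_mod_cast hr
    calc (rr n : ℝ) ^ 20 * (GG n * t1 n) ≤ (rr n : ℝ) ^ 20 * (6 * (rr n : ℝ) ^ 20 *
          (7 / (rr n : ℝ) ^ 41)) := by unfold GG; gcongr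
      _ = 42 / (rr n : ℝ) ^ 1 := by field_simp; norm_num

lemma lim_Gep (C : ℝ) : Tendsto (fun n => (rr n : ℝ) ^ 20 * (GG n * ep C n)) atTop (𝓝 0) := by
  have h := (ep_tendsto C 40).const_mul 6
  rw [mul_zero] at h
  refine h.congr fun n => ?_
  unfold GG; ring

lemma lim_kt : Tendsto (fun n => (rr n : ℝ) ^ 20 * (kk n * tz n)) atTop (𝓝 0) := by
  have h := inv_pow_tendsto (8 * 32 ^ 14) 3 (by norm_num)
  refine squeeze_zero' ?_ ?_ h
  · filter_upwards [ev_tz] with n ⟨h0, _⟩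
    unfold kk; positivity
  · filter_upwards [ev_tz, ev_rr 1] with n ⟨h0, h1⟩ hr
    have hr' : (0 : ℝ) < rr n := by exact_mod_cast hr
    calc (rr n : ℝ) ^ 20 * (kk n * tz n) ≤ (rr n : ℝ) ^ 20 * ((rr n : ℝ) ^ 61 *
          (8 * 32 ^ 14 / (rr n : ℝ) ^ 84)) := by unfold kk; gcongr
      _ = 8 * 32 ^ 14 / (rr n : ℝ) ^ 3 := by field_simp

/-- The ratio of the two scales. -/
noncomputable def qq (n : ℕ) : ℝ :=
  Real.sqrt (2 * ((n - 1 : ℕ) : ℝ) + 1) / Real.sqrt (2 * (MM n : ℝ) + 1)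

/-- The error of the lower bound. -/
noncomputable def dd (n : ℕ) : ℝ := kk n * tz n + 2 * GG n * t1 n

lemma lim_dd : Tendsto (fun n => (rr n : ℝ) ^ 20 * dd n) atTop (𝓝 0) := by
  have h := lim_kt.add (lim_Gt1.const_mul 2)
  rw [mul_zero, zero_add] at h
  refine h.congr fun n => ?_
  unfold dd; ring

lemma lim_qq : Tendsto (fun n => (rr n : ℝ) ^ 40 * (qq n - 1)) atTop (𝓝 0) := by
  have h := inv_pow_tendsto 2 1 (by norm_num)
  have h' : Tendsto (fun n => |(rr n : ℝ) ^ 40 * (qq n - 1)|) atTop (𝓝 0) := by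
    refine squeeze_zero' (Eventually.of_forall fun n => abs_nonneg _) ?_ h
    filter_upwards [ev_basic, ev_HH] with n ⟨h1, h2, h3, h4, h5, h6, h7, h8⟩ ⟨h9, _⟩
    have hr' : (64 : ℝ) ≤ rr n := by exact_mod_cast h1
    have hn : (2 : ℝ) ≤ n := by exact_mod_cast h2
    set m2 : ℝ := 2 * ((n - 1 : ℕ) : ℝ) + 1 with hm2
    set m1 : ℝ := 2 * (MM n : ℝ) + 1 with hm1
    have e1 : ((n - 1 : ℕ) : ℝ) = n - 1 := by push_cast [Nat.cast_sub (show 1 ≤ n by omega)]; ring
    have e2 : (MM n : ℝ) = n + HH n - 1 := by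
      have : (MM n : ℝ) + 1 = n + HH n := by exact_mod_cast h7
      linarith
    have p2 : 0 < m2 := by rw [hm2, e1]; linarith
    have hH : (0 : ℝ) ≤ HH n := Nat.cast_nonneg _
    have p3 : m2 ≤ m1 := by rw [hm2, hm1, e1, e2]; linarith
    have p1 : 0 < m1 := lt_of_lt_of_le p2 p3
    have q1 : qq n ≤ 1 := by
      unfold qq
      rw [div_le_one (Real.sqrt_pos.mpr p1)]
      exact Real.sqrt_le_sqrt p3
    have q0 : 0 ≤ qq n := by unfold qq; positivity
    have q2 : qq n ^ 2 = m2 / m1 := by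
      unfold qq; rw [div_pow, Real.sq_sqrt p2.le, Real.sq_sqrt p1.le]
    have q3 : 1 - qq n ≤ 1 - qq n ^ 2 := by nlinarith
    have q4 : 1 - m2 / m1 ≤ 2 * HH n / n := by
      have : 1 - m2 / m1 = (m1 - m2) / m1 := by field_simp
      rw [this, div_le_div_iff₀ p1 (by linarith)]
      have : m1 - m2 = 2 * HH n := by rw [hm2, hm1, e1, e2]; ring
      rw [this]
      have : (n : ℝ) ≤ m1 := by rw [hm1, e2]; linarith
      nlinarith
    rw [abs_mul, abs_of_nonneg (show (0 : ℝ) ≤ (rr n : ℝ) ^ 40 by positivity), abs_sub_comm,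
      abs_of_nonneg (by linarith)]
    have q5 : (HH n : ℝ) / n ≤ 1 / (rr n : ℝ) ^ 41 := by
      rw [div_le_div_iff₀ (by linarith) (by positivity)]; linarith
    calc (rr n : ℝ) ^ 40 * (1 - qq n) ≤ (rr n : ℝ) ^ 40 * (2 * (1 / (rr n : ℝ) ^ 41)) := by
          gcongr
          calc 1 - qq n ≤ 2 * HH n / n := by rw [q2] at q3; linarith
            _ = 2 * (HH n / n) := by ring
            _ ≤ _ := by gcongr
      _ = 2 / (rr n : ℝ) ^ 1 := by field_simp
  exact (tendsto_zero_iff_abs_tendsto_zero _).mpr h'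

/-- The number of crossing blocks in a block tends to infinity. -/
lemma lim_cross : Tendsto (fun n => 2 / ((NN n / (4 * WW n + 1) : ℕ) : ℝ)) atTop (𝓝 0) := by
  have h1 : Tendsto (fun n => NN n / (4 * WW n + 1)) atTop atTop := by
    have h2 : Tendsto (fun n => rr n / 5) atTop atTop :=
      (Nat.tendsto_div_const_atTop (by norm_num)).comp rr_tendsto
    refine tendsto_atTop_mono' _ ?_ h2
    filter_upwards [ev_rr 1] with n hr
    have hW : 1 ≤ WW n := by unfold WW; exact Nat.one_le_pow _ _ (by omega)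
    have e : NN n = WW n * rr n := by unfold NN WW; ring
    calc rr n / 5 = (WW n * rr n) / (WW n * 5) := (Nat.mul_div_mul_left _ _ hW).symm
      _ = NN n / (WW n * 5) := by rw [e]
      _ ≤ NN n / (4 * WW n + 1) := Nat.div_le_div_left (by omega) (by omega)
  exact tendsto_const_nhds.div_atTop (tendsto_natCast_atTop_atTop.comp h1)

/-- The special frequencies. -/
lemma lim_special (u : ℕ → ℝ) (hu : ∀ᶠ n in atTop, (rr n : ℝ) ^ 20 / 128 ≤ u n) :
    Tendsto (fun n => 2 * ((MM n : ℝ) - (MM n / NN n : ℕ) * NN n + 4 * WW n + 2) *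
      Real.exp (-u n ^ 2 / 4)) atTop (𝓝 0) := by
  have h := inv_pow_tendsto (2 * 8 * 2 * 65536 ^ 2) 32 (by norm_num)
  refine squeeze_zero' ?_ ?_ h
  · refine Eventually.of_forall fun n => ?_
    have : ((MM n / NN n : ℕ) : ℝ) * NN n ≤ MM n := by exact_mod_cast Nat.div_mul_le_self _ _
    have h2 : 0 ≤ (MM n : ℝ) - (MM n / NN n : ℕ) * NN n + 4 * WW n + 2 := by
      have : (0 : ℝ) ≤ WW n := Nat.cast_nonneg _
      linarith
    positivity
  · filter_upwards [hu, ev_rr 1] with n hu hr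
    have hr' : (1 : ℝ) ≤ rr n := by exact_mod_cast hr
    have hN : 0 < NN n := by unfold NN; positivity
    have b1 : (MM n : ℝ) - (MM n / NN n : ℕ) * NN n ≤ NN n := by
      have := Nat.lt_mul_div_succ (MM n) hN
      have h3 : MM n ≤ NN n * (MM n / NN n + 1) := this.le
      have h4 : (MM n : ℝ) ≤ NN n * ((MM n / NN n : ℕ) + 1) := by exact_mod_cast h3
      linarith
    have b2 : (MM n : ℝ) - (MM n / NN n : ℕ) * NN n + 4 * WW n + 2 ≤ 8 * (rr n : ℝ) ^ 48 := by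
      rw [NN_real] at b1
      rw [NN_real, WW_real]
      have c1 : (rr n : ℝ) ^ 47 ≤ (rr n : ℝ) ^ 48 := pow_le_pow_right₀ hr' (by norm_num)
      have c2 : (1 : ℝ) ≤ (rr n : ℝ) ^ 48 := one_le_pow₀ hr'
      linarith
    set y : ℝ := (rr n : ℝ) ^ 40 / 65536 with hy
    have hy0 : 0 < y := by positivity
    have b3 : Real.exp (-u n ^ 2 / 4) ≤ 2 / y ^ 2 := by
      have c1 : y ≤ u n ^ 2 / 4 := by
        have : ((rr n : ℝ) ^ 20 / 128) ^ 2 ≤ u n ^ 2 := by gcongr
        calc y = ((rr n : ℝ) ^ 20 / 128) ^ 2 / 4 := by rw [hy]; ring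
          _ ≤ _ := by gcongr
      have c2 : y ^ 2 / 2 ≤ Real.exp y := by
        have := Real.quadratic_le_exp_of_nonneg hy0.le
        linarith
      calc Real.exp (-u n ^ 2 / 4) ≤ Real.exp (-y) := Real.exp_le_exp.mpr (by linarith)
        _ = (Real.exp y)⁻¹ := Real.exp_neg _
        _ ≤ (y ^ 2 / 2)⁻¹ := by gcongr
        _ = 2 / y ^ 2 := by rw [inv_div]
    calc 2 * ((MM n : ℝ) - (MM n / NN n : ℕ) * NN n + 4 * WW n + 2) * Real.exp (-u n ^ 2 / 4)
        ≤ 2 * (8 * (rr n : ℝ) ^ 48) * (2 / y ^ 2) := by gcongr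
      _ = 2 * 8 * 2 * 65536 ^ 2 / (rr n : ℝ) ^ 32 := by
          rw [hy]; field_simp

section

universe u

variable {Ω : Type u} [mΩ : MeasurableSpace Ω] (P : Measure Ω) [hP : IsProbabilityMeasure P]
  (X : ℕ → Ω → ℝ) {C : ℝ} {a : ℕ → ℝ}

/-- The upper sequence. -/
lemma upper_seq (h : RegData C a) (x : ℝ) (u : ℕ → ℝ)
    (hu : Tendsto (fun n => (a n / sig (PC C n)) ^ 2 * (u n / a n - 1)) atTop (𝓝 x))
    (J : ℕ → ℕ) (hJ : Tendsto (fun n : ℕ => (J n : ℝ) * NN n / n) atTop (𝓝 1))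
    (E : ℕ → ℝ) (hE : Tendsto (fun n : ℕ => (n : ℝ) / NN n * E n) atTop (𝓝 0)) :
    Tendsto (fun n => (J n : ℝ) * (Fb (PC C n) (u n) + E n)) atTop (𝓝 (Real.exp (-x))) ∧
    Tendsto (fun n => Fb (PC C n) (u n) + E n) atTop (𝓝 0) ∧
    Tendsto (fun n : ℕ => (n : ℝ) / NN n * (Fb (PC C n) (u n) + E n)) atTop
      (𝓝 (Real.exp (-x))) := by
  have h1 := (h.reg u x hu).add hE
  rw [add_zero] at h1
  have h1' : Tendsto (fun n : ℕ => (n : ℝ) / NN n * (Fb (PC C n) (u n) + E n)) atTop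
      (𝓝 (Real.exp (-x))) := h1.congr fun n => by ring
  have h2 := hJ.mul h1'
  rw [one_mul] at h2
  have h3 := (pow_div 48).mul h1'
  rw [zero_mul] at h3
  refine ⟨h2.congr' ?_, h3.congr' ?_, h1'⟩
  · filter_upwards [eventually_ge_atTop 1, ev_rr 1] with n hn hr
    have hn' : (n : ℝ) ≠ 0 := by positivity
    have hN : (NN n : ℝ) ≠ 0 := by rw [NN_real]; positivity
    field_simp
  · filter_upwards [eventually_ge_atTop 1, ev_rr 1] with n hn hr
    have hn' : (n : ℝ) ≠ 0 := by positivity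
    have hN : (NN n : ℝ) ≠ 0 := by rw [NN_real]; positivity
    rw [← NN_real]
    field_simp

/-- The level at which the distribution function is evaluated. -/
noncomputable def VV (C : ℝ) (a : ℕ → ℝ) (x : ℝ) (n : ℕ) : ℝ :=
  Real.sqrt (2 * ((n - 1 : ℕ) : ℝ) + 1) * (a n * (1 + x / (a n / sig (PC C n)) ^ 2))

lemma ev_half (h : RegData C a) (x : ℝ) : ∀ᶠ n in atTop,
    (rr n : ℝ) ^ 20 / 64 ≤ a n * (1 + x / (a n / sig (PC C n)) ^ 2) := by
  filter_upwards [h.basic, ev_rr' (2 * |x| + 1)] with n ⟨b1, b2, b3, _, _, _, b7⟩ hr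
  have hr1 : (1 : ℝ) ≤ rr n := by linarith [abs_nonneg x]
  have c1 : 2 * |x| ≤ (a n / sig (PC C n)) ^ 2 := by
    calc 2 * |x| ≤ rr n := by linarith
      _ ≤ (rr n : ℝ) ^ 40 := le_self_pow₀ hr1 (by norm_num)
      _ ≤ _ := b7
  have c2 : 0 < (a n / sig (PC C n)) ^ 2 := by positivity
  have c3 : -(1 / 2) ≤ x / (a n / sig (PC C n)) ^ 2 := by
    rw [le_div_iff₀ c2]
    nlinarith [neg_abs_le x]
  calc (rr n : ℝ) ^ 20 / 64 = (rr n : ℝ) ^ 20 / 32 * (1 / 2) := by ring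
    _ ≤ a n * (1 + x / (a n / sig (PC C n)) ^ 2) := by
        gcongr
        linarith

include hP in
theorem lamS_limit (hNoise : ClaimNoise) (hQuad : ClaimQuad) (hLam : ClaimLam)
    (hGauss : ClaimGauss.{u}) (hBlocks : ClaimBlocks.{u}) (hMax : ClaimMax.{u})
    (hMax0 : ClaimMax.{0}) (hSpp : ClaimSpp) (hLower : ClaimLower) (hUpper : ClaimUpper)
    (hWin : ClaimWin) (hNe : ClaimNe) (hCross : ClaimCross)
    (hmeas : ∀ k, Measurable (X k)) (hind : iIndepFun X P)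
    (hlaw : ∀ k, P.map (X k) = gaussianReal 0 1) (hC1 : 1 ≤ C)
    (hC : ∀ (M1 M2 N : ℕ) (τ G : ℝ) (g : Fin N → ℝ),
      M2 ≤ M1 → M1 ≤ 2 * M2 → 1 ≤ N → N ≤ M2 → 0 ≤ G → (∀ i, |g i| ≤ G) →
      Simp (PP (M1 + 1) (2 * M1 + 1) τ N) →
      Simp (PP (M2 + 1) (2 * M2 + 1) (τ + C * N ^ 2 / M2) N) ∧
      spp (PP (M1 + 1) (2 * M1 + 1) τ N) g ≤
        spp (PP (M2 + 1) (2 * M2 + 1) (τ + C * N ^ 2 / M2) N) g + G * (C * N ^ 2 / M2))
    (h : RegData C a) (x : ℝ) :
    Tendsto (fun n => P.real {ω | lamS n (fun k => X k ω) ≤ VV C a x n}) atTop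
      (𝓝 (Real.exp (-Real.exp (-x)))) := by
  have hexp0 : Tendsto (fun n : ℕ => (n : ℝ) / NN n * (0 : ℝ)) atTop (𝓝 0) := by simp
  have hexpE : ∀ c : ℝ, Tendsto (fun n : ℕ => (n : ℝ) / NN n *
      (c * NN n * Real.exp (-GG n ^ 2 / 4))) atTop (𝓝 0) := by
    intro c
    have := exp_tendsto.const_mul c
    rw [mul_zero] at this
    refine this.congr' ?_
    filter_upwards [ev_rr 1] with n hr
    have hN : (NN n : ℝ) ≠ 0 := by rw [NN_real]; positivity
    field_simp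
  -- the upper sequence
  set u1 : ℕ → ℝ := fun n => a n * (1 + x / (a n / sig (PC C n)) ^ 2) +
    GG n * (t1 n + ep C n) with hu1
  have hu1' : Tendsto (fun n => (a n / sig (PC C n)) ^ 2 * (u1 n / a n - 1)) atTop (𝓝 x) := by
    have := h.level x (fun _ => 1) (fun n => -(GG n * (t1 n + ep C n))) (by simp) (by
      have := (lim_Gt1.add (lim_Gep C)).neg
      simp only [add_zero, neg_zero] at this
      refine this.congr fun n => ?_
      ring)
    refine this.congr fun n => ?_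
    simp only [hu1]; ring_nf
  obtain ⟨up1, up2, _⟩ := upper_seq h x u1 hu1' (fun n => (n - 1) / NN n)
    (div_tendsto _ sub_one_div) (fun _ => 0) hexp0
  have hup := (one_sub_pow _ _ _ up2 up1).add (exp_tendsto.const_mul 2)
  rw [mul_zero, add_zero] at hup
  -- the lower sequence
  set u2 : ℕ → ℝ := fun n => qq n * (a n * (1 + x / (a n / sig (PC C n)) ^ 2)) - dd n with hu2
  have hlev : ∀ e : ℕ → ℝ, Tendsto (fun n => (rr n : ℝ) ^ 20 * e n) atTop (𝓝 0) →
      Tendsto (fun n => (a n / sig (PC C n)) ^ 2 * ((u2 n - e n) / a n - 1)) atTop (𝓝 x) := by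
    intro e he
    have := h.level x qq (fun n => dd n + e n) lim_qq (by
      have := lim_dd.add he
      rw [add_zero] at this
      refine this.congr fun n => ?_
      ring)
    refine this.congr fun n => ?_
    simp only [hu2]; ring_nf
  obtain ⟨lo1, lo2, _⟩ := upper_seq h x (fun n => u2 n - GG n * ep C n) (hlev _ (lim_Gep C))
    (fun n => MM n / NN n) (div_tendsto _ MM_div)
    (fun n => 2 * NN n * Real.exp (-GG n ^ 2 / 4)) (hexpE 2)
  have hlo := one_sub_pow _ _ _ lo2 lo1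
  obtain ⟨cr1, cr2, _⟩ := upper_seq h x (fun n => u2 n - (GG n * t1 n + GG n * ep C n))
    (hlev _ (by
      have := lim_Gt1.add (lim_Gep C)
      rw [add_zero] at this
      refine this.congr fun n => ?_
      ring))
    (fun n => MM n / NN n) (div_tendsto _ MM_div)
    (fun n => 4 * NN n * Real.exp (-GG n ^ 2 / 4)) (hexpE 4)
  have hcr := cr1.mul lim_cross
  rw [mul_zero] at hcr
  -- `u2` is large
  have hu2pos : ∀ᶠ n in atTop, (rr n : ℝ) ^ 20 / 128 ≤ u2 n := by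
    have hq1 : ∀ᶠ n in atTop, 3 / 4 ≤ qq n := by
      have h1 := (lim_qq.eventually_const_lt (show (-(1 / 4) : ℝ) < 0 by norm_num))
      filter_upwards [h1, ev_rr 1] with n h2 hr
      have hr' : (1 : ℝ) ≤ (rr n : ℝ) ^ 40 := one_le_pow₀ (by exact_mod_cast hr)
      by_contra hc
      push Not at hc
      nlinarith
    have hd1 : ∀ᶠ n in atTop, dd n ≤ 1 / 256 := by
      have h1 := (lim_dd.eventually_lt_const (show (0 : ℝ) < 1 / 256 by norm_num))
      filter_upwards [h1, ev_rr 1] with n h2 hr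
      have hr' : (1 : ℝ) ≤ (rr n : ℝ) ^ 20 := one_le_pow₀ (by exact_mod_cast hr)
      by_contra hc
      push Not at hc
      nlinarith
    filter_upwards [hq1, hd1, ev_half h x, ev_rr 1] with n h1 h2 h3 hr
    have hr' : (1 : ℝ) ≤ (rr n : ℝ) ^ 20 := one_le_pow₀ (by exact_mod_cast hr)
    simp only [hu2]
    have h4 : 3 / 4 * ((rr n : ℝ) ^ 20 / 64) ≤
        qq n * (a n * (1 + x / (a n / sig (PC C n)) ^ 2)) := by gcongr
    linarith
  have hsp := lim_special u2 hu2pos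
  have hno : Tendsto (fun n : ℕ => 2 * ((MM n : ℝ) + 1) * Real.exp (-GG n ^ 2 / 4)) atTop
      (𝓝 0) := by
    have h1 := exp_tendsto.const_mul 4
    rw [mul_zero] at h1
    refine squeeze_zero' (Eventually.of_forall fun n => by positivity) ?_ h1
    filter_upwards [ev_basic] with n ⟨_, _, _, _, _, _, _, h8⟩
    have h8' : (MM n : ℝ) + 1 ≤ 2 * n := by exact_mod_cast h8
    have : (0 : ℝ) ≤ Real.exp (-GG n ^ 2 / 4) := (Real.exp_pos _).le
    nlinarith
  have hlow := ((hlo.sub hcr).sub hsp).sub hno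
  rw [sub_zero, sub_zero, sub_zero] at hlow
  refine tendsto_of_tendsto_of_tendsto_of_le_of_le' hlow hup ?_ ?_
  · -- lower bound
    filter_upwards [ev_basic, ev_simp hC1 hNe, ev_hh, ev_tz, t1_bound, hu2pos,
      lo2.eventually_lt_const (show (0 : ℝ) < 1 / 2 by norm_num),
      cr2.eventually_lt_const (show (0 : ℝ) < 1 / 2 by norm_num)]
      with n ⟨b1, b2, b3, b4, b5, b6, b7, b8⟩ ⟨_, s2, s3⟩ ⟨hh1, _⟩ ⟨tz0, _⟩ ⟨t0, _⟩ hu hp1 hp2
    have hG : 0 ≤ GG n := by unfold GG; positivity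
    have hK : 0 < kk n := by
      unfold kk
      have : (0 : ℝ) < rr n := by exact_mod_cast (by omega : 0 < rr n)
      positivity
    have hu0 : 0 ≤ u2 n := le_trans (by positivity) hu
    have hNN : 1 ≤ NN n := by omega
    have hW1 : 1 ≤ WW n := by unfold WW; exact Nat.one_le_pow _ _ (by omega)
    obtain ⟨A, hA, _⟩ := hWin 8 (hh n) (WW n) (MM n) (by norm_num) (by omega)
      (by have : 8 * (hh n - 1) = HH n := rfl
          omega) hW1
    have hI : 1 ≤ MM n / NN n := (Nat.one_le_div_iff (by omega)).mpr (by omega)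
    have key := lo_ineq P X hNoise hQuad hLam hGauss hBlocks hMax hSpp hUpper hmeas hind hlaw n
      (HH n) (WW n) (NN n) (MM n / NN n) (MM n) (tz n) (GG n) (kk n) (u2 n) A (by omega) b7 hW1
      b4 hI (Nat.div_mul_le_self _ _) hA tz0 hG hK hu0 s2 s3
    have hcomp := Fb_comp hMax0 hC n (by omega) hNN b3 b5 b6 b7 s2 (u2 n)
    have hcomp2 := Fb_comp hMax0 hC n (by omega) hNN b3 b5 b6 b7 s2 (u2 n - GG n * t1 n)
    have hcross := hCross (MM n) (n + HH n) (NN n) (4 * WW n + 1) (t1 n) (GG n) (u2 n)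
      (Fb (PC C n) (u2 n - (GG n * t1 n + GG n * ep C n)) +
        4 * NN n * Real.exp (-GG n ^ 2 / 4)) (by omega) (by omega) (by omega) b4 hG s3
      (by
        have e : u2 n - GG n * t1 n - GG n * ep C n =
          u2 n - (GG n * t1 n + GG n * ep C n) := by ring
        rw [e] at hcomp2
        linarith) hp2
    have e1 : Real.sqrt (2 * (MM n : ℝ) + 1) * (u2 n + kk n * tz n + 2 * GG n *
        (tz n + GG n / kk n)) = VV C a x n := by
      have e2 : tz n + GG n / kk n = t1 n := rfl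
      rw [e2]
      have e3 : u2 n + kk n * tz n + 2 * GG n * t1 n =
          qq n * (a n * (1 + x / (a n / sig (PC C n)) ^ 2)) := by
        simp only [hu2, dd]; ring
      rw [e3]
      unfold VV qq
      have : Real.sqrt (2 * (MM n : ℝ) + 1) ≠ 0 := (Real.sqrt_pos.mpr (by positivity)).ne'
      field_simp
    rw [e1] at key
    refine le_trans ?_ key
    have k1 : (1 - (Fb (PC C n) (u2 n - GG n * ep C n) +
        2 * NN n * Real.exp (-GG n ^ 2 / 4))) ^ (MM n / NN n) ≤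
        (1 - Fb (PP (n + HH n) (2 * MM n + 1) (tz n + GG n / kk n) (NN n)) (u2 n)) ^
          (MM n / NN n) := by
      have : 0 ≤ 1 - (Fb (PC C n) (u2 n - GG n * ep C n) +
        2 * NN n * Real.exp (-GG n ^ 2 / 4)) := by linarith
      have e2 : tz n + GG n / kk n = t1 n := rfl
      rw [e2]
      gcongr
    have k2 : ((MM n / NN n : ℕ) : ℝ) *
        Fb (PP (n + HH n) (2 * MM n + 1) (tz n + GG n / kk n) (4 * WW n + 1)) (u2 n) ≤
        ((MM n / NN n : ℕ) : ℝ) * (Fb (PC C n) (u2 n - (GG n * t1 n + GG n * ep C n)) +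
          4 * NN n * Real.exp (-GG n ^ 2 / 4)) * (2 / ((NN n / (4 * WW n + 1) : ℕ) : ℝ)) := by
      have e2 : tz n + GG n / kk n = t1 n := rfl
      rw [e2, mul_assoc]
      gcongr
      refine hcross.trans (le_of_eq ?_)
      ring
    linarith
  · -- upper bound
    filter_upwards [ev_basic, ev_simp hC1 hNe, ev_half h x]
      with n ⟨b1, b2, b3, b4, b5, b6, b7, b8⟩ ⟨⟨s1, _⟩, _, _⟩ hh0
    have hG : 0 ≤ GG n := by unfold GG; positivity
    have e0 : u1 n - GG n * (t1 n + ep C n) = a n * (1 + x / (a n / sig (PC C n)) ^ 2) := by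
      simp only [hu1]; ring
    have key := up_ineq P X hNoise hQuad hLam hGauss hBlocks hMax hLower hmeas hind hlaw n
      (NN n) ((n - 1) / NN n) (t1 n + ep C n) (GG n) (u1 n) (by omega) (Nat.div_mul_le_self _ _)
      s1 hG (by rw [e0]; exact le_trans (by positivity) hh0)
    rw [e0] at key
    refine key.trans (le_of_eq ?_)
    rw [add_zero, mul_assoc]
    rfl

end

section

universe u

/-- The main theorem from the claims. -/
theorem main_of_claims (hNoise : ClaimNoise) (hQuad : ClaimQuad) (hLam : ClaimLam)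
    (hGauss : ClaimGauss.{u}) (hBlocks : ClaimBlocks.{u}) (hMax : ClaimMax.{u})
    (hMax0 : ClaimMax.{0}) (hSpp : ClaimSpp) (hLower : ClaimLower) (hUpper : ClaimUpper)
    (hWin : ClaimWin) (hComp : ClaimComp) (hNe : ClaimNe) (hCross : ClaimCross)
    (hReg : ClaimReg) : ClaimMain.{u} := by
  obtain ⟨C, hC1, hC⟩ := hComp
  obtain ⟨a, ha1, ha2⟩ := hReg (1 / 32) (PC C) (by norm_num)
    ((ev_simp hC1 hNe).mono fun n h => h.1)
  have hR : RegData C a := by
    refine ⟨?_, ha1.mono fun n h => h.1, ha1.mono fun n h => h.2, ha2⟩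
    filter_upwards [ev_simp hC1 hNe] with n ⟨⟨h1, h2⟩, _⟩
    exact ⟨h2, (hSpp _ _ h1).2.2.2.2.2.2.2.2⟩
  set A : ℕ → ℝ := fun n => Real.sqrt (2 * ((n - 1 : ℕ) : ℝ) + 1) * a n with hA
  set B0 : ℕ → ℝ := fun n => Real.sqrt (2 * ((n - 1 : ℕ) : ℝ) + 1) * a n /
    (a n / sig (PC C n)) ^ 2 with hB0
  have hV : ∀ x : ℝ, ∀ n, VV C a x n = A n + B0 n * x := by
    intro x n
    simp only [VV, hA, hB0]; ring
  have hBpos : ∀ᶠ n in atTop, 0 < B0 n := by
    filter_upwards [hR.basic] with n ⟨b1, b2, _⟩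
    have : 0 < Real.sqrt (2 * ((n - 1 : ℕ) : ℝ) + 1) := Real.sqrt_pos.mpr (by positivity)
    simp only [hB0]; positivity
  have hBtop : Tendsto B0 atTop atTop := by
    rw [tendsto_atTop]
    intro c
    filter_upwards [hR.basic, ev_pow_le ((128 * (|c| + 1)) ^ 2) 40, eventually_ge_atTop 1,
      ev_rr 1] with n ⟨b1, b2, b3, _, _, b6, b7⟩ hn hn1 hr
    have hr' : (1 : ℝ) ≤ rr n := by exact_mod_cast hr
    have e1 : ((n - 1 : ℕ) : ℝ) = n - 1 := by push_cast [Nat.cast_sub hn1]; ring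
    have hn' : (1 : ℝ) ≤ n := by exact_mod_cast hn1
    have h1 : 128 * (|c| + 1) * (rr n : ℝ) ^ 20 ≤ Real.sqrt (2 * ((n - 1 : ℕ) : ℝ) + 1) := by
      apply Real.le_sqrt_of_sq_le
      rw [e1]
      calc (128 * (|c| + 1) * (rr n : ℝ) ^ 20) ^ 2
          = (128 * (|c| + 1)) ^ 2 * (rr n : ℝ) ^ 40 := by ring
        _ ≤ (n : ℝ) := hn
        _ ≤ 2 * ((n : ℝ) - 1) + 1 := by linarith
    have hs2 : 0 < (a n / sig (PC C n)) ^ 2 := by positivity
    simp only [hB0]
    rw [le_div_iff₀ hs2]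
    have hr20 : (0 : ℝ) < (rr n : ℝ) ^ 20 := by positivity
    calc c * (a n / sig (PC C n)) ^ 2 ≤ (|c| + 1) * (4 * (rr n : ℝ) ^ 40) := by
          have := le_abs_self c
          have h2 : c ≤ |c| + 1 := by linarith
          have h3 : 0 ≤ |c| + 1 := by positivity
          exact mul_le_mul h2 b6 hs2.le h3
      _ = (128 * (|c| + 1) * (rr n : ℝ) ^ 20) * ((rr n : ℝ) ^ 20 / 32) := by ring
      _ ≤ Real.sqrt (2 * ((n - 1 : ℕ) : ℝ) + 1) * a n := by gcongr
  refine ⟨A, fun n => if 0 < B0 n then B0 n else 1, fun n => ?_, ?_⟩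
  · show 0 < (if 0 < B0 n then B0 n else 1)
    split_ifs with h
    · exact h
    · norm_num
  intro Ω mΩ P X hP hmeas hind hlaw x
  have hlim := fun y => lamS_limit P X hNoise hQuad hLam hGauss hBlocks hMax hMax0 hSpp hLower
    hUpper hWin hNe hCross hmeas hind hlaw hC1 hC hR y
  have hX0 : ∀ ε : ℝ, 0 < ε → Tendsto (fun n => P.real {ω | ε * B0 n < |X 0 ω|}) atTop (𝓝 0) := by
    intro ε hε
    have h1 : Tendsto (fun n => 2 * Real.exp (-(ε * B0 n) ^ 2 / 4)) atTop (𝓝 0) := by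
      have h2 : Tendsto (fun n => (ε * B0 n) ^ 2 / 4) atTop atTop :=
        Tendsto.atTop_div_const (by norm_num)
          ((tendsto_pow_atTop (by norm_num)).comp (hBtop.const_mul_atTop hε))
      have h3 := (Real.tendsto_exp_neg_atTop_nhds_zero.comp h2).const_mul 2
      rw [mul_zero] at h3
      refine h3.congr fun n => ?_
      simp only [Function.comp_apply]; ring_nf
    refine squeeze_zero' (Eventually.of_forall fun n => measureReal_nonneg) ?_ h1
    filter_upwards [hBpos] with n hb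
    have := hMax Ω mΩ P 1 (fun _ => X 0) 1 (ε * B0 n) hP (fun _ => hmeas 0) (fun _ => hlaw 0)
      (by norm_num) (by positivity)
    simpa using this
  have hs2 : 0 ≤ Real.sqrt 2 - 1 ∧ Real.sqrt 2 - 1 ≤ 1 := by
    constructor
    · have := Real.one_le_sqrt.mpr (show (1 : ℝ) ≤ 2 by norm_num)
      linarith
    · have : Real.sqrt 2 ≤ 2 := by
        rw [Real.sqrt_le_left (by norm_num)]; norm_num
      linarith
  have hcontF : Continuous fun y : ℝ => Real.exp (-Real.exp (-y)) := by fun_prop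
  rw [Metric.tendsto_nhds]
  intro δ hδ
  obtain ⟨ε, hε, hF⟩ := Metric.continuous_iff.mp hcontF x (δ / 2) (by linarith)
  have d1 : dist (x + ε / 2) x < ε := by
    rw [Real.dist_eq, show x + ε / 2 - x = ε / 2 by ring, abs_of_pos (by linarith)]
    linarith
  have d2 : dist (x - ε / 2) x < ε := by
    rw [Real.dist_eq, show x - ε / 2 - x = -(ε / 2) by ring, abs_neg, abs_of_pos (by linarith)]
    linarith
  have hF1 := hF (x + ε / 2) d1
  have hF2 := hF (x - ε / 2) d2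
  rw [Real.dist_eq] at hF1 hF2
  filter_upwards [hBpos, Metric.tendsto_nhds.mp (hlim (x + ε / 2)) (δ / 4) (by linarith),
    Metric.tendsto_nhds.mp (hlim (x - ε / 2)) (δ / 4) (by linarith),
    (hX0 (ε / 2) (by linarith)).eventually_lt_const (show (0 : ℝ) < δ / 4 by linarith)]
    with n hb l1 l2 l3
  simp only [if_pos hb]
  rw [Real.dist_eq] at l1 l2 ⊢
  have hup : P.real {ω | (lam1 n (fun k => X k ω) - A n) / B0 n ≤ x} ≤
      P.real {ω | lamS n (fun k => X k ω) ≤ VV C a (x + ε / 2) n} +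
        P.real {ω | ε / 2 * B0 n < |X 0 ω|} := by
    refine (measureReal_mono (s₂ := {ω | lamS n (fun k => X k ω) ≤ VV C a (x + ε / 2) n} ∪
        {ω | ε / 2 * B0 n < |X 0 ω|}) ?_ (measure_ne_top _ _)).trans (measureReal_union_le _ _)
    intro ω hω
    by_contra hcon
    simp only [mem_union, mem_ofPred_eq, not_or, not_le, not_lt] at hcon hω
    obtain ⟨c1, c2⟩ := hcon
    rw [hV] at c1
    rw [div_le_iff₀ hb] at hω
    unfold lamS at c1
    have c3 : (Real.sqrt 2 - 1) * X 0 ω ≤ ε / 2 * B0 n := by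
      calc (Real.sqrt 2 - 1) * X 0 ω ≤ (Real.sqrt 2 - 1) * |X 0 ω| := by
            gcongr
            · exact hs2.1
            · exact le_abs_self _
        _ ≤ 1 * |X 0 ω| := by gcongr; exact hs2.2
        _ ≤ _ := by linarith
    nlinarith
  have hlo : P.real {ω | lamS n (fun k => X k ω) ≤ VV C a (x - ε / 2) n} ≤
      P.real {ω | (lam1 n (fun k => X k ω) - A n) / B0 n ≤ x} +
        P.real {ω | ε / 2 * B0 n < |X 0 ω|} := by
    refine (measureReal_mono (s₂ := {ω | (lam1 n (fun k => X k ω) - A n) / B0 n ≤ x} ∪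
        {ω | ε / 2 * B0 n < |X 0 ω|}) ?_ (measure_ne_top _ _)).trans (measureReal_union_le _ _)
    intro ω hω
    by_contra hcon
    simp only [mem_union, mem_ofPred_eq, not_or, not_le, not_lt] at hcon hω
    obtain ⟨c1, c2⟩ := hcon
    rw [hV] at hω
    rw [lt_div_iff₀ hb] at c1
    unfold lamS at hω
    have c3 : -(ε / 2 * B0 n) ≤ (Real.sqrt 2 - 1) * X 0 ω := by
      have c4 : (Real.sqrt 2 - 1) * |X 0 ω| ≤ ε / 2 * B0 n := by
        calc (Real.sqrt 2 - 1) * |X 0 ω| ≤ 1 * |X 0 ω| := by gcongr; exact hs2.2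
          _ ≤ _ := by linarith
      have c5 : -((Real.sqrt 2 - 1) * |X 0 ω|) ≤ (Real.sqrt 2 - 1) * X 0 ω := by
        have := neg_abs_le (X 0 ω)
        nlinarith [hs2.1]
      linarith
    nlinarith
  rw [abs_lt] at l1 l2 hF1 hF2 ⊢
  constructor <;> linarith [l1.1, l1.2, l2.1, l2.2, hF1.1, hF1.2, hF2.1, hF2.2]

end

end Pool.Agent.Work.MP_3574a2_pr.Dil
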