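import Mathlib
import Pool.Agent.Work.MP_3574a2_pr.Dil.Claims

/-!
# Items C1 and C2: the noise and the quadratic form
-/

set_option autoImplicit false

namespace Pool.Agent.Work.MP_3574a2_pr.Dil

open MeasureTheory ProbabilityTheory Set Polynomial
open scoped ENNReal NNReal

theorem claimNoise : ClaimNoise := by
  intro M x k
  constructor
  · unfold gk
    congr 2
    congr 1
    refine Finset.sum_congr rfl fun l _ => ?_
    congr 1
    have hm : (2 * (M:ℝ) + 1) ≠ 0 := by positivity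
    have h1 : 2 * Real.pi * ((k + (2 * (M:ℤ) + 1) : ℤ) : ℝ) * l / (2 * M + 1) =
        2 * Real.pi * k * l / (2 * M + 1) + (l : ℕ) * (2 * Real.pi) := by
      push_cast
      field_simp
    rw [h1, Real.cos_add_nat_mul_two_pi]
  · unfold gk
    congr 2
    congr 1
    refine Finset.sum_congr rfl fun l _ => ?_
    congr 1
    have h1 : 2 * Real.pi * ((-k : ℤ) : ℝ) * l / (2 * M + 1) =
        -(2 * Real.pi * k * l / (2 * M + 1)) := by
      push_cast
      ring
    rw [h1, Real.cos_neg]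

lemma quad_zt_add (m : ℕ) (a b : ℤ) : zt m (a + b) = zt m a * zt m b := by
  unfold zt
  rw [← Complex.exp_add]
  congr 1
  push_cast
  ring

lemma quad_zt_zero (m : ℕ) : zt m 0 = 1 := by
  unfold zt
  simp

lemma quad_zt_pow (m : ℕ) (k : ℤ) (i : ℕ) : zt m k ^ i = zt m (k * i) := by
  unfold zt
  rw [← Complex.exp_nat_mul]
  congr 1
  push_cast
  ring

lemma quad_zt_conj (m : ℕ) (k : ℤ) : (starRingEnd ℂ) (zt m k) = zt m (-k) := by
  unfold zt
  rw [← Complex.exp_conj]
  congr 1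
  simp only [map_div₀, map_mul, Complex.conj_ofReal, Complex.conj_I, Complex.conj_ofNat,
    map_intCast, map_natCast]
  push_cast
  ring

lemma quad_zt_cos (m : ℕ) (k : ℤ) : zt m k + zt m (-k) =
    ((2 * Real.cos (2 * Real.pi * k / m) : ℝ) : ℂ) := by
  unfold zt
  push_cast
  rw [Complex.two_cos]
  congr 2
  · ring
  · ring

/-- symmetric sums -/
lemma quad_sum_symm (F : ℤ → ℂ) (M : ℕ) : ∑ l ∈ Finset.Icc (-(M : ℤ)) M, F l =
    F 0 + ∑ l ∈ Finset.Icc 1 M, (F l + F (-(l:ℤ))) := by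
  induction M with
  | zero => simp
  | succ M ih =>
    have h1 : Finset.Icc (-((M + 1 : ℕ) : ℤ)) ((M + 1 : ℕ) : ℤ) =
        insert ((M + 1 : ℕ) : ℤ) (insert (-((M + 1 : ℕ) : ℤ)) (Finset.Icc (-(M : ℤ)) M)) := by
      ext y
      simp only [Finset.mem_Icc, Finset.mem_insert]
      push_cast
      omega
    rw [h1, Finset.sum_insert, Finset.sum_insert, ih, Finset.sum_Icc_succ_top (by omega)]
    · ring
    · simp only [Finset.mem_Icc]
      push_cast
      omega
    · simp only [Finset.mem_Icc, Finset.mem_insert]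
      push_cast
      omega

/-- orthogonality of the characters -/
lemma quad_orth (M : ℕ) (d : ℤ) (hd : |d| ≤ 2 * M) :
    ∑ k ∈ Finset.Icc (-(M : ℤ)) M, zt (2 * M + 1) (k * d) =
      if d = 0 then ((2 * M + 1 : ℕ) : ℂ) else 0 := by
  split_ifs with h
  · subst h
    simp only [mul_zero, quad_zt_zero, Finset.sum_const, nsmul_eq_mul, mul_one, Int.card_Icc]
    congr 1
    omega
  · set ω := zt (2 * M + 1) d with hω
    have hm : ((2 * M + 1 : ℕ) : ℂ) ≠ 0 := Nat.cast_ne_zero.2 (Nat.succ_ne_zero (2 * M))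
    have hne : ω ≠ 1 := by
      intro h1
      rw [hω, zt, Complex.exp_eq_one_iff] at h1
      obtain ⟨t, ht⟩ := h1
      have h2 : (d : ℂ) = t * ((2 * M + 1 : ℕ) : ℂ) := by
        have hp : (2 * (Real.pi : ℂ) * Complex.I) ≠ 0 := Complex.two_pi_I_ne_zero
        have h3 : 2 * (Real.pi : ℂ) * Complex.I * d / ((2 * M + 1 : ℕ) : ℂ) *
            ((2 * M + 1 : ℕ) : ℂ) = t * (2 * Real.pi * Complex.I) * ((2 * M + 1 : ℕ) : ℂ) := by
          rw [ht]
        rw [div_mul_cancel₀ _ hm] at h3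
        have h4 : (2 * (Real.pi : ℂ) * Complex.I) * d =
            (2 * (Real.pi : ℂ) * Complex.I) * (t * ((2 * M + 1 : ℕ) : ℂ)) := by
          rw [h3]
          ring
        exact mul_left_cancel₀ hp h4
      have h5 : d = t * (2 * M + 1) := by exact_mod_cast h2
      have ht0 : t ≠ 0 := by
        rintro rfl
        exact h (by simpa using h5)
      have h6 : |d| = |t| * (2 * M + 1) := by
        rw [h5, abs_mul, abs_of_nonneg (a := (2 * (M:ℤ) + 1)) (by positivity)]
      have h7 : 1 ≤ |t| := Int.one_le_abs ht0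
      nlinarith
    have hpow : ω ^ (2 * M + 1) = 1 := by
      rw [hω, quad_zt_pow]
      unfold zt
      rw [Complex.exp_eq_one_iff]
      refine ⟨d, ?_⟩
      rw [div_eq_iff hm]
      push_cast
      ring
    have hsum : ∑ k ∈ Finset.Icc (-(M : ℤ)) M, zt (2 * M + 1) (k * d) =
        ∑ j ∈ Finset.range (2 * M + 1), zt (2 * M + 1) (-(M:ℤ) * d) * ω ^ j := by
      refine Finset.sum_nbij' (fun k => (k + M).toNat) (fun j => (j : ℤ) - M) ?_ ?_ ?_ ?_ ?_
      · intro k hk
        simp only [Finset.mem_Icc] at hk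
        simp only [Finset.mem_range]
        omega
      · intro j hj
        simp only [Finset.mem_range] at hj
        simp only [Finset.mem_Icc]
        omega
      · intro k hk
        simp only [Finset.mem_Icc] at hk
        omega
      · intro j hj
        simp
      · intro k hk
        simp only [Finset.mem_Icc] at hk
        rw [hω, quad_zt_pow, ← quad_zt_add]
        congr 1
        have : (((k + M).toNat : ℕ) : ℤ) = k + M := by omega
        rw [this]
        ring
    rw [hsum, ← Finset.mul_sum, geom_sum_eq hne, hpow]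
    simp

/-- the symbol of the matrix -/
noncomputable def quadc (x : ℕ → ℝ) (d : ℤ) : ℝ := if d = 0 then Real.sqrt 2 * x 0 else x d.natAbs

lemma quad_D (M : ℕ) (x : ℕ → ℝ) (k : ℤ) :
    ((Real.sqrt 2 * x 0 + 2 * ∑ l ∈ Finset.Icc 1 M, x l *
      Real.cos (2 * Real.pi * k * l / (2 * M + 1)) : ℝ) : ℂ) =
      ∑ l ∈ Finset.Icc (-(M : ℤ)) M, (quadc x l : ℂ) * zt (2 * M + 1) (k * l) := by
  rw [quad_sum_symm]
  have h0 : (quadc x 0 : ℂ) * zt (2 * M + 1) (k * 0) = ((Real.sqrt 2 * x 0 : ℝ) : ℂ) := by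
    rw [mul_zero, quad_zt_zero, mul_one]
    simp [quadc]
  rw [h0, Complex.ofReal_add, Complex.ofReal_mul 2]
  congr 1
  rw [Complex.ofReal_sum, Finset.mul_sum]
  refine Finset.sum_congr rfl fun l hl => ?_
  have hl1 : 1 ≤ l := (Finset.mem_Icc.1 hl).1
  have e1 : quadc x (l : ℤ) = x l := by
    unfold quadc
    rw [if_neg (by omega)]
    simp
  have e2 : quadc x (-(l : ℤ)) = x l := by
    unfold quadc
    rw [if_neg (by omega)]
    simp
  rw [e1, e2, ← mul_add]
  have e3 : k * -(l:ℤ) = -(k * l) := by ring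
  rw [e3, quad_zt_cos]
  push_cast
  have e4 : (2 * (Real.pi : ℂ) * ((k : ℂ) * (l : ℂ)) / (2 * (M:ℂ) + 1)) =
      2 * (Real.pi : ℂ) * k * l / (2 * (M:ℂ) + 1) := by ring
  rw [e4]
  ring

lemma quad_eval {w : ℂ[X]} {n : ℕ} (hw : w.degree < n) (z : ℂ) :
    w.eval z = ∑ i ∈ Finset.range n, w.coeff i * z ^ i := by
  by_cases h : w = 0
  · subst h
    simp
  · exact Polynomial.eval_eq_sum_range' ((Polynomial.natDegree_lt_iff_degree_lt h).2 hw) z

lemma quad_nsq {w : ℂ[X]} {n : ℕ} (hw : w.degree < n) :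
    nsq w = ∑ i ∈ Finset.range n, ‖w.coeff i‖ ^ 2 := by
  unfold nsq
  refine Finset.sum_subset ?_ ?_
  · intro i hi
    rw [Finset.mem_range]
    by_contra hcon
    push Not at hcon
    have : w.coeff i = 0 := Polynomial.coeff_eq_zero_of_degree_lt
      (lt_of_lt_of_le hw (by exact_mod_cast hcon))
    exact (Polynomial.mem_support_iff.1 hi) this
  · intro i _ hi
    rw [Polynomial.notMem_support_iff.1 hi]
    simp

theorem claimQuad : ClaimQuad := by
  intro M n x w hn hw
  set m : ℕ := 2 * M + 1 with hm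
  have hm0 : (0:ℝ) < (m:ℝ) := by rw [hm]; positivity
  have hmR : (2 * (M:ℝ) + 1) = (m:ℝ) := by rw [hm]; push_cast; ring
  -- the complex identity
  have key : ((Real.sqrt (2 * M + 1) * XX M (gk M x) w : ℝ) : ℂ) =
      ∑ i ∈ Finset.range n, ∑ j ∈ Finset.range n,
        (quadc x ((j : ℤ) - i) : ℂ) * w.coeff i * (starRingEnd ℂ) (w.coeff j) := by
    have h1 : Real.sqrt (2 * M + 1) * XX M (gk M x) w =
        ∑ k ∈ Finset.Icc (-(M : ℤ)) M, (m:ℝ)⁻¹ * ((Real.sqrt 2 * x 0 + 2 *
          ∑ l ∈ Finset.Icc 1 M, x l * Real.cos (2 * Real.pi * k * l / (2 * M + 1))) *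
          ‖w.eval (zt m k)‖ ^ 2) := by
      unfold XX pk gk
      rw [Finset.mul_sum]
      refine Finset.sum_congr rfl fun k _ => ?_
      have hs : Real.sqrt (2 * (M:ℝ) + 1) ≠ 0 := by
        rw [hmR]
        exact (Real.sqrt_pos.2 hm0).ne'
      rw [← hm]
      field_simp
    have h2 : ∀ k : ℤ, ((‖w.eval (zt m k)‖ ^ 2 : ℝ) : ℂ) =
        ∑ i ∈ Finset.range n, ∑ j ∈ Finset.range n,
          w.coeff i * (starRingEnd ℂ) (w.coeff j) * zt m (k * ((i:ℤ) - j)) := by
      intro k
      have e1 : ((‖w.eval (zt m k)‖ ^ 2 : ℝ) : ℂ) =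
          w.eval (zt m k) * (starRingEnd ℂ) (w.eval (zt m k)) := by
        rw [Complex.mul_conj']
        push_cast
        rfl
      rw [e1, quad_eval hw, map_sum, Finset.sum_mul_sum]
      refine Finset.sum_congr rfl fun i _ => Finset.sum_congr rfl fun j _ => ?_
      rw [map_mul, map_pow, quad_zt_conj, quad_zt_pow, quad_zt_pow]
      have e2 : k * ((i:ℤ) - j) = k * i + -k * j := by ring
      rw [e2, quad_zt_add]
      ring
    have h3 : ∀ k : ℤ, (((m:ℝ)⁻¹ * ((Real.sqrt 2 * x 0 + 2 *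
          ∑ l ∈ Finset.Icc 1 M, x l * Real.cos (2 * Real.pi * k * l / (2 * M + 1))) *
          ‖w.eval (zt m k)‖ ^ 2) : ℝ) : ℂ) =
        ∑ i ∈ Finset.range n, ∑ j ∈ Finset.range n, ∑ l ∈ Finset.Icc (-(M : ℤ)) M,
          (m:ℂ)⁻¹ * (w.coeff i * (starRingEnd ℂ) (w.coeff j)) * (quadc x l : ℂ) *
            zt m (k * (l + ((i:ℤ) - j))) := by
      intro k
      rw [Complex.ofReal_mul, Complex.ofReal_mul _ (‖w.eval (zt m k)‖ ^ 2), quad_D M x k, h2 k,
        Complex.ofReal_inv, Complex.ofReal_natCast, Finset.mul_sum, Finset.mul_sum]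
      refine Finset.sum_congr rfl fun i _ => ?_
      rw [Finset.mul_sum, Finset.mul_sum]
      refine Finset.sum_congr rfl fun j _ => ?_
      rw [Finset.sum_mul, Finset.mul_sum]
      refine Finset.sum_congr rfl fun l _ => ?_
      rw [mul_add k l, quad_zt_add]
      ring
    rw [h1, Complex.ofReal_sum]
    simp_rw [h3]
    rw [Finset.sum_comm]
    refine Finset.sum_congr rfl fun i hi => ?_
    rw [Finset.sum_comm]
    refine Finset.sum_congr rfl fun j hj => ?_
    rw [Finset.sum_comm]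
    rw [Finset.mem_range] at hi hj
    have h4 : ∀ l ∈ Finset.Icc (-(M : ℤ)) M, ∑ k ∈ Finset.Icc (-(M : ℤ)) M,
        (m:ℂ)⁻¹ * (w.coeff i * (starRingEnd ℂ) (w.coeff j)) * (quadc x l : ℂ) *
            zt m (k * (l + ((i:ℤ) - j))) =
        (m:ℂ)⁻¹ * (w.coeff i * (starRingEnd ℂ) (w.coeff j)) * (quadc x l : ℂ) *
          (if l + ((i:ℤ) - j) = 0 then (m : ℂ) else 0) := by
      intro l hl
      rw [← Finset.mul_sum, hm, quad_orth]
      rw [Finset.mem_Icc] at hl
      rw [abs_le]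
      omega
    rw [Finset.sum_congr rfl h4, Finset.sum_eq_single ((j:ℤ) - i)]
    · rw [if_pos (by ring)]
      have hmC : (m:ℂ) ≠ 0 := by exact_mod_cast hm0.ne'
      field_simp
    · intro l _ hne
      rw [if_neg (by intro h; apply hne; linarith), mul_zero]
    · intro hne
      exfalso
      apply hne
      rw [Finset.mem_Icc]
      omega
  -- real parts
  have hre : Real.sqrt (2 * M + 1) * XX M (gk M x) w =
      (∑ i ∈ Finset.range n, ∑ j ∈ Finset.range n,
        (quadc x ((j : ℤ) - i) : ℂ) * w.coeff i * (starRingEnd ℂ) (w.coeff j)).re := by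
    rw [← key, Complex.ofReal_re]
  rw [hre, QF, quad_nsq hw]
  have hsplit : ∑ i ∈ Finset.range n, ∑ j ∈ Finset.range n,
        (quadc x ((j : ℤ) - i) : ℂ) * w.coeff i * (starRingEnd ℂ) (w.coeff j) =
      (∑ i ∈ Finset.range n, ∑ j ∈ Finset.range n,
        (x ((i : ℤ) - (j : ℤ)).natAbs : ℂ) * w.coeff i * (starRingEnd ℂ) (w.coeff j)) +
      (((Real.sqrt 2 - 1) * x 0 * ∑ i ∈ Finset.range n, ‖w.coeff i‖ ^ 2 : ℝ) : ℂ) := by
    have e1 : (((Real.sqrt 2 - 1) * x 0 * ∑ i ∈ Finset.range n, ‖w.coeff i‖ ^ 2 : ℝ) : ℂ) =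
        ∑ i ∈ Finset.range n, ∑ j ∈ Finset.range n,
          if j = i then (((Real.sqrt 2 - 1) * x 0 : ℝ) : ℂ) * w.coeff i *
            (starRingEnd ℂ) (w.coeff j) else 0 := by
      rw [Finset.mul_sum, Complex.ofReal_sum]
      refine Finset.sum_congr rfl fun i hi => ?_
      rw [Finset.sum_ite_eq' (Finset.range n) i, if_pos hi,
        mul_assoc (((Real.sqrt 2 - 1) * x 0 : ℝ) : ℂ), Complex.mul_conj']
      push_cast
      ring
    rw [e1, ← Finset.sum_add_distrib]
    refine Finset.sum_congr rfl fun i _ => ?_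
    rw [← Finset.sum_add_distrib]
    refine Finset.sum_congr rfl fun j _ => ?_
    by_cases hij : j = i
    · subst hij
      simp only [if_true, sub_self, quadc, Int.natAbs_zero]
      push_cast
      ring
    · rw [if_neg hij, add_zero]
      have h5 : ((j:ℤ) - i) ≠ 0 := by omega
      have h6 : ((j:ℤ) - i).natAbs = ((i:ℤ) - j).natAbs := by omega
      simp only [quadc, if_neg h5, h6]
  rw [hsplit, Complex.add_re, Complex.ofReal_re]

end Pool.Agent.Work.MP_3574a2_pr.Dil
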