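import Pool.Agent.Work.MP_3574a2_pr.Dil.Claims

/-!
# A7: upper bound of the tail by Maurey's method
-/

set_option autoImplicit false

namespace Pool.Agent.Work.MP_3574a2_pr.Dil

open MeasureTheory ProbabilityTheory Set Polynomial Filter Topology
open scoped ENNReal NNReal

theorem up_l2_eq {N : ℕ} (p : Fin N → ℝ) :
    l2 p = ‖(WithLp.toLp 2 p : EuclideanSpace ℝ (Fin N))‖ := by
  rw [EuclideanSpace.norm_eq]
  unfold l2
  simp

theorem up_l2_tri {N : ℕ} (p q : Fin N → ℝ) : l2 q ≤ l2 p + l2 (fun i => p i - q i) := by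
  rw [up_l2_eq, up_l2_eq, up_l2_eq]
  have h1 : (WithLp.toLp 2 (fun i => p i - q i) : EuclideanSpace ℝ (Fin N)) =
      WithLp.toLp 2 p - WithLp.toLp 2 q := rfl
  rw [h1]
  exact norm_le_norm_add_norm_sub _ _

open Classical in
/-- The empirical vectors. -/
noncomputable def upQ {N t : ℕ} (j : Fin t → Option (Fin N)) (i : Fin N) : ℝ :=
  ((Finset.univ.filter fun k => j k = some i).card : ℝ) / t

theorem claimUp (h1 : ClaimSpp) (h4 : ClaimMaurey) (h5 : ClaimChi) (h6 : ClaimTail) :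
    ClaimUp := by
  classical
  intro N t P hP ht u hu
  have hprob : IsProbabilityMeasure (gm N) := by
    unfold gm
    infer_instance
  obtain ⟨-, -, -, hsup, -, hsig, -, hsig0, -⟩ := h1 N P hP
  have htR : (1 : ℝ) ≤ t := by exact_mod_cast ht
  have hst : 0 < Real.sqrt t := Real.sqrt_pos.2 (by linarith)
  set s : ℝ := sig P + 1 / Real.sqrt t with hs
  have hs0 : 0 < s := by positivity
  set x : ℝ := u - 2 * Real.sqrt (N / t) with hx
  have hx0 : 0 ≤ x := by linarith
  set J : Finset (Fin t → Option (Fin N)) :=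
    Finset.univ.filter (fun j => l2 (upQ j) ≤ s) with hJ
  have hsub : {g | u < spp P g} ⊆ {g | 4 * (N : ℝ) < ∑ i, g i ^ 2} ∪
      ⋃ j ∈ J, {g | x < ∑ i, g i * upQ j i} := by
    intro g hg
    by_cases hg2 : 4 * (N : ℝ) < ∑ i, g i ^ 2
    · exact Or.inl hg2
    right
    push Not at hg2
    obtain ⟨p, hp, hup⟩ := (hsup g u).1 hg
    obtain ⟨j, hj⟩ := h4 N t p ht (hP.nonneg p hp) (hP.sum_le p hp)
    have hj' : l2 (fun i => p i - upQ j i) ≤ 1 / Real.sqrt t := by
      refine le_of_eq_of_le ?_ hj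
      congr 1
    refine Set.mem_biUnion (x := j) ?_ ?_
    · rw [Finset.mem_coe, hJ, Finset.mem_filter]
      refine ⟨Finset.mem_univ _, ?_⟩
      exact (up_l2_tri p (upQ j)).trans (add_le_add (hsig p hp) hj')
    · show x < ∑ i, g i * upQ j i
      have e1 : ∑ i, g i * upQ j i = ∑ i, g i * p i - ∑ i, g i * (p i - upQ j i) := by
        rw [← Finset.sum_sub_distrib]
        apply Finset.sum_congr rfl
        intro i _
        ring
      have e2 : ∑ i, g i * (p i - upQ j i) ≤ Real.sqrt (∑ i, g i ^ 2) *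
          l2 (fun i => p i - upQ j i) :=
        Real.sum_mul_le_sqrt_mul_sqrt _ _ _
      have e3 : Real.sqrt (∑ i, g i ^ 2) ≤ 2 * Real.sqrt N := by
        calc Real.sqrt (∑ i, g i ^ 2) ≤ Real.sqrt (4 * N) := Real.sqrt_le_sqrt hg2
          _ = Real.sqrt (2 ^ 2 * N) := by norm_num
          _ = 2 * Real.sqrt N := by
            rw [Real.sqrt_mul (by norm_num), Real.sqrt_sq (by norm_num)]
      have e4 : Real.sqrt (∑ i, g i ^ 2) * l2 (fun i => p i - upQ j i) ≤
          2 * Real.sqrt N * (1 / Real.sqrt t) :=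
        mul_le_mul e3 hj' (Real.sqrt_nonneg _) (by positivity)
      have e5 : 2 * Real.sqrt N * (1 / Real.sqrt t) = 2 * Real.sqrt (N / t) := by
        rw [Real.sqrt_div (Nat.cast_nonneg N)]
        ring
      rw [e1, hx]
      linarith
  have hcard : (J.card : ℝ) ≤ ((N : ℝ) + 1) ^ t := by
    have h7 : J.card ≤ (N + 1) ^ t := by
      calc J.card ≤ (Finset.univ : Finset (Fin t → Option (Fin N))).card :=
            Finset.card_le_card (Finset.filter_subset _ _)
        _ = (N + 1) ^ t := by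
          rw [Finset.card_univ]
          simp
    calc (J.card : ℝ) ≤ (((N + 1) ^ t : ℕ) : ℝ) := by exact_mod_cast h7
      _ = ((N : ℝ) + 1) ^ t := by push_cast; ring
  calc Fb P u = (gm N).real {g | u < spp P g} := rfl
    _ ≤ (gm N).real ({g | 4 * (N : ℝ) < ∑ i, g i ^ 2} ∪
        ⋃ j ∈ J, {g | x < ∑ i, g i * upQ j i}) := measureReal_mono hsub
    _ ≤ (gm N).real {g | 4 * (N : ℝ) < ∑ i, g i ^ 2} +
        (gm N).real (⋃ j ∈ J, {g | x < ∑ i, g i * upQ j i}) := measureReal_union_le _ _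
    _ ≤ Real.exp (-(N / 2 : ℝ)) + ∑ j ∈ J, (gm N).real {g | x < ∑ i, g i * upQ j i} :=
        add_le_add (h5 N) (measureReal_biUnion_finset_le _ _)
    _ ≤ Real.exp (-(N / 2 : ℝ)) + ∑ _j ∈ J, Real.exp (-x ^ 2 / (2 * s ^ 2)) := by
        gcongr with j hj
        rw [hJ, Finset.mem_filter] at hj
        exact h6 N (upQ j) x s hx0 hs0 hj.2
    _ = Real.exp (-(N / 2 : ℝ)) + J.card * Real.exp (-x ^ 2 / (2 * s ^ 2)) := by
        rw [Finset.sum_const, nsmul_eq_mul]
    _ ≤ _ := by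
        gcongr

end Pool.Agent.Work.MP_3574a2_pr.Dil
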